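import Mathlib

/-!
# Square classes modulo the square of a uniformizer (algebra)

`S` is the ring `O / ϖ²`, `O` the ring of integers of a field which is ramified of index two over the
field of the dyadic numbers; `p` is the class of `ϖ`.
-/

set_option autoImplicit false

namespace Pool.Agent.Helper10.RM

/-- The ring `O / ϖ ^ 2`. -/
structure Sp {S : Type} [CommRing S] (p : S) : Prop where
  two : (2 : S) = 0
  sq : p ^ 2 = 0
  ann : ∀ z : S, p * z = 0 → ∃ w, z = p * w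
  one : ∀ w : S, (1 : S) ≠ p * w

section
variable {S : Type} [CommRing S] {p : S}

theorem Sp.cast_even (H : Sp p) {g : ℤ} (h : Even g) : (g : S) = 0 := by
  obtain ⟨k, rfl⟩ := h
  have h2 := H.two
  push_cast
  linear_combination (k : S) * h2

theorem Sp.cast_odd (H : Sp p) {g : ℤ} (h : Odd g) : (g : S) = 1 := by
  obtain ⟨k, rfl⟩ := h
  have h2 := H.two
  push_cast
  linear_combination (k : S) * h2

theorem Sp.int_sq (H : Sp p) (g : ℤ) : (g : S) ^ 2 = g := by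
  rcases Int.even_or_odd g with h | h
  · rw [H.cast_even h]; ring
  · rw [H.cast_odd h]; ring

theorem Sp.even_of (H : Sp p) {g : ℤ} {w : S} (h : (g : S) = p * w) : Even g := by
  by_contra hn
  rw [Int.not_even_iff_odd] at hn
  rw [H.cast_odd hn] at h
  exact H.one w h

theorem Sp.even_zero (H : Sp p) {g : ℤ} (h : (g : S) = 0) : Even g :=
  H.even_of (w := 0) (by rw [h, mul_zero])

/-! ### Type A -/

/-- The residue field has two or four elements. -/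
def ResA (p : S) : Prop := ∀ u : S, ∃ c, u ^ 4 = u + p * c

theorem sqrtA (H : Sp p) (hr : ResA p) {u N z : S} (h : u ^ 2 = N + p * z) (hN : N ^ 4 = N) :
    u ^ 2 = N := by
  have h2 := H.two
  have hp := H.sq
  obtain ⟨c, hc⟩ := hr u
  have hu : u = N ^ 2 + p * c := by
    linear_combination (-1) * hc + (u^2+N+p*z) * h + (z^2) * hp + (N*p*z - c*p) * h2
  linear_combination (u+N^2+p*c) * hu + (1) * hN + (c^2) * hp + (N^2*c*p) * h2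

theorem sqA (H : Sp p) (hr : ResA p) (g₁ g₂ : ℤ) (w u1 u2 : S)
    (E1 : (g₁ : S) + w ^ 2 + p * u1 + u2 ^ 2 = 0)
    (E2 : (g₂ : S) + u1 ^ 2 + p * u2 + u2 ^ 2 = 0) : Even g₂ := by
  have h2 := H.two
  have hp := H.sq
  obtain ⟨g1, hG1⟩ : ∃ g : S, g = (g₁ : S) := ⟨_, rfl⟩
  obtain ⟨g2, hG2⟩ : ∃ g : S, g = (g₂ : S) := ⟨_, rfl⟩
  have hg1 : g1 ^ 2 = g1 := by rw [hG1]; exact H.int_sq g₁
  have hg2 : g2 ^ 2 = g2 := by rw [hG2]; exact H.int_sq g₂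
  rw [← hG1] at E1
  rw [← hG2] at E2
  obtain ⟨c, hc⟩ := hr u2
  obtain ⟨d, hd⟩ := hr w
  have k1 : u2 ^ 2 = g1 + w ^ 2 + p * u1 := by
    linear_combination (1) * E1 + (-p*u1 - w^2 - g1) * h2
  have k2 : u2 = g1 + w + p * (c + d) := by
    linear_combination (-1) * hc + (1) * hd + (u2^2+(g1+w^2+p*u1)) * k1 + (1) * hg1 + (u1^2) * hp + (p*u1*w^2 + g1*p*u1 + g1*w^2 - c*p) * h2
  have k3 : u2 ^ 2 = g1 + w ^ 2 := by
    linear_combination (u2+g1+w+p*(c+d)) * k2 + (1) * hg1 + (2*c*d + c^2 + d^2) * hp + (c*g1*p + c*p*w + d*g1*p + d*p*w + g1*w) * h2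
  have k4 : p * u1 = 0 := by
    linear_combination (-1) * k1 + (1) * k3
  obtain ⟨v, hv⟩ := H.ann _ k4
  have k5 : w ^ 2 = g1 + g2 + p * u2 := by
    linear_combination (1) * E2 + (-1) * k3 + (-(u1+p*v)) * hv + (-v^2) * hp + (-p*u2 - g1 - g2) * h2
  have k6 : w = g1 + g2 + p * d := by
    linear_combination (-1) * hd + (w^2+g1+g2+p*u2) * k5 + (1) * hg1 + (1) * hg2 + (u2^2) * hp + (g1*p*u2 + g2*p*u2 - d*p + g1*g2) * h2
  have k7 : w ^ 2 = g1 + g2 := by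
    linear_combination (w+g1+g2+p*d) * k6 + (1) * hg1 + (1) * hg2 + (d^2) * hp + (d*g1*p + d*g2*p + g1*g2) * h2
  have k8 : p * u2 = 0 := by
    linear_combination (-1) * k5 + (1) * k7
  obtain ⟨z, hz⟩ := H.ann _ k8
  apply H.even_zero
  rw [← hG2]
  linear_combination (-1) * k3 + (-1) * k7 + (u2+p*z) * hz + (z^2) * hp + (-g1) * h2

theorem intA (H : Sp p) (hr : ResA p) (g₁ g₂ : ℤ) (x t0 u1 u2 : S) (hx0 : x = t0 ^ 2)
    (E1 : (g₁ : S) * x + g₂ + t0 * (1 + p * u1) + (1 + p * u1) * (1 + p * u2) + 1 + p * u2 +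
      u2 ^ 2 = 0)
    (E2 : (g₂ : S) * x + g₁ + 1 + p * u1 + t0 * (1 + p * u2) + p * u2 + u1 ^ 2 + u2 ^ 2 = 0) :
    Even g₂ := by
  have h2 := H.two
  have hp := H.sq
  obtain ⟨g1, hG1⟩ : ∃ g : S, g = (g₁ : S) := ⟨_, rfl⟩
  obtain ⟨g2, hG2⟩ : ∃ g : S, g = (g₂ : S) := ⟨_, rfl⟩
  have hg1 : g1 ^ 2 = g1 := by rw [hG1]; exact H.int_sq g₁
  have hg2 : g2 ^ 2 = g2 := by rw [hG2]; exact H.int_sq g₂
  rw [← hG1, ← hG2, hx0] at E1
  rw [← hG1, ← hG2, hx0] at E2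
  obtain ⟨c, hc⟩ := hr t0
  obtain ⟨q, hq⟩ : ∃ q : S, q = t0 ^ 4 := ⟨_, rfl⟩
  have ht0 : t0 = q + p * c := by
    linear_combination (-1) * hc + (-1) * hq + (-c*p) * h2
  have hx : t0 ^ 2 = q ^ 2 := by
    linear_combination (t0+q+p*c) * ht0 + (c^2) * hp + (c*p*q) * h2
  have hq4 : q ^ 4 = q := by
    linear_combination (-(t0^2+q^2)) * hx + (-1) * hq
  obtain ⟨N1, hN1⟩ : ∃ N : S, N = g1*q^2+g2+q+1+1 := ⟨_, rfl⟩
  obtain ⟨N2, hN2⟩ : ∃ N : S, N = g2*q^2+g1+1+q := ⟨_, rfl⟩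
  have n1 : N1 ^ 4 = N1 := by
    have a1 : N1 ^ 2 = g1*q+g2+q^2+1+1 := by
      rw [hN1]
      linear_combination (q^4) * hg1 + (1) * hg2 + (g1) * hq4 + (g1*g2*q^2 + g1*q^3 + 2*g1*q^2 + g2*q + 2*g2 + 2*q+1) * h2
    have a2 : N1 ^ 4 = (N1 ^ 2) ^ 2 := by ring
    rw [a2, a1, hN1]
    linear_combination (q^2) * hg1 + (1) * hg2 + (1) * hq4 + (g1*q^3 + g1*g2*q + g2*q^2 + 2*g1*q + 2*q^2 + 2*g2+1) * h2
  have n2 : (N1 + N2) ^ 4 = N1 + N2 := by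
    have a1 : (N1 + N2) ^ 2 = g1*q+g1+g2*q+g2+1 := by
      rw [hN1, hN2]
      linear_combination (q^4+1) * hg1 + (q^4+1) * hg2 + (g1+g2) * hq4 + (g1*g2*q^4 + 2*g1*g2*q^2 + g1^2*q^2 + g2^2*q^2 + 2*g1*q^3 + 3*g1*q^2 + 2*g2*q^3+3*g2*q^2+g1*g2+2*g1*q+3*g1+2*g2*q+3*g2+2*q^2+6*q+4) * h2
    have a2 : (N1 + N2) ^ 4 = ((N1 + N2) ^ 2) ^ 2 := by ring
    rw [a2, a1, hN1, hN2]
    linear_combination (q^2+1) * hg1 + (q^2+1) * hg2 + (g1*g2*q^2+2*g1*g2*q+g1^2*q+g2^2*q+g1*q+g2*q+g1*g2+g1+g2-q-1) * h2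
  have F1 : N1 + u2^2 + p*(c+u1*q+u1) = 0 := by
    rw [hN1]
    linear_combination (1) * E1 + (-g1) * hx + (-(1+p*u1)) * ht0 + (-c*u1 - u1*u2) * hp + (-p*u2) * h2
  have F2 : N2 + u1^2 + u2^2 + p*(c+u1+u2*(q+1)) = 0 := by
    rw [hN2]
    linear_combination (1) * E2 + (-g2) * hx + (-(1+p*u2)) * ht0 + (-c*u2) * hp
  have m1 : u2 ^ 2 = N1 := by
    refine sqrtA H hr (z := c+u1*q+u1) ?_ n1
    linear_combination F1 - (N1 + p*(c+u1*q+u1)) * h2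
  have m2 : u1 ^ 2 = N1 + N2 := by
    refine sqrtA H hr (z := c+u1+u2*(q+1)) ?_ n2
    linear_combination F2 - m1 - (N1 + N2 + p*(c+u1+u2*(q+1))) * h2
  have r1 : p*(c+u1*q+u1) = 0 := by linear_combination F1 - m1 - N1 * h2
  have r2 : p*(c+u1+u2*(q+1)) = 0 := by linear_combination F2 - m1 - m2 - (N1 + N2) * h2
  obtain ⟨w1, R1⟩ := H.ann _ r1
  obtain ⟨w2, R2⟩ := H.ann _ r2
  have K : u1*q+u2*(q+1) = p*(w1+w2) := by
    linear_combination (1) * R1 + (1) * R2 + (-c - u1) * h2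
  rw [hN1] at m1
  rw [hN1, hN2] at m2
  have T0 : g2*q+q^2+q^3+g2+q = 0 := by
    linear_combination ((u1*q+u2*(q+1)+p*(w1+w2))) * K + (-q^2) * m2 + (-(q^2+1)) * m1 + (-g2) * hq4 + (2*w1*w2 + w1^2 + w2^2) * hp + (-g1*q^4 - q^2*u1*u2 - g1*q^2 - g2*q^2 - q*u1*u2 - q*u2^2 - q^3 - 2*q^2 - 1) * h2
  by_contra hn
  rw [Int.not_even_iff_odd] at hn
  have hg : g2 = 1 := by rw [hG2]; exact H.cast_odd hn
  rw [hg] at T0
  have T : 1+q^2+q^3 = 0 := by linear_combination T0 - q * h2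
  have T1 : q ^ 3 = 0 := by
    linear_combination (q) * T + (-1) * hq4 + (-q) * h2
  have T2 : q = 0 := by
    linear_combination (-1) * hq4 + (q) * T1
  have T3 : (1 : S) = p * 0 := by
    linear_combination (1) * T + (-(q+q^2)) * T2
  exact H.one _ T3

/-! ### Type B -/

/-- The residue field has two elements. -/
def ResB (p : S) : Prop := ∀ u : S, ∃ c, u ^ 2 = u + p * c

theorem sqrtB (H : Sp p) (hr : ResB p) {u N z : S} (h : u ^ 2 = N + p * z) (hN : N ^ 2 = N) :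
    u ^ 2 = N := by
  have h2 := H.two
  have hp := H.sq
  obtain ⟨c, hc⟩ := hr u
  have hu : u = N + p * (z + c) := by
    linear_combination (-1) * hc + (1) * h + (-c*p) * h2
  linear_combination (u+N+p*(z+c)) * hu + (1) * hN + (2*c*z + c^2 + z^2) * hp + (N*c*p + N*p*z) * h2

theorem sqB (H : Sp p) (hr : ResB p) (g₁ g₂ : ℤ) (w u1 u2 : S)
    (E1 : (1 + p) * (g₁ : S) + w ^ 2 + p * u1 + u2 ^ 2 = 0)
    (E2 : (1 + p) * (g₂ : S) + u1 ^ 2 + p * u2 + u2 ^ 2 = 0) : Even g₁ := by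
  have h2 := H.two
  have hp := H.sq
  obtain ⟨g1, hG1⟩ : ∃ g : S, g = (g₁ : S) := ⟨_, rfl⟩
  obtain ⟨g2, hG2⟩ : ∃ g : S, g = (g₂ : S) := ⟨_, rfl⟩
  have hg1 : g1 ^ 2 = g1 := by rw [hG1]; exact H.int_sq g₁
  have hg2 : g2 ^ 2 = g2 := by rw [hG2]; exact H.int_sq g₂
  rw [← hG1] at E1
  rw [← hG2] at E2
  obtain ⟨c, hw⟩ := hr w
  have he : (w ^ 2) ^ 2 = w ^ 2 := by
    linear_combination (w^2+(w+p*c)) * hw + (c^2) * hp + (c*p*w) * h2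
  have k1 : u2 ^ 2 = g1 + w ^ 2 + p * (g1 + u1) := by
    linear_combination (1) * E1 + (-g1*p - p*u1 - w^2 - g1) * h2
  have k2 : u2 ^ 2 = g1 + w ^ 2 := by
    refine sqrtB H hr k1 ?_
    linear_combination (1) * hg1 + (1) * he + (g1*w^2) * h2
  have k3' : p * (g1 + u1) = 0 := by
    linear_combination (-1) * k1 + (1) * k2
  obtain ⟨v, hv⟩ := H.ann _ k3'
  have k3 : u1 ^ 2 = g1 := by
    linear_combination (u1+g1+p*v) * hv + (1) * hg1 + (v^2) * hp + (-g1*u1 - g1^2) * h2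
  have k4 : w ^ 2 = g2 + p * (g2 + u2) := by
    linear_combination (1) * E2 + (-1) * k3 + (-1) * k2 + (-g2*p - p*u2 - g1 - g2) * h2
  have k5 : w ^ 2 = g2 := by
    linear_combination (-1) * he + (w^2+g2+p*(g2+u2)) * k4 + (1) * hg2 + (2*g2*u2 + g2^2 + u2^2) * hp + (g2*p*u2 + g2^2*p) * h2
  have k6 : p * (g2 + u2) = 0 := by
    linear_combination (-1) * k4 + (1) * k5
  obtain ⟨v2, hv2⟩ := H.ann _ k6
  apply H.even_zero
  rw [← hG1]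
  linear_combination (-1) * k2 + (-1) * k5 + (u2+g2+p*v2) * hv2 + (1) * hg2 + (v2^2) * hp + (-g2*u2 - g2^2) * h2

theorem intB (H : Sp p) (hr : ResB p) (g₁ g₂ : ℤ) (x t0 u1 u2 : S) (hx0 : x = t0 ^ 2)
    (E1 : (1 + p) * ((g₁ : S) * x + g₂ + t0 * (1 + p * u1) + (1 + p * u1) * (1 + p * u2) +
      p * u2) + u2 ^ 2 = 0)
    (E2 : (1 + p) * ((g₂ : S) * x + g₁ + p * u1 + t0 * (1 + p * u2) + p * u2) + u1 ^ 2 +
      u2 ^ 2 = 0) (hodd : Odd g₁) :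
    t0 = 1 + p * (1 + g₂) := by
  have h2 := H.two
  have hp := H.sq
  obtain ⟨g1, hG1⟩ : ∃ g : S, g = (g₁ : S) := ⟨_, rfl⟩
  obtain ⟨g2, hG2⟩ : ∃ g : S, g = (g₂ : S) := ⟨_, rfl⟩
  have hg1 : g1 ^ 2 = g1 := by rw [hG1]; exact H.int_sq g₁
  have hg2 : g2 ^ 2 = g2 := by rw [hG2]; exact H.int_sq g₂
  have hone : g1 = 1 := by rw [hG1]; exact H.cast_odd hodd
  rw [← hG1, ← hG2, hx0] at E1
  rw [← hG1, ← hG2, hx0] at E2
  rw [← hG2]
  obtain ⟨c, hc⟩ := hr t0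
  obtain ⟨q, hq⟩ : ∃ q : S, q = t0 ^ 2 := ⟨_, rfl⟩
  have ht0 : t0 = q + p * c := by
    linear_combination (-1) * hc + (-1) * hq + (-c*p) * h2
  have hq2 : q ^ 2 = q := by
    linear_combination (-(t0+q+p*c)) * ht0 + (-1) * hq + (-c^2) * hp + (-c*p*q) * h2
  obtain ⟨X1, hX1⟩ : ∃ N : S, N = g1*q+g2+q+1 := ⟨_, rfl⟩
  obtain ⟨X2, hX2⟩ : ∃ N : S, N = g2*q+g1+q := ⟨_, rfl⟩
  have n1 : X1 ^ 2 = X1 := by
    rw [hX1]
    linear_combination (q^2) * hg1 + (1) * hg2 + (g1+1) * hq2 + (g1*g2*q + g1*q^2 + g1*q + g2*q + g2 + q) * h2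
  have n2 : (X1 + X2) ^ 2 = X1 + X2 := by
    rw [hX1, hX2]
    linear_combination (q^2+1) * hg1 + (q^2+1) * hg2 + (g1+g2) * hq2 + (g1*g2*q^2 + 2*g1*g2*q + 2*g1*q^2 + g1^2*q + 2*g2*q^2 + g2^2*q + g1*g2 + 3*g1*q + 3*g2*q + 2*q^2 + g1 + g2 + q) * h2
  have F1 : X1 + u2^2 + p*(X1+c+u1*q+u1) = 0 := by
    rw [hX1]
    linear_combination (1) * E1 + (g1*(1+p)) * hq + (-(1+p*u1)*(1+p)) * ht0 + (-c*p*u1 - p*u1*u2 - c*u1 - q*u1 - u1*u2 - c - u1 - 2*u2) * hp + (-p*u2) * h2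
  have F2 : X2 + u1^2 + u2^2 + p*(X2+c+u1+u2*(q+1)) = 0 := by
    rw [hX2]
    linear_combination (1) * E2 + (g2*(1+p)) * hq + (-(1+p*u2)*(1+p)) * ht0 + (-c*p*u2 - c*u2 - q*u2 - c - u1 - u2) * hp
  have m1 : u2 ^ 2 = X1 := by
    refine sqrtB H hr (z := X1+c+u1*q+u1) ?_ n1
    linear_combination F1 - (X1 + p*(X1+c+u1*q+u1)) * h2
  have m2 : u1 ^ 2 = X1 + X2 := by
    refine sqrtB H hr (z := X2+c+u1+u2*(q+1)) ?_ n2
    linear_combination F2 - m1 - (X1 + X2 + p*(X2+c+u1+u2*(q+1))) * h2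
  have r1 : p*(X1+c+u1*q+u1) = 0 := by linear_combination F1 - m1 - X1 * h2
  have r2 : p*(X2+c+u1+u2*(q+1)) = 0 := by linear_combination F2 - m1 - m2 - (X1 + X2) * h2
  obtain ⟨c1, hc1⟩ := hr u1
  obtain ⟨c2, hc2⟩ := hr u2
  have pu2 : p * u2 = p * X1 := by
    linear_combination (p) * m1 + (-p) * hc2 + (-c2) * hp
  have pu1 : p * u1 = p * (X1 + X2) := by
    linear_combination (p) * m2 + (-p) * hc1 + (-c1) * hp
  have r3 : p * (c + X1 * q) = 0 := by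
    linear_combination (1) * r2 + (-(q+1)) * pu2 + (-1) * pu1 + (-X1*p - X2*p) * h2
  have r4 : p * ((q + 1) * X2) = 0 := by
    linear_combination (1) * r1 + (1) * r3 + (-(q+1)) * pu1 + (-X1*p*q - X1*p - c*p) * h2
  rw [hX2, hone] at r4
  rw [hX1, hone] at r3
  have r5 : p * (q + 1) = 0 := by
    linear_combination (1) * r4 + (-p*(g2+1)) * hq2 + (-g2*p*q - p*q) * h2
  obtain ⟨w, hw⟩ := H.ann _ r5
  have hq1 : q = 1 := by
    linear_combination ((q+1)+p*w) * hw + (-1) * hq2 + (w^2) * hp + (-q - 1) * h2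
  rw [hq1] at r3 ht0
  linear_combination ht0 + r3 - p * (2 + g2) * h2

end

end Pool.Agent.Helper10.RM
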