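import Pool.Agent.Helper10.RM.Ring
import Pool.Graph.R_pool_sql_team_seeded_63374d34.N323.PV.CAL

/-!
# The classes of the points over a ramified extension of the dyadic field
-/

set_option autoImplicit false
set_option linter.all false

open Polynomial

namespace Pool.Agent.Helper10.RM

open Pool.Agent.N922.PQ Pool.Agent.N323.PV

section Val

variable {F Γ : Type} [Field F] [CharZero F] [LinearOrderedCommGroupWithZero Γ] (v : Valuation F Γ)

/-- `ϖ` is a uniformizer and `2` has the valuation of `ϖ ^ 2`. -/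
structure Unif (ϖ : F) : Prop where
  two : v 2 < 1
  sq : v ϖ ^ 2 = v 2
  uni : ∀ x : F, v x < 1 → v x ≤ v ϖ

variable {v} {ϖ : F}

theorem Unif.lt (H : Unif v ϖ) : v ϖ < 1 := by
  by_contra h
  rw [not_lt] at h
  have h1 := H.sq
  have h2 : 1 ≤ v ϖ ^ 2 := one_le_pow₀ h
  rw [h1] at h2
  exact absurd H.two (not_lt.2 h2)

theorem Unif.ne (H : Unif v ϖ) : ϖ ≠ 0 := by
  rintro rfl
  have h1 := H.sq
  rw [map_zero, zero_pow two_ne_zero] at h1
  exact two_ne_zero ((map_eq_zero v).1 h1.symm)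

theorem Unif.pos (H : Unif v ϖ) : 0 < v ϖ := (Valuation.pos_iff v).2 H.ne

theorem quot_le {x y : F} (hy : y ≠ 0) (h : v x ≤ v y) : v (x / y) ≤ 1 := by
  rw [map_div₀]
  exact div_le_one_of_le₀ h zero_le'

theorem Unif.ups (H : Unif v ϖ) : v (2 / ϖ ^ 2) ≤ 1 :=
  quot_le (pow_ne_zero 2 H.ne) (by rw [map_pow, H.sq])

theorem Unif.kap (H : Unif v ϖ) : v (ϖ ^ 2 / 2) ≤ 1 :=
  quot_le two_ne_zero (by rw [map_pow, H.sq])

/-- The uniformizer as an element of the ring of integers. -/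
def Unif.pi (H : Unif v ϖ) : v.integer := ⟨ϖ, H.lt.le⟩

/-- `2 / ϖ ^ 2` -/
noncomputable def Unif.up (H : Unif v ϖ) : v.integer := ⟨2 / ϖ ^ 2, H.ups⟩

/-- `ϖ ^ 2 / 2` -/
noncomputable def Unif.ka (H : Unif v ϖ) : v.integer := ⟨ϖ ^ 2 / 2, H.kap⟩

theorem Unif.pow_dvd (H : Unif v ϖ) (n : ℕ) (z : v.integer) (h : v (z : F) ≤ v ϖ ^ n) :
    H.pi ^ n ∣ z := by
  refine ⟨⟨(z : F) / ϖ ^ n, quot_le (pow_ne_zero n H.ne) (by rw [map_pow]; exact h)⟩, ?_⟩
  apply Subtype.ext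
  show (z : F) = ϖ ^ n * ((z : F) / ϖ ^ n)
  rw [mul_div_cancel₀ _ (pow_ne_zero n H.ne)]

theorem Unif.dvd (H : Unif v ϖ) (z : v.integer) (h : v (z : F) < 1) : H.pi ∣ z := by
  have := H.pow_dvd 1 z (by rw [pow_one]; exact H.uni _ h)
  rwa [pow_one] at this

theorem Unif.lt_of_dvd (H : Unif v ϖ) {z : v.integer} (h : H.pi ∣ z) : v (z : F) < 1 := by
  obtain ⟨c, rfl⟩ := h
  show v (ϖ * (c : F)) < 1
  rw [map_mul]
  exact mul_lt_one_of_nonneg_of_lt_one_left zero_le' H.lt c.2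

theorem Unif.rm (H : Unif v ϖ) (hu : v (2 / ϖ ^ 2 - 1) < 1) : Rm H.pi H.up H.ka where
  two := by
    apply Subtype.ext
    show (2 : F) = ϖ ^ 2 * (2 / ϖ ^ 2)
    rw [mul_div_cancel₀ _ (pow_ne_zero 2 H.ne)]
  inv := by
    apply Subtype.ext
    show (2 / ϖ ^ 2) * (ϖ ^ 2 / 2) = (1 : F)
    have := H.ne
    field_simp
  can := by
    intro u w h
    apply Subtype.ext
    have h1 : ϖ * (u : F) = ϖ * (w : F) := congrArg Subtype.val h
    exact mul_left_cancel₀ H.ne h1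
  one := by
    intro h
    have h1 := H.lt_of_dvd h
    have h2 : v (1 : F) < 1 := h1
    rw [map_one] at h2
    exact lt_irrefl _ h2
  uni := H.dvd _ hu
  sqd := by
    intro u h
    have h1 := H.lt_of_dvd h
    have h2 : v ((u : F) ^ 2) < 1 := h1
    rw [map_pow] at h2
    apply H.dvd
    by_contra hc
    rw [not_lt] at hc
    exact absurd h2 (not_lt.2 (one_le_pow₀ hc))

/-- The class of a point: reduction to the two cases. -/
theorem cal_gen (H : Unif v ϖ) {a b : ℤ} (hb : Odd b) (Q : Prop) (g₁ g₂ : ℤ)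
    (hsq : ∀ w R S' T t0 t1 t2 : v.integer, 1 + 4 * R = t0 ^ 2 - 2 * t1 * t2 * b →
      2 * g₁ - H.pi ^ 2 * w ^ 2 + 4 * S' = 2 * t0 * t1 - 2 * t1 * t2 * a - t2 ^ 2 * b →
      2 * g₂ + 4 * T = t1 ^ 2 + 2 * t0 * t2 - t2 ^ 2 * a → Q)
    (hint : ∀ r s t x y t0 t1 t2 : v.integer, y ^ 2 = x ^ 3 + a * x + b →
      x * (1 + 4 * r) + (2 * g₂ + 4 * t) * b = t0 ^ 2 - 2 * t1 * t2 * b →
      x * (2 * g₁ + 4 * s) - (1 + 4 * r) + (2 * g₂ + 4 * t) * a =
        2 * t0 * t1 - 2 * t1 * t2 * a - t2 ^ 2 * b →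
      x * (2 * g₂ + 4 * t) - (2 * g₁ + 4 * s) = t1 ^ 2 + 2 * t0 * t2 - t2 ^ 2 * a → Q)
    (r s t : F) (hr : v r ≤ 1) (hs : v s ≤ 1) (ht : v t ≤ 1)
    (hPL : PL F a b (pol F g₁ g₂ r s t)) : Q := by
  have hv2 := H.two
  let r' : v.integer := ⟨r, hr⟩
  let s' : v.integer := ⟨s, hs⟩
  let t' : v.integer := ⟨t, ht⟩
  rcases hPL with ⟨g, hg⟩ | ⟨x, y, hy, hxy, g, hg⟩
  · obtain ⟨t0, t1, t2, e0, e1, e2⟩ := sq_form (a := a) (b := b) (1 + 4 * r) (2 * g₁ + 4 * s)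
      (2 * g₂ + 4 * t) g (by
        have e : C (1 + 4 * r) + C (2 * (g₁ : F) + 4 * s) * X + C (2 * (g₂ : F) + 4 * t) * X ^ 2 =
            pol F g₁ g₂ r s t := by
          unfold pol
          simp only [map_add, map_mul, map_ofNat, map_one]
          ring
        rw [e]
        exact hg)
    obtain ⟨k0, k1, k2⟩ := integral v hv2 hb e0 e1 e2 (1 + 4 * r' : v.integer).2
      (2 * (g₁ : v.integer) + 4 * s' : v.integer).2 (2 * (g₂ : v.integer) + 4 * t' : v.integer).2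
    refine hsq 0 r' s' t' ⟨t0, k0⟩ ⟨t1, k1⟩ ⟨t2, k2⟩ (Subtype.ext e0) ?_ (Subtype.ext e2)
    have e1' : 2 * (g₁ : v.integer) + 4 * s' = 2 * (⟨t0, k0⟩ : v.integer) * ⟨t1, k1⟩ -
        2 * ⟨t1, k1⟩ * ⟨t2, k2⟩ * a - ⟨t2, k2⟩ ^ 2 * b := Subtype.ext e1
    rw [← e1']
    ring
  · obtain ⟨t0, t1, t2, e0, e1, e2⟩ := sq_form (a := a) (b := b)
      (x * (1 + 4 * r) + (2 * g₂ + 4 * t) * b)
      (x * (2 * g₁ + 4 * s) - (1 + 4 * r) + (2 * g₂ + 4 * t) * a)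
      (x * (2 * g₂ + 4 * t) - (2 * g₁ + 4 * s)) g (by
        have h1 : ff F a b ∣ ff F a b * C (2 * g₂ + 4 * t) := dvd_mul_right _ _
        have h2 := dvd_add hg h1
        have e : C (x * (1 + 4 * r) + (2 * (g₂ : F) + 4 * t) * b) +
            C (x * (2 * (g₁ : F) + 4 * s) - (1 + 4 * r) + (2 * (g₂ : F) + 4 * t) * a) * X +
            C (x * (2 * (g₂ : F) + 4 * t) - (2 * (g₁ : F) + 4 * s)) * X ^ 2 - g ^ 2 =
            (C x - X) * pol F g₁ g₂ r s t - g ^ 2 + ff F a b * C (2 * (g₂ : F) + 4 * t) := by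
          unfold pol ff
          simp only [map_add, map_sub, map_mul, map_ofNat, map_one]
          ring
        rw [e]
        exact h2)
    by_cases hx : v x ≤ 1
    · let x' : v.integer := ⟨x, hx⟩
      obtain ⟨k0, k1, k2⟩ := integral v hv2 hb e0 e1 e2
        (x' * (1 + 4 * r') + (2 * (g₂ : v.integer) + 4 * t') * (b : v.integer) : v.integer).2
        (x' * (2 * (g₁ : v.integer) + 4 * s') - (1 + 4 * r') +
          (2 * (g₂ : v.integer) + 4 * t') * (a : v.integer) : v.integer).2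
        (x' * (2 * (g₂ : v.integer) + 4 * t') - (2 * (g₁ : v.integer) + 4 * s') : v.integer).2
      have hvy : v y ≤ 1 := by
        have h1 : v (y ^ 2) ≤ 1 := by
          rw [hxy]
          exact (x' ^ 3 + (a : v.integer) * x' + (b : v.integer) : v.integer).2
        rw [map_pow] at h1
        by_contra hc
        rw [not_le] at hc
        exact absurd (one_lt_pow₀ hc two_ne_zero) (not_lt.2 h1)
      exact hint r' s' t' x' ⟨y, hvy⟩ ⟨t0, k0⟩ ⟨t1, k1⟩ ⟨t2, k2⟩ (Subtype.ext hxy)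
        (Subtype.ext e0) (Subtype.ext e1) (Subtype.ext e2)
    · rw [not_le] at hx
      have hx0 : x ≠ 0 := by
        rintro rfl
        rw [map_zero] at hx
        exact absurd hx (not_lt.2 zero_le')
      have hvx : 0 < v x := lt_trans zero_lt_one hx
      -- the valuation of `y`
      have hy2 : v y ^ 2 = v x ^ 3 := by
        have k1 : v (a * x + b) < v (x ^ 3) := by
          refine v.map_add_lt ?_ ?_
          · rw [map_mul, map_pow]
            calc v (a : F) * v x ≤ 1 * v x := by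
                  gcongr
                  exact int_le v a
              _ = v x := one_mul _
              _ < v x ^ 3 := by
                  have := pow_lt_pow_right₀ hx (show 1 < 3 by norm_num)
                  rwa [pow_one] at this
          · rw [map_pow]
            exact lt_of_le_of_lt (int_le v b) (one_lt_pow₀ hx (by norm_num))
        have k2 := Valuation.map_add_eq_of_lt_left v k1
        rw [← map_pow, hxy, add_assoc, k2, map_pow]
      have hvy : 0 < v y := (Valuation.pos_iff v).2 hy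
      have hw : v (x / y) < 1 := by
        by_contra hc
        rw [not_lt, map_div₀, one_le_div₀ hvy] at hc
        have k1 : v y ^ 2 ≤ v x ^ 2 := pow_le_pow_left₀ zero_le' hc 2
        rw [hy2] at k1
        exact absurd (pow_lt_pow_right₀ hx (show 2 < 3 by norm_num)) (not_lt.2 k1)
      have hp0 := H.ne
      obtain ⟨w, hw1⟩ : ∃ w : v.integer, x / y = ϖ * (w : F) := by
        refine ⟨⟨x / y / ϖ, quot_le hp0 (H.uni _ hw)⟩, ?_⟩
        show x / y = ϖ * (x / y / ϖ)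
        rw [mul_div_cancel₀ _ hp0]
      have hz : (x / y) ^ 2 = ϖ ^ 2 * (w : F) ^ 2 := by rw [hw1]; ring
      -- `1 / x = ϖ ^ 2 ι`
      have hxi : v (x * (x / y) ^ 2) = 1 := by
        rw [map_mul, map_pow, map_div₀, div_pow, hy2]
        have : v x ^ 3 ≠ 0 := pow_ne_zero 3 hvx.ne'
        rw [← mul_div_assoc, ← pow_succ', div_self this]
      obtain ⟨ι, hι⟩ : ∃ ι : v.integer, 1 / x = ϖ ^ 2 * (ι : F) := by
        refine ⟨⟨1 / x / ϖ ^ 2, ?_⟩, ?_⟩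
        · apply quot_le (pow_ne_zero 2 hp0)
          have k1 : v (1 / x) = v (x / y) ^ 2 := by
            rw [map_mul, map_pow] at hxi
            rw [map_div₀, map_one]
            rw [div_eq_iff hvx.ne', mul_comm]
            exact hxi.symm
          rw [k1, map_pow]
          exact pow_le_pow_left₀ zero_le' (H.uni _ hw) 2
        · show 1 / x = ϖ ^ 2 * (1 / x / ϖ ^ 2)
          rw [mul_div_cancel₀ _ (pow_ne_zero 2 hp0)]
      have hka : (H.ka : F) * 2 = ϖ ^ 2 := by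
        show ϖ ^ 2 / 2 * 2 = ϖ ^ 2
        rw [div_mul_cancel₀ _ two_ne_zero]
      obtain ⟨δ, hδ⟩ : ∃ δ : v.integer, δ = -H.ka ^ 2 * w ^ 2 * ((a : v.integer) * ι +
        (b : v.integer) * H.pi ^ 2 * ι ^ 2) := ⟨_, rfl⟩
      have hδF : (δ : F) = -(H.ka : F) ^ 2 * (w : F) ^ 2 * ((a : F) * ι + (b : F) * ϖ ^ 2 * ι ^ 2) := by
        rw [hδ]
        rfl
      have hxz : x * (x / y) ^ 2 = 1 + 4 * δ := by
        have k1 : (x / y) ^ 2 * (x ^ 3 + a * x + b) = x ^ 2 := by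
          rw [← hxy]
          field_simp
        have k2 : x * (x / y) ^ 2 = 1 - (x / y) ^ 2 * (a * (1 / x) + b * (1 / x) ^ 2) := by
          have k3 : x ^ 2 * (x * (x / y) ^ 2) =
              x ^ 2 * (1 - (x / y) ^ 2 * (a * (1 / x) + b * (1 / x) ^ 2)) := by
            have i1 : x ^ 2 * ((x / y) ^ 2 * (a * (1 / x) + b * (1 / x) ^ 2)) =
                (x / y) ^ 2 * (a * x + b) := by
              field_simp
            rw [mul_sub, i1]
            linear_combination k1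
          exact mul_left_cancel₀ (pow_ne_zero 2 hx0) k3
        rw [k2, hz, hι, hδF]
        linear_combination (-(w : F) ^ 2 * (a * ι + b * ϖ ^ 2 * ι ^ 2) * (ϖ ^ 2 + (H.ka : F) * 2)) *
          (-hka)
      let R : v.integer := r' + δ * (1 + 4 * r') + H.ka * w ^ 2 * ((g₂ : v.integer) + 2 * t') *
        (b : v.integer)
      let S : v.integer := s' + δ * (2 * (g₁ : v.integer) + 4 * s') - H.pi ^ 2 * w ^ 2 * r' +
        H.ka * w ^ 2 * ((g₂ : v.integer) + 2 * t') * (a : v.integer)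
      let T : v.integer := t' + δ * (2 * (g₂ : v.integer) + 4 * t') - H.ka * w ^ 2 *
        ((g₁ : v.integer) + 2 * s')
      have hR : (R : F) = r + δ * (1 + 4 * r) + H.ka * w ^ 2 * (g₂ + 2 * t) * b := rfl
      have hS : (S : F) = s + δ * (2 * g₁ + 4 * s) - ϖ ^ 2 * w ^ 2 * r +
        H.ka * w ^ 2 * (g₂ + 2 * t) * a := rfl
      have hT : (T : F) = t + δ * (2 * g₂ + 4 * t) - H.ka * w ^ 2 * (g₁ + 2 * s) := rfl
      have f0 : 1 + 4 * (R : F) = (t0 * (x / y)) ^ 2 - 2 * (t1 * (x / y)) * (t2 * (x / y)) * b := by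
        rw [hR]
        linear_combination (x / y) ^ 2 * e0 + (1 + 4 * r) * (-hxz) - ((2 * g₂ + 4 * t) * b) * hz +
          (2 * (w : F) ^ 2 * (g₂ + 2 * t) * b) * hka
      have f1 : 2 * (g₁ : F) - ϖ ^ 2 * (w : F) ^ 2 + 4 * (S : F) = 2 * (t0 * (x / y)) * (t1 * (x / y)) -
          2 * (t1 * (x / y)) * (t2 * (x / y)) * a - (t2 * (x / y)) ^ 2 * b := by
        rw [hS]
        linear_combination (x / y) ^ 2 * e1 + (2 * g₁ + 4 * s) * (-hxz) + (1 + 4 * r -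
          (2 * g₂ + 4 * t) * a) * hz + (2 * (w : F) ^ 2 * (g₂ + 2 * t) * a) * hka
      have f2 : 2 * (g₂ : F) + 4 * (T : F) = (t1 * (x / y)) ^ 2 + 2 * (t0 * (x / y)) * (t2 * (x / y)) -
          (t2 * (x / y)) ^ 2 * a := by
        rw [hT]
        linear_combination (x / y) ^ 2 * e2 + (2 * g₂ + 4 * t) * (-hxz) + (2 * g₁ + 4 * s) * hz -
          (2 * (w : F) ^ 2 * (g₁ + 2 * s)) * hka
      have m1 : v (2 * (g₁ : F) - ϖ ^ 2 * (w : F) ^ 2 + 4 * (S : F)) ≤ 1 := by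
        have h1 : ((2 * (g₁ : v.integer) - H.pi ^ 2 * w ^ 2 + 4 * S : v.integer) : F) =
            2 * (g₁ : F) - ϖ ^ 2 * (w : F) ^ 2 + 4 * (S : F) := rfl
        rw [← h1]
        exact (2 * (g₁ : v.integer) - H.pi ^ 2 * w ^ 2 + 4 * S : v.integer).2
      obtain ⟨k0, k1, k2⟩ := integral v hv2 hb f0 f1 f2 (1 + 4 * R : v.integer).2 m1
        (2 * (g₂ : v.integer) + 4 * T : v.integer).2
      exact hsq w R S T ⟨_, k0⟩ ⟨_, k1⟩ ⟨_, k2⟩ (Subtype.ext f0) (Subtype.ext f1) (Subtype.ext f2)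

theorem Unif.four (H : Unif v ϖ) : v 4 = v ϖ ^ 4 := by
  have : (4 : F) = 2 * 2 := by norm_num
  rw [this, map_mul, ← H.sq, ← pow_add]

/-- The class of a point, type A. -/
theorem calA (H : Unif v ϖ) (h4 : v (ϖ ^ 2 - 2) ≤ v 4) (hres : ∀ u : F, v u ≤ 1 → v (u ^ 4 - u) < 1)
    {a b : ℤ} (ha : a % 4 = 3) (hb : b % 4 = 3) (g₁ g₂ : ℤ) (r s t : F) (hr : v r ≤ 1)
    (hs : v s ≤ 1) (ht : v t ≤ 1) (hPL : PL F a b (pol F g₁ g₂ r s t)) : Even g₂ := by
  have hbo : Odd b := by rw [Int.odd_iff]; omega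
  have hao : Odd a := by rw [Int.odd_iff]; omega
  have hup : v (2 / ϖ ^ 2 - 1) ≤ v ϖ ^ 2 := by
    have e : 2 / ϖ ^ 2 - 1 = -(ϖ ^ 2 - 2) / ϖ ^ 2 := by
      have := H.ne
      field_simp
      ring
    rw [e, map_div₀, map_pow, Valuation.map_neg, div_le_iff₀ (pow_pos H.pos 2)]
    refine h4.trans ?_
    rw [H.four, ← pow_add]
  have hup1 : v (2 / ϖ ^ 2 - 1) < 1 :=
    lt_of_le_of_lt hup (pow_lt_one₀ zero_le' H.lt two_ne_zero)
  have RM := H.rm hup1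
  have hυ : H.pi ^ 2 ∣ H.up - 1 := H.pow_dvd 2 _ hup
  have hr4 : ∀ u : v.integer, H.pi ∣ u ^ 4 - u := fun u => H.dvd _ (hres u u.2)
  refine cal_gen H hbo (Even g₂) g₁ g₂ ?_ ?_ r s t hr hs ht hPL
  · intro w R S' T t0 t1 t2 e0 e1 e2
    exact evenA_sq RM hυ hr4 hao hbo g₁ g₂ w R S' T t0 t1 t2 e0 e1 e2
  · intro r s t x y t0 t1 t2 _ e0 e1 e2
    exact evenA_int RM hυ hr4 ha hb g₁ g₂ r s t x t0 t1 t2 e0 e1 e2

/-- The class of a point, type B. -/
theorem calB (H : Unif v ϖ) (h4 : v (ϖ ^ 2 + ϖ ^ 3 - 2) ≤ v 4)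
    (hres : ∀ u : F, v u ≤ 1 → v (u ^ 2 - u) < 1)
    {a b : ℤ} (ha : a % 4 = 1) (hb : b % 4 = 1) (σ : F) (hσ : v σ ≤ 1)
    (hσ5 : v (σ ^ 2 - ((a + b + 5 : ℤ) : F)) < v 4) (g₁ g₂ : ℤ) (r s t : F) (hr : v r ≤ 1)
    (hs : v s ≤ 1) (ht : v t ≤ 1) (hPL : PL F a b (pol F g₁ g₂ r s t)) : Even g₁ := by
  have hbo : Odd b := by rw [Int.odd_iff]; omega
  have hao : Odd a := by rw [Int.odd_iff]; omega
  have hup : v (2 / ϖ ^ 2 - 1 - ϖ) ≤ v ϖ ^ 2 := by
    have e : 2 / ϖ ^ 2 - 1 - ϖ = -(ϖ ^ 2 + ϖ ^ 3 - 2) / ϖ ^ 2 := by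
      have := H.ne
      field_simp
      ring
    rw [e, map_div₀, map_pow, Valuation.map_neg, div_le_iff₀ (pow_pos H.pos 2)]
    refine h4.trans ?_
    rw [H.four, ← pow_add]
  have hup1 : v (2 / ϖ ^ 2 - 1) < 1 := by
    have e : 2 / ϖ ^ 2 - 1 = (2 / ϖ ^ 2 - 1 - ϖ) + ϖ := by ring
    rw [e]
    exact v.map_add_lt (lt_of_le_of_lt hup (pow_lt_one₀ zero_le' H.lt two_ne_zero)) H.lt
  have RM := H.rm hup1
  have hυ : H.pi ^ 2 ∣ H.up - 1 - H.pi := H.pow_dvd 2 _ hup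
  have hr2 : ∀ u : v.integer, H.pi ∣ u ^ 2 - u := fun u => H.dvd _ (hres u u.2)
  have h5 : H.pi ^ 5 ∣ (⟨σ, hσ⟩ : v.integer) ^ 2 - ((a + b + 5 : ℤ) : v.integer) := by
    apply H.pow_dvd 5
    show v (σ ^ 2 - ((a + b + 5 : ℤ) : F)) ≤ v ϖ ^ 5
    obtain ⟨z, hz⟩ : ∃ z : F, z = σ ^ 2 - ((a + b + 5 : ℤ) : F) := ⟨_, rfl⟩
    rw [← hz] at hσ5 ⊢
    rw [H.four] at hσ5
    have h6 : v (z / ϖ ^ 4) < 1 := by
      rw [map_div₀, map_pow, div_lt_one₀ (pow_pos H.pos 4)]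
      exact hσ5
    have h7 := H.uni _ h6
    rw [map_div₀, map_pow, div_le_iff₀ (pow_pos H.pos 4), ← pow_succ'] at h7
    exact h7
  refine cal_gen H hbo (Even g₁) g₁ g₂ ?_ ?_ r s t hr hs ht hPL
  · intro w R S' T t0 t1 t2 e0 e1 e2
    exact evenB_sq RM hυ hr2 hao hbo g₁ g₂ w R S' T t0 t1 t2 e0 e1 e2
  · intro r s t x y t0 t1 t2 hxy e0 e1 e2
    exact evenB_int RM hυ hr2 ha hb ⟨σ, hσ⟩ h5 g₁ g₂ r s t x y t0 t1 t2 hxy e0 e1 e2

end Val

end Pool.Agent.Helper10.RM
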