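import Pool.Graph.R_pool_sql_team_seeded_63374d34.N615.PV.Fam2

/-!
# Many curves in the family with given odd residues modulo `8`

After helper615 and helper456 (parts FAM2 and FAM of projects PV and PQ).
-/

set_option autoImplicit false
set_option linter.all false

open scoped Classical

namespace Pool.Agent.Helper10.RM

open Filter Topology Pool.Agent.N922.PQ Pool.Agent.N456.PQ Pool.Agent.N615.PV

/-- Many curves in the family with `a = α` and `b = β` modulo `8`. -/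
theorem fam8 (α β : ℤ) (hα : Odd α) (hβ : Odd β) (T : Finset ℤ) (A B : ℤ → ℤ) (hT : GoodT T A B) :
    ∃ c : ℝ, 0 < c ∧ ∀ (S : Finset ℤ) (s : ℤ → ℤ), GoodS S s → Disjoint S T → ∃ X₀ : ℕ, ∀ X ≥ X₀,
    c * (X : ℝ) ^ 5 ≤ ((∏ Q ∈ S, (Q : ℝ) ^ 2)) *
      ({p : ℤ × ℤ | Fam X S s T A B p.1 p.2 ∧ (8 : ℤ) ∣ p.1 - α ∧ (8 : ℤ) ∣ p.2 - β}.ncard : ℝ) := by
  have hTpos : ∀ P ∈ T, (0 : ℝ) < (P : ℝ) ^ 2 := by
    intro P hP
    have : (0 : ℝ) < P := by exact_mod_cast (hT.2.2 P hP).1.1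
    positivity
  have hTprod : 0 < ∏ P ∈ T, (P : ℝ) ^ 2 := Finset.prod_pos hTpos
  refine ⟨1 / (64 * ∏ P ∈ T, (P : ℝ) ^ 2), by positivity, ?_⟩
  intro S s hS hST
  have hSpos : ∀ Q ∈ S, (0 : ℝ) < (Q : ℝ) ^ 2 := by
    intro Q hQ
    have : (0 : ℝ) < Q := by exact_mod_cast (hS Q hQ).1.1
    positivity
  have hSprod : 0 < ∏ Q ∈ S, (Q : ℝ) ^ 2 := Finset.prod_pos hSpos
  have hW : ∀ Q ∈ S ∪ T, IsPr Q := by
    intro Q hQ
    rcases Finset.mem_union.1 hQ with h | h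
    · exact (hS Q h).1
    · exact (hT.2.2 Q h).1
  obtain ⟨a0, ha0⟩ := crt hW fun Q => if Q ∈ S then s Q else A Q
  obtain ⟨b0, hb0⟩ := crt hW fun Q => if Q ∈ S then 0 else B Q
  obtain ⟨m, hmdef⟩ : ∃ m : ℤ, m = ∏ Q ∈ S ∪ T, Q := ⟨_, rfl⟩
  have hm : 0 < m := by
    rw [hmdef]
    exact Finset.prod_pos fun Q hQ => (hW Q hQ).1
  have hmd : ∀ Q ∈ S ∪ T, Q ∣ m := by
    intro Q hQ
    rw [hmdef]
    exact Finset.dvd_prod_of_mem (fun Q : ℤ => Q) hQ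
  have hSa : ∀ Q ∈ S, Q ∣ a0 - s Q := by
    intro Q hQ
    have := ha0 Q (Finset.mem_union_left _ hQ)
    rwa [if_pos hQ] at this
  have hSb : ∀ Q ∈ S, Q ∣ b0 := by
    intro Q hQ
    have := hb0 Q (Finset.mem_union_left _ hQ)
    rwa [if_pos hQ, sub_zero] at this
  have hTa : ∀ P ∈ T, P ∣ a0 - A P := by
    intro P hP
    have := ha0 P (Finset.mem_union_right _ hP)
    rwa [if_neg (Finset.disjoint_right.1 hST hP)] at this
  have hTb : ∀ P ∈ T, P ∣ b0 - B P := by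
    intro P hP
    have := hb0 P (Finset.mem_union_right _ hP)
    rwa [if_neg (Finset.disjoint_right.1 hST hP)] at this
  -- the residues of `a` and `b`
  have hres : ∀ a b : ℤ, m ∣ a - a0 → m ∣ b - b0 → (∀ Q ∈ S, Q ∣ a - s Q) ∧ (∀ Q ∈ S, Q ∣ b) ∧
      (∀ P ∈ T, P ∣ a - A P) ∧ ∀ P ∈ T, P ∣ b - B P := by
    intro a b ha hb
    refine ⟨fun Q hQ => ?_, fun Q hQ => ?_, fun Q hQ => ?_, fun Q hQ => ?_⟩
    · have := dvd_add ((hmd Q (Finset.mem_union_left _ hQ)).trans ha) (hSa Q hQ)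
      have e : a - a0 + (a0 - s Q) = a - s Q := by ring
      rwa [e] at this
    · have := dvd_add ((hmd Q (Finset.mem_union_left _ hQ)).trans hb) (hSb Q hQ)
      have e : b - b0 + b0 = b := by ring
      rwa [e] at this
    · have := dvd_add ((hmd Q (Finset.mem_union_right _ hQ)).trans ha) (hTa Q hQ)
      have e : a - a0 + (a0 - A Q) = a - A Q := by ring
      rwa [e] at this
    · have := dvd_add ((hmd Q (Finset.mem_union_right _ hQ)).trans hb) (hTb Q hQ)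
      have e : b - b0 + (b0 - B Q) = b - B Q := by ring
      rwa [e] at this
  -- the primes which divide `m` do not divide the discriminant
  have hnd : ∀ a b : ℤ, m ∣ a - a0 → m ∣ b - b0 → ∀ Q ∈ S ∪ T, ¬ Q ∣ dsc a b := by
    intro a b ha hb Q hQ hd
    obtain ⟨r1, r2, r3, r4⟩ := hres a b ha hb
    obtain ⟨hQ0, hQp⟩ := hW Q hQ
    rcases Finset.mem_union.1 hQ with h | h
    · obtain ⟨-, h8, hz⟩ := hS Q h
      -- `Q` divides `4 a ^ 3`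
      have h1 : Q ∣ 4 * a ^ 3 := by
        have h2 : Q ∣ 27 * b ^ 2 := (dvd_pow (r2 Q h) (by norm_num)).mul_left 27
        exact (Int.dvd_add_left h2).1 hd
      have h2 : Q ∣ a := by
        rcases hQp.dvd_or_dvd h1 with h3 | h3
        · exfalso
          have := Int.le_of_dvd (by norm_num) h3
          have : Q ≠ 1 := fun h1 => hQp.not_unit (h1 ▸ isUnit_one)
          omega
        · exact hQp.dvd_of_dvd_pow h3
      apply hz 0
      have h3 := dvd_sub h2 (r1 Q h)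
      have e : a - (a - s Q) = 0 ^ 2 + s Q := by ring
      rwa [e] at h3
    · obtain ⟨-, hz⟩ := hT.2.2 Q h
      have h1 : Q ∣ 4 * (A Q) ^ 3 + 27 * (B Q) ^ 2 := by
        have e1 : Q ∣ a ^ 3 - (A Q) ^ 3 := (r3 Q h).trans (sub_dvd_pow_sub_pow _ _ 3)
        have e2 : Q ∣ b ^ 2 - (B Q) ^ 2 := (r4 Q h).trans (sub_dvd_pow_sub_pow _ _ 2)
        have e3 := dvd_sub hd (dvd_add (e1.mul_left 4) (e2.mul_left 27))
        have e : dsc a b - (4 * (a ^ 3 - (A Q) ^ 3) + 27 * (b ^ 2 - (B Q) ^ 2)) =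
            4 * (A Q) ^ 3 + 27 * (B Q) ^ 2 := by unfold dsc; ring
        rwa [e] at e3
      obtain ⟨z, hz'⟩ := root_of (hW Q hQ) h1
      exact hz z hz'
  have hdv : ∀ a b : ℤ, m ∣ a - a0 → m ∣ b - b0 → ∀ p : ℕ, p.Prime → (p : ℤ) ^ 2 ∣ dsc a b →
      5 ≤ p ∧ IsCoprime m (p : ℤ) := by
    intro a b ha hb p hp hpd
    have hpp := Nat.prime_iff_prime_int.1 hp
    have hpd1 : (p : ℤ) ∣ dsc a b := (dvd_pow_self _ two_ne_zero).trans hpd
    have h1 : ∀ Q ∈ S ∪ T, (p : ℤ) ≠ Q := fun Q hQ h => hnd a b ha hb Q hQ (h ▸ hpd1)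
    constructor
    · have h2 := h1 2 (Finset.mem_union_right _ hT.1)
      have h3 := h1 3 (Finset.mem_union_right _ hT.2.1)
      have h4 := hp.two_le
      by_contra hlt
      push Not at hlt
      have h5 : p = 4 := by omega
      rw [h5] at hp
      exact absurd hp (by norm_num)
    · rw [isCoprime_comm]
      apply hpp.coprime_iff_not_dvd.2
      intro h2
      rw [hmdef, hpp.dvd_finsetProd_iff] at h2
      obtain ⟨Q, hQ, hpQ⟩ := h2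
      apply h1 Q hQ
      have h3 := (hpp.dvd_prime_iff_associated (hW Q hQ).2).1 hpQ
      exact Int.eq_of_associated_of_nonneg h3 (by positivity) (hW Q hQ).1.le
  -- the modulus `4 m` and the new residues
  have hm2 : ∃ k : ℤ, m = 2 * (2 * k + 1) := by
    have h2S : (2 : ℤ) ∈ S ∪ T := Finset.mem_union_right _ hT.1
    have e := Finset.mul_prod_erase (S ∪ T) (fun Q : ℤ => Q) h2S
    have ho := odd_prod (W := (S ∪ T).erase 2) (fun Q hQ => hW Q (Finset.mem_of_mem_erase hQ))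
      (Finset.notMem_erase _ _)
    obtain ⟨k, hk⟩ := ho
    refine ⟨k, ?_⟩
    rw [hmdef, ← e, hk]
  obtain ⟨k, hk⟩ := hm2
  have hA2 : (2 : ℤ) ∣ a0 - A 2 := hTa 2 hT.1
  have hB2 : (2 : ℤ) ∣ b0 - B 2 := hTb 2 hT.1
  have hz0 := (hT.2.2 2 hT.1).2 0
  have hz1 := (hT.2.2 2 hT.1).2 1
  rw [show (0 : ℤ) ^ 3 + A 2 * 0 + B 2 = B 2 by ring] at hz0
  rw [show (1 : ℤ) ^ 3 + A 2 * 1 + B 2 = 1 + A 2 + B 2 by ring] at hz1
  -- solve the congruence modulo `8`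
  have hsol : ∀ c γ : ℤ, (2 : ℤ) ∣ c - γ → ∃ t : ℤ, (8 : ℤ) ∣ c + m * t - γ := by
    intro c γ hcγ
    obtain ⟨d, hd⟩ := hcγ
    -- `t = - d (2 k + 1)` : `(2 k + 1) ^ 2 = 1` modulo `4`
    refine ⟨-d * (2 * k + 1), ?_⟩
    obtain ⟨l, hl⟩ := Int.even_mul_succ_self k
    have e : c + m * (-d * (2 * k + 1)) - γ = -16 * (d * l) := by
      rw [hk]
      have e1 : c - γ = 2 * d := hd
      linear_combination e1 - (8 * d) * hl
    rw [e]
    exact ⟨-2 * (d * l), by ring⟩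
  obtain ⟨t₁, ht₁⟩ := hsol a0 α (by
    obtain ⟨u, hu⟩ := hα
    omega)
  obtain ⟨t₂, ht₂⟩ := hsol b0 β (by
    obtain ⟨u, hu⟩ := hβ
    omega)
  have hm' : 0 < 4 * m := by omega
  have hred : ∀ x c t : ℤ, 4 * m ∣ x - (c + m * t) → m ∣ x - c := by
    intro x c t hx
    have h1 : m ∣ x - (c + m * t) := (Dvd.intro_left 4 rfl).trans hx
    have h2 := dvd_add h1 (Dvd.intro t rfl : m ∣ m * t)
    have e : x - (c + m * t) + m * t = x - c := by ring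
    rwa [e] at h2
  have hdv' : ∀ a b : ℤ, 4 * m ∣ a - (a0 + m * t₁) → 4 * m ∣ b - (b0 + m * t₂) → ∀ p : ℕ,
      p.Prime → (p : ℤ) ^ 2 ∣ dsc a b → 5 ≤ p ∧ IsCoprime (4 * m) (p : ℤ) := by
    intro a b ha hb p hp hpd
    obtain ⟨h5, hc⟩ := hdv a b (hred _ _ _ ha) (hred _ _ _ hb) p hp hpd
    refine ⟨h5, IsCoprime.mul_left ?_ hc⟩
    have hpp := Nat.prime_iff_prime_int.1 hp
    rw [isCoprime_comm]
    apply hpp.coprime_iff_not_dvd.2
    intro h2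
    have := Int.le_of_dvd (by norm_num) h2
    omega
  have hgood := good_ge hm' (a0 + m * t₁) (b0 + m * t₂) hdv'
  rw [eventually_atTop] at hgood
  obtain ⟨X₀, hX₀⟩ := hgood
  refine ⟨X₀, fun X hX => ?_⟩
  have h1 := hX₀ X hX
  have hsub : (((Bx X (4 * m) (a0 + m * t₁) (b0 + m * t₂)).filter fun q =>
      Squarefree (dsc q.1 q.2) : Finset (ℤ × ℤ)) : Set (ℤ × ℤ)) ⊆
      {p : ℤ × ℤ | Fam X S s T A B p.1 p.2 ∧ (8 : ℤ) ∣ p.1 - α ∧ (8 : ℤ) ∣ p.2 - β} := by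
    intro q hq
    rw [Finset.mem_coe, Finset.mem_filter] at hq
    obtain ⟨hq1, hq2⟩ := hq
    unfold Bx at hq1
    simp only [Finset.mem_product, Finset.mem_filter, Finset.mem_Ioc] at hq1
    obtain ⟨⟨⟨h1, h2⟩, h3⟩, ⟨h4, h5⟩, h6⟩ := hq1
    obtain ⟨r1, r2, r3, r4⟩ := hres q.1 q.2 (hred _ _ _ h3) (hred _ _ _ h6)
    have h8m : (8 : ℤ) ∣ 4 * m := ⟨2 * k + 1, by rw [hk]; ring⟩
    refine ⟨⟨h1, h2, abs_le.2 ⟨by linarith, h5⟩, r1, r2, r3, r4, hq2⟩, ?_, ?_⟩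
    · have k3 := dvd_add (h8m.trans h3) ht₁
      have e : q.1 - (a0 + m * t₁) + (a0 + m * t₁ - α) = q.1 - α := by ring
      rwa [e] at k3
    · have k3 := dvd_add (h8m.trans h6) ht₂
      have e : q.2 - (b0 + m * t₂) + (b0 + m * t₂ - β) = q.2 - β := by ring
      rwa [e] at k3
  have hfin : {p : ℤ × ℤ | Fam X S s T A B p.1 p.2 ∧ (8 : ℤ) ∣ p.1 - α ∧ (8 : ℤ) ∣ p.2 - β}.Finite := by
    apply Set.Finite.subset (((Finset.Ioc (0 : ℤ) ((X : ℤ) ^ 2)) ×ˢ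
      (Finset.Icc (-(X : ℤ) ^ 3) ((X : ℤ) ^ 3)) : Finset (ℤ × ℤ)).finite_toSet)
    intro q hq
    rw [Finset.mem_coe, Finset.mem_product, Finset.mem_Ioc, Finset.mem_Icc]
    exact ⟨⟨hq.1.pa, hq.1.da⟩, abs_le.1 hq.1.db⟩
  have h2 : (((Bx X (4 * m) (a0 + m * t₁) (b0 + m * t₂)).filter fun q =>
      Squarefree (dsc q.1 q.2)).card : ℝ) ≤
      ({p : ℤ × ℤ | Fam X S s T A B p.1 p.2 ∧ (8 : ℤ) ∣ p.1 - α ∧ (8 : ℤ) ∣ p.2 - β}.ncard : ℝ) := by
    have := Set.ncard_le_ncard hsub hfin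
    rw [Set.ncard_coe_finset] at this
    exact_mod_cast this
  have h3 : (m : ℝ) ^ 2 = (∏ Q ∈ S, (Q : ℝ) ^ 2) * ∏ P ∈ T, (P : ℝ) ^ 2 := by
    rw [hmdef]
    push_cast
    rw [← Finset.prod_pow, Finset.prod_union hST]
  have h4 : (((4 * m : ℤ)) : ℝ)⁻¹ ^ 2 = (16 * ((∏ Q ∈ S, (Q : ℝ) ^ 2) * ∏ P ∈ T, (P : ℝ) ^ 2))⁻¹ := by
    rw [inv_pow, ← h3]
    push_cast
    congr 1
    ring
  rw [h4] at h1
  have h5 := mul_le_mul_of_nonneg_left (h1.trans h2) hSprod.le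
  refine le_trans (le_of_eq ?_) h5
  field_simp
  ring

end Pool.Agent.Helper10.RM
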