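import Mathlib
import Pool.Graph.R_pool_sql_team_seeded_63374d34.N273.PQ.FinM

/-!
# Groups with an action of a finite 2-group
-/

set_option autoImplicit false
set_option linter.all false

open scoped Classical TensorProduct

namespace Pool.Agent.Helper10.RM

section quot

variable {G B : Type} [Group G] [AddCommGroup B] [DistribMulAction G B]

/-- The subgroup `2 B`. -/
def dbl (B : Type) [AddCommGroup B] : AddSubgroup B := (nsmulAddMonoidHom (α := B) 2).range

theorem mem_dbl (b : B) : b ∈ dbl B ↔ ∃ q, b = (2 : ℕ) • q := by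
  unfold dbl
  rw [AddMonoidHom.mem_range]
  constructor
  · rintro ⟨q, hq⟩
    exact ⟨q, hq.symm⟩
  · rintro ⟨q, hq⟩
    exact ⟨q, hq.symm⟩

theorem dbl_le (g : G) : dbl B ≤ (dbl B).comap (DistribMulAction.toAddMonoidHom B g) := by
  intro b hb
  obtain ⟨q, rfl⟩ := (mem_dbl b).1 hb
  rw [AddSubgroup.mem_comap]
  refine (mem_dbl _).2 ⟨g • q, ?_⟩
  rw [map_nsmul]
  rfl

/-- The action on `B / 2 B`. -/
@[reducible] def qact (G B : Type) [Group G] [AddCommGroup B] [DistribMulAction G B] :
    MulAction G (B ⧸ dbl B) where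
  smul g := QuotientAddGroup.map (dbl B) (dbl B) (DistribMulAction.toAddMonoidHom B g) (dbl_le g)
  one_smul x := by
    induction x using QuotientAddGroup.induction_on with
    | H b =>
      show QuotientAddGroup.map _ _ _ _ _ = _
      rw [QuotientAddGroup.map_mk]
      show ((((1 : G) • b : B)) : B ⧸ dbl B) = _
      rw [one_smul]
  mul_smul g h x := by
    induction x using QuotientAddGroup.induction_on with
    | H b =>
      show QuotientAddGroup.map _ _ _ _ _ = QuotientAddGroup.map _ _ _ _ (QuotientAddGroup.map _ _ _ _ _)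
      rw [QuotientAddGroup.map_mk, QuotientAddGroup.map_mk, QuotientAddGroup.map_mk]
      show (((g * h) • b : B) : B ⧸ dbl B) = ((g • (h • b) : B) : B ⧸ dbl B)
      rw [mul_smul]

theorem fin_quot (hfg : AddGroup.FG B) : Finite (B ⧸ dbl B) := by
  haveI : AddGroup.FG (B ⧸ dbl B) := QuotientAddGroup.fg (dbl B)
  apply AddCommGroup.finite_of_fg_torsion
  intro x
  induction x using QuotientAddGroup.induction_on with
  | H b =>
    rw [isOfFinAddOrder_iff_nsmul_eq_zero]
    refine ⟨2, by norm_num, ?_⟩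
    rw [← QuotientAddGroup.mk_nsmul]
    exact (QuotientAddGroup.eq_zero_iff _).2 ((mem_dbl _).2 ⟨b, rfl⟩)

/-- If every element which is invariant modulo two is divisible by two, so is every element. -/
theorem all_dbl {n : ℕ} (hG : Nat.card G = 2 ^ n) (hfg : AddGroup.FG B)
    (h : ∀ b : B, (∀ g : G, ∃ r, g • b = b + (2 : ℕ) • r) → ∃ q, b = (2 : ℕ) • q) (b : B) :
    ∃ q, b = (2 : ℕ) • q := by
  by_contra hb
  haveI := fin_quot hfg
  letI := qact G B
  haveI : Fact (Nat.Prime 2) := ⟨Nat.prime_two⟩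
  have hp : IsPGroup 2 G := IsPGroup.of_card hG
  have hne : ((b : B ⧸ dbl B)) ≠ 0 := by
    intro h0
    exact hb ((mem_dbl b).1 ((QuotientAddGroup.eq_zero_iff _).1 h0))
  have hcard : 2 ∣ Nat.card (B ⧸ dbl B) := by
    have h2 : addOrderOf ((b : B ⧸ dbl B)) = 2 := by
      apply addOrderOf_eq_prime _ hne
      rw [← QuotientAddGroup.mk_nsmul]
      exact (QuotientAddGroup.eq_zero_iff _).2 ((mem_dbl _).2 ⟨b, rfl⟩)
    rw [← h2]
    exact addOrderOf_dvd_natCard _
  have h0 : (0 : B ⧸ dbl B) ∈ MulAction.fixedPoints G (B ⧸ dbl B) := by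
    intro g
    exact map_zero (QuotientAddGroup.map (dbl B) (dbl B) (DistribMulAction.toAddMonoidHom B g) (dbl_le g))
  obtain ⟨x, hx, hx0⟩ := hp.exists_fixed_point_of_prime_dvd_card_of_fixed_point _ hcard h0
  induction x using QuotientAddGroup.induction_on with
  | H c =>
    apply hx0
    symm
    refine (QuotientAddGroup.eq_zero_iff _).2 ((mem_dbl _).2 (h c fun g => ?_))
    have h1 := hx g
    have h2 : (((g • c : B)) : B ⧸ dbl B) = (c : B ⧸ dbl B) := h1
    rw [QuotientAddGroup.eq] at h2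
    obtain ⟨q, hq⟩ := (mem_dbl _).1 h2
    refine ⟨-q, ?_⟩
    rw [smul_neg, ← hq]
    abel

end quot

/-- The functional. -/
theorem exists_phi {G A : Type} [Group G] [AddCommGroup A] [DistribMulAction G A] {n : ℕ}
    (hG : Nat.card G = 2 ^ n) (hfg : AddGroup.FG A) (h2 : ∀ a : A, (2 : ℕ) • a = 0 → a = 0)
    (htwo : ∀ P P' : A, (∀ g : G, ∃ r, g • P = P + (2 : ℕ) • r) →
      (∀ g : G, ∃ r, g • P' = P' + (2 : ℕ) • r) →
      (∃ q, P = (2 : ℕ) • q) ∨ (∃ q, P' = (2 : ℕ) • q) ∨ ∃ q, P + P' = (2 : ℕ) • q) :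
    ∃ φ : A →+ ℤ, ∀ a : A, (∀ g : G, φ (g • a) = 0) → IsOfFinAddOrder a := by
  by_cases hall : ∀ b : A, (∀ g : G, ∃ r, g • b = b + (2 : ℕ) • r) → ∃ q, b = (2 : ℕ) • q
  · refine ⟨0, fun a _ => ?_⟩
    have h1 := all_dbl hG hfg hall
    haveI := Pool.Agent.N273.PQ.finite_of_div hfg h1
    exact isOfFinAddOrder_of_finite a
  push Not at hall
  obtain ⟨s, hs, hs2⟩ := hall
  -- a functional which is odd on `s`
  obtain ⟨φ, hφ⟩ : ∃ φ : A →+ ℤ, Odd (φ s) := by
    haveI : Module.Finite ℤ A := Module.Finite.iff_addGroup_fg.2 hfg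
    set T := Submodule.torsion ℤ A with hT
    haveI : Module.Finite ℤ (A ⧸ T) := inferInstance
    haveI : Module.Free ℤ (A ⧸ T) := inferInstance
    set bs := Module.Free.chooseBasis ℤ (A ⧸ T) with hbs
    by_contra hcon
    push Not at hcon
    -- all coordinates are even
    have hev : ∀ i, Even (bs.repr (Submodule.Quotient.mk s) i) := by
      intro i
      rw [← Int.not_odd_iff_even]
      exact hcon (((bs.coord i).comp T.mkQ).toAddMonoidHom)
    choose c hc using hev
    have hfin : Finite (Module.Free.ChooseBasisIndex ℤ (A ⧸ T)) := inferInstance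
    haveI := Fintype.ofFinite (Module.Free.ChooseBasisIndex ℤ (A ⧸ T))
    obtain ⟨a, ha⟩ := Submodule.Quotient.mk_surjective T (∑ i, c i • bs i)
    have h3 : (Submodule.Quotient.mk s : A ⧸ T) = Submodule.Quotient.mk ((2 : ℕ) • a) := by
      have e : (Submodule.Quotient.mk ((2 : ℕ) • a) : A ⧸ T) = (2 : ℕ) • Submodule.Quotient.mk a := rfl
      rw [e, ha, ← bs.sum_repr (Submodule.Quotient.mk s), Finset.smul_sum]
      refine Finset.sum_congr rfl fun i _ => ?_
      rw [hc i, add_smul, two_nsmul]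
    rw [Submodule.Quotient.eq] at h3
    -- the torsion element is divisible by two
    obtain ⟨m, hm⟩ := (Submodule.mem_torsion_iff _).1 h3
    have hm0 : (m : ℤ) ≠ 0 := nonZeroDivisors.ne_zero m.2
    set d := s - (2 : ℕ) • a with hd
    have hm' : (m : ℤ) • d = 0 := hm
    -- an odd multiple is zero
    have key : ∀ (j : ℕ) (z : ℤ), z.natAbs < j → z ≠ 0 → z • d = 0 → ∃ q, d = (2 : ℕ) • q := by
      intro j
      induction j with
      | zero => intro z hz; exact absurd hz (Nat.not_lt_zero _)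
      | succ j ih =>
        intro z hz hz0 hzd
        rcases Int.even_or_odd z with ⟨w, hw⟩ | ⟨w, hw⟩
        · refine ih w (by omega) (by omega) ?_
          apply h2
          rw [two_nsmul, ← add_smul, ← hw]
          exact hzd
        · refine ⟨-(w • d), ?_⟩
          rw [hw] at hzd
          have e : (2 : ℕ) • (w • d) = (2 * w) • d := by
            rw [mul_smul, two_nsmul, two_smul]
          rw [smul_neg, e]
          rw [add_smul, one_smul] at hzd
          exact (neg_eq_of_add_eq_zero_right hzd).symm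
    obtain ⟨q, hq⟩ := key _ _ (Nat.lt_succ_self _) hm0 hm'
    refine hs2 (a + q) ?_
    rw [smul_add, ← hq, hd]
    abel
  refine ⟨φ, fun a ha => ?_⟩
  -- the kernel
  let N : AddSubgroup A :=
    { carrier := {a | ∀ g : G, φ (g • a) = 0}
      add_mem' := by
        intro a b ha hb g
        rw [smul_add, map_add, ha g, hb g, add_zero]
      zero_mem' := by
        intro g
        rw [smul_zero, map_zero]
      neg_mem' := by
        intro a ha g
        rw [smul_neg, map_neg, ha g, neg_zero] }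
  have hN : ∀ a : A, a ∈ N ↔ ∀ g : G, φ (g • a) = 0 := fun a => Iff.rfl
  let iN : DistribMulAction G N :=
    { smul := fun g x => ⟨g • (x : A), fun h => by
        rw [← mul_smul]
        exact x.2 (h * g)⟩
      one_smul := fun x => Subtype.ext (one_smul G (x : A))
      mul_smul := fun g h x => Subtype.ext (mul_smul g h (x : A))
      smul_zero := fun g => Subtype.ext (smul_zero g)
      smul_add := fun g x y => Subtype.ext (smul_add g (x : A) (y : A)) }
  have hsm : ∀ (g : G) (x : N), ((g • x : N) : A) = g • (x : A) := fun _ _ => rfl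
  haveI : Module.Finite ℤ A := Module.Finite.iff_addGroup_fg.2 hfg
  have hNfg : AddGroup.FG N := by
    rw [← Module.Finite.iff_addGroup_fg]
    exact Module.Finite.of_injective N.subtype.toIntLinearMap Subtype.val_injective
  have hsat : ∀ b : A, (2 : ℕ) • b ∈ N → b ∈ N := by
    intro b hb g
    have h1 := hb g
    rw [two_nsmul, smul_add, map_add] at h1
    omega
  have hN2 : ∀ b : N, (∀ g : G, ∃ r, g • b = b + (2 : ℕ) • r) → ∃ q, b = (2 : ℕ) • q := by
    intro b hb
    rcases htwo (b : A) s (fun g => by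
      obtain ⟨r, hr⟩ := hb g
      refine ⟨r, ?_⟩
      rw [← hsm, hr]
      rfl) hs with ⟨q, hq⟩ | ⟨q, hq⟩ | ⟨q, hq⟩
    · have hqN : q ∈ N := hsat q (by rw [← hq]; exact b.2)
      exact ⟨⟨q, hqN⟩, Subtype.ext hq⟩
    · exact absurd hq (hs2 q)
    · exfalso
      have h1 := congrArg φ hq
      have h3 := b.2 1
      rw [one_smul] at h3
      rw [map_add, h3, zero_add, map_nsmul, two_nsmul] at h1
      obtain ⟨k, hk⟩ := hφ
      omega
  haveI hfinN := Pool.Agent.N273.PQ.finite_of_div hNfg (all_dbl hG hNfg hN2)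
  have h5 : IsOfFinAddOrder (⟨a, ha⟩ : N) := isOfFinAddOrder_of_finite _
  exact AddMonoidHom.isOfFinAddOrder N.subtype h5

section tensor

variable {A : Type} [AddCommGroup A]

/-- Torsion elements are zero in the tensor product. -/
theorem tmul_tors (z : ℂ) {a : A} (ha : IsOfFinAddOrder a) : z ⊗ₜ[ℤ] a = (0 : ℂ ⊗[ℤ] A) := by
  obtain ⟨n, hn, h⟩ := isOfFinAddOrder_iff_nsmul_eq_zero.1 ha
  have hn' : (n : ℂ) ≠ 0 := by exact_mod_cast hn.ne'
  have e : z = (n : ℤ) • (z / n) := by
    rw [zsmul_eq_mul]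
    push_cast
    field_simp
  rw [e, TensorProduct.smul_tmul, natCast_zsmul, h, TensorProduct.tmul_zero]

/-- The tensor product with a torsion group. -/
theorem tens_tors (h : ∀ a : A, IsOfFinAddOrder a) (x : ℂ ⊗[ℤ] A) : x = 0 := by
  induction x using TensorProduct.induction_on with
  | zero => rfl
  | tmul z a => exact tmul_tors z (h a)
  | add x y hx hy => rw [hx, hy, add_zero]

instance flatC : Module.Flat ℤ ℂ := inferInstance

/-- The functional on the tensor product. -/
noncomputable def Phi (φ : A →+ ℤ) : ℂ ⊗[ℤ] A →ₗ[ℂ] ℂ :=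
  (TensorProduct.AlgebraTensorModule.rid ℤ ℂ ℂ).toLinearMap ∘ₗ
    LinearMap.baseChange ℂ φ.toIntLinearMap

theorem Phi_tmul (φ : A →+ ℤ) (z : ℂ) (a : A) : Phi φ (z ⊗ₜ a) = (φ a : ℂ) * z := by
  unfold Phi
  simp

/-- Separation of the elements of the tensor product. -/
theorem sep {ι : Type} [Fintype ι] (ψ : ι → A →+ ℤ)
    (h : ∀ a : A, (∀ i, ψ i a = 0) → IsOfFinAddOrder a) (x : ℂ ⊗[ℤ] A)
    (hx : ∀ i, Phi (ψ i) x = 0) : x = 0 := by
  let Ψ : A →ₗ[ℤ] (ι → ℤ) := LinearMap.pi fun i => (ψ i).toIntLinearMap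
  have h1 : LinearMap.lTensor ℂ Ψ x = 0 := by
    apply (TensorProduct.piRight ℤ ℤ ℂ (fun _ : ι => ℤ)).injective
    rw [map_zero]
    funext i
    have e : ∀ y : ℂ ⊗[ℤ] A, TensorProduct.rid ℤ ℂ
        (TensorProduct.piRight ℤ ℤ ℂ (fun _ : ι => ℤ) (LinearMap.lTensor ℂ Ψ y) i) =
        Phi (ψ i) y := by
      intro y
      induction y using TensorProduct.induction_on with
      | zero => simp
      | tmul z a =>
        rw [LinearMap.lTensor_tmul, Phi_tmul]
        simp [Ψ]
      | add y z hy hz =>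
        rw [map_add, map_add, Pi.add_apply, map_add, hy, hz, map_add]
    apply (TensorProduct.rid ℤ ℂ).injective
    rw [e, hx i]
    simp
  have hex : Function.Exact (LinearMap.lTensor ℂ (LinearMap.ker Ψ).subtype) (LinearMap.lTensor ℂ Ψ) :=
    Module.Flat.lTensor_exact ℂ (LinearMap.exact_subtype_ker_map Ψ)
  obtain ⟨y, hy⟩ := (hex x).1 h1
  rw [← hy]
  have h2 : y = 0 := by
    apply tens_tors
    rintro ⟨a, ha⟩
    have h3 := h a (fun i => congrFun (LinearMap.mem_ker.1 ha) i)
    obtain ⟨n, hn, h4⟩ := isOfFinAddOrder_iff_nsmul_eq_zero.1 h3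
    exact isOfFinAddOrder_iff_nsmul_eq_zero.2 ⟨n, hn, Subtype.ext h4⟩
  rw [h2, map_zero]

end tensor

end Pool.Agent.Helper10.RM
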