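import Pool.Agent.Helper10.RM.SelF
import Pool.Agent.Helper10.RM.Fam8
import Pool.Agent.Helper10.RM.Grp

/-!
# Counting
-/

set_option autoImplicit false
set_option linter.all false

open Polynomial IsDedekindDomain WeierstrassCurve WeierstrassCurve.Affine NumberField
open scoped Classical IntermediateField

namespace Pool.Agent.Helper10.RM

open Pool.Agent.N922.PQ

/-- Many curves of the family are not bad. -/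
theorem good_card8 (κ : ℕ) {T : Finset ℤ} {A B : ℤ → ℤ}
    (hT : GoodT T A B) {α β : ℤ} (hα : Odd α) (hβ : Odd β) (Φ : ℤ → Prop)
    (hEX : ∀ r : ℕ, ∃ (S : Finset ℤ) (s : ℤ → ℤ), GoodS S s ∧ S.card = r ∧ Disjoint S T ∧
      ∀ Q ∈ S, Φ Q) :
    ∃ (S : Finset ℤ) (s : ℤ → ℤ) (c : ℝ), GoodS S s ∧ Disjoint S T ∧ (∀ Q ∈ S, Φ Q) ∧
      0 < c ∧ ∃ X₀ : ℕ, ∀ X ≥ X₀,
      c * (X : ℝ) ^ 5 ≤ ({p : ℤ × ℤ | (Fam X S s T A B p.1 p.2 ∧ (8 : ℤ) ∣ p.1 - α ∧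
        (8 : ℤ) ∣ p.2 - β) ∧ ¬ LBad κ X S s p.1 p.2}.ncard : ℝ) := by
  obtain ⟨c, hc, hfam⟩ := fam8 α β hα hβ T A B hT
  obtain ⟨K, hK⟩ := bad κ
  obtain ⟨r, hr⟩ : ∃ r : ℕ, 2 * (K : ℝ) / c < 2 ^ r :=
    pow_unbounded_of_one_lt _ (by norm_num)
  obtain ⟨S, s, hS, hcard, hdis, hΦ⟩ := hEX r
  obtain ⟨X₁, h1⟩ := hfam S s hS hdis
  obtain ⟨X₂, h2⟩ := hK S s hS
  set P : ℝ := ∏ Q ∈ S, (Q : ℝ) ^ 2 with hP
  have hP0 : 0 < P := Finset.prod_pos fun Q hQ => by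
    have : (0 : ℝ) < Q := by exact_mod_cast (hS Q hQ).1.1
    positivity
  refine ⟨S, s, c / (2 * P), hS, hdis, hΦ, by positivity, max X₁ X₂, fun X hX => ?_⟩
  have hF := h1 X ((le_max_left _ _).trans hX)
  obtain ⟨hfin, hB⟩ := h2 X ((le_max_right _ _).trans hX)
  have hd := Set.le_ncard_diff {p : ℤ × ℤ | LBad κ X S s p.1 p.2}
    {p : ℤ × ℤ | Fam X S s T A B p.1 p.2 ∧ (8 : ℤ) ∣ p.1 - α ∧ (8 : ℤ) ∣ p.2 - β} hfin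
  have e : {p : ℤ × ℤ | Fam X S s T A B p.1 p.2 ∧ (8 : ℤ) ∣ p.1 - α ∧ (8 : ℤ) ∣ p.2 - β} \
      {p : ℤ × ℤ | LBad κ X S s p.1 p.2} =
      {p : ℤ × ℤ | (Fam X S s T A B p.1 p.2 ∧ (8 : ℤ) ∣ p.1 - α ∧ (8 : ℤ) ∣ p.2 - β) ∧
        ¬ LBad κ X S s p.1 p.2} := rfl
  rw [e] at hd
  set F : ℕ := {p : ℤ × ℤ | Fam X S s T A B p.1 p.2 ∧ (8 : ℤ) ∣ p.1 - α ∧
    (8 : ℤ) ∣ p.2 - β}.ncard
  set Bd : ℕ := {p : ℤ × ℤ | LBad κ X S s p.1 p.2}.ncard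
  set G : ℕ := {p : ℤ × ℤ | (Fam X S s T A B p.1 p.2 ∧ (8 : ℤ) ∣ p.1 - α ∧ (8 : ℤ) ∣ p.2 - β) ∧
    ¬ LBad κ X S s p.1 p.2}.ncard
  have hd' : (F : ℝ) ≤ Bd + G := by
    have : F ≤ Bd + G := by omega
    exact_mod_cast this
  have hB' : (2 : ℝ) ^ r * P * Bd ≤ K * (X : ℝ) ^ 5 := by
    rw [hcard] at hB
    have h3 : ((2 ^ r * (∏ Q ∈ S, Q) ^ 2 * (Bd : ℤ) : ℤ) : ℝ) ≤ ((K * X ^ 5 : ℤ) : ℝ) := by
      exact_mod_cast hB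
    have e2 : ((2 ^ r * (∏ Q ∈ S, Q) ^ 2 * (Bd : ℤ) : ℤ) : ℝ) = (2 : ℝ) ^ r * P * Bd := by
      rw [hP, Finset.prod_pow]
      push_cast
      ring
    rw [e2] at h3
    refine h3.trans (le_of_eq ?_)
    push_cast
    ring
  have hF' : c * (X : ℝ) ^ 5 ≤ P * F := hF
  rw [div_lt_iff₀ hc] at hr
  have hPB : P * (Bd : ℝ) ≤ c / 2 * (X : ℝ) ^ 5 := by
    have h2r : (0 : ℝ) < 2 ^ r := by positivity
    rw [← mul_le_mul_iff_right₀ h2r]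
    calc 2 ^ r * (P * (Bd : ℝ)) = 2 ^ r * P * Bd := by ring
      _ ≤ K * (X : ℝ) ^ 5 := hB'
      _ = (2 * (K : ℝ)) * ((X : ℝ) ^ 5 / 2) := by ring
      _ ≤ (2 ^ r * c) * ((X : ℝ) ^ 5 / 2) := by gcongr
      _ = 2 ^ r * (c / 2 * (X : ℝ) ^ 5) := by ring
  have hPG : c / 2 * (X : ℝ) ^ 5 ≤ P * G := by
    have : (P : ℝ) * F ≤ P * Bd + P * G := by
      rw [← mul_add]
      exact mul_le_mul_of_nonneg_left hd' hP0.le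
    linarith
  calc c / (2 * P) * (X : ℝ) ^ 5 = c / 2 * (X : ℝ) ^ 5 / P := by
        field_simp
    _ ≤ P * G / P := by gcongr
    _ = G := by field_simp

/-- What is known about the good curves of the family. -/
structure Dat (F : Type) [Field F] [CharZero F] (α β a b D : ℤ) : Prop where
  ha : (8 : ℤ) ∣ a - α
  hb : (8 : ℤ) ∣ b - β
  D0 : D ≠ 0
  D8 : D % 8 = 1
  disc : 4 * (a * D ^ 2) ^ 3 + 27 * (b * D ^ 3) ^ 2 ≠ 0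
  nr : ∀ t : F, t ^ 3 + (a : F) * t + (b : F) ≠ 0
  fl : ∃ (L : Type) (_ : Field L) (_ : NumberField L) (θ : L), IsCub a b θ ∧
      (∀ (Ω : Type) [Field Ω] [CharZero Ω] (t : Ω), t ^ 3 + (a : Ω) * t + (b : Ω) = 0 →
        ∃ φ : L →+* Ω, φ θ = t) ∧ FL F a b D θ

theorem main8 (M : Type) [Field M] [NumberField M]
    [IsGalois ℚ M] {n : ℕ} (hM : Module.finrank ℚ M = 2 ^ n) {α β : ℤ} (hα : Odd α) (hβ : Odd β)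
    (good : ℤ × ℤ → Prop)
    (hgood : ∀ a b D : ℤ, Dat M α β a b D → good (a * D ^ 2, b * D ^ 3)) :
    ∃ (P X₀ : ℕ) (c : ℝ), 0 < c ∧ 1 ≤ P ∧ ∀ X : ℕ, X₀ ≤ X → ∀ H : ℕ, 27 * (X * P) ^ 6 ≤ H →
      c * (X : ℝ) ^ 5 ≤ ({p : ℤ × ℤ | Crv H p.1 p.2 ∧ good p}.ncard : ℝ) := by
  obtain ⟨κ, hLB'⟩ := lb
  obtain ⟨γ, g, δ, hG, hdeg⟩ := Pool.Agent.N40.PQ.gen M
  -- the prime divisors of `δ`
  obtain ⟨T₀, hT₀, hδ₀⟩ : ∃ T : Finset ℤ, (∀ P ∈ T, IsPr P) ∧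
      ∀ P : ℤ, IsPr P → P ∣ δ → P ∈ T := by
    have hf : {P : ℤ | IsPr P ∧ P ∣ δ}.Finite := by
      refine (Set.finite_Icc (-|δ|) |δ|).subset ?_
      rintro P ⟨-, h⟩
      have h3 : |P| ≤ |δ| := Int.le_of_dvd (abs_pos.2 hG.ne) ((abs_dvd_abs P δ).2 h)
      exact abs_le.1 h3
    refine ⟨hf.toFinset, fun P hP => ?_, fun P h1 h2 => ?_⟩
    · exact (hf.mem_toFinset.1 hP).1
    · exact hf.mem_toFinset.2 ⟨h1, h2⟩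
  obtain ⟨T, A, B, hTT, hT⟩ := Pool.Agent.N954.PQ.tch T₀ hT₀
  have hδ : ∀ P : ℤ, IsPr P → P ∣ δ → P ∈ T := fun P h1 h2 => hTT (hδ₀ P h1 h2)
  obtain ⟨S, s, c, hS, hdis, hsp, hc, X₀, hX₀⟩ := good_card8 κ hT hα hβ
    (fun Q => SplitMod Q g) (Pool.Agent.N40.PQ.spl M γ g δ hG hdeg T)
  have hSpos : 0 < ∏ Q ∈ S, Q := Finset.prod_pos fun Q hQ => (hS Q hQ).1.1
  refine ⟨(∏ Q ∈ S, Q).toNat, X₀, c / 2 ^ S.card,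
    by positivity, by omega, fun X hX Hh hHh => ?_⟩
  have hN := hX₀ X hX
  set Hs := {p : ℤ × ℤ | Crv Hh p.1 p.2 ∧ good p} with hH
  set G := {p : ℤ × ℤ | (Fam X S s T A B p.1 p.2 ∧ (8 : ℤ) ∣ p.1 - α ∧ (8 : ℤ) ∣ p.2 - β) ∧
    ¬ LBad κ X S s p.1 p.2} with hG'
  have hHf : Hs.Finite := (crv_fin Hh).subset fun p hp => hp.1
  have hbd : 27 * ((X : ℤ) * ∏ Q ∈ S, Q) ^ 6 ≤ Hh := by
    have h1 : ((27 * (X * (∏ Q ∈ S, Q).toNat) ^ 6 : ℕ) : ℤ) ≤ Hh := by exact_mod_cast hHh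
    have e1 : (((∏ Q ∈ S, Q).toNat : ℕ) : ℤ) = ∏ Q ∈ S, Q := Int.toNat_of_nonneg hSpos.le
    rw [Nat.cast_mul, Nat.cast_pow, Nat.cast_mul, e1] at h1
    exact_mod_cast h1
  have hcard := card_fib hHf S
    (fun (J : Finset ℤ) (p : ℤ × ℤ) => (p.1 * (∏ Q ∈ J, Q) ^ 2, p.2 * (∏ Q ∈ J, Q) ^ 3)) (G := G) (by
      rintro p ⟨⟨hpF, hpa, hpb⟩, hnb⟩
      obtain ⟨J, hJ, L, iF, iN, θ, hcub, hu, hnr, hfl⟩ := exists_fl hLB' M hM hS hpF hnb hT hG hsp hδ hdis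
      refine ⟨J, hJ, ?_⟩
      have hcrv := Pool.Agent.N707.PQ.crv X Hh S T s A B p.1 p.2 hS hT hpF J hJ hbd
      have hD1 : 0 < (∏ Q ∈ J, Q) := Finset.prod_pos fun Q hQ => (hS Q (hJ hQ)).1.1
      have hD8 : (∏ Q ∈ J, Q) % 8 = 1 := prod_mod8 fun Q hQ => (hS Q (hJ hQ)).2.1
      exact ⟨hcrv, hgood p.1 p.2 _ ⟨hpa, hpb, hD1.ne', hD8, hcrv.disc, hnr, L, iF, iN, θ, hcub, hu,
        hfl⟩⟩) (by
      intro J hJ x hx y hy hxy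
      have hD0 : (∏ Q ∈ J, Q) ≠ 0 := by
        rw [Finset.prod_ne_zero_iff]
        exact fun Q hQ => (hS Q (hJ hQ)).1.2.ne_zero
      rw [Prod.mk.injEq] at hxy
      exact twist_inj hD0 hxy.1 hxy.2)
  have hcard' : (G.ncard : ℝ) ≤ 2 ^ S.card * Hs.ncard := by exact_mod_cast hcard
  calc c / 2 ^ S.card * (X : ℝ) ^ 5
      = c * (X : ℝ) ^ 5 / 2 ^ S.card := by ring
    _ ≤ (G.ncard : ℝ) / 2 ^ S.card := by gcongr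
    _ ≤ (2 ^ S.card * Hs.ncard) / 2 ^ S.card := by gcongr
    _ = Hs.ncard := by field_simp

/-- A positive proportion of all curves is good. -/
theorem final8 (M : Type) [Field M] [NumberField M]
    [IsGalois ℚ M] {n : ℕ} (hM : Module.finrank ℚ M = 2 ^ n) {α β : ℤ} (hα : Odd α) (hβ : Odd β)
    (good : ℤ × ℤ → Prop)
    (hgood : ∀ a b D : ℤ, Dat M α β a b D → good (a * D ^ 2, b * D ^ 3)) :
    ∃ c : ℝ, 0 < c ∧ ∃ H₀ : ℕ, ∀ H ≥ H₀, {p : ℤ × ℤ | Crv H p.1 p.2}.Finite ∧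
    c * ({p : ℤ × ℤ | Crv H p.1 p.2}.ncard : ℝ) ≤
      ({p : ℤ × ℤ | Crv H p.1 p.2 ∧ good p}.ncard : ℝ) := by
  obtain ⟨P, X₀, c, hc, hP, h⟩ := main8 M hM hα hβ good hgood
  exact Pool.Agent.N607.PQ.cnt good P X₀ c hc hP
    fun X hX Hh hHh => h X hX Hh hHh

end Pool.Agent.Helper10.RM
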