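import Pool.Agent.Helper10.RM.TwL

/-!
# The twist by two: the classes over the extension, and descent of the local condition
-/

set_option autoImplicit false
set_option linter.all false

open Polynomial IsDedekindDomain NumberField WithZero
open scoped Classical

namespace Pool.Agent.Helper10.RM

open Pool.Agent.N922.PQ Pool.Agent.N323.PV Pool.Agent.N951.PV

section types

variable {F Γ : Type} [Field F] [CharZero F] [LinearOrderedCommGroupWithZero Γ]
  {v : Valuation F Γ}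

theorem val_of {c : F} (hc : c ≠ 0) (hu : ∀ x : F, v x < 1 → v x ≤ v c) (h2 : v c ^ 2 ≤ v 2)
    (w : F) (hw : v 2 * v w ^ 2 < 1) : v w ≤ 1 := by
  by_contra hlt
  rw [not_le] at hlt
  have hw0 : 0 < v w := lt_trans zero_lt_one hlt
  have h1 : v (1 / w) < 1 := by
    rw [map_div₀, map_one, one_div]
    exact inv_lt_one_of_one_lt₀ hlt
  have h3 : v (1 / w) ^ 2 ≤ v 2 := (pow_le_pow_left₀ zero_le' (hu _ h1) 2).trans h2
  rw [map_div₀, map_one, div_pow, one_pow, div_le_iff₀ (pow_pos hw0 2)] at h3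
  exact absurd hw (not_lt.2 h3)

/-- Unramified, the twist by two. -/
theorem admM_unr (hv2 : v 2 < 1) (hu : ∀ x : F, v x < 1 → v x ≤ v 2) : AdmM 2 v 3 3 := by
  intro a b ha hb g₁ g₂ r s t hr hs ht hPM
  have ha4 : a % 4 = 3 := by omega
  have hbo : Odd b := by rw [Int.odd_iff]; omega
  refine cls_of_two (b := b) ha4 ?_
  have h2ne : (2 : F) ≠ 0 := two_ne_zero
  have hdv : ∀ z : v.integer, v (z : F) < 1 → ∃ c : v.integer, z = 2 * c := by
    intro z hz
    refine ⟨⟨(z : F) / 2, quot_le h2ne (hu _ hz)⟩, ?_⟩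
    apply Subtype.ext
    show (z : F) = 2 * ((z : F) / 2)
    rw [mul_div_cancel₀ _ h2ne]
  have hlt : ∀ z : v.integer, v ((2 * z : v.integer) : F) < 1 := by
    intro z
    show v (2 * (z : F)) < 1
    rw [map_mul]
    exact mul_lt_one_of_nonneg_of_lt_one_left zero_le' hv2 z.2
  have hsqd : ∀ z c : v.integer, z ^ 2 = 2 * c → ∃ d : v.integer, z = 2 * d := by
    intro z c hz
    apply hdv
    have h1 := hlt c
    rw [← hz] at h1
    have h3 : v ((z : F) ^ 2) < 1 := h1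
    rw [map_pow] at h3
    by_contra hc
    rw [not_lt] at hc
    exact absurd h3 (not_lt.2 (one_le_pow₀ hc))
  have hcan : ∀ x y : v.integer, 2 * x = 2 * y → x = y := by
    intro x y h
    apply Subtype.ext
    have h1 : (2 : F) * (x : F) = 2 * (y : F) := congrArg Subtype.val h
    exact mul_left_cancel₀ h2ne h1
  have hno : ∀ z : v.integer, (1 : v.integer) ≠ 2 * z := by
    intro z hz
    have h1 := hlt z
    rw [← hz] at h1
    have h3 : v (1 : F) < 1 := h1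
    rw [map_one] at h3
    exact lt_irrefl _ h3
  obtain ⟨b1, hb1⟩ := hbo
  have hbO : (b : v.integer) = 1 + 2 * b1 := by
    rw [hb1]
    push_cast
    ring
  refine calT hv2 (val_of h2ne hu ?_) ⟨b1, hb1⟩ (Even g₂) g₁ g₂ ?_ ?_ r s t hr hs ht hPM
  · calc v 2 ^ 2 = v 2 * v 2 := pow_two _
      _ ≤ v 2 * 1 := by gcongr
      _ = v 2 := mul_one _
  · intro w R S' T t0 t1 t2 e0 e1 e2
    obtain ⟨u2, hu2⟩ := hsqd t2 (t0 * t1 - t1 * t2 * a - g₁ + w ^ 2 - 2 * S' - b1 * t2 ^ 2) (by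
      linear_combination e1 - t2 ^ 2 * hbO)
    obtain ⟨u1, hu1⟩ := hsqd t1 (g₂ + 2 * T - t0 * t2 + a * u2 * t2) (by
      rw [hu2] at e2 ⊢
      linear_combination -e2)
    have h3 : (g₂ : v.integer) = 2 * (u1 ^ 2 + t0 * u2 - u2 ^ 2 * a - T) := by
      apply hcan
      rw [hu1, hu2] at e2
      linear_combination e2
    by_contra hodd
    rw [Int.not_even_iff_odd] at hodd
    obtain ⟨k, hk⟩ := hodd
    have h4 : (g₂ : v.integer) = 2 * k + 1 := by
      rw [hk]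
      push_cast
      ring
    apply hno (u1 ^ 2 + t0 * u2 - u2 ^ 2 * a - T - k)
    linear_combination h3 - h4
  · intro r s t x t0 t1 t2 e0 e1 e2
    exfalso
    obtain ⟨u2, hu2⟩ := hsqd t2 (-(x * (2 * g₁ + 4 * s) - (1 + 4 * r) + (2 * g₂ + 4 * t) * a) +
      t0 * t1 - t1 * t2 * a - b1 * t2 ^ 2) (by
      linear_combination e1 - t2 ^ 2 * hbO)
    obtain ⟨u1, hu1⟩ := hsqd t1 (x * (2 * g₂ + 4 * t) - (2 * g₁ + 4 * s) - t0 * t2 +
      a * u2 * t2) (by
      rw [hu2] at e2 ⊢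
      linear_combination -e2)
    obtain ⟨u0, hu0⟩ := hsqd t0 (x * (1 + 4 * r) + (2 * g₂ + 4 * t) * b + t1 * t2 * b) (by
      linear_combination -e0)
    apply hno (x * (g₁ + 2 * s) - 2 * r + (g₂ + 2 * t) * a - 2 * u0 * u1 +
      2 * u1 * u2 * a + u2 ^ 2 * b - 0)
    have h3 : 2 * (x * (g₁ + 2 * s) - 2 * r + (g₂ + 2 * t) * a) - 1 =
        2 * (2 * u0 * u1 - 2 * u1 * u2 * a - u2 ^ 2 * b) := by
      apply hcan
      rw [hu0, hu1, hu2] at e1
      linear_combination e1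
    linear_combination -h3

variable {ϖ : F}

/-- The structure needed for the twist by two. -/
theorem Unif.rn (H : Unif v ϖ) (hk : ∀ u : F, v u ≤ 1 → ¬ v (u ^ 3 + u + 1) < 1) :
    Rn H.pi H.up H.ka where
  two := by
    apply Subtype.ext
    show (2 : F) = ϖ ^ 2 * (2 / ϖ ^ 2)
    rw [mul_div_cancel₀ _ (pow_ne_zero 2 H.ne)]
  inv := by
    apply Subtype.ext
    show (2 / ϖ ^ 2) * (ϖ ^ 2 / 2) = (1 : F)
    have := H.ne
    field_simp
  can := by
    intro u w h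
    apply Subtype.ext
    have h1 : ϖ * (u : F) = ϖ * (w : F) := congrArg Subtype.val h
    exact mul_left_cancel₀ H.ne h1
  one := by
    intro h
    have h1 := H.lt_of_dvd h
    have h2 : v (1 : F) < 1 := h1
    rw [map_one] at h2
    exact lt_irrefl _ h2
  sqd := by
    intro u h
    have h1 := H.lt_of_dvd h
    have h2 : v ((u : F) ^ 2) < 1 := h1
    rw [map_pow] at h2
    apply H.dvd
    by_contra hc
    rw [not_lt] at hc
    exact absurd h2 (not_lt.2 (one_le_pow₀ hc))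
  res := by
    intro u
    have h1 := hk u u.2
    rw [not_lt] at h1
    have h2' : v ((u ^ 3 + u + 1 : v.integer) : F) ≤ 1 := (u ^ 3 + u + 1 : v.integer).2
    have h2 : v ((u : F) ^ 3 + (u : F) + 1) ≤ 1 := h2'
    have h3 : (u : F) ^ 3 + (u : F) + 1 ≠ 0 := by
      intro h0
      rw [h0, map_zero] at h1
      exact absurd h1 (not_le.2 zero_lt_one)
    refine ⟨⟨1 / ((u : F) ^ 3 + (u : F) + 1), ?_⟩, ?_⟩
    · show v (1 / ((u : F) ^ 3 + (u : F) + 1)) ≤ 1
      rw [map_div₀, map_one]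
      exact div_le_one_of_le₀ h1 zero_le'
    · apply Subtype.ext
      show ((u : F) ^ 3 + (u : F) + 1) * (1 / ((u : F) ^ 3 + (u : F) + 1)) = 1
      rw [mul_one_div, div_self h3]

/-- Ramified, the twist by two. -/
theorem admM_ram (H : Unif v ϖ) (hk : ∀ u : F, v u ≤ 1 → ¬ v (u ^ 3 + u + 1) < 1)
    (hN : ∀ x : F, ¬ v (x ^ 2 - 2) ≤ v 4) : AdmM 2 v 3 3 := by
  intro a b ha hb g₁ g₂ r s t hr hs ht hPM
  have ha4 : a % 4 = 3 := by omega
  have hbo : Odd b := by rw [Int.odd_iff]; omega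
  have hao : Odd a := by rw [Int.odd_iff]; omega
  refine cls_of_two (b := b) ha4 ?_
  have RN := H.rn hk
  refine calT H.two (val_of H.ne H.uni H.sq.le) hbo (Even g₂) g₁ g₂ ?_ ?_ r s t hr hs ht hPM
  · intro w R S' T t0 t1 t2 e0 e1 e2
    exact twI RN hao hbo g₁ g₂ w R S' T t0 t1 t2 e0 e1 e2
  · intro r s t x t0 t1 t2 e0 e1 e2
    exfalso
    obtain ⟨ρ, c, hρ⟩ := twII RN hbo g₁ g₂ r s t x t0 t1 t2 e0 e1 e2
    have h1 : (2 : F) / ϖ ^ 2 = (ρ : F) ^ 2 + ϖ ^ 2 * (c : F) := congrArg Subtype.val hρ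
    apply hN (ϖ * ρ)
    have h2 : (ϖ * (ρ : F)) ^ 2 - 2 = -(ϖ ^ 4 * (c : F)) := by
      have h3 := H.ne
      rw [div_eq_iff (pow_ne_zero 2 h3)] at h1
      linear_combination -h1
    rw [h2, Valuation.map_neg, map_mul, map_pow, H.four]
    exact mul_le_of_le_one_right zero_le' c.2

end types

/-- Descent of the local condition. -/
theorem ud_m {L : Type} [Field L] [NumberField L] {m a b : ℤ} {θ : L} (hc : IsCub a b θ)
    (ha : Odd a) (hab : (4 : ℤ) ∣ a - b) {x : L} (hx : x ≠ 0) (hN : IsSquare (Algebra.norm ℚ x))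
    {F Γ : Type} [Field F] [CharZero F] [LinearOrderedCommGroupWithZero Γ] (v : Valuation F Γ)
    (hv : v 2 < 1) (hcl : ClsM m v a b)
    (hPL : ∀ h : ℚ[X], aeval θ h = x → PM F m a b (h.map (algebraMap ℚ F))) : Loc2 a b θ x := by
  have hb : Odd b := by
    obtain ⟨k, hk⟩ := ha
    obtain ⟨l, hl⟩ := hab
    exact ⟨k - 2 * l, by omega⟩
  obtain ⟨c, g₁, g₂, r, s, t, hc0, hr, hs, ht, hα⟩ := Pool.Agent.N907.PV.t_NF2 L a b θ hc ha hb x hx hN
  obtain ⟨k, hk⟩ := hc.exists_poly c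
  obtain ⟨k', hk'⟩ := hc.exists_poly c⁻¹
  set P : ℚ[X] := pol ℚ g₁ g₂ ((g₁ * (1 + g₂) : ℤ) + 2 * r) s t with hP
  have e1 : aeval θ (k ^ 2 * P) = x := by
    rw [map_mul, map_pow, hk, hα]
  have e2 : aeval θ (k' ^ 2 * (k ^ 2 * P)) = aeval θ P := by
    rw [map_mul, map_pow, hk', e1, hα, ← mul_assoc, ← mul_pow, inv_mul_cancel₀ hc0, one_pow, one_mul]
  have h3 := pm_sq (k'.map (algebraMap ℚ F)) (hPL _ e1)
  rw [← Polynomial.map_pow, ← Polynomial.map_mul] at h3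
  have h4 := pm_congr (cast_congr hc F e2) h3
  rw [hP, pol_map] at h4
  have hr2 : v ((((g₁ * (1 + g₂) : ℤ) : ℚ) + 2 * r : ℚ) : F) ≤ 1 := by
    push_cast
    refine (v.map_add _ _).trans (max_le ?_ ?_)
    · have := v_int v (g₁ * (1 + g₂))
      push_cast at this
      exact this
    · rw [map_mul]
      exact mul_le_one' hv.le (v_rat v hv r hr)
  have h5 := hcl g₁ g₂ _ _ _ hr2 (v_rat v hv s hs) (v_rat v hv t ht) h4
  have hnd : ∀ q : ℚ, Odd q.den → ‖(q : ℚ_[2])‖ ≤ 1 := by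
    intro q hq
    apply Padic.norm_rat_le_one
    intro h
    exact (Nat.not_even_iff_odd.2 hq) (even_iff_two_dvd.2 h)
  refine loc2_of hc ha hab hα ?_ (hnd s hs) (hnd t ht) h5
  have e : ((((g₁ * (1 + g₂) : ℤ) : ℚ) + 2 * r : ℚ) : ℚ_[2]) - ((g₁ * (1 + g₂) : ℤ) : ℚ_[2]) =
      2 * (r : ℚ_[2]) := by
    push_cast
    ring
  rw [e, norm_mul, norm_two]
  have := hnd r hr
  linarith

end Pool.Agent.Helper10.RM
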