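import Pool.Agent.Helper10.RM.Key
import Pool.Agent.Helper10.RM.TwM

/-!
# Points whose class modulo two is invariant, for the twists by `m D`
-/

set_option autoImplicit false
set_option linter.all false

open Polynomial IsDedekindDomain WeierstrassCurve WeierstrassCurve.Affine NumberField
open scoped Classical IntermediateField

namespace Pool.Agent.Helper10.RM

open Pool.Agent.N922.PQ

/-- The local condition at `2`. -/
def LCm (K R : Type) [Field K] [NumberField K] [CommRing R] [IsDedekindDomain R] [Algebra R K]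
    [IsFractionRing R K] (m α β : ℤ) : Prop :=
  ∃ w : HeightOneSpectrum R, Ov 2 w ∧
    AdmM m (Valued.v : Valuation (w.adicCompletion K) (WithZero (Multiplicative ℤ))) α β

theorem lc_to_m {K R : Type} [Field K] [NumberField K] [CommRing R] [IsDedekindDomain R]
    [Algebra R K] [IsFractionRing R K] {α β : ℤ} (h : LC K R α β) : LCm K R 1 α β := by
  obtain ⟨w, hw, h⟩ := h
  exact ⟨w, hw, adm_to_m h⟩

/-- The local condition at `2` of a point. -/
theorem pm_pt {K R : Type} [Field K] [NumberField K] [CommRing R] [IsDedekindDomain R] [Algebra R K]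
    [IsFractionRing R K] [IsIntegralClosure R ℤ K] {m a b D : ℤ} (hm : m ≠ 0) (hD : D ≠ 0)
    (hD8 : D % 8 = 1)
    (w : HeightOneSpectrum R) (hw : Ov 2 w) (hnr : ∀ t : K, t ^ 3 + (a : K) * t + (b : K) ≠ 0)
    {W : Affine K} (hW : IsW W (((a * (m * D) ^ 2 : ℤ)) : K) (((b * (m * D) ^ 3 : ℤ)) : K))
    (P : W.Point) :
    PM (w.adicCompletion K) m a b ((cls (m * D) P).map (algebraMap K (w.adicCompletion K))) := by
  rcases P with _ | ⟨x, y, hP⟩
  · left
    refine ⟨1, ?_⟩
    show _ ∣ (1 : K[X]).map _ - _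
    rw [Polynomial.map_one, one_pow, sub_self]
    exact dvd_zero _
  · have e := hW.eqn hP
    have hy : y ≠ 0 := by
      rintro rfl
      apply no_root_tw' hnr (mul_ne_zero hm hD) x
      rw [← e]
      ring
    obtain ⟨η, hη⟩ := Pool.Agent.N279.PV.sqd K R w hw D hD8
    haveI : CharZero (w.adicCompletion K) :=
      charZero_of_injective_algebraMap (algebraMap K (w.adicCompletion K)).injective
    have hDne : ((D : ℤ) : w.adicCompletion K) ≠ 0 := by exact_mod_cast hD
    have hη0 : η ≠ 0 := by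
      rintro rfl
      rw [zero_mul] at hη
      exact hDne hη
    obtain ⟨x', hx'⟩ : ∃ x', x' = algebraMap K (w.adicCompletion K) x := ⟨_, rfl⟩
    obtain ⟨y', hy'⟩ : ∃ y', y' = algebraMap K (w.adicCompletion K) y := ⟨_, rfl⟩
    have hy0 : y' ≠ 0 := by
      rw [hy']
      exact (_root_.map_ne_zero _).2 hy
    have hE : y' ^ 2 = x' ^ 3 + (a : w.adicCompletion K) * ((m : w.adicCompletion K) * (D : ℤ)) ^ 2 * x' +
        (b : w.adicCompletion K) * ((m : w.adicCompletion K) * (D : ℤ)) ^ 3 := by
      have h1 := congrArg (algebraMap K (w.adicCompletion K)) e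
      rw [map_pow, map_add, map_add, map_mul, map_pow, map_intCast, map_intCast, ← hx', ← hy'] at h1
      rw [h1]
      push_cast
      ring
    right
    refine ⟨x' / η ^ 2, y' / η ^ 3, div_ne_zero hy0 (pow_ne_zero 3 hη0), ?_,
      C η * (C (x' / η ^ 2) - C (m : w.adicCompletion K) * X), ?_⟩
    · rw [hη] at hE
      rw [div_pow, div_pow, hE]
      field_simp
    · have e2 : (cls (m * D) (Point.some x y hP : W.Point)).map
          (algebraMap K (w.adicCompletion K)) =
          C (η ^ 2) * (C (x' / η ^ 2) - C (m : w.adicCompletion K) * X) := by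
        show (C x - C ((m * D : ℤ) : K) * X).map _ = _
        have e3 : algebraMap K (w.adicCompletion K) ((m * D : ℤ) : K) =
            η ^ 2 * (m : w.adicCompletion K) := by
          rw [map_intCast]
          push_cast
          rw [hη]
          ring
        rw [Polynomial.map_sub, Polynomial.map_mul, Polynomial.map_C, Polynomial.map_C,
          Polynomial.map_X, e3, ← hx', mul_sub, ← mul_assoc, ← C_mul, ← C_mul,
          mul_div_cancel₀ _ (pow_ne_zero 2 hη0)]
      rw [e2]
      have e4 : (C (x' / η ^ 2) - C (m : w.adicCompletion K) * X) *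
          (C (η ^ 2) * (C (x' / η ^ 2) - C (m : w.adicCompletion K) * X)) -
          (C η * (C (x' / η ^ 2) - C (m : w.adicCompletion K) * X)) ^ 2 = 0 := by
        rw [map_pow]
        ring
      rw [e4]
      exact dvd_zero _

/-- With the local condition at `2`: the invariant points are divisible by two. -/
theorem oneM {F K R : Type} [Field F] [CharZero F] [Field K] [NumberField K] [IsGalois ℚ K]
    [Algebra K F] [CommRing R] [IsDedekindDomain R] [Algebra R K] [IsFractionRing R K]
    [IsIntegralClosure R ℤ K] {n : ℕ} (hK : Module.finrank ℚ K = 2 ^ n) {L : Type} [Field L]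
    [NumberField L] {m a b D : ℤ} (hm : m ≠ 0) (hD : D ≠ 0) (hD8 : D % 8 = 1) {θ : L}
    (hc : IsCub a b θ)
    (hu : ∀ (Ω : Type) [Field Ω] [CharZero Ω] (t : Ω), t ^ 3 + (a : Ω) * t + (b : Ω) = 0 →
        ∃ φ : L →+* Ω, φ θ = t)
    (ha : Odd a) (hab : (4 : ℤ) ∣ a - b) {α β : ℤ} (h8 : (8 : ℤ) ∣ a - α) (h8' : (8 : ℤ) ∣ b - β)
    (hnr : ∀ t : K, t ^ 3 + (a : K) * t + (b : K) ≠ 0) (hFL : FL F a b (m * D) θ)
    (hLC : LCm K R m α β) {W : Affine K}
    (hW : IsW W (((a * (m * D) ^ 2 : ℤ)) : K) (((b * (m * D) ^ 3 : ℤ)) : K)) {W' : Affine F}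
    (hW' : IsW W' (((a * (m * D) ^ 2 : ℤ)) : F) (((b * (m * D) ^ 3 : ℤ)) : F))
    (ι : W.Point → W'.Point)
    (h0 : ι 0 = 0) (hι : ∀ x y h, ∃ h', ι (Point.some x y h) =
      Point.some (algebraMap K F x) (algebraMap K F y) h')
    {act : (K ≃+* K) → W.Point → W.Point} (hact : IsAct act) (P : W.Point)
    (hP : ∀ σ : K ≃ₐ[ℚ] K, ∃ R : W.Point, act σ P = P + (2 : ℕ) • R) :
    ∃ Q : W.Point, P = (2 : ℕ) • Q := by
  have hmD : m * D ≠ 0 := mul_ne_zero hm hD
  obtain ⟨Ω, _, _, _, _, hΩ, htop, hmin⟩ := exists_om hnr hc hu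
  obtain ⟨x, u, hx, hu0, hxu, hN⟩ := inv_desc hK hmD hc hΩ hW hact P hP
  obtain ⟨h, k, hh, hk1, hk2⟩ := rel_poly hc hΩ hmin hu0 hxu
  obtain ⟨w, hw, hadm⟩ := hLC
  -- the local condition
  have hloc : Loc2 a b θ x := by
    have hcl := hadm a b h8 h8'
    have hv2 : Valued.v (2 : w.adicCompletion K) < 1 := by
      have h1 := HeightOneSpectrum.valuedAdicCompletion_eq_valuation' (K := K) w (2 : K)
      have e : ((2 : K) : w.adicCompletion K) = 2 := map_ofNat (algebraMap K (w.adicCompletion K)) 2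
      rw [e] at h1
      rw [h1]
      have h2 := (ov_val (L := K) 2 w).1 hw
      exact_mod_cast h2
    haveI : CharZero (w.adicCompletion K) :=
      charZero_of_injective_algebraMap (algebraMap K (w.adicCompletion K)).injective
    refine ud_m hc ha hab hx hN Valued.v hv2 hcl ?_
    intro h' hh'
    have h1 := pm_pt (R := R) hm hD hD8 w hw hnr hW P
    have h2 := pm_sq (k.map (algebraMap K (w.adicCompletion K))) h1
    refine pm_congr ?_ h2
    have h3 : ff K a b ∣ k ^ 2 * cls (m * D) P - h'.map (algebraMap ℚ K) := by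
      rw [← hmin]
      apply minpoly.dvd
      rw [← hmin] at hk2
      obtain ⟨g, hg⟩ := hk2
      have h4 := congrArg (aeval (algebraMap L Ω θ)) hg
      have e5 : ∀ q : ℚ[X], aeval (algebraMap L Ω θ) (q.map (algebraMap ℚ K)) =
          algebraMap L Ω (aeval θ q) := fun q => by
        rw [aeval_map_algebraMap, aeval_algebraMap_apply]
      rw [map_sub, map_mul, map_mul, map_pow, minpoly.aeval, zero_mul, e5, hh] at h4
      rw [map_sub, map_mul, map_pow, e5, hh']
      linear_combination -h4
    have h5 := Polynomial.map_dvd (algebraMap K (w.adicCompletion K)) h3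
    rw [ff_map, Polynomial.map_sub, Polynomial.map_mul, Polynomial.map_pow, Polynomial.map_map] at h5
    have e : (algebraMap K (w.adicCompletion K)).comp (algebraMap ℚ K) =
        algebraMap ℚ (w.adicCompletion K) := RingHom.ext_rat _ _
    rw [e] at h5
    exact h5
  obtain ⟨g1, g2⟩ := rel_up ι h0 hι hk1 hk2
  have hsq := hFL W' hW' (ι P) h _ g1 g2 (by rw [hh]; exact hx) (by rw [hh]; exact hN)
    (by rw [hh]; exact hloc)
  rw [hh] at hsq
  refine halve hW (cb_tw hmD hΩ) P ?_
  rw [hxu]
  exact isSq_of_mul hu0 (hsq.map _)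

end Pool.Agent.Helper10.RM
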