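import Pool.Agent.Helper10.RM.SelF
import Pool.Agent.Helper10.RM.KeyM

/-!
# The choice of the twist, for twists by `m D`

After `Pool.Agent.N922.PQ.Big3` of the library.
-/

set_option autoImplicit false
set_option linter.all false

open Polynomial IsDedekindDomain WeierstrassCurve WeierstrassCurve.Affine NumberField
open scoped Classical IntermediateField

namespace Pool.Agent.Helper10.RM

open Pool.Agent.N922.PQ
open Pool.Agent.N874.PP (Tup chA chB gq tau Two Ev Sq1 U0 sW IsBeta Rt)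
open Pool.Agent.N874.PM (PLoc Lies SelR ShaR S_LOC1M S_LOC2M)

theorem ov_dvd {R : Type} [CommRing R] [IsDedekindDomain R] {P Q : ℤ} {w : HeightOneSpectrum R}
    (h : P ∣ Q) (hP : Ov P w) : Ov Q w := by
  obtain ⟨c, rfl⟩ := h
  unfold Ov at *
  rw [Int.cast_mul]
  exact Ideal.mul_mem_right _ _ hP

section top

variable {L M Ω : Type} (O O' R : Type) [Field L] [NumberField L] [Field M] [NumberField M]
  [Field Ω] [NumberField Ω] [Algebra L Ω] [Algebra M Ω]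
  [CommRing O] [IsDedekindDomain O] [Algebra O L] [IsFractionRing O L] [IsIntegralClosure O ℤ L]
  [CommRing O'] [IsDedekindDomain O'] [Algebra O' Ω] [IsFractionRing O' Ω]
  [IsIntegralClosure O' ℤ Ω]
  [CommRing R] [IsDedekindDomain R] [Algebra R M] [IsFractionRing R M] [IsIntegralClosure R ℤ M]

include O in
/-- The local conditions for the twist by `m D`. -/
theorem cnd_topM (hEXQ : S_EXQ) (hUR : S_UR) (hSPD : S_SPD) (hLIE : S_LIE) (hLOC1M : S_LOC1M)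
    (hLOC2M : S_LOC2M) {m a b : ℤ} (hm : m ∣ 2) {θ : L} {X' : ℕ} {S J T : Finset ℤ}
    {s A B : ℤ → ℤ} (hc : IsCub a b θ) (hS : GoodS S s)
    (hF : Fam X' S s T A B a b) {γ : M} {g : ℤ[X]} {δ : ℤ} (hG : Gen ℚ γ g δ)
    (hG' : Gen L (algebraMap M Ω γ) g δ) (hsp : ∀ Q ∈ S, SplitMod Q g)
    (hT : GoodT T A B)
    (hδ : ∀ P : ℤ, IsPr P → P ∣ δ → P ∈ T) (hdis : Disjoint S T)
    (hJ : J ⊆ S) {h : M[X]}
    (hloc : ∀ w : HeightOneSpectrum R, ¬ Ov 2 w → PLoc (w.adicCompletion M)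
      (((a * (m * ∏ Q ∈ J, Q) ^ 2 : ℤ)) : M) (((b * (m * ∏ Q ∈ J, Q) ^ 3 : ℤ)) : M) h)
    (h0 : aeval (((m * ∏ Q ∈ J, Q : ℤ) : Ω) * algebraMap L Ω θ) h ≠ 0) :
    Cnd O' J T (algebraMap L Ω θ) (aeval (((m * ∏ Q ∈ J, Q : ℤ) : Ω) * algebraMap L Ω θ) h)
    := by
  haveI : Algebra.IsIntegral ℤ R := IsIntegralClosure.isIntegral_algebra ℤ M
  haveI : Algebra.IsIntegral ℤ O' := IsIntegralClosure.isIntegral_algebra ℤ Ω
  haveI : CharZero R := charZero_of R M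
  haveI : CharZero O' := charZero_of O' Ω
  have hT' : ∀ P ∈ T, IsPr P := fun P hP => (hT.2.2 P hP).1
  have hroot : (algebraMap L Ω θ) ^ 3 + algebraMap M Ω (a : M) * algebraMap L Ω θ +
      algebraMap M Ω (b : M) = 0 := by
    have h1 := congrArg (algebraMap L Ω) hc.root
    rw [map_zero, map_add, map_add, map_mul, map_pow, map_intCast, map_intCast] at h1
    rw [map_intCast, map_intCast]
    exact h1
  -- at the primes in `J`
  have key : ∀ Q ∈ J, ∀ 𝔓 : HeightOneSpectrum O', Ov Q 𝔓 →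
      (𝔓.valuation Ω (algebraMap L Ω θ) = 1 → U0 𝔓 ((Q : Ω) * algebraMap L Ω θ)
        (aeval (((m * ∏ Q ∈ J, Q : ℤ) : Ω) * algebraMap L Ω θ) h)) ∧
      (𝔓.valuation Ω (algebraMap L Ω θ) < 1 →
        Ev 𝔓 (aeval (((m * ∏ Q ∈ J, Q : ℤ) : Ω) * algebraMap L Ω θ) h)) := by
    intro Q hQ 𝔓 h𝔓
    have hQS := hJ hQ
    obtain ⟨w, hw, hO⟩ := hLIE M Ω R O' 𝔓
    have hQw : Ov Q w := (hO Q).2 h𝔓
    have hδw : ¬ Ov δ w := not_ov_delta hδ hS hT' hdis hQS hQw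
    have hδ𝔓 : ¬ Ov δ 𝔓 := fun h => hδw ((hO δ).2 h)
    have h2w : ¬ Ov 2 w := not_ov_T hS hT' hdis hQS hT.1 hQw
    have h3w : ¬ Ov 3 w := not_ov_T hS hT' hdis hQS hT.2.1 hQw
    obtain ⟨v, hv⟩ := (hUR ℚ M ℤ R γ g δ hG).1 w hδw
    haveI : Finite (R ⧸ w.asIdeal) :=
      Pool.Agent.N42.PQ.finite_residue (L := M) (hS Q hQS).1.2.ne_zero hQw
    have hprod : (∏ P ∈ J, P) = Q * ∏ P ∈ J.erase Q, P := (Finset.mul_prod_erase J id hQ).symm
    have hvQ : w.valuation M (Q : M) = v.valuation ℚ (Q : ℚ) := by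
      rw [← hv, map_intCast (algebraMap ℚ M)]
    have hϖ : w.valuation M (Q : M) = WithZero.exp (-1 : ℤ) := by
      refine le_antisymm (val_le_exp w ?_ ((ov_val Q w).1 hQw)) ?_
      · exact_mod_cast (hS Q hQS).1.2.ne_zero
      · rw [hvQ]
        exact val_sqfree (hS Q hQS).1.2.irreducible.squarefree v
    have hD' : w.valuation M (((m * ∏ P ∈ J.erase Q, P : ℤ)) : M) = 1 := by
      refine val_eq_of _ w fun h => ?_
      rcases ov_mul h with h | h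
      · exact h2w (ov_dvd hm h)
      obtain ⟨P, hP, hP'⟩ := ov_prod h
      have hPS := hJ (Finset.mem_of_mem_erase hP)
      exact Finset.ne_of_mem_erase hP (below_unique (hS P hPS).1 (hS Q hQS).1 hP' hQw)
    have hb1 : w.valuation M (b : M) < 1 := by
      rw [← ov_val]
      obtain ⟨c, hc⟩ := hF.rb Q hQS
      unfold Ov at hQw ⊢
      rw [hc, Int.cast_mul]
      exact Ideal.mul_mem_right _ _ hQw
    have hns := fun z hz => ns_top R hUR hSPD (a := a) hG (hS Q hQS).1.2 (hsp Q hQS)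
      (fam_ns hS hF hQS) w hQw hδw z hz
    have e1 : (((a * (m * ∏ Q ∈ J, Q) ^ 2 : ℤ)) : M) = (a : M) *
        ((Q : M) * (((m * ∏ P ∈ J.erase Q, P : ℤ)) : M)) ^ 2 := by
      rw [hprod]
      push_cast
      ring
    have e2 : (((b * (m * ∏ Q ∈ J, Q) ^ 3 : ℤ)) : M) = (b : M) *
        ((Q : M) * (((m * ∏ P ∈ J.erase Q, P : ℤ)) : M)) ^ 3 := by
      rw [hprod]
      push_cast
      ring
    have e3 : algebraMap M Ω ((Q : M) * (((m * ∏ P ∈ J.erase Q, P : ℤ)) : M)) =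
        (((m * ∏ P ∈ J, P : ℤ)) : Ω) := by
      rw [hprod, map_mul, map_intCast, map_intCast]
      push_cast
      ring
    have hl := hloc w h2w
    rw [e1, e2] at hl
    have h2 := hLOC2M M Ω R O' w 𝔓 hw (a : M) (b : M)
      (Q : M) (((m * ∏ P ∈ J.erase Q, P : ℤ)) : M) (algebraMap L Ω θ) h hroot
      (val_six h2w h3w) (val_le a w) hb1 hϖ hD' hns hl (by rw [e3]; exact h0)
    rw [e3, map_intCast (algebraMap M Ω)] at h2
    refine ⟨fun h3 => h2.1 h3 ?_, h2.2⟩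
    exact odd_top O O' hEXQ hUR hc hF.sq hG' (hS Q hQS).1.2 (hF.rb Q hQS) (fam_ns hS hF hQS) 𝔓
      h𝔓 hδ𝔓 h3
  refine ⟨fun 𝔓 h1 h2 => ?_, fun Q hQ 𝔓 h1 h2 => (key Q hQ 𝔓 h1).1 h2,
    fun Q hQ 𝔓 h1 h2 => (key Q hQ 𝔓 h1).2 h2⟩
  obtain ⟨w, hw, hO⟩ := hLIE M Ω R O' 𝔓
  have hnT : ∀ P ∈ T, ¬ Ov P w := fun P hP h => h1 P hP ((hO P).1 h)
  have hδw : ¬ Ov δ w := by
    intro h
    obtain ⟨P, hP, hP'⟩ := ov_delta hδ h
    exact hnT P hP hP'
  obtain ⟨v, hv⟩ := (hUR ℚ M ℤ R γ g δ hG).1 w hδw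
  have hD : w.valuation M (((m * ∏ Q ∈ J, Q : ℤ)) : M) = 1 := by
    refine val_eq_of _ w fun h => ?_
    rcases ov_mul h with h | h
    · exact hnT 2 hT.1 (ov_dvd hm h)
    obtain ⟨Q, hQ, h'⟩ := ov_prod h
    exact h2 Q hQ ((hO Q).1 h')
  have hdisc : WithZero.exp (-1 : ℤ) ≤ w.valuation M (4 * (a : M) ^ 3 +
      27 * (b : M) ^ 2) := by
    have e : 4 * (a : M) ^ 3 + 27 * (b : M) ^ 2 =
        algebraMap ℚ M ((dsc a b : ℤ) : ℚ) := by
      rw [map_intCast]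
      simp [dsc]
    rw [e, hv]
    exact val_sqfree hF.sq v
  have e3 : algebraMap M Ω (((m * ∏ P ∈ J, P : ℤ)) : M) = (((m * ∏ P ∈ J, P : ℤ)) : Ω) :=
    map_intCast _ _
  have hl := hloc w (hnT 2 hT.1)
  have hl' : PLoc (w.adicCompletion M) ((a : M) * (((m * ∏ Q ∈ J, Q : ℤ)) : M) ^ 2)
      ((b : M) * (((m * ∏ Q ∈ J, Q : ℤ)) : M) ^ 3) h := by
    have e1 : (((a * (m * ∏ Q ∈ J, Q) ^ 2 : ℤ)) : M) = (a : M) * (((m * ∏ Q ∈ J, Q : ℤ)) : M) ^ 2 := by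
      simp only [Int.cast_mul, Int.cast_pow]
    have e2 : (((b * (m * ∏ Q ∈ J, Q) ^ 3 : ℤ)) : M) = (b : M) * (((m * ∏ Q ∈ J, Q : ℤ)) : M) ^ 3 := by
      simp only [Int.cast_mul, Int.cast_pow]
    rw [← e1, ← e2]
    exact hl
  have h3 := hLOC1M M Ω R O' w 𝔓 hw (a : M) (b : M)
    (((m * ∏ P ∈ J, P : ℤ)) : M) (algebraMap L Ω θ) h hroot
    (val_six (hnT 2 hT.1) (hnT 3 hT.2.1)) (val_le a w) (val_le b w) hD hdisc hl'
    (by rw [e3]; exact h0)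
  rw [e3] at h3
  exact h3

end top

section abs

variable {L M Ω : Type} (O O' R : Type) [Field L] [NumberField L] [Field M] [NumberField M]
  [Field Ω] [NumberField Ω] [Algebra L Ω] [Algebra M Ω]
  [CommRing O] [IsDedekindDomain O] [Algebra O L] [IsFractionRing O L] [IsIntegralClosure O ℤ L]
  [CommRing O'] [IsDedekindDomain O'] [Algebra O' Ω] [IsFractionRing O' Ω]
  [IsIntegralClosure O' ℤ Ω]
  [CommRing R] [IsDedekindDomain R] [Algebra R M] [IsFractionRing R M] [IsIntegralClosure R ℤ M]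
  [IsGalois ℚ M]

include O O' R in
theorem fl_absM {m a b : ℤ} (hm : m ∣ 2) {θ : L} {X' : ℕ}
    {S J T : Finset ℤ} {s A B : ℤ → ℤ} (hc : IsCub a b θ) (hS : GoodS S s)
    (hF : Fam X' S s T A B a b) (hT : GoodT T A B)
    {γ : M} {g : ℤ[X]} {δ : ℤ} (hG : Gen ℚ γ g δ)
    (hG' : Gen L (algebraMap M Ω γ) g δ) (hsp : ∀ Q ∈ S, SplitMod Q g)
    (hδ : ∀ P : ℤ, IsPr P → P ∣ δ → P ∈ T) (hdis : Disjoint S T)
    (hnr : ∀ t : M, t ^ 3 + (a : M) * t + (b : M) ≠ 0)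
    (hΩ : Cb M (a : M) (b : M) (algebraMap L Ω θ))
    (hJ : J ⊆ S)
    (hsel : ∀ α : L, α ≠ 0 → IsSquare (Algebra.norm ℚ α) → Loc2 a b θ α →
      (∀ 𝔓 : HeightOneSpectrum O, (∀ Q ∈ J, ¬ Ov Q 𝔓) → Ev 𝔓 α) →
      (∀ Q ∈ J, ∀ 𝔓 : HeightOneSpectrum O, Ov Q 𝔓 → 𝔓.valuation L θ = 1 →
        U0 𝔓 ((Q : L) * θ) α) →
      (∀ Q ∈ J, ∀ 𝔓 : HeightOneSpectrum O, Ov Q 𝔓 → 𝔓.valuation L θ < 1 → Ev 𝔓 α) →
      IsSquare α) : FL M a b (m * ∏ Q ∈ J, Q) θ := by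
  haveI : Algebra.IsIntegral ℤ R := IsIntegralClosure.isIntegral_algebra ℤ M
  haveI : Algebra.IsIntegral ℤ O' := IsIntegralClosure.isIntegral_algebra ℤ Ω
  haveI : Algebra.IsIntegral ℤ O := IsIntegralClosure.isIntegral_algebra ℤ L
  haveI : CharZero R := charZero_of R M
  haveI : CharZero O' := charZero_of O' Ω
  haveI : CharZero O := charZero_of O L
  have hT' : ∀ P ∈ T, IsPr P := fun P hP => (hT.2.2 P hP).1
  have hD1 : 0 < (∏ Q ∈ J, Q) := Finset.prod_pos fun Q hQ => (hS Q (hJ hQ)).1.1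
  have hm0 : m ≠ 0 := by
    rintro rfl
    exact two_ne_zero (zero_dvd_iff.1 hm)
  have hD0 : (m * ∏ Q ∈ J, Q) ≠ 0 := mul_ne_zero hm0 hD1.ne'
  intro W hW P h k hk1 hk2 hx hN hl
  have hroot : (algebraMap L Ω θ) ^ 3 + (a : Ω) * algebraMap L Ω θ + (b : Ω) = 0 := by
    have h1 := hΩ.root
    rw [map_intCast, map_intCast] at h1
    exact h1
  have hff : aeval (algebraMap L Ω θ) (ff M a b) = 0 := by
    simp only [ff, map_add, map_mul, map_pow, aeval_X, aeval_C, map_intCast]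
    exact hroot
  have hk0 : aeval (algebraMap L Ω θ) k ≠ 0 := by
    intro h0
    apply hk1
    have hirr : Irreducible (ff M a b) := irr_tw' hnr
    rw [minpoly.eq_of_irreducible_of_monic hirr hff (ff_monic M a b)]
    exact minpoly.dvd _ _ h0
  have hrel : algebraMap L Ω (aeval θ h) = xc (((m * ∏ Q ∈ J, Q : ℤ) : Ω) * algebraMap L Ω θ) P *
      (aeval (algebraMap L Ω θ) k) ^ 2 := by
    obtain ⟨q, hq⟩ := hk2
    have h1 := congrArg (aeval (algebraMap L Ω θ)) hq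
    rw [map_mul, hff, zero_mul, map_sub, map_mul, map_pow, aeval_cls, aeval_map_algebraMap,
      aeval_algebraMap_apply] at h1
    exact sub_eq_zero.1 h1
  have hxc := xc_ne (cb_tw hD0 hΩ) P
  -- the local conditions
  have hcnd : Cnd O' J T (algebraMap L Ω θ) (xc (((m * ∏ Q ∈ J, Q : ℤ) : Ω) * algebraMap L Ω θ) P) := by
    rcases P with _ | ⟨x, y, hP⟩
    · have := cnd_sq (O' := O') (J := J) (T := T) (θ := algebraMap L Ω θ) (x := (1 : Ω)) one_ne_zero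
      rw [one_pow] at this
      exact this
    · have e := hW.eqn hP
      have hy : y ≠ 0 := by
        rintro rfl
        apply no_root_tw' hnr hD0 x
        rw [← e]
        ring
      have e1 : aeval (((m * ∏ Q ∈ J, Q : ℤ) : Ω) * algebraMap L Ω θ) (C x - X : M[X]) =
          algebraMap M Ω x - ((m * ∏ Q ∈ J, Q : ℤ) : Ω) * algebraMap L Ω θ := by
        rw [map_sub, aeval_C, aeval_X]
      have h1 := cnd_topM (Ω := Ω) O O' R parts2.p.exq parts2.p.ur parts2.p.spd parts2.p.lie parts2.p.loc1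
        parts2.p.loc2 hm hc hS hF hG hG' hsp hT hδ hdis hJ (h := C x - X)
        (fun w hw => ploc_pt hW hP hy) (by rw [e1]; exact hxc)
      rw [e1] at h1
      exact h1
  have hcx : Cnd O' J T (algebraMap L Ω θ) (algebraMap L Ω (aeval θ h)) := by
    rw [hrel]
    exact cnd_mul parts2.p.cls (fun Q hQ => ⟨(hS Q (hJ hQ)).1.2,
        not_dvd_two (hS Q (hJ hQ)).2.1 (hS Q (hJ hQ)).1.1 (hS Q (hJ hQ)).1.2⟩)
      (fun Q hQ 𝔓 h1 h2 => odd_top O O' parts2.p.exq parts2.p.ur hc hF.sq hG' (hS Q (hJ hQ)).1.2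
        (hF.rb Q (hJ hQ)) (fam_ns hS hF (hJ hQ)) 𝔓 h1
        (not_ov_delta hδ hS hT' hdis (hJ hQ) h1) h2) hxc (pow_ne_zero 2 hk0) hcnd
        (cnd_sq hk0)
  exact base_sq O O' hsel (parts2.p.ur L Ω O O' _ g δ hG').2
      (fun Q hQ => parts2.p.spd L Ω O' _ g δ hG' Q (hS Q (hJ hQ)).1.2 (hsp Q (hJ hQ)))
      (fun P hP => parts2.p.p3 L O a b θ hc hF.sq P (hT' P hP).2 (fam_nt hT hF hP))
      (fun 𝔓 h => ov_delta hδ h)
      (fun Q hQ 𝔓 h => not_ov_delta hδ hS hT' hdis (hJ hQ) h) hx hcx hl hN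

end abs

/-- The choice of the twist. -/
theorem exists_flM {m : ℤ} (hm : m ∣ 2) {κ : ℕ} (hLB : LBk κ) (M : Type) [Field M] [NumberField M]
    [IsGalois ℚ M] {n : ℕ} (hM : Module.finrank ℚ M = 2 ^ n)
    {a b : ℤ} {X' : ℕ}
    {S T : Finset ℤ} {s A B : ℤ → ℤ} (hS : GoodS S s)
    (hF : Fam X' S s T A B a b) (hnb : ¬ LBad κ X' S s a b)
    (hT : GoodT T A B)
    {γ : M} {g : ℤ[X]} {δ : ℤ} (hG : Gen ℚ γ g δ) (hsp : ∀ Q ∈ S, SplitMod Q g)
    (hδ : ∀ P : ℤ, IsPr P → P ∣ δ → P ∈ T) (hdis : Disjoint S T) :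
    ∃ J ⊆ S, ∃ (L : Type) (_ : Field L) (_ : NumberField L) (θ : L), IsCub a b θ ∧
      (∀ (Ω : Type) [Field Ω] [CharZero Ω] (t : Ω), t ^ 3 + (a : Ω) * t + (b : Ω) = 0 →
        ∃ φ : L →+* Ω, φ θ = t) ∧ (∀ t : M, t ^ 3 + (a : M) * t + (b : M) ≠ 0) ∧
      FL M a b (m * ∏ Q ∈ J, Q) θ := by
  have hnt2 : ∀ z : ℤ, ¬ (2 : ℤ) ∣ z ^ 3 + a * z + b := fam_nt hT hF hT.1
  obtain ⟨ha, hb⟩ := odd_of hnt2
  obtain ⟨w₀, hw₀⟩ := exists_over (𝓞 M)
  have hnr := parts2.nr M (𝓞 M) n hM w₀ hw₀ a b ha hb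
  have hnrM : ∀ t : M, t ^ 3 + (a : M) * t + (b : M) ≠ 0 := by
    intro t ht
    apply hnr (algebraMap M _ t)
    have h1 := congrArg (algebraMap M (w₀.adicCompletion M)) ht
    rw [map_zero, map_add, map_add, map_mul, map_pow, map_intCast, map_intCast] at h1
    exact h1
  have hirr : Irreducible (ff ℚ a b) := by
    refine irr_tw' fun t ht => hnrM (algebraMap ℚ M t) ?_
    have h1 := congrArg (algebraMap ℚ M) ht
    rw [map_zero, map_add, map_add, map_mul, map_pow, map_intCast, map_intCast] at h1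
    exact h1
  obtain ⟨L, iF, iN, θ, hc, hu⟩ := exists_cub hirr
  obtain ⟨Ω, _, _, _, _, hΩ, htop, hmin⟩ := exists_om hnrM hc hu
  have hG' : Gen L (algebraMap M Ω γ) g δ := by
    refine ⟨top_up (K := ℚ) hG.top htop, hG.monic, ?_, hG.ne, hG.comb⟩
    rw [aeval_algebraMap_apply, hG.root, map_zero]
  obtain ⟨J, hJ, hsel⟩ := core2 (L := L) (𝓞 L) parts2.p.cls parts2.p.exq parts2.p.ns parts2.p.lin
    parts2.p.recp parts2.p.plm parts2.p.sd
    parts2.p.ttv hLB hc hS hT hF hnb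
  exact ⟨J, hJ, L, iF, iN, θ, hc, hu, hnrM,
    fl_absM (𝓞 L) (𝓞 Ω) (𝓞 M) hm hc hS hF hT hG hG' hsp hδ hdis hnrM hΩ hJ hsel⟩

end Pool.Agent.Helper10.RM
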