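import Pool.Agent.Helper10.RM.Cnt8
import Pool.Agent.Helper10.RM.SelM

/-!
# Counting, for twists by `m D`
-/

set_option autoImplicit false
set_option linter.all false

open Polynomial IsDedekindDomain WeierstrassCurve WeierstrassCurve.Affine NumberField
open scoped Classical IntermediateField

namespace Pool.Agent.Helper10.RM

open Pool.Agent.N922.PQ

/-- The twist by `m` of a minimal curve with odd `A`. -/
theorem crvM {m : ℤ} (hm : m = 1 ∨ m = 2) {H : ℕ} {a b D : ℤ}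
    (h : Crv (H / 64) (a * D ^ 2) (b * D ^ 3)) (hodd : Odd (a * D ^ 2)) :
    Crv H (a * (m * D) ^ 2) (b * (m * D) ^ 3) := by
  have e1 : a * (m * D) ^ 2 = m ^ 2 * (a * D ^ 2) := by ring
  have e2 : b * (m * D) ^ 3 = m ^ 3 * (b * D ^ 3) := by ring
  rw [e1, e2]
  obtain ⟨A, hA⟩ : ∃ A, A = a * D ^ 2 := ⟨_, rfl⟩
  obtain ⟨B, hB⟩ : ∃ B, B = b * D ^ 3 := ⟨_, rfl⟩
  rw [← hA, ← hB] at h
  rw [← hA] at hodd
  rw [← hA, ← hB]
  have hH : (64 : ℤ) * (H / 64 : ℕ) ≤ H := by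
    push_cast
    omega
  have h1 := h.hA
  have h2 := h.hB
  rcases hm with rfl | rfl
  · rw [one_pow, one_pow, one_mul, one_mul]
    have h3 : ((H / 64 : ℕ) : ℤ) ≤ H := by
      have : (0 : ℤ) ≤ (H / 64 : ℕ) := Int.natCast_nonneg _
      omega
    exact ⟨h.disc, h.min, h1.trans h3, h2.trans h3⟩
  · refine ⟨?_, ?_, ?_, ?_⟩
    · have e : 4 * (2 ^ 2 * A) ^ 3 + 27 * (2 ^ 3 * B) ^ 2 = 64 * (4 * A ^ 3 + 27 * B ^ 2) := by ring
      rw [e]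
      exact mul_ne_zero (by norm_num) h.disc
    · rintro p hp ⟨h4, h6⟩
      rcases hp.eq_two_or_odd' with rfl | hpo
      · obtain ⟨k, hk⟩ := hodd
        obtain ⟨l, hl⟩ := h4
        norm_num at hl
        omega
      · have hcop : IsCoprime (p : ℤ) 2 := by
          rw [Int.isCoprime_iff_gcd_eq_one]
          have := (Nat.coprime_two_right (n := p)).2 hpo
          exact_mod_cast this
        exact h.min p hp ⟨(hcop.pow).dvd_of_dvd_mul_left h4, (hcop.pow).dvd_of_dvd_mul_left h6⟩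
    · have e : 4 * |2 ^ 2 * A| ^ 3 = 64 * (4 * |A| ^ 3) := by
        rw [abs_mul]
        norm_num
        ring
      rw [e]
      linarith
    · have e : 27 * (2 ^ 3 * B) ^ 2 = 64 * (27 * B ^ 2) := by ring
      rw [e]
      linarith

/-- What is known about the good curves of the family. -/
structure DatM (F : Type) [Field F] [CharZero F] (m α β a b D : ℤ) : Prop where
  ha : (8 : ℤ) ∣ a - α
  hb : (8 : ℤ) ∣ b - β
  D0 : D ≠ 0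
  D8 : D % 8 = 1
  disc : 4 * (a * (m * D) ^ 2) ^ 3 + 27 * (b * (m * D) ^ 3) ^ 2 ≠ 0
  nr : ∀ t : F, t ^ 3 + (a : F) * t + (b : F) ≠ 0
  fl : ∃ (L : Type) (_ : Field L) (_ : NumberField L) (θ : L), IsCub a b θ ∧
      (∀ (Ω : Type) [Field Ω] [CharZero Ω] (t : Ω), t ^ 3 + (a : Ω) * t + (b : Ω) = 0 →
        ∃ φ : L →+* Ω, φ θ = t) ∧ FL F a b (m * D) θ

theorem main8M {m : ℤ} (hm : m = 1 ∨ m = 2) (M : Type) [Field M] [NumberField M]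
    [IsGalois ℚ M] {n : ℕ} (hM : Module.finrank ℚ M = 2 ^ n) {α β : ℤ} (hα : Odd α) (hβ : Odd β)
    (good : ℤ × ℤ → Prop)
    (hgood : ∀ a b D : ℤ, DatM M m α β a b D → good (a * (m * D) ^ 2, b * (m * D) ^ 3)) :
    ∃ (P X₀ : ℕ) (c : ℝ), 0 < c ∧ 1 ≤ P ∧ ∀ X : ℕ, X₀ ≤ X → ∀ H : ℕ, 27 * (X * P) ^ 6 ≤ H →
      c * (X : ℝ) ^ 5 ≤ ({p : ℤ × ℤ | Crv H p.1 p.2 ∧ good p}.ncard : ℝ) := by
  have hm2 : m ∣ 2 := by rcases hm with rfl | rfl <;> norm_num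
  obtain ⟨κ, hLB'⟩ := lb
  obtain ⟨γ, g, δ, hG, hdeg⟩ := Pool.Agent.N40.PQ.gen M
  -- the prime divisors of `δ`
  obtain ⟨T₀, hT₀, hδ₀⟩ : ∃ T : Finset ℤ, (∀ P ∈ T, IsPr P) ∧
      ∀ P : ℤ, IsPr P → P ∣ δ → P ∈ T := by
    have hf : {P : ℤ | IsPr P ∧ P ∣ δ}.Finite := by
      refine (Set.finite_Icc (-|δ|) |δ|).subset ?_
      rintro P ⟨-, h⟩
      have h3 : |P| ≤ |δ| := Int.le_of_dvd (abs_pos.2 hG.ne) ((abs_dvd_abs P δ).2 h)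
      exact abs_le.1 h3
    refine ⟨hf.toFinset, fun P hP => ?_, fun P h1 h2 => ?_⟩
    · exact (hf.mem_toFinset.1 hP).1
    · exact hf.mem_toFinset.2 ⟨h1, h2⟩
  obtain ⟨T, A, B, hTT, hT⟩ := Pool.Agent.N954.PQ.tch T₀ hT₀
  have hδ : ∀ P : ℤ, IsPr P → P ∣ δ → P ∈ T := fun P h1 h2 => hTT (hδ₀ P h1 h2)
  obtain ⟨S, s, c, hS, hdis, hsp, hc, X₀, hX₀⟩ := good_card8 κ hT hα hβ
    (fun Q => SplitMod Q g) (Pool.Agent.N40.PQ.spl M γ g δ hG hdeg T)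
  have hSpos : 0 < ∏ Q ∈ S, Q := Finset.prod_pos fun Q hQ => (hS Q hQ).1.1
  refine ⟨(2 * ∏ Q ∈ S, Q).toNat, X₀, c / 2 ^ S.card,
    by positivity, by omega, fun X hX Hh hHh => ?_⟩
  have hN := hX₀ X hX
  set Hs := {p : ℤ × ℤ | Crv Hh p.1 p.2 ∧ good p} with hH
  set G := {p : ℤ × ℤ | (Fam X S s T A B p.1 p.2 ∧ (8 : ℤ) ∣ p.1 - α ∧ (8 : ℤ) ∣ p.2 - β) ∧
    ¬ LBad κ X S s p.1 p.2} with hG'
  have hHf : Hs.Finite := (crv_fin Hh).subset fun p hp => hp.1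
  have hbd : 27 * ((X : ℤ) * ∏ Q ∈ S, Q) ^ 6 ≤ (Hh / 64 : ℕ) := by
    have h1 : ((27 * (X * (2 * ∏ Q ∈ S, Q).toNat) ^ 6 : ℕ) : ℤ) ≤ Hh := by exact_mod_cast hHh
    have e1 : (((2 * ∏ Q ∈ S, Q).toNat : ℕ) : ℤ) = 2 * ∏ Q ∈ S, Q :=
      Int.toNat_of_nonneg (by positivity)
    rw [Nat.cast_mul, Nat.cast_pow, Nat.cast_mul, e1] at h1
    have h2 : ((27 : ℕ) : ℤ) * ((X : ℤ) * (2 * ∏ Q ∈ S, Q)) ^ 6 =
        64 * (27 * ((X : ℤ) * ∏ Q ∈ S, Q) ^ 6) := by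
      push_cast
      ring
    rw [h2] at h1
    push_cast
    omega
  have hcard := card_fib hHf S
    (fun (J : Finset ℤ) (p : ℤ × ℤ) => (p.1 * (m * ∏ Q ∈ J, Q) ^ 2, p.2 * (m * ∏ Q ∈ J, Q) ^ 3)) (G := G) (by
      rintro p ⟨⟨hpF, hpa, hpb⟩, hnb⟩
      obtain ⟨J, hJ, L, iF, iN, θ, hcub, hu, hnr, hfl⟩ := exists_flM hm2 hLB' M hM hS hpF hnb hT hG hsp hδ hdis
      refine ⟨J, hJ, ?_⟩
      have hcrv' := Pool.Agent.N707.PQ.crv X (Hh / 64) S T s A B p.1 p.2 hS hT hpF J hJ hbd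
      have hD1 : 0 < (∏ Q ∈ J, Q) := Finset.prod_pos fun Q hQ => (hS Q (hJ hQ)).1.1
      have hD8 : (∏ Q ∈ J, Q) % 8 = 1 := prod_mod8 fun Q hQ => (hS Q (hJ hQ)).2.1
      have hcrv := crvM hm hcrv' (by
        obtain ⟨k, hk⟩ := hα
        obtain ⟨l, hl⟩ := hpa
        have h1 : Odd p.1 := ⟨k + 4 * l, by omega⟩
        have h2 : Odd (∏ Q ∈ J, Q) := by
          rw [Int.odd_iff]
          omega
        exact h1.mul h2.pow)
      exact ⟨hcrv, hgood p.1 p.2 _ ⟨hpa, hpb, hD1.ne', hD8, hcrv.disc, hnr, L, iF, iN, θ, hcub, hu,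
        hfl⟩⟩) (by
      intro J hJ x hx y hy hxy
      have hD0 : (m * ∏ Q ∈ J, Q) ≠ 0 := by
        refine mul_ne_zero ?_ ?_
        · rcases hm with rfl | rfl <;> norm_num
        · rw [Finset.prod_ne_zero_iff]
          exact fun Q hQ => (hS Q (hJ hQ)).1.2.ne_zero
      rw [Prod.mk.injEq] at hxy
      exact twist_inj hD0 hxy.1 hxy.2)
  have hcard' : (G.ncard : ℝ) ≤ 2 ^ S.card * Hs.ncard := by exact_mod_cast hcard
  calc c / 2 ^ S.card * (X : ℝ) ^ 5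
      = c * (X : ℝ) ^ 5 / 2 ^ S.card := by ring
    _ ≤ (G.ncard : ℝ) / 2 ^ S.card := by gcongr
    _ ≤ (2 ^ S.card * Hs.ncard) / 2 ^ S.card := by gcongr
    _ = Hs.ncard := by field_simp

/-- A positive proportion of all curves is good. -/
theorem final8M {m : ℤ} (hm : m = 1 ∨ m = 2) (M : Type) [Field M] [NumberField M]
    [IsGalois ℚ M] {n : ℕ} (hM : Module.finrank ℚ M = 2 ^ n) {α β : ℤ} (hα : Odd α) (hβ : Odd β)
    (good : ℤ × ℤ → Prop)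
    (hgood : ∀ a b D : ℤ, DatM M m α β a b D → good (a * (m * D) ^ 2, b * (m * D) ^ 3)) :
    ∃ c : ℝ, 0 < c ∧ ∃ H₀ : ℕ, ∀ H ≥ H₀, {p : ℤ × ℤ | Crv H p.1 p.2}.Finite ∧
    c * ({p : ℤ × ℤ | Crv H p.1 p.2}.ncard : ℝ) ≤
      ({p : ℤ × ℤ | Crv H p.1 p.2 ∧ good p}.ncard : ℝ) := by
  obtain ⟨P, X₀, c, hc, hP, h⟩ := main8M hm M hM hα hβ good hgood
  exact Pool.Agent.N607.PQ.cnt good P X₀ c hc hP
    fun X hX Hh hHh => h X hX Hh hHh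

end Pool.Agent.Helper10.RM
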