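import Pool.Agent.Helper10.RM.Nrm
import Pool.Graph.R_pool_sql_team_seeded_63374d34.N692.PM.Tow

/-!
# Descent of invariant classes by Hilbert 90
-/

set_option autoImplicit false
set_option linter.all false

open Polynomial WeierstrassCurve WeierstrassCurve.Affine
open scoped Classical

namespace Pool.Agent.Helper10.RM

section

variable {L M Ω : Type} [Field L] [NumberField L] [Field M] [NumberField M] [Field Ω]
  [NumberField Ω] [Algebra L Ω] [Algebra M Ω] [IsGalois ℚ M] {A B : ℤ} {θ : L}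

/-- The restriction of an automorphism. -/
theorem restr (τ : Ω ≃ₐ[L] Ω) : ∃ σ : M ≃ₐ[ℚ] M, ∀ x : M,
    algebraMap M Ω (σ x) = τ (algebraMap M Ω x) :=
  ⟨(τ.restrictScalars ℚ).restrictNormal M, fun x =>
    AlgEquiv.restrictNormal_commutes (τ.restrictScalars ℚ) M x⟩

theorem norm_tau (hΩ : Cb M (A : M) (B : M) (algebraMap L Ω θ)) (τ : Ω ≃ₐ[L] Ω) (z : Ω) :
    algebraMap M Ω (Algebra.norm M (τ z)) = τ (algebraMap M Ω (Algebra.norm M z)) := by
  obtain ⟨σ, hσ⟩ := restr (M := M) τ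
  obtain ⟨p, q, r, rfl⟩ := hΩ.gen z
  have e : τ (algebraMap M Ω p + algebraMap M Ω q * algebraMap L Ω θ +
      algebraMap M Ω r * algebraMap L Ω θ ^ 2) =
      algebraMap M Ω (σ p) + algebraMap M Ω (σ q) * algebraMap L Ω θ +
      algebraMap M Ω (σ r) * algebraMap L Ω θ ^ 2 := by
    rw [map_add, map_add, map_mul, map_mul, map_pow, τ.commutes, hσ, hσ, hσ]
  rw [e, hΩ.norm, hΩ.norm, ← hσ]
  congr 1
  have h1 := nf_map (σ : M ≃ₐ[ℚ] M).toRingEquiv.toRingHom (A : M) (B : M) p q r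
  have h2 : ∀ x, (σ : M ≃ₐ[ℚ] M).toRingEquiv.toRingHom x = σ x := fun x => rfl
  rw [h2, h2, h2, h2, h2, h2, map_intCast, map_intCast] at h1
  exact h1.symm

/-- The fields `M` and `L` have nothing in common. -/
theorem inter {n : ℕ} (hM : Module.finrank ℚ M = 2 ^ n) (hL : Module.finrank ℚ L = 3) {s : M} {l : L}
    (h : algebraMap M Ω s = algebraMap L Ω l) : ∃ q : ℚ, s = algebraMap ℚ M q := by
  have h1 : minpoly ℚ (algebraMap M Ω s) = minpoly ℚ s :=
    minpoly.algebraMap_eq (algebraMap M Ω).injective s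
  have h2 : minpoly ℚ (algebraMap L Ω l) = minpoly ℚ l :=
    minpoly.algebraMap_eq (algebraMap L Ω).injective l
  have h3 : (minpoly ℚ s).natDegree ∣ 2 ^ n := by
    rw [← hM]
    exact minpoly.degree_dvd (Algebra.IsIntegral.isIntegral s)
  have h4 : (minpoly ℚ s).natDegree ∣ 3 := by
    rw [← hL, ← h1, h, h2]
    exact minpoly.degree_dvd (Algebra.IsIntegral.isIntegral l)
  have h5 : (minpoly ℚ s).natDegree = 1 := by
    have hc : Nat.Coprime (2 ^ n) 3 := Nat.Coprime.pow_left n (by norm_num)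
    exact Nat.eq_one_of_dvd_coprimes hc h3 h4
  obtain ⟨q, hq⟩ := minpoly.natDegree_eq_one_iff.1 h5
  exact ⟨q, hq.symm⟩

theorem norm_comp (hL : Cb ℚ (A : ℚ) (B : ℚ) θ)
    (hΩ : Cb M (A : M) (B : M) (algebraMap L Ω θ)) (x : L) :
    Algebra.norm M (algebraMap L Ω x) = algebraMap ℚ M (Algebra.norm ℚ x) := by
  obtain ⟨p, q, r, rfl⟩ := hL.gen x
  have e : algebraMap L Ω (algebraMap ℚ L p + algebraMap ℚ L q * θ + algebraMap ℚ L r * θ ^ 2) =
      algebraMap M Ω (algebraMap ℚ M p) + algebraMap M Ω (algebraMap ℚ M q) * algebraMap L Ω θ +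
      algebraMap M Ω (algebraMap ℚ M r) * algebraMap L Ω θ ^ 2 := by
    simp only [map_add, map_mul, map_pow]
    simp
  rw [e, hΩ.norm, hL.norm, nf_map, map_intCast, map_intCast]

/-- Descent. -/
theorem descend {n : ℕ} (hM : Module.finrank ℚ M = 2 ^ n) (hL : Cb ℚ (A : ℚ) (B : ℚ) θ)
    (hΩ : Cb M (A : M) (B : M) (algebraMap L Ω θ)) {c : Ω} (hc : c ≠ 0)
    (hn : IsSquare (Algebra.norm M c)) (hs : ∀ τ : Ω ≃ₐ[L] Ω, ∃ z, τ c = c * z ^ 2) :
    ∃ (x : L) (u : Ω), x ≠ 0 ∧ u ≠ 0 ∧ c = algebraMap L Ω x * u ^ 2 ∧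
      IsSquare (Algebra.norm ℚ x) := by
  obtain ⟨m, hm⟩ := hn
  have hNc : Algebra.norm M c ≠ 0 := by
    haveI : FiniteDimensional M Ω := FiniteDimensional.of_finrank_pos (by rw [hΩ.rank]; norm_num)
    exact Algebra.norm_ne_zero_iff.2 hc
  have hm0 : m ≠ 0 := by
    rintro rfl
    apply hNc
    rw [hm, mul_zero]
  haveI f0 : FiniteDimensional M Ω := FiniteDimensional.of_finrank_pos (by rw [hΩ.rank]; norm_num)
  haveI f1 : FiniteDimensional L Ω := FiniteDimensional.right ℚ L Ω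
  haveI : Normal L Ω := Pool.Agent.N692.PMTOW.normal_of_top (K := ℚ) (L := L) (M := M) (Ω := Ω)
    (Pool.Agent.N692.PMTOW.sup_top hM hL.rank hΩ.rank)
  haveI : IsGalois L Ω := ⟨⟩
  set μ : Ω := algebraMap M Ω m with hμ
  have hμ0 : μ ≠ 0 := (_root_.map_ne_zero _).2 hm0
  set N : Ω → Ω := fun z => algebraMap M Ω (Algebra.norm M z) with hN
  have hNm : ∀ z w, N (z * w) = N z * N w := fun z w => by
    simp only [hN, map_mul]
  have hNneg : ∀ z, N (-z) = - N z := fun z => by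
    have e : -z = algebraMap M Ω (-1) * z := by rw [map_neg, map_one]; ring
    rw [e, hNm]
    simp only [hN]
    rw [Algebra.norm_algebraMap, hΩ.rank, map_pow, map_neg, map_one]
    ring
  have hN0 : ∀ z, z ≠ 0 → N z ≠ 0 := fun z hz =>
    (_root_.map_ne_zero _).2 (Algebra.norm_ne_zero_iff.2 hz)
  have hNτ : ∀ (τ : Ω ≃ₐ[L] Ω) z, N (τ z) = τ (N z) := fun τ z => norm_tau hΩ τ z
  have hcN : N c = μ ^ 2 := by
    simp only [hN]
    rw [hm, map_mul, ← hμ, pow_two]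
  -- the choice of the sign
  have hz : ∀ τ : Ω ≃ₐ[L] Ω, ∃ z : Ω, τ c = c * z ^ 2 ∧ N z * μ = τ μ := by
    intro τ
    obtain ⟨z, hz⟩ := hs τ
    have h1 : (N z * μ) ^ 2 = (τ μ) ^ 2 := by
      have h2 := hNτ τ c
      rw [hz, hNm, hcN, map_pow] at h2
      rw [← h2, pow_two z, hNm]
      ring
    rcases sq_eq_sq_iff_eq_or_eq_neg.1 h1 with h3 | h3
    · exact ⟨z, hz, h3⟩
    · refine ⟨-z, by rw [hz]; ring, ?_⟩
      rw [hNneg, neg_mul, h3, neg_neg]
  choose z hz1 hz2 using hz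
  have hz0 : ∀ τ, z τ ≠ 0 := by
    intro τ h0
    have h1 := hz1 τ
    rw [h0, zero_pow two_ne_zero, mul_zero] at h1
    exact hc ((map_eq_zero τ).1 h1)
  have hcoc : ∀ σ τ, z (σ * τ) = σ (z τ) * z σ := by
    intro σ τ
    have h1 : (z (σ * τ)) ^ 2 = (σ (z τ) * z σ) ^ 2 := by
      have h2 := hz1 (σ * τ)
      have h3 : (σ * τ) c = σ (τ c) := rfl
      rw [h3, hz1 τ, map_mul, hz1 σ, map_pow] at h2
      have h4 : c * z σ ^ 2 * σ (z τ) ^ 2 = c * (σ (z τ) * z σ) ^ 2 := by ring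
      rw [h4] at h2
      exact (mul_left_cancel₀ hc h2).symm
    rcases sq_eq_sq_iff_eq_or_eq_neg.1 h1 with h3 | h3
    · exact h3
    · exfalso
      have h4 := hz2 (σ * τ)
      have h5 : (σ * τ) μ = σ (τ μ) := rfl
      rw [h5, ← hz2 τ, map_mul, ← hz2 σ, ← hNτ, h3, hNneg, hNm] at h4
      have h6 : N (σ (z τ)) * N (z σ) * μ ≠ 0 :=
        mul_ne_zero (mul_ne_zero (hN0 _ ((_root_.map_ne_zero σ).2 (hz0 τ))) (hN0 _ (hz0 σ))) hμ0
      have h7 : (2 : Ω) * (N (σ (z τ)) * N (z σ) * μ) = 0 := by linear_combination -h4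
      exact h6 ((mul_eq_zero.1 h7).resolve_left two_ne_zero)
  obtain ⟨β, hβ⟩ := groupCohomology.isMulCoboundary₁_of_isMulCocycle₁_of_aut_to_units
    (fun τ : Ω ≃ₐ[L] Ω => Units.mk0 (z τ) (hz0 τ)) (by
      intro σ τ
      apply Units.ext
      show z (σ * τ) = _
      rw [hcoc]
      rfl)
  have hβ' : ∀ τ : Ω ≃ₐ[L] Ω, τ (β : Ω) = z τ * β := by
    intro τ
    have h1 := hβ τ
    have h1' : τ • β = Units.mk0 (z τ) (hz0 τ) * β := div_eq_iff_eq_mul.1 h1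
    exact congrArg Units.val h1'
  have hβ0 : (β : Ω) ≠ 0 := β.ne_zero
  -- the element of `L`
  have hfix : ∀ τ : Ω ≃ₐ[L] Ω, τ (c / β ^ 2) = c / β ^ 2 := by
    intro τ
    rw [map_div₀, map_pow, hz1, hβ' τ]
    have := hz0 τ
    field_simp
  obtain ⟨x, hx⟩ := (IsGalois.mem_range_algebraMap_iff_fixed (F := L) (E := Ω) (c / β ^ 2)).2 hfix
  have hcx : c = algebraMap L Ω x * (β : Ω) ^ 2 := by
    rw [hx]
    field_simp
  have hx0 : x ≠ 0 := by
    rintro rfl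
    rw [map_zero, zero_mul] at hcx
    exact hc hcx
  refine ⟨x, β, hx0, hβ0, hcx, ?_⟩
  -- the norm
  have hNβ := hN0 _ hβ0
  have hfix2 : ∀ τ : Ω ≃ₐ[L] Ω, τ (μ / N β) = μ / N β := by
    intro τ
    rw [map_div₀, ← hNτ, hβ' τ, hNm, ← hz2 τ]
    have := hN0 _ (hz0 τ)
    field_simp
  obtain ⟨l, hl⟩ := (IsGalois.mem_range_algebraMap_iff_fixed (F := L) (E := Ω) (μ / N β)).2 hfix2
  obtain ⟨s, hs⟩ : ∃ s : M, algebraMap M Ω s = μ / N β :=
    ⟨m / Algebra.norm M (β : Ω), by rw [map_div₀]⟩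
  obtain ⟨q, hq⟩ := inter (L := L) (Ω := Ω) hM hL.rank (hs.trans hl.symm)
  have h1 : N c = N (algebraMap L Ω x) * N β ^ 2 := by
    rw [hcx, pow_two, hNm, hNm, pow_two]
  rw [hcN] at h1
  have h2 : N (algebraMap L Ω x) = (μ / N β) ^ 2 := by
    rw [div_pow, h1]
    field_simp
  have h3 : algebraMap M Ω (algebraMap ℚ M (Algebra.norm ℚ x)) =
      algebraMap M Ω (algebraMap ℚ M (q ^ 2)) := by
    rw [← norm_comp hL hΩ x, map_pow, map_pow, ← hq, hs]
    exact h2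
  have h4 := (algebraMap ℚ M).injective ((algebraMap M Ω).injective h3)
  exact ⟨q, by rw [h4]; ring⟩

end

end Pool.Agent.Helper10.RM
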