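import Pool.Agent.Helper10.RM.Ud

/-!
# Elements with square norm have two classes modulo the local image at `2`
-/

set_option autoImplicit false
set_option linter.all false

open Polynomial IsDedekindDomain NumberField WithZero
open scoped Classical

namespace Pool.Agent.Helper10.RM

open Pool.Agent.N922.PQ Pool.Agent.N323.PV Pool.Agent.N951.PV

/-- The condition on the classes. -/
def Cl (a g₁ g₂ : ℤ) : Prop :=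
  (Even g₁ ∧ Even g₂) ∨ ((4 : ℤ) ∣ 2 * g₁ - (1 - a) ∧ (4 : ℤ) ∣ 2 * g₂ - (3 - a))

theorem cl_add {a g₁ g₂ h₁ h₂ : ℤ} (ha : Odd a) (h : ¬ Cl a g₁ g₂) (h' : ¬ Cl a h₁ h₂) :
    Cl a (g₁ + h₁) (g₂ + h₂) := by
  unfold Cl at *
  rw [not_or, not_and_or, not_and_or] at h h'
  simp only [Int.even_iff, Int.odd_iff] at *
  rcases Int.emod_two_eq_zero_or_one g₁ with e1 | e1 <;>
  rcases Int.emod_two_eq_zero_or_one g₂ with e2 | e2 <;>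
  rcases Int.emod_two_eq_zero_or_one h₁ with e3 | e3 <;>
  rcases Int.emod_two_eq_zero_or_one h₂ with e4 | e4 <;>
  omega

theorem loc2_of {L : Type} [Field L] [NumberField L] {a b : ℤ} {θ : L} (hc : IsCub a b θ)
    (ha : Odd a) (hab : (4 : ℤ) ∣ a - b) {x c : L} {g₁ g₂ : ℤ} {R s t : ℚ}
    (hα : x = c ^ 2 * aeval θ (pol ℚ g₁ g₂ R s t))
    (hR : ‖(R : ℚ_[2]) - ((g₁ * (1 + g₂) : ℤ) : ℚ_[2])‖ < 1) (hs : ‖(s : ℚ_[2])‖ ≤ 1)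
    (ht : ‖(t : ℚ_[2])‖ ≤ 1) (hg : Cl a g₁ g₂) : Loc2 a b θ x := by
  obtain ⟨k, hk⟩ := hc.exists_poly c
  have e1 : aeval θ (k ^ 2 * pol ℚ g₁ g₂ R s t) = x := by
    rw [map_mul, map_pow, hk, hα]
  have h6 := pt2 a b ha hab g₁ g₂ (R : ℚ_[2]) s t hR hs ht hg
  rw [← pol_map] at h6
  intro h' hh'
  have h7 : PL ℚ_[2] a b ((k.map (algebraMap ℚ ℚ_[2])) ^ 2 *
      (pol ℚ g₁ g₂ R s t).map (algebraMap ℚ ℚ_[2])) :=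
    Pool.Agent.N951.PV.pl_sq _ h6
  rw [← Polynomial.map_pow, ← Polynomial.map_mul] at h7
  exact Pool.Agent.N951.PV.pl_congr (cast_congr hc ℚ_[2] (e1.trans hh'.symm)) h7

theorem aev_pol {L : Type} [Field L] [CharZero L] (θ : L) (g₁ g₂ : ℤ) (r s t : ℚ) :
    aeval θ (pol ℚ g₁ g₂ r s t) = 1 + 2 * ((g₁ : L) * θ + (g₂ : L) * θ ^ 2) +
      4 * ((r : L) + (s : L) * θ + (t : L) * θ ^ 2) := by
  simp only [pol, map_add, map_mul, map_pow, map_one, aeval_X, aeval_C, map_ofNat, map_intCast,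
    eq_ratCast]

theorem zof {q : ℚ} (hq : Odd q.den) : ∃ z : ℤ_[2], (z : ℚ_[2]) = (q : ℚ_[2]) :=
  ⟨⟨(q : ℚ_[2]), by
    apply Padic.norm_rat_le_one
    intro h
    exact (Nat.not_even_iff_odd.2 hq) (even_iff_two_dvd.2 h)⟩, rfl⟩

theorem norm_two : ‖(2 : ℚ_[2])‖ = 1 / 2 := by
  have := Padic.norm_p (p := 2)
  rw [Nat.cast_ofNat] at this
  rw [this]
  norm_num

theorem two_coe : ((2 : ℤ_[2]) : ℚ_[2]) = 2 := rfl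

theorem norm_two_mul (K : ℤ_[2]) : ‖(2 : ℚ_[2]) * (K : ℚ_[2])‖ < 1 := by
  rw [norm_mul, norm_two]
  have := K.2
  have h : ‖(K : ℚ_[2])‖ ≤ 1 := K.2
  linarith

/-- Two classes. -/
theorem two_cls {L : Type} [Field L] [NumberField L] {a b : ℤ} {θ : L} (hc : IsCub a b θ)
    (ha : Odd a) (hab : (4 : ℤ) ∣ a - b) {x y : L} (hx : x ≠ 0) (hy : y ≠ 0)
    (hN : IsSquare (Algebra.norm ℚ x)) (hN' : IsSquare (Algebra.norm ℚ y)) :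
    Loc2 a b θ x ∨ Loc2 a b θ y ∨ Loc2 a b θ (x * y) := by
  have hb : Odd b := by
    obtain ⟨k, hk⟩ := ha
    obtain ⟨l, hl⟩ := hab
    exact ⟨k - 2 * l, by omega⟩
  obtain ⟨b', hb'⟩ := hb
  obtain ⟨c, g₁, g₂, r, s, t, hc0, hr, hs, ht, hα⟩ := Pool.Agent.N907.PV.t_NF2 L a b θ hc ha ⟨b', hb'⟩ x hx hN
  obtain ⟨d, h₁, h₂, r', s', t', hd0, hr', hs', ht', hβ⟩ := Pool.Agent.N907.PV.t_NF2 L a b θ hc ha ⟨b', hb'⟩ y hy hN'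
  obtain ⟨ρ, hρ⟩ := zof hr
  obtain ⟨σ, hσ⟩ := zof hs
  obtain ⟨τ, hτ⟩ := zof ht
  obtain ⟨ρ', hρ'⟩ := zof hr'
  obtain ⟨σ', hσ'⟩ := zof hs'
  obtain ⟨τ', hτ'⟩ := zof ht'
  by_cases c1 : Cl a g₁ g₂
  · left
    refine loc2_of hc ha hab hα ?_ (by rw [← hσ]; exact σ.2) (by rw [← hτ]; exact τ.2) c1
    have e : ((((g₁ * (1 + g₂) : ℤ) : ℚ) + 2 * r : ℚ) : ℚ_[2]) - ((g₁ * (1 + g₂) : ℤ) : ℚ_[2]) =
        2 * (ρ : ℚ_[2]) := by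
      rw [hρ]
      push_cast
      ring
    rw [e]
    exact norm_two_mul ρ
  by_cases c2 : Cl a h₁ h₂
  · right; left
    refine loc2_of hc ha hab hβ ?_ (by rw [← hσ']; exact σ'.2) (by rw [← hτ']; exact τ'.2) c2
    have e : ((((h₁ * (1 + h₂) : ℤ) : ℚ) + 2 * r' : ℚ) : ℚ_[2]) - ((h₁ * (1 + h₂) : ℤ) : ℚ_[2]) =
        2 * (ρ' : ℚ_[2]) := by
      rw [hρ']
      push_cast
      ring
    rw [e]
    exact norm_two_mul ρ'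
  right; right
  have c3 := cl_add ha c1 c2
  obtain ⟨R, hR⟩ : ∃ R : ℚ, R = ((g₁ * (1 + g₂) : ℤ) : ℚ) + 2 * r := ⟨_, rfl⟩
  obtain ⟨R', hR'⟩ : ∃ R' : ℚ, R' = ((h₁ * (1 + h₂) : ℤ) : ℚ) + 2 * r' := ⟨_, rfl⟩
  rw [← hR] at hα
  rw [← hR'] at hβ
  obtain ⟨w0, hw0⟩ : ∃ w : ℚ, w = 4 * R * R' - b * ((g₁ + 2 * s) * (h₂ + 2 * t') +
    (g₂ + 2 * t) * (h₁ + 2 * s')) := ⟨_, rfl⟩
  obtain ⟨w1, hw1⟩ : ∃ w : ℚ, w = 2 * R * (h₁ + 2 * s') + (g₁ + 2 * s) * (2 * R') -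
    a * ((g₁ + 2 * s) * (h₂ + 2 * t') + (g₂ + 2 * t) * (h₁ + 2 * s')) -
    b * ((g₂ + 2 * t) * (h₂ + 2 * t')) := ⟨_, rfl⟩
  obtain ⟨w2, hw2⟩ : ∃ w : ℚ, w = 2 * R * (h₂ + 2 * t') + (g₁ + 2 * s) * (h₁ + 2 * s') +
    (g₂ + 2 * t) * (2 * R') - a * ((g₂ + 2 * t) * (h₂ + 2 * t')) := ⟨_, rfl⟩
  have hprod : x * y = (c * d) ^ 2 * aeval θ (pol ℚ (g₁ + h₁) (g₂ + h₂) (R + R' + w0)
      (s + s' + w1) (t + t' + w2)) := by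
    rw [hα, hβ, aev_pol, aev_pol, aev_pol, hw0, hw1, hw2]
    push_cast
    have hroot := hc.root
    linear_combination (c * d) ^ 2 * 4 * (((g₁ : L) + 2 * s) * (h₂ + 2 * t') +
      (g₂ + 2 * t) * (h₁ + 2 * s') + (g₂ + 2 * t) * (h₂ + 2 * t') * θ) * hroot
  refine loc2_of hc ha hab hprod ?_ ?_ ?_ c3
  · have e : ((R + R' + w0 : ℚ) : ℚ_[2]) - (((g₁ + h₁) * (1 + (g₂ + h₂)) : ℤ) : ℚ_[2]) =
        2 * ((ρ + ρ' + 2 * (g₁ * (1 + g₂) + 2 * ρ) * (h₁ * (1 + h₂) + 2 * ρ') -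
          (b' + 1) * (g₁ * h₂ + g₂ * h₁) - b * (g₁ * τ' + σ * h₂ + 2 * σ * τ' +
            g₂ * σ' + τ * h₁ + 2 * τ * σ') : ℤ_[2]) : ℚ_[2]) := by
      rw [hw0, hR, hR']
      push_cast
      rw [hρ, hρ', hσ, hσ', hτ, hτ', hb', two_coe]
      push_cast
      ring
    rw [e]
    exact norm_two_mul _
  · have e : ((s + s' + w1 : ℚ) : ℚ_[2]) = ((σ + σ' + 2 * (g₁ * (1 + g₂) + 2 * ρ) * (h₁ + 2 * σ') +
        (g₁ + 2 * σ) * (2 * (h₁ * (1 + h₂) + 2 * ρ')) -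
        a * ((g₁ + 2 * σ) * (h₂ + 2 * τ') + (g₂ + 2 * τ) * (h₁ + 2 * σ')) -
        b * ((g₂ + 2 * τ) * (h₂ + 2 * τ')) : ℤ_[2]) : ℚ_[2]) := by
      rw [hw1, hR, hR']
      push_cast
      rw [hρ, hρ', hσ, hσ', hτ, hτ', two_coe]
      ring
    rw [e]
    exact PadicInt.norm_le_one _
  · have e : ((t + t' + w2 : ℚ) : ℚ_[2]) = ((τ + τ' + 2 * (g₁ * (1 + g₂) + 2 * ρ) * (h₂ + 2 * τ') +
        (g₁ + 2 * σ) * (h₁ + 2 * σ') + (g₂ + 2 * τ) * (2 * (h₁ * (1 + h₂) + 2 * ρ')) -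
        a * ((g₂ + 2 * τ) * (h₂ + 2 * τ')) : ℤ_[2]) : ℚ_[2]) := by
      rw [hw2, hR, hR']
      push_cast
      rw [hρ, hρ', hσ, hσ', hτ, hτ', two_coe]
      ring
    rw [e]
    exact PadicInt.norm_le_one _

end Pool.Agent.Helper10.RM
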