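import Pool.Agent.Helper10.RM.Dsc
import Pool.Agent.Helper10.RM.Two
import Pool.Graph.R_pool_sql_team_seeded_63374d34.N922.PQ.Final2

/-!
# Points whose class modulo two is invariant
-/

set_option autoImplicit false
set_option linter.all false

open Polynomial IsDedekindDomain WeierstrassCurve WeierstrassCurve.Affine NumberField
open scoped Classical IntermediateField

namespace Pool.Agent.Helper10.RM

open Pool.Agent.N922.PQ

section

variable {M : Type} [Field M] {W : Affine M}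

/-- The polynomial of a point. -/
noncomputable def cls (D : ℤ) : W.Point → M[X]
  | .zero => 1
  | .some x _ _ => C x - C (D : M) * X

theorem aeval_cls {Ω : Type} [Field Ω] [Algebra M Ω] (D : ℤ) (t : Ω) (P : W.Point) :
    aeval t (cls D P) = xc ((D : Ω) * t) P := by
  rcases P with _ | ⟨x, y, h⟩
  · show aeval t (1 : M[X]) = 1
    rw [map_one]
  · show aeval t (C x - C (D : M) * X) = algebraMap M Ω x - (D : Ω) * t
    rw [map_sub, map_mul, aeval_C, aeval_C, aeval_X, map_intCast]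

/-- The group acts on the points through the coordinates. -/
structure IsAct (act : (M ≃+* M) → W.Point → W.Point) : Prop where
  zero : ∀ σ, act σ 0 = 0
  some : ∀ σ x y h, ∃ h', act σ (Point.some x y h) = Point.some (σ x) (σ y) h'

end

/-- The part of the theorem which is over the big field: the elements of `L` with good local
conditions which come from points are squares. -/
def FL (F : Type) [Field F] [CharZero F] {L : Type} [Field L] [NumberField L] (a b D : ℤ) (θ : L) :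
    Prop := ∀ (W : Affine F), IsW W (((a * D ^ 2 : ℤ)) : F) (((b * D ^ 3 : ℤ)) : F) →
  ∀ (P : W.Point) (h : ℚ[X]) (k : F[X]), ¬ ff F a b ∣ k →
    ff F a b ∣ h.map (algebraMap ℚ F) - cls D P * k ^ 2 → aeval θ h ≠ 0 →
    IsSquare (Algebra.norm ℚ (aeval θ h)) → Loc2 a b θ (aeval θ h) → IsSquare (aeval θ h)

theorem cub_cb {L : Type} [Field L] [NumberField L] {a b : ℤ} {θ : L} (hc : IsCub a b θ) :
    Cb ℚ (a : ℚ) (b : ℚ) θ where
  root := by
    have := hc.root
    rw [map_intCast, map_intCast]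
    exact this
  rank := hc.rank
  gen x := by
    obtain ⟨r, s, t, h⟩ := hc.gen x
    exact ⟨r, s, t, by simpa using h⟩

theorem cb_tw {M Ω : Type} [Field M] [CharZero M] [Field Ω] [Algebra M Ω] {a b D : ℤ} (hD : D ≠ 0)
    {t : Ω} (h : Cb M (a : M) (b : M) t) :
    Cb M (((a * D ^ 2 : ℤ)) : M) (((b * D ^ 3 : ℤ)) : M) ((D : Ω) * t) where
  root := by
    have := h.root
    rw [map_intCast, map_intCast] at *
    push_cast
    linear_combination (D : Ω) ^ 3 * this
  rank := h.rank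
  gen x := by
    obtain ⟨p, q, r, rfl⟩ := h.gen x
    have hD' : (D : M) ≠ 0 := by exact_mod_cast hD
    refine ⟨p, q / D, r / D ^ 2, ?_⟩
    have e1 : algebraMap M Ω (q / D) * ((D : Ω) * t) = algebraMap M Ω q * t := by
      have : algebraMap M Ω (q / D) * (D : Ω) = algebraMap M Ω q := by
        rw [← map_intCast (algebraMap M Ω), ← map_mul, div_mul_cancel₀ _ hD']
      rw [← mul_assoc, this]
    have e2 : algebraMap M Ω (r / D ^ 2) * ((D : Ω) * t) ^ 2 = algebraMap M Ω r * t ^ 2 := by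
      have : algebraMap M Ω (r / D ^ 2) * (D : Ω) ^ 2 = algebraMap M Ω r := by
        rw [← map_intCast (algebraMap M Ω), ← map_pow, ← map_mul, div_mul_cancel₀ _ (pow_ne_zero 2 hD')]
      rw [mul_pow, ← mul_assoc, this]
    rw [e1, e2]

/-- The cubic extension of `K`. -/
theorem exists_om {K : Type} [Field K] [NumberField K] {a b : ℤ}
    (hnr : ∀ t : K, t ^ 3 + (a : K) * t + (b : K) ≠ 0)
    {L : Type} [Field L] [NumberField L] {θ : L} (hc : IsCub a b θ)
    (hu : ∀ (Ω : Type) [Field Ω] [CharZero Ω] (t : Ω), t ^ 3 + (a : Ω) * t + (b : Ω) = 0 →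
        ∃ φ : L →+* Ω, φ θ = t) :
    ∃ (Ω : Type) (_ : Field Ω) (_ : NumberField Ω) (_ : Algebra K Ω) (_ : Algebra L Ω),
      Cb K (a : K) (b : K) (algebraMap L Ω θ) ∧ K⟮algebraMap L Ω θ⟯ = ⊤ ∧
      minpoly K (algebraMap L Ω θ) = ff K a b := by
  have hirr : Irreducible (ff K a b) := irr_tw' hnr
  obtain ⟨Ω, iF', iA', t, ht, hr, htop, hfin⟩ := exists_field hirr (ff_monic K a b) (ff_deg K a b)
  haveI : CharZero Ω := charZero_of_injective_algebraMap (algebraMap K Ω).injective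
  haveI : FiniteDimensional ℚ Ω := FiniteDimensional.trans ℚ K Ω
  haveI iN' : NumberField Ω := ⟨⟩
  have ht' : t ^ 3 + (a : Ω) * t + (b : Ω) = 0 := by
    simp only [ff, map_add, map_mul, map_pow, aeval_X, aeval_C, map_intCast] at ht
    exact ht
  obtain ⟨φ, hφ⟩ := hu Ω t ht'
  letI : Algebra L Ω := φ.toAlgebra
  have hroot : algebraMap L Ω θ = t := hφ
  have hmin : minpoly K (algebraMap L Ω θ) = ff K a b := by
    rw [hroot]
    exact (minpoly.eq_of_irreducible_of_monic hirr ht (ff_monic K a b)).symm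
  refine ⟨Ω, iF', iN', iA', inferInstance, ⟨?_, hr, ?_⟩, by rw [hroot]; exact htop, hmin⟩
  · rw [hroot, map_intCast, map_intCast]
    exact ht'
  · intro x
    rw [hroot]
    have hint : IsIntegral K t := Algebra.IsIntegral.isIntegral t
    have hx : x ∈ K⟮t⟯ := by rw [htop]; trivial
    rw [IntermediateField.mem_adjoin_simple_iff] at hx
    have h2 : Function.Surjective (aeval t : K[X] →ₐ[K] Ω) := by
      intro z
      have hz : z ∈ K⟮t⟯ := by rw [htop]; trivial
      rw [← IntermediateField.mem_toSubalgebra,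
        IntermediateField.adjoin_simple_toSubalgebra_of_isAlgebraic hint.isAlgebraic,
        Algebra.adjoin_singleton_eq_range_aeval] at hz
      exact hz
    obtain ⟨f, hf⟩ := h2 x
    have h3 : aeval t (f %ₘ ff K a b) = x := by
      rw [← hf]
      have := Polynomial.modByMonic_add_div f (ff K a b)
      conv_rhs => rw [← this]
      rw [map_add, map_mul, ht, zero_mul, add_zero]
    have h4 : (f %ₘ ff K a b).natDegree < 3 := by
      rw [← ff_deg K a b]
      exact Polynomial.natDegree_modByMonic_lt f (ff_monic K a b) (by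
        intro h1
        have := ff_deg K a b
        rw [h1, natDegree_one] at this
        omega)
    refine ⟨(f %ₘ ff K a b).coeff 0, (f %ₘ ff K a b).coeff 1, (f %ₘ ff K a b).coeff 2, ?_⟩
    rw [← h3]
    conv_lhs => rw [Polynomial.as_sum_range_C_mul_X_pow' _ h4]
    simp [Finset.sum_range_succ]

/-- The classes of the points and the action. -/
theorem xc_act {L K Ω : Type} [Field L] [Field K] [Field Ω] [Algebra L Ω] [Algebra K Ω]
    {W : Affine K} {act : (K ≃+* K) → W.Point → W.Point} (hact : IsAct act) {t : L}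
    (τ : Ω ≃ₐ[L] Ω) (σ : K ≃+* K) (h : ∀ x : K, algebraMap K Ω (σ x) = τ (algebraMap K Ω x))
    (P : W.Point) : τ (xc (algebraMap L Ω t) P) = xc (algebraMap L Ω t) (act σ P) := by
  rcases P with _ | ⟨x, y, hP⟩
  · have e := hact.zero σ
    have e' : act σ Point.zero = 0 := e
    rw [e']
    show τ 1 = 1
    exact map_one τ
  · obtain ⟨h', e⟩ := hact.some σ x y hP
    rw [e, xc_some, xc_some, map_sub, τ.commutes, h]

/-- The class of a point which is invariant modulo two comes from `L`. -/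
theorem inv_desc {K : Type} [Field K] [NumberField K] [IsGalois ℚ K] {n : ℕ}
    (hK : Module.finrank ℚ K = 2 ^ n) {L Ω : Type} [Field L] [NumberField L] [Field Ω]
    [NumberField Ω] [Algebra K Ω] [Algebra L Ω] {a b D : ℤ} (hD : D ≠ 0) {θ : L}
    (hc : IsCub a b θ) (hΩ : Cb K (a : K) (b : K) (algebraMap L Ω θ)) {W : Affine K}
    (hW : IsW W (((a * D ^ 2 : ℤ)) : K) (((b * D ^ 3 : ℤ)) : K))
    {act : (K ≃+* K) → W.Point → W.Point} (hact : IsAct act) (P : W.Point)
    (hP : ∀ σ : K ≃ₐ[ℚ] K, ∃ R : W.Point, act σ P = P + (2 : ℕ) • R) :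
    ∃ (x : L) (u : Ω), x ≠ 0 ∧ u ≠ 0 ∧ xc ((D : Ω) * algebraMap L Ω θ) P = algebraMap L Ω x * u ^ 2 ∧
      IsSquare (Algebra.norm ℚ x) := by
  have hL' : Cb ℚ (((a * D ^ 2 : ℤ)) : ℚ) (((b * D ^ 3 : ℤ)) : ℚ) ((D : L) * θ) :=
    cb_tw hD (cub_cb hc)
  have hΩ' : Cb K (((a * D ^ 2 : ℤ)) : K) (((b * D ^ 3 : ℤ)) : K) (algebraMap L Ω ((D : L) * θ)) := by
    have := cb_tw hD hΩ
    rw [map_mul, map_intCast]
    exact this
  have e0 : (D : Ω) * algebraMap L Ω θ = algebraMap L Ω ((D : L) * θ) := by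
    rw [map_mul, map_intCast]
  rw [e0]
  refine descend (L := L) (M := K) (Ω := Ω) (θ := (D : L) * θ) hK hL' hΩ' (xc_ne hΩ' P)
    (xc_norm hW hΩ' P) ?_
  intro τ
  obtain ⟨σ, hσ⟩ := restr (M := K) τ
  rw [xc_act hact τ (σ : K ≃+* K) hσ P]
  obtain ⟨R, hR⟩ := hP σ
  rw [hR]
  obtain ⟨z₁, h1⟩ := xc_add hW hΩ' R R
  obtain ⟨z₂, h2⟩ := xc_add hW hΩ' P ((2 : ℕ) • R)
  rw [← two_nsmul] at h1
  have n1 := xc_ne hΩ' R
  have n2 := xc_ne hΩ' P
  have n3 := xc_ne hΩ' ((2 : ℕ) • R)
  have n4 := xc_ne hΩ' (P + (2 : ℕ) • R)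
  set p := xc (algebraMap L Ω ((D : L) * θ)) P
  set q := xc (algebraMap L Ω ((D : L) * θ)) ((2 : ℕ) • R)
  set r := xc (algebraMap L Ω ((D : L) * θ)) (P + (2 : ℕ) • R)
  set s := xc (algebraMap L Ω ((D : L) * θ)) R
  refine ⟨z₂ * s / (p * z₁), ?_⟩
  have hz1 : z₁ ≠ 0 := by
    rintro rfl
    rw [mul_zero] at h1
    exact (mul_ne_zero (mul_ne_zero n1 n1) n3) h1
  rw [div_pow, mul_pow, mul_pow]
  have h3 : r * (p ^ 2 * z₁ ^ 2) = p * (z₂ ^ 2 * s ^ 2) := by
    have e1 : z₁ ^ 2 = s * s * q := by rw [h1]; ring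
    have e2 : z₂ ^ 2 = p * q * r := by rw [h2]; ring
    rw [e1, e2]
    ring
  rw [mul_div_assoc', eq_div_iff (mul_ne_zero (pow_ne_zero 2 n2) (pow_ne_zero 2 hz1))]
  exact h3

theorem exists_k {K Ω : Type} [Field K] [Field Ω] [Algebra K Ω] {A B : K} {t : Ω} (h : Cb K A B t)
    (x : Ω) : ∃ k : K[X], aeval t k = x := by
  obtain ⟨p, q, r, rfl⟩ := h.gen x
  exact ⟨C p + C q * X + C r * X ^ 2, by simp⟩

section rel

variable {F K : Type} [Field F] [CharZero F] [Field K] [NumberField K] [Algebra K F]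
  {L Ω : Type} [Field L] [NumberField L] [Field Ω] [NumberField Ω] [Algebra K Ω] [Algebra L Ω]
  {a b D : ℤ} {θ : L}

/-- From the relation in `Ω` to polynomials. -/
theorem rel_poly (hc : IsCub a b θ) (hΩ : Cb K (a : K) (b : K) (algebraMap L Ω θ))
    (hmin : minpoly K (algebraMap L Ω θ) = ff K a b) {W : Affine K} {P : W.Point} {x : L} {u : Ω}
    (hu : u ≠ 0) (hx : xc ((D : Ω) * algebraMap L Ω θ) P = algebraMap L Ω x * u ^ 2) :
    ∃ (h : ℚ[X]) (k : K[X]), aeval θ h = x ∧ ¬ ff K a b ∣ k ∧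
      ff K a b ∣ h.map (algebraMap ℚ K) - cls D P * k ^ 2 := by
  obtain ⟨h, hh⟩ := hc.exists_poly x
  obtain ⟨k, hk⟩ := exists_k hΩ u⁻¹
  refine ⟨h, k, hh, ?_, ?_⟩
  · rw [← hmin]
    intro hd
    obtain ⟨g, rfl⟩ := hd
    rw [map_mul, minpoly.aeval, zero_mul] at hk
    exact (inv_ne_zero hu) hk.symm
  · rw [← hmin]
    apply minpoly.dvd
    rw [map_sub, map_mul, map_pow, hk, aeval_cls, hx, aeval_map_algebraMap,
      aeval_algebraMap_apply, hh]
    field_simp
    ring

theorem cls_map {W : Affine K} {W' : Affine F} (D : ℤ) (ι : W.Point → W'.Point)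
    (h0 : ι 0 = 0) (hι : ∀ x y h, ∃ h', ι (Point.some x y h) =
      Point.some (algebraMap K F x) (algebraMap K F y) h') (P : W.Point) :
    cls D (ι P) = (cls D P).map (algebraMap K F) := by
  rcases P with _ | ⟨x, y, hP⟩
  · have e : ι Point.zero = 0 := h0
    rw [e]
    show (1 : F[X]) = (1 : K[X]).map _
    rw [Polynomial.map_one]
  · obtain ⟨h', e⟩ := hι x y hP
    rw [e]
    show C (algebraMap K F x) - C (D : F) * X = (C x - C (D : K) * X).map _
    have e3 : algebraMap K F (D : K) = (D : F) := map_intCast _ _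
    rw [Polynomial.map_sub, Polynomial.map_mul, Polynomial.map_C, Polynomial.map_C, Polynomial.map_X,
      e3]

/-- The relation over the big field. -/
theorem rel_up {W : Affine K} {W' : Affine F} (ι : W.Point → W'.Point)
    (h0 : ι 0 = 0) (hι : ∀ x y h, ∃ h', ι (Point.some x y h) =
      Point.some (algebraMap K F x) (algebraMap K F y) h') {P : W.Point} {h : ℚ[X]} {k : K[X]}
    (h1 : ¬ ff K a b ∣ k) (h2 : ff K a b ∣ h.map (algebraMap ℚ K) - cls D P * k ^ 2) :
    ¬ ff F a b ∣ k.map (algebraMap K F) ∧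
      ff F a b ∣ h.map (algebraMap ℚ F) - cls D (ι P) * (k.map (algebraMap K F)) ^ 2 := by
  constructor
  · intro hd
    apply h1
    rw [← ff_map (algebraMap K F), Polynomial.map_dvd_map' (algebraMap K F)] at hd
    exact hd
  · have h3 := Polynomial.map_dvd (algebraMap K F) h2
    rw [ff_map, Polynomial.map_sub, Polynomial.map_mul, Polynomial.map_pow, Polynomial.map_map,
      ← cls_map D ι h0 hι] at h3
    have e : (algebraMap K F).comp (algebraMap ℚ K) = algebraMap ℚ F := RingHom.ext_rat _ _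
    rw [e] at h3
    exact h3

end rel

/-- The local condition at `2`. -/
def LC (K R : Type) [Field K] [NumberField K] [CommRing R] [IsDedekindDomain R] [Algebra R K]
    [IsFractionRing R K] (α β : ℤ) : Prop :=
  ∃ w : HeightOneSpectrum R, Ov 2 w ∧
    Adm (Valued.v : Valuation (w.adicCompletion K) (WithZero (Multiplicative ℤ))) α β

/-- The local condition at `2` of a point. -/
theorem pl_pt {K R : Type} [Field K] [NumberField K] [CommRing R] [IsDedekindDomain R] [Algebra R K]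
    [IsFractionRing R K] [IsIntegralClosure R ℤ K] {a b D : ℤ} (hD : D ≠ 0) (hD8 : D % 8 = 1)
    (w : HeightOneSpectrum R) (hw : Ov 2 w) (hnr : ∀ t : K, t ^ 3 + (a : K) * t + (b : K) ≠ 0)
    {W : Affine K} (hW : IsW W (((a * D ^ 2 : ℤ)) : K) (((b * D ^ 3 : ℤ)) : K)) (P : W.Point) :
    PL (w.adicCompletion K) a b ((cls D P).map (algebraMap K (w.adicCompletion K))) := by
  rcases P with _ | ⟨x, y, hP⟩
  · left
    refine ⟨1, ?_⟩
    show _ ∣ (1 : K[X]).map _ - _
    rw [Polynomial.map_one, one_pow, sub_self]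
    exact dvd_zero _
  · have e := hW.eqn hP
    have hy : y ≠ 0 := by
      rintro rfl
      apply no_root_tw' hnr hD x
      rw [← e]
      ring
    have h1 : Pool.Agent.N874.PM.PLoc (w.adicCompletion K) (((a * D ^ 2 : ℤ)) : K)
        (((b * D ^ 3 : ℤ)) : K) (C x - X) := by
      right
      refine ⟨algebraMap K _ x, algebraMap K _ y, (_root_.map_ne_zero _).2 hy, ?_,
        C (algebraMap K _ x) - X, ?_⟩
      · rw [← map_pow, e]
        simp only [map_add, map_mul, map_pow]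
      · rw [Polynomial.map_sub, Polynomial.map_C, Polynomial.map_X, ← pow_two, sub_self]
        exact dvd_zero _
    have h2 := Pool.Agent.N279.PV.twg K (w.adicCompletion K) a b D hD
      (Pool.Agent.N279.PV.sqd K R w hw D hD8) (C x - X) h1
    have e2 : (C x - X : K[X]).comp (C (D : K) * X) = C x - C (D : K) * X := by
      rw [sub_comp, C_comp, X_comp]
    rw [e2] at h2
    exact h2

theorem isSq_of_mul {F : Type} [Field F] {x u : F} (hu : u ≠ 0) (h : IsSquare x) :
    IsSquare (x * u ^ 2) := h.mul ⟨u, pow_two u⟩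

/-- With the local condition at `2`: the invariant points are divisible by two. -/
theorem one {F K R : Type} [Field F] [CharZero F] [Field K] [NumberField K] [IsGalois ℚ K]
    [Algebra K F] [CommRing R] [IsDedekindDomain R] [Algebra R K] [IsFractionRing R K]
    [IsIntegralClosure R ℤ K] {n : ℕ} (hK : Module.finrank ℚ K = 2 ^ n) {L : Type} [Field L]
    [NumberField L] {a b D : ℤ} (hD : D ≠ 0) (hD8 : D % 8 = 1) {θ : L} (hc : IsCub a b θ)
    (hu : ∀ (Ω : Type) [Field Ω] [CharZero Ω] (t : Ω), t ^ 3 + (a : Ω) * t + (b : Ω) = 0 →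
        ∃ φ : L →+* Ω, φ θ = t)
    (ha : Odd a) (hab : (4 : ℤ) ∣ a - b) {α β : ℤ} (h8 : (8 : ℤ) ∣ a - α) (h8' : (8 : ℤ) ∣ b - β)
    (hnr : ∀ t : K, t ^ 3 + (a : K) * t + (b : K) ≠ 0) (hFL : FL F a b D θ)
    (hLC : LC K R α β) {W : Affine K}
    (hW : IsW W (((a * D ^ 2 : ℤ)) : K) (((b * D ^ 3 : ℤ)) : K)) {W' : Affine F}
    (hW' : IsW W' (((a * D ^ 2 : ℤ)) : F) (((b * D ^ 3 : ℤ)) : F))
    (ι : W.Point → W'.Point)
    (h0 : ι 0 = 0) (hι : ∀ x y h, ∃ h', ι (Point.some x y h) =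
      Point.some (algebraMap K F x) (algebraMap K F y) h')
    {act : (K ≃+* K) → W.Point → W.Point} (hact : IsAct act) (P : W.Point)
    (hP : ∀ σ : K ≃ₐ[ℚ] K, ∃ R : W.Point, act σ P = P + (2 : ℕ) • R) :
    ∃ Q : W.Point, P = (2 : ℕ) • Q := by
  obtain ⟨Ω, _, _, _, _, hΩ, htop, hmin⟩ := exists_om hnr hc hu
  obtain ⟨x, u, hx, hu0, hxu, hN⟩ := inv_desc hK hD hc hΩ hW hact P hP
  obtain ⟨h, k, hh, hk1, hk2⟩ := rel_poly hc hΩ hmin hu0 hxu
  obtain ⟨w, hw, hadm⟩ := hLC
  -- the local condition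
  have hloc : Loc2 a b θ x := by
    have hcl := hadm a b h8 h8'
    have hv2 : Valued.v (2 : w.adicCompletion K) < 1 := by
      have h1 := HeightOneSpectrum.valuedAdicCompletion_eq_valuation' (K := K) w (2 : K)
      have e : ((2 : K) : w.adicCompletion K) = 2 := map_ofNat (algebraMap K (w.adicCompletion K)) 2
      rw [e] at h1
      rw [h1]
      have h2 := (ov_val (L := K) 2 w).1 hw
      exact_mod_cast h2
    haveI : CharZero (w.adicCompletion K) :=
      charZero_of_injective_algebraMap (algebraMap K (w.adicCompletion K)).injective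
    refine ud_gen hc ha hab hx hN Valued.v hv2 hcl ?_
    intro h' hh'
    have h1 := pl_pt (R := R) hD hD8 w hw hnr hW P
    have h2 := Pool.Agent.N951.PV.pl_sq (k.map (algebraMap K (w.adicCompletion K))) h1
    refine Pool.Agent.N951.PV.pl_congr ?_ h2
    have h3 : ff K a b ∣ k ^ 2 * cls D P - h'.map (algebraMap ℚ K) := by
      rw [← hmin]
      apply minpoly.dvd
      rw [← hmin] at hk2
      obtain ⟨g, hg⟩ := hk2
      have h4 := congrArg (aeval (algebraMap L Ω θ)) hg
      have e5 : ∀ q : ℚ[X], aeval (algebraMap L Ω θ) (q.map (algebraMap ℚ K)) =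
          algebraMap L Ω (aeval θ q) := fun q => by
        rw [aeval_map_algebraMap, aeval_algebraMap_apply]
      rw [map_sub, map_mul, map_mul, map_pow, minpoly.aeval, zero_mul, e5, hh] at h4
      rw [map_sub, map_mul, map_pow, e5, hh']
      linear_combination -h4
    have h5 := Polynomial.map_dvd (algebraMap K (w.adicCompletion K)) h3
    rw [ff_map, Polynomial.map_sub, Polynomial.map_mul, Polynomial.map_pow, Polynomial.map_map] at h5
    have e : (algebraMap K (w.adicCompletion K)).comp (algebraMap ℚ K) =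
        algebraMap ℚ (w.adicCompletion K) := RingHom.ext_rat _ _
    rw [e] at h5
    exact h5
  obtain ⟨g1, g2⟩ := rel_up ι h0 hι hk1 hk2
  have hsq := hFL W' hW' (ι P) h _ g1 g2 (by rw [hh]; exact hx) (by rw [hh]; exact hN)
    (by rw [hh]; exact hloc)
  rw [hh] at hsq
  refine halve hW (cb_tw hD hΩ) P ?_
  rw [hxu]
  exact isSq_of_mul hu0 (hsq.map _)

/-- Without the local condition at `2`: two classes. -/
theorem two {F : Type} [Field F] [NumberField F] [IsGalois ℚ F] {n : ℕ}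
    (hK : Module.finrank ℚ F = 2 ^ n) {L : Type} [Field L]
    [NumberField L] {a b D : ℤ} (hD : D ≠ 0) {θ : L} (hc : IsCub a b θ)
    (hu : ∀ (Ω : Type) [Field Ω] [CharZero Ω] (t : Ω), t ^ 3 + (a : Ω) * t + (b : Ω) = 0 →
        ∃ φ : L →+* Ω, φ θ = t)
    (ha : Odd a) (hab : (4 : ℤ) ∣ a - b)
    (hnr : ∀ t : F, t ^ 3 + (a : F) * t + (b : F) ≠ 0) (hFL : FL F a b D θ) {W : Affine F}
    (hW : IsW W (((a * D ^ 2 : ℤ)) : F) (((b * D ^ 3 : ℤ)) : F))
    {act : (F ≃+* F) → W.Point → W.Point} (hact : IsAct act) (P P' : W.Point)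
    (hP : ∀ σ : F ≃ₐ[ℚ] F, ∃ R : W.Point, act σ P = P + (2 : ℕ) • R)
    (hP' : ∀ σ : F ≃ₐ[ℚ] F, ∃ R : W.Point, act σ P' = P' + (2 : ℕ) • R) :
    (∃ Q : W.Point, P = (2 : ℕ) • Q) ∨ (∃ Q : W.Point, P' = (2 : ℕ) • Q) ∨
      (∃ Q : W.Point, P + P' = (2 : ℕ) • Q) := by
  obtain ⟨Ω, _, _, _, _, hΩ, htop, hmin⟩ := exists_om hnr hc hu
  obtain ⟨x, u, hx, hu0, hxu, hN⟩ := inv_desc hK hD hc hΩ hW hact P hP
  obtain ⟨x', u', hx', hu0', hxu', hN'⟩ := inv_desc hK hD hc hΩ hW hact P' hP'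
  have hΩD := cb_tw hD hΩ
  have fin : ∀ (Q : W.Point) (y : L) (v : Ω), y ≠ 0 → v ≠ 0 →
      xc ((D : Ω) * algebraMap L Ω θ) Q = algebraMap L Ω y * v ^ 2 → IsSquare (Algebra.norm ℚ y) →
      Loc2 a b θ y → ∃ Q' : W.Point, Q = (2 : ℕ) • Q' := by
    intro Q y v hy hv hyv hNy hly
    obtain ⟨h, k, hh, hk1, hk2⟩ := rel_poly hc hΩ hmin hv hyv
    have hsq := hFL W hW Q h k hk1 hk2 (by rw [hh]; exact hy) (by rw [hh]; exact hNy)
      (by rw [hh]; exact hly)
    rw [hh] at hsq
    refine halve hW hΩD Q ?_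
    rw [hyv]
    exact isSq_of_mul hv (hsq.map _)
  rcases two_cls hc ha hab hx hx' hN hN' with h1 | h1 | h1
  · exact Or.inl (fin P x u hx hu0 hxu hN h1)
  · exact Or.inr (Or.inl (fin P' x' u' hx' hu0' hxu' hN' h1))
  · right; right
    obtain ⟨z, hz⟩ := xc_add hW hΩD P P'
    rw [hxu, hxu'] at hz
    have n1 := xc_ne hΩD (P + P')
    have hz0 : z ≠ 0 := by
      rintro rfl
      rw [mul_zero] at hz
      refine (mul_ne_zero (mul_ne_zero (mul_ne_zero ?_ (pow_ne_zero 2 hu0))
        (mul_ne_zero ?_ (pow_ne_zero 2 hu0'))) n1) hz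
      · exact (_root_.map_ne_zero _).2 hx
      · exact (_root_.map_ne_zero _).2 hx'
    have hX : algebraMap L Ω x ≠ 0 := (_root_.map_ne_zero _).2 hx
    have hX' : algebraMap L Ω x' ≠ 0 := (_root_.map_ne_zero _).2 hx'
    refine fin (P + P') (x * x') (z / (algebraMap L Ω (x * x') * u * u')) (mul_ne_zero hx hx')
      (div_ne_zero hz0 (mul_ne_zero (mul_ne_zero ((_root_.map_ne_zero _).2 (mul_ne_zero hx hx')) hu0)
        hu0')) ?_ (by rw [map_mul]; exact hN.mul hN') h1
    rw [div_pow, map_mul, mul_div_assoc', eq_div_iff (pow_ne_zero 2 (mul_ne_zero (mul_ne_zero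
      (mul_ne_zero hX hX') hu0) hu0'))]
    linear_combination (algebraMap L Ω x * algebraMap L Ω x') * hz

end Pool.Agent.Helper10.RM
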