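import Pool.Agent.Helper10.RM.Key

/-!
# Fields with a prime over `2` which is at most slightly ramified
-/

set_option autoImplicit false
set_option linter.all false

open Polynomial IsDedekindDomain NumberField WithZero
open scoped Classical

namespace Pool.Agent.Helper10.RM

open Pool.Agent.N922.PQ

theorem poly_le {F Γ : Type} [Field F] [LinearOrderedCommGroupWithZero Γ] (v : Valuation F Γ)
    {u ρ : F} (hu : v u ≤ 1) (hρ : v ρ ≤ 1) :
    v (u ^ 3 + u ^ 2 * ρ + u * ρ ^ 2 + ρ ^ 3 - 1) ≤ 1 := by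
  have hu' : u ∈ v.integer := hu
  have hρ' : ρ ∈ v.integer := hρ
  have h : u ^ 3 + u ^ 2 * ρ + u * ρ ^ 2 + ρ ^ 3 - 1 ∈ v.integer :=
    sub_mem (add_mem (add_mem (add_mem (pow_mem hu' 3) (mul_mem (pow_mem hu' 2) hρ'))
      (mul_mem hu' (pow_mem hρ' 2))) (pow_mem hρ' 3)) (one_mem _)
  exact h

section

variable {K : Type} [Field K] [NumberField K] (w : HeightOneSpectrum (𝓞 K))

/-- An element of the completion is close to an integer. -/
theorem near_int (u : w.adicCompletion K) (hu : Valued.v u ≤ 1) :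
    ∃ r : 𝓞 K, Valued.v (u - algebraMap K (w.adicCompletion K) (algebraMap (𝓞 K) K r)) < 1 := by
  obtain ⟨x, hx⟩ := Pool.Agent.N301.PV.near_one w u
  have hx1 : w.valuation K x ≤ 1 := by
    rw [← Pool.Agent.N301.PV.vx]
    have e : algebraMap K (w.adicCompletion K) x =
        u - (u - algebraMap K (w.adicCompletion K) x) := by ring
    rw [e]
    exact (Valuation.map_sub _ _ _).trans (max_le hu hx.le)
  obtain ⟨r, hr⟩ := w.exists_valuation_sub_lt_of_integer (K := K) hx1 1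
  have hr1 : w.valuation K (algebraMap (𝓞 K) K r - x) < 1 := by exact_mod_cast hr
  refine ⟨r, ?_⟩
  have e : u - algebraMap K (w.adicCompletion K) (algebraMap (𝓞 K) K r) =
      (u - algebraMap K (w.adicCompletion K) x) -
        algebraMap K (w.adicCompletion K) (algebraMap (𝓞 K) K r - x) := by
    rw [map_sub]
    ring
  rw [e]
  refine lt_of_le_of_lt (Valuation.map_sub _ _ _) (max_lt hx ?_)
  rw [Pool.Agent.N301.PV.vx]
  exact hr1

theorem v_int (r : 𝓞 K) :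
    Valued.v (algebraMap K (w.adicCompletion K) (algebraMap (𝓞 K) K r)) ≤ 1 := by
  rw [Pool.Agent.N301.PV.vx]
  exact w.valuation_le_one r

theorem v_mem (r : 𝓞 K) :
    Valued.v (algebraMap K (w.adicCompletion K) (algebraMap (𝓞 K) K r)) < 1 ↔ r ∈ w.asIdeal := by
  rw [Pool.Agent.N301.PV.vx, w.valuation_lt_one_iff_mem]

theorem v_pow (r : 𝓞 K) (n : ℕ) :
    Valued.v (algebraMap K (w.adicCompletion K) (algebraMap (𝓞 K) K r)) ≤ WithZero.exp (-(n : ℤ)) ↔
      r ∈ w.asIdeal ^ n := by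
  rw [Pool.Agent.N301.PV.vx, HeightOneSpectrum.valuation_of_algebraMap,
    HeightOneSpectrum.intValuation_le_pow_iff_mem]

theorem v_two : algebraMap K (w.adicCompletion K) (algebraMap (𝓞 K) K 2) = 2 := by
  rw [map_ofNat, map_ofNat]

theorem v_two_ne : (2 : w.adicCompletion K) ≠ 0 := by
  haveI : CharZero (w.adicCompletion K) :=
    charZero_of_injective_algebraMap (algebraMap K (w.adicCompletion K)).injective
  exact two_ne_zero

theorem v_uni {x : w.adicCompletion K} (h : Valued.v x < 1) :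
    Valued.v x ≤ WithZero.exp (-1 : ℤ) := by
  by_cases h0 : Valued.v x = 0
  · rw [h0]
    exact zero_le'
  · rw [← WithZero.exp_log h0, ← WithZero.exp_zero, WithZero.exp_lt_exp] at h
    rw [← WithZero.exp_log h0, WithZero.exp_le_exp]
    omega

theorem v_eq {x : w.adicCompletion K} (n : ℕ) (h1 : Valued.v x ≤ WithZero.exp (-(n : ℤ)))
    (h2 : ¬ Valued.v x ≤ WithZero.exp (-((n + 1 : ℕ) : ℤ))) :
    Valued.v x = WithZero.exp (-(n : ℤ)) := by
  have h0 : Valued.v x ≠ 0 := by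
    intro h0
    apply h2
    rw [h0]
    exact zero_le'
  rw [← WithZero.exp_log h0] at h1 h2 ⊢
  rw [WithZero.exp_le_exp] at h1 h2
  congr 1
  push_cast at h1 h2
  omega

/-- Unramified. -/
theorem adm_one (h1 : (2 : 𝓞 K) ∈ w.asIdeal) (h2 : (2 : 𝓞 K) ∉ w.asIdeal ^ 2) {α β : ℤ}
    (hα : Odd α) (hαβ : (4 : ℤ) ∣ α - β) :
    Adm (Valued.v : Valuation (w.adicCompletion K) (WithZero (Multiplicative ℤ))) α β := by
  haveI : CharZero (w.adicCompletion K) :=
    charZero_of_injective_algebraMap (algebraMap K (w.adicCompletion K)).injective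
  have hv2 : Valued.v (2 : w.adicCompletion K) = WithZero.exp (-((1 : ℕ) : ℤ)) := by
    refine v_eq w 1 ?_ ?_
    · rw [← v_two w, v_pow, pow_one]
      exact h1
    · rw [← v_two w, v_pow]
      exact h2
  refine adm_unr ?_ (fun x hx => ?_) hα hαβ
  · rw [hv2, ← WithZero.exp_zero, WithZero.exp_lt_exp]
    norm_num
  · rw [hv2]
    have := v_uni w hx
    exact_mod_cast this

/-- A uniformizer. -/
theorem unif_of (h1 : (2 : 𝓞 K) ∈ w.asIdeal ^ 2) (h2 : (2 : 𝓞 K) ∉ w.asIdeal ^ 3)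
    {ϖ : w.adicCompletion K} (hϖ : Valued.v ϖ = WithZero.exp (-1 : ℤ)) :
    Unif (Valued.v : Valuation (w.adicCompletion K) (WithZero (Multiplicative ℤ))) ϖ := by
  have hv2 : Valued.v (2 : w.adicCompletion K) = WithZero.exp (-((2 : ℕ) : ℤ)) := by
    refine v_eq w 2 ?_ ?_
    · rw [← v_two w, v_pow]
      exact h1
    · rw [← v_two w, v_pow]
      exact h2
  refine ⟨?_, ?_, fun x hx => ?_⟩
  · rw [hv2, ← WithZero.exp_zero, WithZero.exp_lt_exp]
    norm_num
  · rw [hϖ, hv2, ← WithZero.exp_nsmul]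
    rfl
  · rw [hϖ]
    exact v_uni w hx

/-- Type A. -/
theorem adm_two (h1 : (2 : 𝓞 K) ∈ w.asIdeal ^ 2) (h2 : (2 : 𝓞 K) ∉ w.asIdeal ^ 3)
    (hcard : Nat.card (𝓞 K ⧸ w.asIdeal) ∣ 4) (x : 𝓞 K) (hx : x ^ 2 - 2 ∈ w.asIdeal ^ 4) :
    Adm (Valued.v : Valuation (w.adicCompletion K) (WithZero (Multiplicative ℤ))) 3 3 := by
  haveI : CharZero (w.adicCompletion K) :=
    charZero_of_injective_algebraMap (algebraMap K (w.adicCompletion K)).injective
  have hv2 : Valued.v (2 : w.adicCompletion K) = WithZero.exp (-((2 : ℕ) : ℤ)) := by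
    refine v_eq w 2 ?_ ?_
    · rw [← v_two w, v_pow]
      exact h1
    · rw [← v_two w, v_pow]
      exact h2
  obtain ⟨ϖ, hϖ⟩ : ∃ ϖ, ϖ = algebraMap K (w.adicCompletion K) (algebraMap (𝓞 K) K x) := ⟨_, rfl⟩
  have hx4 : Valued.v (ϖ ^ 2 - 2) ≤ WithZero.exp (-((4 : ℕ) : ℤ)) := by
    rw [hϖ, ← v_two w, ← map_pow, ← map_pow, ← map_sub, ← map_sub, v_pow]
    exact hx
  have hlt : WithZero.exp (-((4 : ℕ) : ℤ)) < WithZero.exp (-((2 : ℕ) : ℤ)) := by
    rw [WithZero.exp_lt_exp]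
    norm_num
  have hsq : Valued.v ϖ ^ 2 = WithZero.exp (-((2 : ℕ) : ℤ)) := by
    rw [← map_pow, ← hv2]
    have h3 : Valued.v (ϖ ^ 2 - 2) < Valued.v (2 : w.adicCompletion K) := by
      rw [hv2]
      exact lt_of_le_of_lt hx4 hlt
    have e : ϖ ^ 2 = 2 + (ϖ ^ 2 - 2) := by ring
    rw [e]
    exact Valuation.map_add_eq_of_lt_left _ h3
  have h0 : Valued.v ϖ ≠ 0 := by
    intro h0
    rw [h0, zero_pow two_ne_zero] at hsq
    exact WithZero.exp_ne_zero hsq.symm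
  have hϖ1 : Valued.v ϖ = WithZero.exp (-1 : ℤ) := by
    rw [← WithZero.exp_log h0] at hsq ⊢
    rw [← WithZero.exp_nsmul, WithZero.exp_inj] at hsq
    congr 1
    simp only [nsmul_eq_mul] at hsq
    push_cast at hsq
    omega
  have hres : ∀ u : w.adicCompletion K, Valued.v u ≤ 1 → Valued.v (u ^ 4 - u) < 1 := by
    intro u hu
    obtain ⟨r, hr⟩ := near_int w u hu
    set ρ := algebraMap K (w.adicCompletion K) (algebraMap (𝓞 K) K r) with hρ
    have h3 : r ^ 4 - r ∈ w.asIdeal := by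
      haveI := w.isMaximal
      letI := Ideal.Quotient.field w.asIdeal
      rw [← Ideal.Quotient.eq_zero_iff_mem, map_sub, map_pow, sub_eq_zero]
      obtain ⟨m, hm⟩ := hcard
      haveI : Finite (𝓞 K ⧸ w.asIdeal) := Nat.finite_of_card_ne_zero (by
        intro h0
        rw [h0] at hm
        omega)
      haveI := Fintype.ofFinite (𝓞 K ⧸ w.asIdeal)
      have h5 : Fintype.card (𝓞 K ⧸ w.asIdeal) = 2 ∨ Fintype.card (𝓞 K ⧸ w.asIdeal) = 4 := by
        rw [← Nat.card_eq_fintype_card]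
        have h6 : 1 < Nat.card (𝓞 K ⧸ w.asIdeal) := Finite.one_lt_card
        have h7 : Nat.card (𝓞 K ⧸ w.asIdeal) ∣ 4 := ⟨m, hm⟩
        have h8 : Nat.card (𝓞 K ⧸ w.asIdeal) ≤ 4 := Nat.le_of_dvd (by norm_num) h7
        interval_cases h9 : Nat.card (𝓞 K ⧸ w.asIdeal)
        · left; rfl
        · omega
        · right; rfl
      rcases h5 with h5 | h5
      · have h6 := FiniteField.pow_card (Ideal.Quotient.mk w.asIdeal r)
        rw [h5] at h6
        have e : (Ideal.Quotient.mk w.asIdeal r) ^ 4 =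
            ((Ideal.Quotient.mk w.asIdeal r) ^ 2) ^ 2 := by ring
        rw [e, h6, h6]
      · have h6 := FiniteField.pow_card (Ideal.Quotient.mk w.asIdeal r)
        rw [h5] at h6
        exact h6
    have h4 : Valued.v (ρ ^ 4 - ρ) < 1 := by
      rw [hρ, ← map_pow, ← map_pow, ← map_sub, ← map_sub, v_mem]
      exact h3
    have hρ1 : Valued.v ρ ≤ 1 := v_int w r
    have e : u ^ 4 - u = (u - ρ) * (u ^ 3 + u ^ 2 * ρ + u * ρ ^ 2 + ρ ^ 3 - 1) + (ρ ^ 4 - ρ) := by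
      ring
    rw [e]
    refine lt_of_le_of_lt (Valuation.map_add _ _ _) (max_lt ?_ h4)
    rw [map_mul]
    refine mul_lt_one_of_nonneg_of_lt_one_left zero_le' hr ?_
    exact poly_le _ hu hρ1
  refine adm_A (unif_of w h1 h2 hϖ1) ?_ hres
  refine hx4.trans (le_of_eq ?_)
  have e4 : (4 : w.adicCompletion K) = 2 ^ 2 := by norm_num
  rw [e4, map_pow, hv2, ← WithZero.exp_nsmul]
  rfl

/-- Ramified with residue field of two elements. -/
theorem adm_three (h1 : (2 : 𝓞 K) ∈ w.asIdeal ^ 2) (h2 : (2 : 𝓞 K) ∉ w.asIdeal ^ 3)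
    (hcard : Nat.card (𝓞 K ⧸ w.asIdeal) = 2) :
    Adm (Valued.v : Valuation (w.adicCompletion K) (WithZero (Multiplicative ℤ))) 3 3 ∨
    Adm (Valued.v : Valuation (w.adicCompletion K) (WithZero (Multiplicative ℤ))) 1 1 ∨
    Adm (Valued.v : Valuation (w.adicCompletion K) (WithZero (Multiplicative ℤ))) 1 5 := by
  haveI : CharZero (w.adicCompletion K) :=
    charZero_of_injective_algebraMap (algebraMap K (w.adicCompletion K)).injective
  obtain ⟨π, hπ⟩ := w.valuation_exists_uniformizer K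
  have hϖ : Valued.v (algebraMap K (w.adicCompletion K) π) = WithZero.exp (-1 : ℤ) := by
    rw [Pool.Agent.N301.PV.vx, hπ]
  refine adm_ram (unif_of w h1 h2 hϖ) ?_
  intro u hu
  obtain ⟨r, hr⟩ := near_int w u hu
  set ρ := algebraMap K (w.adicCompletion K) (algebraMap (𝓞 K) K r) with hρ
  haveI : Finite (𝓞 K ⧸ w.asIdeal) := Nat.finite_of_card_ne_zero (by
    rw [hcard]
    norm_num)
  haveI := Fintype.ofFinite (𝓞 K ⧸ w.asIdeal)
  have h3 : r ∈ w.asIdeal ∨ r - 1 ∈ w.asIdeal := by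
    haveI := w.isMaximal
    letI := Ideal.Quotient.field w.asIdeal
    have h6 := FiniteField.pow_card (Ideal.Quotient.mk w.asIdeal r)
    rw [← Nat.card_eq_fintype_card, hcard] at h6
    have h7 : r ^ 2 - r ∈ w.asIdeal := by
      rw [← Ideal.Quotient.eq_zero_iff_mem, map_sub, map_pow, sub_eq_zero]
      exact h6
    have e : r ^ 2 - r = r * (r - 1) := by ring
    rw [e] at h7
    exact w.isPrime.mem_or_mem h7
  rcases h3 with h3 | h3
  · left
    have e : u = (u - ρ) + ρ := by ring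
    rw [e]
    refine lt_of_le_of_lt (Valuation.map_add _ _ _) (max_lt hr ?_)
    exact (v_mem w r).2 h3
  · right
    have e : u - 1 = (u - ρ) + (ρ - 1) := by ring
    rw [e]
    refine lt_of_le_of_lt (Valuation.map_add _ _ _) (max_lt hr ?_)
    have h4 := (v_mem w (r - 1)).2 h3
    rw [map_sub, map_sub, map_one, map_one] at h4
    exact h4

end

/-- The field has a prime over `2` which is at most slightly ramified. -/
def Mild (K : Type) [Field K] [NumberField K] : Prop :=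
  ∃ 𝔭 : Ideal (𝓞 K), 𝔭.IsPrime ∧ (2 : 𝓞 K) ∈ 𝔭 ∧
    ((2 : 𝓞 K) ∉ 𝔭 ^ 2 ∨
      ((2 : 𝓞 K) ∉ 𝔭 ^ 3 ∧ (Nat.card (𝓞 K ⧸ 𝔭) = 2 ∨
        (Nat.card (𝓞 K ⧸ 𝔭) = 4 ∧ ∃ x : 𝓞 K, x ^ 2 - 2 ∈ 𝔭 ^ 4))))

theorem lc_of_mild {K : Type} [Field K] [NumberField K] (h : Mild K) :
    ∃ α β : ℤ, Odd α ∧ Odd β ∧ (4 : ℤ) ∣ α - β ∧ LC K (𝓞 K) α β := by
  obtain ⟨𝔭, h𝔭, h2, h⟩ := h
  have hbot : 𝔭 ≠ ⊥ := by
    rintro rfl
    rw [Ideal.mem_bot] at h2
    exact two_ne_zero h2
  let w : HeightOneSpectrum (𝓞 K) := ⟨𝔭, h𝔭, hbot⟩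
  have hw : Ov 2 w := by
    unfold Ov
    exact_mod_cast h2
  by_cases h22 : (2 : 𝓞 K) ∈ 𝔭 ^ 2
  · rcases h with h | ⟨h3, h | ⟨h4, x, hx⟩⟩
    · exact absurd h22 h
    · rcases adm_three w h22 h3 h with h5 | h5 | h5
      · exact ⟨3, 3, by decide, by decide, by norm_num, w, hw, h5⟩
      · exact ⟨1, 1, by decide, by decide, by norm_num, w, hw, h5⟩
      · exact ⟨1, 5, by decide, by decide, by norm_num, w, hw, h5⟩
    · refine ⟨3, 3, by decide, by decide, by norm_num, w, hw, adm_two w h22 h3 ?_ x hx⟩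
      rw [show w.asIdeal = 𝔭 from rfl, h4]
  · exact ⟨1, 1, by decide, by decide, by norm_num, w, hw,
      adm_one w h2 h22 (by decide) (by norm_num)⟩

theorem lc_of_unr {K : Type} [Field K] [NumberField K] (h : ∀ 𝔭 : Ideal (𝓞 K), 𝔭.IsPrime →
    (2 : 𝓞 K) ∉ 𝔭 ^ 2) {α β : ℤ} (hα : Odd α) (hαβ : (4 : ℤ) ∣ α - β) : LC K (𝓞 K) α β := by
  obtain ⟨w, hw⟩ := exists_over (𝓞 K)
  refine ⟨w, hw, adm_one w ?_ (h _ w.isPrime) hα hαβ⟩
  unfold Ov at hw
  exact_mod_cast hw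

/-- Quadratic fields. -/
theorem mild_quad {K : Type} [Field K] [NumberField K] (h : Module.finrank ℚ K ≤ 2) : Mild K := by
  obtain ⟨w, hw⟩ := exists_over (𝓞 K)
  have h2 : (2 : 𝓞 K) ∈ w.asIdeal := by
    unfold Ov at hw
    exact_mod_cast hw
  refine ⟨w.asIdeal, w.isPrime, h2, ?_⟩
  have hpos : 0 < Module.finrank ℚ K := Module.finrank_pos
  have hN : Ideal.absNorm (Ideal.span {(2 : 𝓞 K)}) = 2 ^ Module.finrank ℚ K := by
    have h3 := Ideal.absNorm_span_singleton (2 : 𝓞 K)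
    rw [h3]
    have e : (2 : 𝓞 K) = algebraMap ℤ (𝓞 K) 2 := by simp
    rw [e, Algebra.norm_algebraMap]
    rw [NumberField.RingOfIntegers.rank, Int.natAbs_pow]
    rfl
  have hcard : Nat.card (𝓞 K ⧸ w.asIdeal) = Ideal.absNorm w.asIdeal := rfl
  have key : ∀ k : ℕ, (2 : 𝓞 K) ∈ w.asIdeal ^ k →
      (Ideal.absNorm w.asIdeal) ^ k ∣ 2 ^ Module.finrank ℚ K := by
    intro k hk
    rw [← hN, ← map_pow]
    apply Ideal.absNorm_dvd_absNorm_of_le
    rw [Ideal.span_singleton_le_iff_mem]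
    exact hk
  have hne1 : Ideal.absNorm w.asIdeal ≠ 1 := by
    intro h1
    exact w.isPrime.ne_top (Ideal.absNorm_eq_one_iff.1 h1)
  have hdvd : 2 ^ Module.finrank ℚ K ∣ 2 ^ 2 := pow_dvd_pow 2 h
  by_cases h22 : (2 : 𝓞 K) ∈ w.asIdeal ^ 2
  · right
    have h3 := (key 2 h22).trans hdvd
    have h4 : Ideal.absNorm w.asIdeal ∣ 2 := (Nat.pow_dvd_pow_iff two_ne_zero).1 h3
    have h5 : Ideal.absNorm w.asIdeal = 2 := (Nat.Prime.eq_one_or_self_of_dvd Nat.prime_two _ h4).resolve_left hne1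
    refine ⟨fun h23 => ?_, Or.inl (by rw [hcard, h5])⟩
    have h6 := (key 3 h23).trans hdvd
    rw [h5] at h6
    norm_num at h6
  · exact Or.inl h22

end Pool.Agent.Helper10.RM
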