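import Pool.Agent.Helper10.RM.Cnt8
import Pool.Agent.Helper10.RM.Pl

/-!
# Multiplicities of Artin representations: definitions, and the consequences for them

The definitions are those of the library result `PositiveProportionUnramified` on this problem.
-/

set_option autoImplicit false
set_option linter.all false

namespace Pool.Agent.Helper10.RM.Mul

open Filter NumberField
open scoped Classical TensorProduct
open Pool.Agent.Helper10.RM

/-- The equation `y ^ 2 = x ^ 3 + A x + B` with integers `A`, `B` defines an elliptic curve, and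
there is no prime `p` with `p ^ 4 ∣ A` and `p ^ 6 ∣ B`. Every elliptic curve over `ℚ` is isomorphic to
exactly one of these. -/
structure IsMinimal (A B : ℤ) : Prop where
  elliptic : 4 * A ^ 3 + 27 * B ^ 2 ≠ 0
  minimal : ∀ p : ℕ, p.Prime → ¬ ((p : ℤ) ^ 4 ∣ A ∧ (p : ℤ) ^ 6 ∣ B)

/-- The height. -/
def height (p : ℤ × ℤ) : ℤ := max (4 * |p.1| ^ 3) (27 * p.2 ^ 2)

/-- The set of all elliptic curves over `ℚ` of height at most `X`. -/
def Curves (X : ℕ) : Set (ℤ × ℤ) := {p | IsMinimal p.1 p.2 ∧ height p ≤ X}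

/-- The curve `y ^ 2 = x ^ 3 + A x + B` over `ℚ`. -/
def curve (p : ℤ × ℤ) : WeierstrassCurve ℚ := ⟨0, 0, 0, (p.1 : ℚ), (p.2 : ℚ)⟩

section mult

variable (F : Type) [Field F] [CharZero F] (p : ℤ × ℤ)

/-- The group `E(F)`. -/
def Pts : Type := ((curve p).baseChange F).toAffine.Point

noncomputable instance instPts : AddCommGroup (Pts F p) :=
  (inferInstance : AddCommGroup ((curve p).baseChange F).toAffine.Point)

/-- The action of `g` in the Galois group on `E(F)`. -/
noncomputable def act (g : F ≃ₐ[ℚ] F) : Pts F p →+ Pts F p :=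
  WeierstrassCurve.Affine.Point.map (W' := (curve p).toAffine) g.toAlgHom

/-- The complex vector space `V_E = E(F) ⊗ ℂ`. -/
def VE : Type := ℂ ⊗[ℤ] Pts F p

noncomputable instance instVE : AddCommGroup (VE F p) :=
  (inferInstance : AddCommGroup (ℂ ⊗[ℤ] Pts F p))

noncomputable instance instVE' : Module ℂ (VE F p) :=
  (inferInstance : Module ℂ (ℂ ⊗[ℤ] Pts F p))

/-- The action of `g` on `V_E`. -/
noncomputable def gal (g : F ≃ₐ[ℚ] F) : VE F p →ₗ[ℂ] VE F p :=
  LinearMap.baseChange ℂ (act F p g).toIntLinearMap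

/-- The space `Hom_G(ρ, V_E)`. -/
def HomG {V : Type} [AddCommGroup V] [Module ℂ V] (ρ : Representation ℂ (F ≃ₐ[ℚ] F) V) :
    Submodule ℂ (V →ₗ[ℂ] VE F p) where
  carrier := {f | ∀ (g : F ≃ₐ[ℚ] F) (v : V), f (ρ g v) = gal F p g (f v)}
  add_mem' := by
    intro f f' h h' g v
    rw [LinearMap.add_apply, LinearMap.add_apply, h g v, h' g v, map_add]
  zero_mem' := by
    intro g v
    rw [LinearMap.zero_apply, LinearMap.zero_apply, map_zero]
  smul_mem' := by
    intro c f h g v
    rw [LinearMap.smul_apply, LinearMap.smul_apply, h g v, map_smul]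

/-- The multiplicity `m_ρ(E) = dim Hom_G(ρ, V_E)`. -/
noncomputable def mult {V : Type} [AddCommGroup V] [Module ℂ V]
    (ρ : Representation ℂ (F ≃ₐ[ℚ] F) V) : Cardinal := Module.rank ℂ (HomG F p ρ)

end mult

section pts

variable (F : Type) [Field F] [CharZero F] (p : ℤ × ℤ)

theorem isW : IsW ((curve p).baseChange F).toAffine ((p.1 : ℤ) : F) ((p.2 : ℤ) : F) where
  a1 := by simp [curve, WeierstrassCurve.baseChange]
  a2 := by simp [curve, WeierstrassCurve.baseChange]
  a3 := by simp [curve, WeierstrassCurve.baseChange]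
  a4 := by simp [curve, WeierstrassCurve.baseChange]
  a6 := by simp [curve, WeierstrassCurve.baseChange]

/-- The action of all automorphisms. -/
noncomputable def act' (σ : F ≃+* F) : Pts F p → Pts F p :=
  WeierstrassCurve.Affine.Point.map (W' := (curve p).toAffine) (RingHom.toRatAlgHom (σ : F →+* F))

theorem isAct : IsAct (W := ((curve p).baseChange F).toAffine) (act' F p) where
  zero σ := rfl
  some σ x y h := ⟨_, rfl⟩

theorem act'_eq (g : F ≃ₐ[ℚ] F) (P : Pts F p) : act' F p (g : F ≃+* F) P = act F p g P := by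
  have h : ∀ f f' : F →ₐ[ℚ] F, f = f' →
      WeierstrassCurve.Affine.Point.map (W' := (curve p).toAffine) f P =
      WeierstrassCurve.Affine.Point.map (W' := (curve p).toAffine) f' P := by
    rintro f _ rfl
    rfl
  exact h _ _ (AlgHom.ext fun x => rfl)

/-- The action. -/
noncomputable instance instAct : DistribMulAction (F ≃ₐ[ℚ] F) (Pts F p) where
  smul g := act F p g
  one_smul P := by
    change ((curve p).baseChange F).toAffine.Point at P
    rcases P with _ | ⟨x, y, h⟩
    · rfl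
    · rfl
  mul_smul g h P := by
    change ((curve p).baseChange F).toAffine.Point at P
    rcases P with _ | ⟨x, y, h⟩
    · rfl
    · rfl
  smul_zero g := map_zero _
  smul_add g := map_add _

/-- The map on points. -/
noncomputable def incl {K F : Type} [Field K] [CharZero K] [Field F] [CharZero F] (f : K →ₐ[ℚ] F)
    (p : ℤ × ℤ) : Pts K p →+ Pts F p :=
  WeierstrassCurve.Affine.Point.map (W' := (curve p).toAffine) f

theorem smul_def' (g : F ≃ₐ[ℚ] F) (P : Pts F p) : g • P = act F p g P := rfl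

end pts

theorem pts_fg (F : Type) [Field F] [NumberField F] (p : ℤ × ℤ)
    (hd : 4 * p.1 ^ 3 + 27 * p.2 ^ 2 ≠ 0) : AddGroup.FG (Pts F p) := by
  have e : (Pool.Agent.N874.PP.sW (p.1 : F) (p.2 : F)).baseChange F =
      (curve p).baseChange F := by
    apply WeierstrassCurve.ext <;>
      simp [Pool.Agent.N874.PP.sW, curve, WeierstrassCurve.baseChange]
  have key : ∀ W : WeierstrassCurve F,
      (Pool.Agent.N874.PP.sW (p.1 : F) (p.2 : F)).baseChange F = W →
      AddGroup.FG W.toAffine.Point := by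
    rintro W rfl
    exact Pool.Agent.N273.PQ.mw F (p.1 : F) (p.2 : F) (by exact_mod_cast hd)
  exact key _ e

/-- No points of order two. -/
theorem no_two {F : Type} [Field F] [CharZero F] {p : ℤ × ℤ}
    (hnr : ∀ t : F, t ^ 3 + (p.1 : F) * t + (p.2 : F) ≠ 0) (P : Pts F p)
    (h : (2 : ℕ) • P = 0) : P = 0 := by
  have h0 : P = -P := by
    rw [two_nsmul] at h
    exact eq_neg_of_add_eq_zero_left h
  clear h
  change ((curve p).baseChange F).toAffine.Point at P
  rcases P with _ | ⟨x, y, hP⟩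
  · rfl
  · exfalso
    have hW := isW F p
    have h1 : (WeierstrassCurve.Affine.Point.some x y hP : ((curve p).baseChange F).toAffine.Point) =
        -WeierstrassCurve.Affine.Point.some x y hP := h0
    rw [WeierstrassCurve.Affine.Point.neg_some] at h1
    have h2 := (WeierstrassCurve.Affine.Point.some.inj h1).2
    rw [hW.negY] at h2
    have h3 : (2 : F) * y = 0 := by linear_combination h2
    have h4 := (mul_eq_zero.1 h3).resolve_left two_ne_zero
    have h5 := hW.eqn hP
    apply hnr x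
    rw [← h5, h4]
    ring

section main

variable {F : Type} [Field F] [NumberField F] [IsGalois ℚ F] {n : ℕ}

/-- The functional on the points over `F`. -/
theorem phi_pts (hn : Module.finrank ℚ F = 2 ^ n) {α β a b D : ℤ} (hα : Odd α)
    (hαβ : (4 : ℤ) ∣ α - β) (h : Dat F α β a b D) :
    ∃ φ : Pts F (a * D ^ 2, b * D ^ 3) →+ ℤ, ∀ P : Pts F (a * D ^ 2, b * D ^ 3),
      (∀ g : F ≃ₐ[ℚ] F, φ (g • P) = 0) → IsOfFinAddOrder P := by
  obtain ⟨L, iF, iN, θ, hc, hu, hfl⟩ := h.fl
  have ha : Odd a := by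
    obtain ⟨k, hk⟩ := hα
    obtain ⟨l, hl⟩ := h.ha
    exact ⟨k + 4 * l, by omega⟩
  have hab : (4 : ℤ) ∣ a - b := by
    obtain ⟨k, hk⟩ := hαβ
    obtain ⟨l, hl⟩ := h.ha
    obtain ⟨m, hm⟩ := h.hb
    exact ⟨2 * l + k - 2 * m, by omega⟩
  refine exists_phi (G := F ≃ₐ[ℚ] F) (n := n) ?_ (pts_fg F _ h.disc) (fun P hP => no_two ?_ P hP) ?_
  · rw [IsGalois.card_aut_eq_finrank, hn]
  · exact Pool.Agent.N922.PQ.no_root_tw' h.nr h.D0
  · intro P P' hP hP'
    exact two hn h.D0 hc hu ha hab h.nr hfl (isW F (a * D ^ 2, b * D ^ 3))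
      (isAct F (a * D ^ 2, b * D ^ 3)) P P'
      (fun σ => by
        obtain ⟨R, hR⟩ := hP σ
        exact ⟨R, (act'_eq F _ σ P).trans hR⟩)
      (fun σ => by
        obtain ⟨R, hR⟩ := hP' σ
        exact ⟨R, (act'_eq F _ σ P').trans hR⟩)

/-- The multiplicities are bounded by the dimensions. -/
theorem mult_le {p : ℤ × ℤ} (φ : Pts F p →+ ℤ) (hφ : ∀ P : Pts F p,
      (∀ g : F ≃ₐ[ℚ] F, φ (g • P) = 0) → IsOfFinAddOrder P)
    (V : Type) [AddCommGroup V] [Module ℂ V]
    [FiniteDimensional ℂ V] (ρ : Representation ℂ (F ≃ₐ[ℚ] F) V) :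
    mult F p ρ ≤ Module.finrank ℂ V := by
  have key : ∀ x : VE F p, (∀ g : F ≃ₐ[ℚ] F, Phi φ (gal F p g x) = 0) → x = 0 := by
    intro x hx
    have h1 : ∀ (g : F ≃ₐ[ℚ] F) (y : ℂ ⊗[ℤ] Pts F p), Phi (φ.comp (act F p g)) y =
        Phi φ (gal F p g y) := by
      intro g y
      induction y using TensorProduct.induction_on with
      | zero =>
        have e : gal F p g (0 : VE F p) = 0 := map_zero _
        rw [map_zero]
        show 0 = Phi φ (gal F p g (0 : VE F p))
        rw [e]
        exact (map_zero (Phi φ)).symm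
      | tmul z P =>
        rw [Phi_tmul]
        have e : gal F p g (z ⊗ₜ P) = z ⊗ₜ (act F p g P) := rfl
        rw [e]
        exact (Phi_tmul φ z _).symm
      | add y z hy hz =>
        have e : gal F p g ((y + z : ℂ ⊗[ℤ] Pts F p)) = gal F p g y + gal F p g z :=
          map_add (gal F p g) (y : VE F p) (z : VE F p)
        rw [map_add, hy, hz, e]
        exact (map_add (Phi φ) _ _).symm
    refine sep (fun g : F ≃ₐ[ℚ] F => φ.comp (act F p g)) (fun P hP => hφ P fun g => ?_) x
      fun g => ?_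
    · exact hP g
    · exact (h1 g x).trans (hx g)
  -- the injection
  let T : HomG F p ρ →ₗ[ℂ] (V →ₗ[ℂ] ℂ) :=
    { toFun := fun f => (Phi φ).comp (f : V →ₗ[ℂ] VE F p)
      map_add' := fun f f' => LinearMap.comp_add _ _ _
      map_smul' := fun c f => LinearMap.comp_smul _ _ _ }
  have hT : Function.Injective T := by
    rw [injective_iff_map_eq_zero]
    intro f hf
    apply Subtype.ext
    apply LinearMap.ext
    intro v
    apply key
    intro g
    have h2 : (f : V →ₗ[ℂ] VE F p) (ρ g v) = gal F p g ((f : V →ₗ[ℂ] VE F p) v) := f.2 g v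
    rw [← h2]
    exact LinearMap.congr_fun hf (ρ g v)
  have h3 := LinearMap.rank_le_of_injective T hT
  have h4 : Module.rank ℂ (V →ₗ[ℂ] ℂ) = Module.finrank ℂ V := by
    rw [← Module.finrank_eq_rank, Subspace.dual_finrank_eq]
  rw [h4] at h3
  exact h3

/-- The points over a subfield. -/
theorem pts_sub (hn : Module.finrank ℚ F = 2 ^ n) {α β a b D : ℤ} (hα : Odd α)
    (hαβ : (4 : ℤ) ∣ α - β) (h : Dat F α β a b D) (K : Type) [Field K] [NumberField K]
    [Algebra K F] [IsGalois ℚ K] (hLC : LC K (𝓞 K) α β) :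
    Finite (Pts K (a * D ^ 2, b * D ^ 3)) ∧ Odd (Nat.card (Pts K (a * D ^ 2, b * D ^ 3))) := by
  obtain ⟨L, iF, iN, θ, hc, hu, hfl⟩ := h.fl
  have ha : Odd a := by
    obtain ⟨k, hk⟩ := hα
    obtain ⟨l, hl⟩ := h.ha
    exact ⟨k + 4 * l, by omega⟩
  have hab : (4 : ℤ) ∣ a - b := by
    obtain ⟨k, hk⟩ := hαβ
    obtain ⟨l, hl⟩ := h.ha
    obtain ⟨m, hm⟩ := h.hb
    exact ⟨2 * l + k - 2 * m, by omega⟩
  have hdvd : Module.finrank ℚ K ∣ 2 ^ n := by
    rw [← hn]
    exact ⟨_, (Module.finrank_mul_finrank ℚ K F).symm⟩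
  obtain ⟨m, -, hm⟩ := (Nat.dvd_prime_pow Nat.prime_two).1 hdvd
  have hnr : ∀ t : K, t ^ 3 + (a : K) * t + (b : K) ≠ 0 := by
    intro t ht
    apply h.nr (algebraMap K F t)
    have h1 := congrArg (algebraMap K F) ht
    rw [map_zero, map_add, map_add, map_mul, map_pow, map_intCast, map_intCast] at h1
    exact h1
  set p : ℤ × ℤ := (a * D ^ 2, b * D ^ 3) with hp
  have hfg := pts_fg K p h.disc
  have hone : ∀ P : Pts K p, (∀ g : K ≃ₐ[ℚ] K, ∃ R, g • P = P + (2 : ℕ) • R) →
      ∃ Q, P = (2 : ℕ) • Q := by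
    intro P hP
    exact one (F := F) (R := 𝓞 K) hm h.D0 h.D8 hc hu ha hab h.ha h.hb hnr hfl hLC (isW K p)
      (isW F p)
      (WeierstrassCurve.Affine.Point.map (W' := (curve p).toAffine)
        (RingHom.toRatAlgHom (algebraMap K F))) rfl
      (fun x y h => ⟨_, rfl⟩) (isAct K p) P
      (fun σ => by
        obtain ⟨R, hR⟩ := hP σ
        exact ⟨R, (act'_eq K _ σ P).trans hR⟩)
  have hall := all_dbl (G := K ≃ₐ[ℚ] K) (n := m) (by rw [IsGalois.card_aut_eq_finrank, hm]) hfg hone
  haveI := Pool.Agent.N273.PQ.finite_of_div hfg hall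
  exact ⟨this, Pool.Agent.N922.PQ.odd_card hall⟩

/-- The points which are fixed by `Gal(F / K)` come from `K`. -/
theorem fixed_pts {p : ℤ × ℤ} (K : IntermediateField ℚ F) (hfin : Finite (Pts K p)) (P : Pts F p)
    (hP : ∀ g ∈ K.fixingSubgroup, act F p g P = P) : IsOfFinAddOrder P := by
  obtain ⟨Q, hQ⟩ : ∃ Q : Pts K p, incl K.val p Q = P := by
    have hmem : ∀ x : F, (∀ g ∈ K.fixingSubgroup, g x = x) → x ∈ K := by
      intro x hx
      have h1 : x ∈ IntermediateField.fixedField K.fixingSubgroup := by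
        rw [IntermediateField.mem_fixedField_iff]
        exact hx
      rwa [IsGalois.fixedField_fixingSubgroup] at h1
    change ((curve p).baseChange F).toAffine.Point at P
    rcases P with _ | ⟨x, y, h⟩
    · exact ⟨0, rfl⟩
    · have hx : x ∈ K := hmem x fun g hg => by
        have h1 : (WeierstrassCurve.Affine.Point.some _ _ _ : ((curve p).baseChange F).toAffine.Point) =
            WeierstrassCurve.Affine.Point.some x y h := hP g hg
        exact (WeierstrassCurve.Affine.Point.some.inj h1).1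
      have hy : y ∈ K := hmem y fun g hg => by
        have h1 : (WeierstrassCurve.Affine.Point.some _ _ _ : ((curve p).baseChange F).toAffine.Point) =
            WeierstrassCurve.Affine.Point.some x y h := hP g hg
        exact (WeierstrassCurve.Affine.Point.some.inj h1).2
      refine ⟨WeierstrassCurve.Affine.Point.some (⟨x, hx⟩ : K) (⟨y, hy⟩ : K)
        (((curve p).toAffine.baseChange_nonsingular K.val.injective ⟨x, hx⟩ ⟨y, hy⟩).mp h), ?_⟩
      rfl
  rw [← hQ]
  exact AddMonoidHom.isOfFinAddOrder _ (isOfFinAddOrder_of_finite Q)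

/-- The multiplicities are zero for the representations which are trivial on `Gal(F / K)`. -/
theorem mult_zero {p : ℤ × ℤ} (K : IntermediateField ℚ F) (hfin : Finite (Pts K p))
    (V : Type) [AddCommGroup V] [Module ℂ V] (ρ : Representation ℂ (F ≃ₐ[ℚ] F) V)
    (hρ : ∀ g ∈ K.fixingSubgroup, ρ g = 1) : mult F p ρ = 0 := by
  have key : ∀ x : VE F p, (∀ g ∈ K.fixingSubgroup, gal F p g x = x) → x = 0 := by
    intro x hx
    let S : Pts F p →+ Pts F p := ∑ g : K.fixingSubgroup, act F p (g : F ≃ₐ[ℚ] F)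
    have hS : ∀ P : Pts F p, IsOfFinAddOrder (S P) := by
      intro P
      apply fixed_pts K hfin
      intro g hg
      have e : ∀ Q : Pts F p, S Q = ∑ h : K.fixingSubgroup, act F p (h : F ≃ₐ[ℚ] F) Q := by
        intro Q
        rw [AddMonoidHom.finset_sum_apply]
      rw [e, map_sum]
      have e2 : ∀ h : K.fixingSubgroup, act F p g (act F p (h : F ≃ₐ[ℚ] F) P) =
          act F p (((⟨g, hg⟩ : K.fixingSubgroup) * h : K.fixingSubgroup) : F ≃ₐ[ℚ] F) P := fun h =>
        (mul_smul g (h : F ≃ₐ[ℚ] F) P).symm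
      simp only [e2]
      exact Fintype.sum_equiv (Equiv.mulLeft (⟨g, hg⟩ : K.fixingSubgroup)) _ _ fun h => rfl
    have h1 : ∀ y : ℂ ⊗[ℤ] Pts F p, (∑ g : K.fixingSubgroup, gal F p (g : F ≃ₐ[ℚ] F) y) = (0 : VE F p) := by
      intro y
      induction y using TensorProduct.induction_on with
      | zero =>
        refine Finset.sum_eq_zero fun g _ => ?_
        exact map_zero (gal F p (g : F ≃ₐ[ℚ] F))
      | tmul z P =>
        have e : ∀ g : F ≃ₐ[ℚ] F, gal F p g (z ⊗ₜ P) = (z ⊗ₜ[ℤ] (act F p g P) : ℂ ⊗[ℤ] Pts F p) :=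
          fun g => rfl
        have e2 : (∑ g : K.fixingSubgroup, (z ⊗ₜ[ℤ] (act F p (g : F ≃ₐ[ℚ] F) P) : ℂ ⊗[ℤ] Pts F p)) =
            z ⊗ₜ[ℤ] (S P) := by
          rw [← TensorProduct.tmul_sum]
          congr 1
          rw [AddMonoidHom.finset_sum_apply]
        have e3 := tmul_tors z (hS P)
        rw [← e2] at e3
        exact e3
      | add y z hy hz =>
        have e : ∀ g : F ≃ₐ[ℚ] F, gal F p g ((y + z : ℂ ⊗[ℤ] Pts F p)) = gal F p g y + gal F p g z :=
          fun g => map_add (gal F p g) (y : VE F p) (z : VE F p)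
        simp only [e]
        rw [Finset.sum_add_distrib, hy, hz, add_zero]
    have h2 := h1 x
    have h3 : (∑ g : K.fixingSubgroup, gal F p (g : F ≃ₐ[ℚ] F) x) =
        (Fintype.card K.fixingSubgroup : ℂ) • x := by
      rw [Finset.sum_congr rfl fun (g : K.fixingSubgroup) _ => hx g g.2, Finset.sum_const,
        Finset.card_univ, Nat.cast_smul_eq_nsmul]
    have h4 : (Fintype.card K.fixingSubgroup : ℂ) • x = 0 := h3.symm.trans h2
    have h5 : (Fintype.card K.fixingSubgroup : ℂ) ≠ 0 := by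
      rw [Nat.cast_ne_zero]
      exact Fintype.card_ne_zero
    exact (smul_eq_zero.1 h4).resolve_left h5
  have hs : Subsingleton (HomG F p ρ) := by
    rw [subsingleton_iff_forall_eq 0]
    intro f
    apply Subtype.ext
    apply LinearMap.ext
    intro v
    apply key
    intro g hg
    have h2 : (f : V →ₗ[ℂ] VE F p) (ρ g v) = gal F p g ((f : V →ₗ[ℂ] VE F p) v) := f.2 g v
    rw [← h2, hρ g hg]
    rfl
  exact rank_subsingleton' ℂ _

end main

/-- If `E(F)` is finite, all multiplicities are zero. -/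
theorem mult_zero_of_finite {F : Type} [Field F] [CharZero F] {p : ℤ × ℤ}
    (hfin : Finite (Pts F p)) (V : Type) [AddCommGroup V] [Module ℂ V]
    (ρ : Representation ℂ (F ≃ₐ[ℚ] F) V) : mult F p ρ = 0 := by
  have hz : ∀ x : VE F p, x = 0 := fun x =>
    tens_tors (A := Pts F p) (fun a => isOfFinAddOrder_of_finite a) x
  have hs : Subsingleton (HomG F p ρ) := by
    refine ⟨fun f f' => ?_⟩
    apply Subtype.ext
    apply LinearMap.ext
    intro v
    rw [hz ((f : V →ₗ[ℂ] VE F p) v), hz ((f' : V →ₗ[ℂ] VE F p) v)]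
  exact rank_subsingleton' ℂ _

theorem crv_iff (X : ℕ) (p : ℤ × ℤ) : Pool.Agent.N922.PQ.Crv X p.1 p.2 ↔ p ∈ Curves X := by
  constructor
  · rintro ⟨h1, h2, h3, h4⟩
    exact ⟨⟨h1, h2⟩, max_le h3 h4⟩
  · rintro ⟨⟨h1, h2⟩, h3⟩
    exact ⟨h1, h2, (le_max_left _ _).trans h3, (le_max_right _ _).trans h3⟩

theorem nonempty {X : ℕ} (hX : 27 ≤ X) : ((1, 1) : ℤ × ℤ) ∈ Curves X := by
  refine ⟨⟨by norm_num, ?_⟩, ?_⟩
  · rintro p hp ⟨h, -⟩
    have h1 : ((p : ℤ)) ∣ 1 := (dvd_pow_self (p : ℤ) (by norm_num)).trans h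
    have h2 : p ∣ 1 := by exact_mod_cast h1
    exact hp.one_lt.ne' (Nat.dvd_one.1 h2)
  · have : height ((1, 1) : ℤ × ℤ) = 27 := by
      simp [height]
    rw [this]
    exact_mod_cast hX

end Pool.Agent.Helper10.RM.Mul
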