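import Pool.Agent.Helper10.RM.Pl
import Pool.Agent.Helper10.RM.KeyM

/-!
# Fields with a prime over `2` of ramification index at most two modulo which `2` is not a square
-/

set_option autoImplicit false
set_option linter.all false

open Polynomial IsDedekindDomain NumberField WithZero
open scoped Classical

namespace Pool.Agent.Helper10.RM

open Pool.Agent.N922.PQ

section

variable {K : Type} [Field K] [NumberField K] (w : HeightOneSpectrum (𝓞 K))

/-- Approximation in the completion. -/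
theorem near_pow (y : w.adicCompletion K) (n : ℕ) :
    ∃ x : K, Valued.v (y - algebraMap K (w.adicCompletion K) x) < WithZero.exp (-(n : ℤ)) := by
  obtain ⟨π, hπ⟩ := w.valuation_exists_uniformizer K
  have hπ0 : algebraMap K (w.adicCompletion K) π ≠ 0 := by
    rw [Ne, map_eq_zero]
    rintro rfl
    rw [map_zero] at hπ
    exact WithZero.exp_ne_zero hπ.symm
  have hϖ : Valued.v (algebraMap K (w.adicCompletion K) π) = WithZero.exp (-1 : ℤ) := by
    rw [Pool.Agent.N301.PV.vx, hπ]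
  obtain ⟨x, hx⟩ := Pool.Agent.N301.PV.near_one w (y / (algebraMap K (w.adicCompletion K) π) ^ n)
  refine ⟨x * π ^ n, ?_⟩
  have e : y - algebraMap K (w.adicCompletion K) (x * π ^ n) =
      (y / (algebraMap K (w.adicCompletion K) π) ^ n - algebraMap K (w.adicCompletion K) x) *
        (algebraMap K (w.adicCompletion K) π) ^ n := by
    rw [map_mul, map_pow, sub_mul, div_mul_cancel₀ _ (pow_ne_zero n hπ0)]
  have e2 : WithZero.exp (-1 : ℤ) ^ n = WithZero.exp (-(n : ℤ)) := by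
    rw [← WithZero.exp_nsmul]
    congr 1
    simp
  rw [e, map_mul, map_pow, hϖ, e2]
  exact mul_lt_of_lt_one_left (WithZero.exp_pos) hx

/-- An element of the completion is close to an integer. -/
theorem near_int_pow (u : w.adicCompletion K) (hu : Valued.v u ≤ 1) (n : ℕ) :
    ∃ r : 𝓞 K, Valued.v (u - algebraMap K (w.adicCompletion K) (algebraMap (𝓞 K) K r)) <
      WithZero.exp (-(n : ℤ)) := by
  obtain ⟨x, hx⟩ := near_pow w u n
  have hn1 : WithZero.exp (-(n : ℤ)) ≤ 1 := by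
    rw [← WithZero.exp_zero, WithZero.exp_le_exp]
    omega
  have hx1 : w.valuation K x ≤ 1 := by
    rw [← Pool.Agent.N301.PV.vx]
    have e : algebraMap K (w.adicCompletion K) x =
        u - (u - algebraMap K (w.adicCompletion K) x) := by ring
    rw [e]
    exact (Valuation.map_sub _ _ _).trans (max_le hu (hx.le.trans hn1))
  obtain ⟨r, hr⟩ := w.exists_valuation_sub_lt_of_integer (K := K) hx1
    (Units.mk0 (WithZero.exp (-(n : ℤ))) WithZero.exp_ne_zero)
  have hr1 : w.valuation K (algebraMap (𝓞 K) K r - x) < WithZero.exp (-(n : ℤ)) := hr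
  refine ⟨r, ?_⟩
  have e : u - algebraMap K (w.adicCompletion K) (algebraMap (𝓞 K) K r) =
      (u - algebraMap K (w.adicCompletion K) x) -
        algebraMap K (w.adicCompletion K) (algebraMap (𝓞 K) K r - x) := by
    rw [map_sub]
    ring
  rw [e]
  refine lt_of_le_of_lt (Valuation.map_sub _ _ _) (max_lt hx ?_)
  rw [Pool.Agent.N301.PV.vx]
  exact hr1

/-- The cubic polynomial has no zero in the residue field. -/
theorem no_res [IsGalois ℚ K] {n : ℕ} (hn : Module.finrank ℚ K = 2 ^ n)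
    (h1 : (2 : 𝓞 K) ∈ w.asIdeal) (u : w.adicCompletion K) (hu : Valued.v u ≤ 1) :
    ¬ Valued.v (u ^ 3 + u + 1) < 1 := by
  intro hlt
  obtain ⟨r, hr⟩ := near_int w u hu
  set ρ := algebraMap K (w.adicCompletion K) (algebraMap (𝓞 K) K r) with hρ
  have hρ1 : Valued.v ρ ≤ 1 := v_int w r
  haveI := w.isPrime
  refine Pool.Agent.N301.PV.no_root K n hn w.asIdeal h1 1 1 odd_one odd_one r ?_
  rw [← v_mem]
  have e : algebraMap K (w.adicCompletion K) (algebraMap (𝓞 K) K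
      (r ^ 3 + ((1 : ℤ) : 𝓞 K) * r + ((1 : ℤ) : 𝓞 K))) =
      (u ^ 3 + u + 1) - (u - ρ) * (u ^ 2 + u * ρ + ρ ^ 2 + 1) := by
    rw [Int.cast_one, one_mul, map_add, map_add, map_add, map_add, map_pow, map_pow, map_one,
      map_one, ← hρ]
    ring
  rw [e]
  refine lt_of_le_of_lt (Valuation.map_sub _ _ _) (max_lt hlt ?_)
  rw [map_mul]
  refine mul_lt_one_of_nonneg_of_lt_one_left zero_le' hr ?_
  have hu' : u ∈ (Valued.v : Valuation (w.adicCompletion K) (WithZero (Multiplicative ℤ))).integer := hu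
  have hρ' : ρ ∈ (Valued.v : Valuation (w.adicCompletion K) (WithZero (Multiplicative ℤ))).integer := hρ1
  have h : u ^ 2 + u * ρ + ρ ^ 2 + 1 ∈
      (Valued.v : Valuation (w.adicCompletion K) (WithZero (Multiplicative ℤ))).integer :=
    add_mem (add_mem (add_mem (pow_mem hu' 2) (mul_mem hu' hρ')) (pow_mem hρ' 2)) (one_mem _)
  exact h

/-- Unramified, the twist by two. -/
theorem admM_one (h1 : (2 : 𝓞 K) ∈ w.asIdeal) (h2 : (2 : 𝓞 K) ∉ w.asIdeal ^ 2) :
    AdmM 2 (Valued.v : Valuation (w.adicCompletion K) (WithZero (Multiplicative ℤ))) 3 3 := by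
  haveI : CharZero (w.adicCompletion K) :=
    charZero_of_injective_algebraMap (algebraMap K (w.adicCompletion K)).injective
  have hv2 : Valued.v (2 : w.adicCompletion K) = WithZero.exp (-((1 : ℕ) : ℤ)) := by
    refine v_eq w 1 ?_ ?_
    · rw [← v_two w, v_pow, pow_one]
      exact h1
    · rw [← v_two w, v_pow]
      exact h2
  refine admM_unr ?_ (fun x hx => ?_)
  · rw [hv2, ← WithZero.exp_zero, WithZero.exp_lt_exp]
    norm_num
  · rw [hv2]
    have := v_uni w hx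
    exact_mod_cast this

/-- Ramification index two, and `2` is not a square. -/
theorem admM_two [IsGalois ℚ K] {n : ℕ} (hn : Module.finrank ℚ K = 2 ^ n)
    (h0 : (2 : 𝓞 K) ∈ w.asIdeal) (h1 : (2 : 𝓞 K) ∈ w.asIdeal ^ 2)
    (h2 : (2 : 𝓞 K) ∉ w.asIdeal ^ 3) (hx : ∀ x : 𝓞 K, x ^ 2 - 2 ∉ w.asIdeal ^ 4) :
    AdmM 2 (Valued.v : Valuation (w.adicCompletion K) (WithZero (Multiplicative ℤ))) 3 3 := by
  haveI : CharZero (w.adicCompletion K) :=
    charZero_of_injective_algebraMap (algebraMap K (w.adicCompletion K)).injective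
  have hv2 : Valued.v (2 : w.adicCompletion K) = WithZero.exp (-((2 : ℕ) : ℤ)) := by
    refine v_eq w 2 ?_ ?_
    · rw [← v_two w, v_pow]
      exact h1
    · rw [← v_two w, v_pow]
      exact h2
  have hv4 : Valued.v (4 : w.adicCompletion K) = WithZero.exp (-((4 : ℕ) : ℤ)) := by
    have e4 : (4 : w.adicCompletion K) = 2 ^ 2 := by norm_num
    rw [e4, map_pow, hv2, ← WithZero.exp_nsmul]
    rfl
  obtain ⟨π, hπ⟩ := w.valuation_exists_uniformizer K
  have hϖ : Valued.v (algebraMap K (w.adicCompletion K) π) = WithZero.exp (-1 : ℤ) := by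
    rw [Pool.Agent.N301.PV.vx, hπ]
  refine admM_ram (unif_of w h1 h2 hϖ) (no_res w hn h0) ?_
  intro x hx4
  rw [hv4] at hx4
  have h41 : WithZero.exp (-((4 : ℕ) : ℤ)) ≤ 1 := by
    rw [← WithZero.exp_zero, WithZero.exp_le_exp]
    omega
  have h21 : WithZero.exp (-((2 : ℕ) : ℤ)) ≤ 1 := by
    rw [← WithZero.exp_zero, WithZero.exp_le_exp]
    omega
  have hx1 : Valued.v x ≤ 1 := by
    have h3 : Valued.v (x ^ 2) ≤ 1 := by
      have e : x ^ 2 = (x ^ 2 - 2) + 2 := by ring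
      rw [e]
      refine (Valuation.map_add _ _ _).trans (max_le (hx4.trans h41) ?_)
      rw [hv2]
      exact h21
    rw [map_pow] at h3
    by_contra hc
    rw [not_le] at hc
    exact absurd (one_lt_pow₀ hc two_ne_zero) (not_lt.2 h3)
  obtain ⟨r, hr⟩ := near_int_pow w x hx1 4
  apply hx r
  rw [← v_pow]
  set ρ := algebraMap K (w.adicCompletion K) (algebraMap (𝓞 K) K r) with hρ
  have hρ1 : Valued.v ρ ≤ 1 := v_int w r
  have e : algebraMap K (w.adicCompletion K) (algebraMap (𝓞 K) K (r ^ 2 - 2)) =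
      (x ^ 2 - 2) - (x - ρ) * (x + ρ) := by
    rw [map_sub, map_sub, v_two, map_pow, map_pow, ← hρ]
    ring
  rw [e]
  refine (Valuation.map_sub _ _ _).trans (max_le hx4 ?_)
  rw [map_mul]
  calc Valued.v (x - ρ) * Valued.v (x + ρ) ≤ WithZero.exp (-((4 : ℕ) : ℤ)) * 1 := by
        refine mul_le_mul' hr.le ?_
        exact (Valuation.map_add _ _ _).trans (max_le hx1 hρ1)
    _ = WithZero.exp (-((4 : ℕ) : ℤ)) := mul_one _

end

/-- There is a prime over `2` of ramification index at most two, and `2` is not a square modulo its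
fourth power. -/
def SlightM (K : Type) [Field K] [NumberField K] : Prop :=
  ∃ 𝔭 : Ideal (𝓞 K), 𝔭.IsPrime ∧ (2 : 𝓞 K) ∈ 𝔭 ∧ (2 : 𝓞 K) ∉ 𝔭 ^ 3 ∧
    ∀ x : 𝓞 K, x ^ 2 - 2 ∉ 𝔭 ^ 4

theorem lc_slight {K : Type} [Field K] [NumberField K] [IsGalois ℚ K] {n : ℕ}
    (hn : Module.finrank ℚ K = 2 ^ n) (h : SlightM K) : LCm K (𝓞 K) 2 3 3 := by
  obtain ⟨𝔭, h𝔭, h2, h3, hx⟩ := h
  have hbot : 𝔭 ≠ ⊥ := by
    rintro rfl
    rw [Ideal.mem_bot] at h2
    exact two_ne_zero h2
  let w : HeightOneSpectrum (𝓞 K) := ⟨𝔭, h𝔭, hbot⟩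
  have hw : Ov 2 w := by
    unfold Ov
    exact_mod_cast h2
  by_cases h22 : (2 : 𝓞 K) ∈ 𝔭 ^ 2
  · exact ⟨w, hw, admM_two w hn h2 h22 h3 hx⟩
  · exact ⟨w, hw, admM_one w h2 h22⟩

/-- Ramification index at most two and, if `2` is a square modulo the fourth power of the prime, at most
four elements in the residue field. -/
def MildM (K : Type) [Field K] [NumberField K] : Prop :=
  ∃ 𝔭 : Ideal (𝓞 K), 𝔭.IsPrime ∧ (2 : 𝓞 K) ∈ 𝔭 ∧ (2 : 𝓞 K) ∉ 𝔭 ^ 3 ∧
    (Nat.card (𝓞 K ⧸ 𝔭) ∣ 4 ∨ ∀ x : 𝓞 K, x ^ 2 - 2 ∉ 𝔭 ^ 4)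

theorem lc_mild {K : Type} [Field K] [NumberField K] [IsGalois ℚ K] {n : ℕ}
    (hn : Module.finrank ℚ K = 2 ^ n) (h : MildM K) :
    ∃ m : ℤ, (m = 1 ∨ m = 2) ∧ LCm K (𝓞 K) m 3 3 := by
  obtain ⟨𝔭, h𝔭, h2, h3, h⟩ := h
  by_cases hx : ∀ x : 𝓞 K, x ^ 2 - 2 ∉ 𝔭 ^ 4
  · exact ⟨2, Or.inr rfl, lc_slight hn ⟨𝔭, h𝔭, h2, h3, hx⟩⟩
  · have hcard := h.resolve_right hx
    push Not at hx
    obtain ⟨x, hx⟩ := hx
    refine ⟨1, Or.inl rfl, lc_to_m ?_⟩
    have hbot : 𝔭 ≠ ⊥ := by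
      rintro rfl
      rw [Ideal.mem_bot] at h2
      exact two_ne_zero h2
    let w : HeightOneSpectrum (𝓞 K) := ⟨𝔭, h𝔭, hbot⟩
    have hw : Ov 2 w := by
      unfold Ov
      exact_mod_cast h2
    by_cases h22 : (2 : 𝓞 K) ∈ 𝔭 ^ 2
    · exact ⟨w, hw, adm_two w h22 h3 hcard x hx⟩
    · exact ⟨w, hw, adm_one w h2 h22 (by decide) (by norm_num)⟩

end Pool.Agent.Helper10.RM
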