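import Pool.Agent.Helper10.RM.CntM
import Pool.Agent.Helper10.RM.PlM
import Pool.Agent.Helper10.RM.Mul

/-!
# The consequences for the multiplicities, for twists by `m D`
-/

set_option autoImplicit false
set_option linter.all false

namespace Pool.Agent.Helper10.RM.Mul

open Filter NumberField
open scoped Classical TensorProduct
open Pool.Agent.Helper10.RM

section main

variable {F : Type} [Field F] [NumberField F] [IsGalois ℚ F] {n : ℕ}

/-- The functional on the points over `F`. -/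
theorem phi_ptsM {m : ℤ} (hm : m = 1 ∨ m = 2) (hn : Module.finrank ℚ F = 2 ^ n)
    {α β a b D : ℤ} (hα : Odd α) (hαβ : (4 : ℤ) ∣ α - β) (h : DatM F m α β a b D) :
    ∃ φ : Pts F (a * (m * D) ^ 2, b * (m * D) ^ 3) →+ ℤ,
      ∀ P : Pts F (a * (m * D) ^ 2, b * (m * D) ^ 3),
      (∀ g : F ≃ₐ[ℚ] F, φ (g • P) = 0) → IsOfFinAddOrder P := by
  obtain ⟨L, iF, iN, θ, hc, hu, hfl⟩ := h.fl
  have hmD : m * D ≠ 0 := mul_ne_zero (by rcases hm with rfl | rfl <;> norm_num) h.D0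
  have ha : Odd a := by
    obtain ⟨k, hk⟩ := hα
    obtain ⟨l, hl⟩ := h.ha
    exact ⟨k + 4 * l, by omega⟩
  have hab : (4 : ℤ) ∣ a - b := by
    obtain ⟨k, hk⟩ := hαβ
    obtain ⟨l, hl⟩ := h.ha
    obtain ⟨m, hm⟩ := h.hb
    exact ⟨2 * l + k - 2 * m, by omega⟩
  refine exists_phi (G := F ≃ₐ[ℚ] F) (n := n) ?_ (pts_fg F _ h.disc) (fun P hP => no_two ?_ P hP) ?_
  · rw [IsGalois.card_aut_eq_finrank, hn]
  · exact Pool.Agent.N922.PQ.no_root_tw' h.nr hmD
  · intro P P' hP hP'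
    exact two hn hmD hc hu ha hab h.nr hfl (isW F (a * (m * D) ^ 2, b * (m * D) ^ 3))
      (isAct F (a * (m * D) ^ 2, b * (m * D) ^ 3)) P P'
      (fun σ => by
        obtain ⟨R, hR⟩ := hP σ
        exact ⟨R, (act'_eq F _ σ P).trans hR⟩)
      (fun σ => by
        obtain ⟨R, hR⟩ := hP' σ
        exact ⟨R, (act'_eq F _ σ P').trans hR⟩)

/-- The points over a subfield. -/
theorem pts_subM {m : ℤ} (hm : m = 1 ∨ m = 2) (hn : Module.finrank ℚ F = 2 ^ n)
    {α β a b D : ℤ} (hα : Odd α) (hαβ : (4 : ℤ) ∣ α - β) (h : DatM F m α β a b D)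
    (K : Type) [Field K] [NumberField K]
    [Algebra K F] [IsGalois ℚ K] (hLC : LCm K (𝓞 K) m α β) :
    Finite (Pts K (a * (m * D) ^ 2, b * (m * D) ^ 3)) ∧
      Odd (Nat.card (Pts K (a * (m * D) ^ 2, b * (m * D) ^ 3))) := by
  obtain ⟨L, iF, iN, θ, hc, hu, hfl⟩ := h.fl
  have hm0 : m ≠ 0 := by rcases hm with rfl | rfl <;> norm_num
  have ha : Odd a := by
    obtain ⟨k, hk⟩ := hα
    obtain ⟨l, hl⟩ := h.ha
    exact ⟨k + 4 * l, by omega⟩
  have hab : (4 : ℤ) ∣ a - b := by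
    obtain ⟨k, hk⟩ := hαβ
    obtain ⟨l, hl⟩ := h.ha
    obtain ⟨m, hm⟩ := h.hb
    exact ⟨2 * l + k - 2 * m, by omega⟩
  have hdvd : Module.finrank ℚ K ∣ 2 ^ n := by
    rw [← hn]
    exact ⟨_, (Module.finrank_mul_finrank ℚ K F).symm⟩
  obtain ⟨k, -, hk⟩ := (Nat.dvd_prime_pow Nat.prime_two).1 hdvd
  have hnr : ∀ t : K, t ^ 3 + (a : K) * t + (b : K) ≠ 0 := by
    intro t ht
    apply h.nr (algebraMap K F t)
    have h1 := congrArg (algebraMap K F) ht
    rw [map_zero, map_add, map_add, map_mul, map_pow, map_intCast, map_intCast] at h1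
    exact h1
  set p : ℤ × ℤ := (a * (m * D) ^ 2, b * (m * D) ^ 3) with hp
  have hfg := pts_fg K p h.disc
  have hone : ∀ P : Pts K p, (∀ g : K ≃ₐ[ℚ] K, ∃ R, g • P = P + (2 : ℕ) • R) →
      ∃ Q, P = (2 : ℕ) • Q := by
    intro P hP
    exact oneM (F := F) (R := 𝓞 K) hk hm0 h.D0 h.D8 hc hu ha hab h.ha h.hb hnr hfl hLC (isW K p)
      (isW F p)
      (WeierstrassCurve.Affine.Point.map (W' := (curve p).toAffine)
        (RingHom.toRatAlgHom (algebraMap K F))) rfl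
      (fun x y h => ⟨_, rfl⟩) (isAct K p) P
      (fun σ => by
        obtain ⟨R, hR⟩ := hP σ
        exact ⟨R, (act'_eq K _ σ P).trans hR⟩)
  have hall := all_dbl (G := K ≃ₐ[ℚ] K) (n := k) (by rw [IsGalois.card_aut_eq_finrank, hk]) hfg hone
  haveI := Pool.Agent.N273.PQ.finite_of_div hfg hall
  exact ⟨this, Pool.Agent.N922.PQ.odd_card hall⟩

end main

end Pool.Agent.Helper10.RM.Mul
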