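import Pool.Agent.Helper10.RM.Pts

/-!
# The norm form of a cubic extension
-/

set_option autoImplicit false
set_option linter.all false

open Polynomial WeierstrassCurve WeierstrassCurve.Affine

namespace Pool.Agent.Helper10.RM

section

variable {M : Type} [Field M] {A B : M} {Ω : Type} [Field Ω] [Algebra M Ω] {t : Ω}

/-- The norm form. -/
def nf {R : Type} [CommRing R] (A B p q r : R) : R :=
  p * ((p - r * A) * (p - r * A) - (-(q * A) - r * B) * q) -
    (-(r * B)) * (q * (p - r * A) - (-(q * A) - r * B) * r) +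
    (-(q * B)) * (q * q - (p - r * A) * r)

theorem nf_map {R S : Type} [CommRing R] [CommRing S] (f : R →+* S) (A B p q r : R) :
    f (nf A B p q r) = nf (f A) (f B) (f p) (f q) (f r) := by
  simp only [nf, map_add, map_sub, map_mul, map_neg]

theorem Cb.span (h : Cb M A B t) : ⊤ ≤ Submodule.span M (Set.range ![1, t, t ^ 2]) := by
  intro x _
  obtain ⟨p, q, r, rfl⟩ := h.gen x
  have h0 : algebraMap M Ω p = p • ![(1 : Ω), t, t ^ 2] 0 := by simp [Algebra.smul_def]
  have h1 : algebraMap M Ω q * t = q • ![(1 : Ω), t, t ^ 2] 1 := by simp [Algebra.smul_def]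
  have h2 : algebraMap M Ω r * t ^ 2 = r • ![(1 : Ω), t, t ^ 2] 2 := by simp [Algebra.smul_def]
  rw [h0, h1, h2]
  exact Submodule.add_mem _ (Submodule.add_mem _
    (Submodule.smul_mem _ _ (Submodule.subset_span ⟨0, rfl⟩))
    (Submodule.smul_mem _ _ (Submodule.subset_span ⟨1, rfl⟩)))
    (Submodule.smul_mem _ _ (Submodule.subset_span ⟨2, rfl⟩))

/-- The basis. -/
noncomputable def Cb.bas (h : Cb M A B t) : Module.Basis (Fin 3) M Ω := Module.Basis.mk h.lin h.span

theorem Cb.bas_apply (h : Cb M A B t) (i : Fin 3) : h.bas i = ![1, t, t ^ 2] i := by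
  unfold Cb.bas
  rw [Module.Basis.mk_apply]

theorem Cb.repr (h : Cb M A B t) (p q r : M) (i : Fin 3) :
    h.bas.repr (algebraMap M Ω p + algebraMap M Ω q * t + algebraMap M Ω r * t ^ 2) i =
      ![p, q, r] i := by
  have e : algebraMap M Ω p + algebraMap M Ω q * t + algebraMap M Ω r * t ^ 2 =
      p • h.bas 0 + q • h.bas 1 + r • h.bas 2 := by
    rw [h.bas_apply, h.bas_apply, h.bas_apply]
    simp [Algebra.smul_def]
  rw [e]
  simp only [map_add, map_smul, Module.Basis.repr_self, Finsupp.add_apply, Finsupp.smul_apply]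
  fin_cases i <;> simp [Finsupp.single_apply]

theorem Cb.norm (h : Cb M A B t) (p q r : M) :
    Algebra.norm M (algebraMap M Ω p + algebraMap M Ω q * t + algebraMap M Ω r * t ^ 2) =
      nf A B p q r := by
  rw [Algebra.norm_eq_matrix_det h.bas, Matrix.det_fin_three]
  simp only [Algebra.leftMulMatrix_eq_repr_mul, h.bas_apply]
  have hr := h.root
  have e0 : (algebraMap M Ω p + algebraMap M Ω q * t + algebraMap M Ω r * t ^ 2) *
      ![(1 : Ω), t, t ^ 2] 0 =
      algebraMap M Ω p + algebraMap M Ω q * t + algebraMap M Ω r * t ^ 2 := by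
    show _ * (1 : Ω) = _
    rw [mul_one]
  have e1 : (algebraMap M Ω p + algebraMap M Ω q * t + algebraMap M Ω r * t ^ 2) *
      ![(1 : Ω), t, t ^ 2] 1 =
      algebraMap M Ω (-(r * B)) + algebraMap M Ω (p - r * A) * t + algebraMap M Ω q * t ^ 2 := by
    show _ * t = _
    simp only [map_sub, map_mul, map_neg]
    linear_combination (algebraMap M Ω r) * hr
  have e2 : (algebraMap M Ω p + algebraMap M Ω q * t + algebraMap M Ω r * t ^ 2) *
      ![(1 : Ω), t, t ^ 2] 2 =
      algebraMap M Ω (-(q * B)) + algebraMap M Ω (-(q * A) - r * B) * t +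
        algebraMap M Ω (p - r * A) * t ^ 2 := by
    show _ * t ^ 2 = _
    simp only [map_sub, map_mul, map_neg]
    linear_combination (algebraMap M Ω q + algebraMap M Ω r * t) * hr
  rw [e0, e1, e2]
  simp only [h.repr, Matrix.cons_val_zero, Matrix.cons_val_one, Matrix.cons_val]
  unfold nf
  ring

/-- The norm of the class of a point. -/
theorem xc_norm {W : Affine M} (hW : IsW W A B) (h : Cb M A B t) (P : W.Point) :
    IsSquare (Algebra.norm M (xc t P)) := by
  rcases P with _ | ⟨x, y, hP⟩
  · refine ⟨1, ?_⟩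
    show Algebra.norm M (1 : Ω) = _
    rw [map_one, one_mul]
  · rw [xc_some]
    have e : algebraMap M Ω x - t = algebraMap M Ω x + algebraMap M Ω (-1) * t +
        algebraMap M Ω 0 * t ^ 2 := by
      simp only [map_neg, map_one, map_zero]
      ring
    rw [e, h.norm]
    refine ⟨y, ?_⟩
    have := hW.eqn hP
    unfold nf
    linear_combination -this

end

end Pool.Agent.Helper10.RM
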