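import Mathlib

/-!
# The classes `x - t` of the points of a curve `y ^ 2 = x ^ 3 + A x + B`
-/

set_option autoImplicit false
set_option linter.all false

open Polynomial WeierstrassCurve WeierstrassCurve.Affine

namespace Pool.Agent.Helper10.RM

section

variable {M : Type} [Field M] {W : Affine M} {A B : M}

/-- The curve `y ^ 2 = x ^ 3 + A x + B`. -/
structure IsW (W : Affine M) (A B : M) : Prop where
  a1 : W.a₁ = 0
  a2 : W.a₂ = 0
  a3 : W.a₃ = 0
  a4 : W.a₄ = A
  a6 : W.a₆ = B

theorem IsW.negY (h : IsW W A B) (x y : M) : W.negY x y = -y := by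
  simp [WeierstrassCurve.Affine.negY, h.a1, h.a3]

theorem IsW.eqn (h : IsW W A B) {x y : M} (hP : W.Nonsingular x y) : y ^ 2 = x ^ 3 + A * x + B := by
  have := (W.equation_iff x y).1 hP.1
  rw [h.a1, h.a2, h.a3, h.a4, h.a6] at this
  linear_combination this

variable {Ω : Type} [Field Ω] [Algebra M Ω]

/-- The class of a point. -/
noncomputable def xc (t : Ω) : W.Point → Ω
  | .zero => 1
  | .some x _ _ => algebraMap M Ω x - t

theorem xc_zero (t : Ω) : xc t (0 : W.Point) = 1 := rfl

theorem xc_some (t : Ω) {x y : M} (hP : W.Nonsingular x y) :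
    xc t (Point.some x y hP) = algebraMap M Ω x - t := rfl

/-- The data of the cubic extension. -/
structure Cb (M : Type) {Ω : Type} [Field M] [Field Ω] [Algebra M Ω] (A B : M) (t : Ω) : Prop where
  root : t ^ 3 + algebraMap M Ω A * t + algebraMap M Ω B = 0
  rank : Module.finrank M Ω = 3
  gen : ∀ x : Ω, ∃ p q r : M, x = algebraMap M Ω p + algebraMap M Ω q * t + algebraMap M Ω r * t ^ 2

variable {t : Ω}

theorem Cb.lin (h : Cb M A B t) : LinearIndependent M ![1, t, t ^ 2] := by
  have hfin : FiniteDimensional M Ω := FiniteDimensional.of_finrank_pos (by rw [h.rank]; norm_num)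
  refine linearIndependent_of_top_le_span_of_card_eq_finrank ?_ (by rw [h.rank]; rfl)
  intro x _
  obtain ⟨p, q, r, rfl⟩ := h.gen x
  have h0 : algebraMap M Ω p = p • ![(1 : Ω), t, t ^ 2] 0 := by simp [Algebra.smul_def]
  have h1 : algebraMap M Ω q * t = q • ![(1 : Ω), t, t ^ 2] 1 := by simp [Algebra.smul_def]
  have h2 : algebraMap M Ω r * t ^ 2 = r • ![(1 : Ω), t, t ^ 2] 2 := by simp [Algebra.smul_def]
  rw [h0, h1, h2]
  exact Submodule.add_mem _ (Submodule.add_mem _
    (Submodule.smul_mem _ _ (Submodule.subset_span ⟨0, rfl⟩))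
    (Submodule.smul_mem _ _ (Submodule.subset_span ⟨1, rfl⟩)))
    (Submodule.smul_mem _ _ (Submodule.subset_span ⟨2, rfl⟩))

theorem Cb.zero (h : Cb M A B t) {p q r : M}
    (h0 : algebraMap M Ω p + algebraMap M Ω q * t + algebraMap M Ω r * t ^ 2 = 0) :
    p = 0 ∧ q = 0 ∧ r = 0 := by
  have h1 := Fintype.linearIndependent_iff.1 h.lin ![p, q, r] (by
    rw [Fin.sum_univ_three]
    simp only [Matrix.cons_val_zero, Matrix.cons_val_one, Matrix.cons_val, Algebra.smul_def, mul_one]
    exact h0)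
  exact ⟨h1 0, h1 1, h1 2⟩

theorem Cb.eq (h : Cb M A B t) {p q r p' q' r' : M}
    (h0 : algebraMap M Ω p + algebraMap M Ω q * t + algebraMap M Ω r * t ^ 2 =
      algebraMap M Ω p' + algebraMap M Ω q' * t + algebraMap M Ω r' * t ^ 2) :
    p = p' ∧ q = q' ∧ r = r' := by
  obtain ⟨h1, h2, h3⟩ := h.zero (p := p - p') (q := q - q') (r := r - r') (by
    simp only [map_sub]
    linear_combination h0)
  exact ⟨sub_eq_zero.1 h1, sub_eq_zero.1 h2, sub_eq_zero.1 h3⟩

theorem Cb.ne (h : Cb M A B t) (x : M) : algebraMap M Ω x - t ≠ 0 := by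
  intro h0
  obtain ⟨-, h1, -⟩ := h.zero (p := x) (q := -1) (r := 0) (by
    simp only [map_neg, map_one, map_zero]
    linear_combination h0)
  exact (neg_ne_zero.2 one_ne_zero) h1

theorem Cb.nr (h : Cb M A B t) (x : M) : x ^ 3 + A * x + B ≠ 0 := by
  intro h0
  have h1 := congrArg (algebraMap M Ω) h0
  simp only [map_add, map_mul, map_pow, map_zero] at h1
  have h2 : (algebraMap M Ω x - t) * (algebraMap M Ω (x ^ 2 + A) + algebraMap M Ω x * t +
      algebraMap M Ω 1 * t ^ 2) = 0 := by
    simp only [map_add, map_mul, map_pow, map_one]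
    linear_combination h1 - h.root
  rcases mul_eq_zero.1 h2 with h3 | h3
  · exact h.ne x h3
  · exact one_ne_zero (h.zero h3).2.2

theorem xc_ne (h : Cb M A B t) (P : W.Point) : xc t P ≠ 0 := by
  rcases P with _ | ⟨x, y, hP⟩
  · exact one_ne_zero
  · exact h.ne x

/-- The class of the sum. -/
theorem xc_add [DecidableEq M] (hW : IsW W A B) (h : Cb M A B t) (P Q : W.Point) :
    IsSquare (xc t P * xc t Q * xc t (P + Q)) := by
  rcases P with _ | ⟨x₁, y₁, hP⟩
  · refine ⟨xc t Q, ?_⟩
    have e : (Point.zero : W.Point) + Q = Q := zero_add Q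
    rw [e]
    show 1 * xc t Q * xc t Q = _
    ring
  rcases Q with _ | ⟨x₂, y₂, hQ⟩
  · refine ⟨xc t (Point.some x₁ y₁ hP), ?_⟩
    have e : Point.some x₁ y₁ hP + (Point.zero : W.Point) = Point.some x₁ y₁ hP := add_zero _
    rw [e]
    show _ * 1 * _ = _
    ring
  by_cases hc : x₁ = x₂ ∧ y₁ = W.negY x₂ y₂
  · obtain ⟨hx, hy⟩ := hc
    rw [Point.add_of_Y_eq hx hy]
    subst hx
    exact ⟨algebraMap M Ω x₁ - t, by show (_ - _) * (_ - _) * 1 = _; ring⟩
  · obtain ⟨m, hm⟩ : ∃ m, m = W.slope x₁ x₂ y₁ y₂ := ⟨_, rfl⟩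
    rw [Point.add_some hc]
    rw [xc_some, xc_some, xc_some]
    have hX : W.addX x₁ x₂ (W.slope x₁ x₂ y₁ y₂) = m ^ 2 - x₁ - x₂ := by
      rw [addX, hW.a1, hW.a2, ← hm]
      ring
    rw [hX]
    have e1 := hW.eqn hP
    have e2 := hW.eqn hQ
    have key : A - 2 * m * (y₁ - m * x₁) = x₁ * x₂ + (m ^ 2 - x₁ - x₂) * (x₁ + x₂) ∧
        B - (y₁ - m * x₁) ^ 2 = - (x₁ * x₂ * (m ^ 2 - x₁ - x₂)) := by
      by_cases hx : x₁ = x₂
      · have hy : y₁ ≠ W.negY x₂ y₂ := fun h' => hc ⟨hx, h'⟩
        have hs := slope_of_Y_ne hx hy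
        rw [← hm, hW.a1, hW.a2, hW.a4, hW.negY] at hs
        subst hx
        have hy1 : y₁ = y₂ := by
          rw [hW.negY] at hy
          have h3 : (y₁ - y₂) * (y₁ + y₂) = 0 := by linear_combination e1 - e2
          rcases mul_eq_zero.1 h3 with h4 | h4
          · exact sub_eq_zero.1 h4
          · exact absurd (eq_neg_of_add_eq_zero_left h4) hy
        have h2y : y₁ - -y₁ ≠ 0 := by
          rw [hW.negY, ← hy1] at hy
          exact sub_ne_zero.2 hy
        have hm2 : m * (y₁ - -y₁) = 3 * x₁ ^ 2 + A := by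
          rw [hs, div_mul_cancel₀ _ h2y]
          ring
        constructor
        · linear_combination -hm2
        · linear_combination x₁ * hm2 - e1
      · have hs := slope_of_X_ne (W := W) (y₁ := y₁) (y₂ := y₂) hx
        have hne : x₁ - x₂ ≠ 0 := sub_ne_zero.2 hx
        have hm2 : m * (x₁ - x₂) = y₁ - y₂ := by
          rw [hm, hs]
          field_simp
        have hA : (A - 2 * m * (y₁ - m * x₁)) = x₁ * x₂ + (m ^ 2 - x₁ - x₂) * (x₁ + x₂) := by
          apply mul_left_cancel₀ hne
          have hy2 : y₂ = y₁ - m * (x₁ - x₂) := by linear_combination hm2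
          rw [hy2] at e2
          linear_combination e2 - e1
        refine ⟨hA, ?_⟩
        linear_combination -x₁ * hA - e1
    have k1 := congrArg (algebraMap M Ω) key.1
    have k2 := congrArg (algebraMap M Ω) key.2
    have hr := h.root
    refine ⟨algebraMap M Ω m * t + algebraMap M Ω (y₁ - m * x₁), ?_⟩
    simp only [map_sub, map_add, map_mul, map_pow, map_neg, map_ofNat] at k1 k2 ⊢
    linear_combination k2 + t * k1 - hr

theorem xc_neg (P : W.Point) : xc t (-P) = xc t P := by
  rcases P with _ | ⟨x, y, hP⟩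
  · rfl
  · rfl

/-- A point whose class is a square is divisible by two. -/
theorem halve [DecidableEq M] [CharZero M] (hW : IsW W A B) (h : Cb M A B t) (P : W.Point)
    (hs : IsSquare (xc t P)) : ∃ Q : W.Point, P = (2 : ℕ) • Q := by
  rcases P with _ | ⟨x₀, y₀, hP⟩
  · exact ⟨0, (smul_zero 2).symm⟩
  rw [xc_some] at hs
  obtain ⟨z, hz⟩ := hs
  obtain ⟨p, q, r, rfl⟩ := h.gen z
  have hr := h.root
  have hz' : algebraMap M Ω x₀ + algebraMap M Ω (-1) * t + algebraMap M Ω 0 * t ^ 2 =
      algebraMap M Ω (p ^ 2 - 2 * q * r * B) + algebraMap M Ω (2 * p * q - 2 * q * r * A - r ^ 2 * B) * t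
        + algebraMap M Ω (q ^ 2 + 2 * p * r - r ^ 2 * A) * t ^ 2 := by
    simp only [map_sub, map_add, map_mul, map_pow, map_neg, map_one, map_zero, map_ofNat]
    linear_combination hz + (2 * algebraMap M Ω q * algebraMap M Ω r +
      algebraMap M Ω r ^ 2 * t) * hr
  obtain ⟨c0, c1, c2⟩ := h.eq hz'
  have hr0 : r ≠ 0 := by
    rintro rfl
    have hq : q = 0 := by
      have : q ^ 2 = 0 := by linear_combination -c2
      exact pow_eq_zero_iff two_ne_zero |>.1 this
    rw [hq] at c1
    have : (1 : M) = 0 := by linear_combination -c1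
    exact one_ne_zero this
  obtain ⟨c, hc⟩ : ∃ c, c = q / r := ⟨_, rfl⟩
  have hq : q = c * r := by rw [hc]; field_simp
  obtain ⟨α, hα⟩ : ∃ α, α = p - c * q - r * A := ⟨_, rfl⟩
  obtain ⟨β, hβ⟩ : ∃ β, β = -(r * B) - c * p := ⟨_, rfl⟩
  -- `(x₀ - t) (t - c) ^ 2 = (α t + β) ^ 2`
  have k1 : x₀ + 2 * c = α ^ 2 := by
    have e : algebraMap M Ω (x₀ * c ^ 2 + B) +
        algebraMap M Ω (- c ^ 2 - 2 * c * x₀ + A) * t + algebraMap M Ω (x₀ + 2 * c) * t ^ 2 =
        algebraMap M Ω (β ^ 2) + algebraMap M Ω (2 * α * β) * t + algebraMap M Ω (α ^ 2) * t ^ 2 := by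
      have e2 : (algebraMap M Ω p + algebraMap M Ω q * t + algebraMap M Ω r * t ^ 2) *
          (t - algebraMap M Ω c) = algebraMap M Ω α * t + algebraMap M Ω β := by
        rw [hα, hβ, hq]
        simp only [map_sub, map_add, map_mul, map_neg]
        linear_combination (algebraMap M Ω r) * hr
      simp only [map_sub, map_add, map_mul, map_pow, map_neg, map_ofNat]
      have e3 : (algebraMap M Ω x₀ - t) * (t - algebraMap M Ω c) ^ 2 =
          (algebraMap M Ω α * t + algebraMap M Ω β) ^ 2 := by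
        rw [← e2, hz]
        ring
      linear_combination e3 + hr
    exact (h.eq e).2.2
  have k2 : A - c ^ 2 - 2 * c * x₀ = 2 * α * β := by
    have e : algebraMap M Ω (x₀ * c ^ 2 + B) +
        algebraMap M Ω (- c ^ 2 - 2 * c * x₀ + A) * t + algebraMap M Ω (x₀ + 2 * c) * t ^ 2 =
        algebraMap M Ω (β ^ 2) + algebraMap M Ω (2 * α * β) * t + algebraMap M Ω (α ^ 2) * t ^ 2 := by
      have e2 : (algebraMap M Ω p + algebraMap M Ω q * t + algebraMap M Ω r * t ^ 2) *
          (t - algebraMap M Ω c) = algebraMap M Ω α * t + algebraMap M Ω β := by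
        rw [hα, hβ, hq]
        simp only [map_sub, map_add, map_mul, map_neg]
        linear_combination (algebraMap M Ω r) * hr
      simp only [map_sub, map_add, map_mul, map_pow, map_neg, map_ofNat]
      have e3 : (algebraMap M Ω x₀ - t) * (t - algebraMap M Ω c) ^ 2 =
          (algebraMap M Ω α * t + algebraMap M Ω β) ^ 2 := by
        rw [← e2, hz]
        ring
      linear_combination e3 + hr
    have := (h.eq e).2.1
    linear_combination this
  have k3 : x₀ * c ^ 2 + B = β ^ 2 := by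
    have e : algebraMap M Ω (x₀ * c ^ 2 + B) +
        algebraMap M Ω (- c ^ 2 - 2 * c * x₀ + A) * t + algebraMap M Ω (x₀ + 2 * c) * t ^ 2 =
        algebraMap M Ω (β ^ 2) + algebraMap M Ω (2 * α * β) * t + algebraMap M Ω (α ^ 2) * t ^ 2 := by
      have e2 : (algebraMap M Ω p + algebraMap M Ω q * t + algebraMap M Ω r * t ^ 2) *
          (t - algebraMap M Ω c) = algebraMap M Ω α * t + algebraMap M Ω β := by
        rw [hα, hβ, hq]
        simp only [map_sub, map_add, map_mul, map_neg]
        linear_combination (algebraMap M Ω r) * hr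
      simp only [map_sub, map_add, map_mul, map_pow, map_neg, map_ofNat]
      have e3 : (algebraMap M Ω x₀ - t) * (t - algebraMap M Ω c) ^ 2 =
          (algebraMap M Ω α * t + algebraMap M Ω β) ^ 2 := by
        rw [← e2, hz]
        ring
      linear_combination e3 + hr
    exact (h.eq e).1
  obtain ⟨y, hy⟩ : ∃ y, y = α * c + β := ⟨_, rfl⟩
  have hf : y ^ 2 = c ^ 3 + A * c + B := by
    rw [hy]
    linear_combination (-c ^ 2) * k1 - c * k2 - k3
  have hy0 : y ≠ 0 := by
    intro h0
    apply h.nr c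
    rw [← hf, h0]
    ring
  have hd : 2 * α * y = 3 * c ^ 2 + A := by
    rw [hy]
    linear_combination (-2 * c) * k1 - k2
  have hns : W.Nonsingular c y := by
    rw [nonsingular_iff, equation_iff]
    refine ⟨?_, Or.inr ?_⟩
    · rw [hW.a1, hW.a2, hW.a3, hW.a4, hW.a6]
      linear_combination hf
    · rw [hW.a1, hW.a3]
      intro h0
      have h3 : 2 * y = 0 := by linear_combination h0
      exact hy0 ((mul_eq_zero.1 h3).resolve_left two_ne_zero)
  have hyn : y ≠ W.negY c y := by
    rw [hW.negY]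
    intro h0
    have h3 : 2 * y = 0 := by linear_combination h0
    exact hy0 ((mul_eq_zero.1 h3).resolve_left two_ne_zero)
  have hsl : W.slope c c y y = α := by
    rw [slope_of_Y_ne rfl hyn, hW.a1, hW.a2, hW.a4, hW.negY]
    have h3 : y - -y ≠ 0 := by
      intro h0
      have h3 : 2 * y = 0 := by linear_combination h0
      exact hy0 ((mul_eq_zero.1 h3).resolve_left two_ne_zero)
    rw [div_eq_iff h3]
    linear_combination -hd
  have hxx : ∀ (Q : W.Point), Q = Point.some c y hns → ∃ (y' : M) (hn : W.Nonsingular x₀ y'),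
      (2 : ℕ) • Q = Point.some x₀ y' hn := by
    rintro Q rfl
    rw [two_nsmul, Point.add_some (fun hh => hyn hh.2)]
    have hX : W.addX c c (W.slope c c y y) = x₀ := by
      rw [addX, hW.a1, hW.a2, hsl]
      linear_combination -k1
    have hn := nonsingular_add hns hns (fun hh => hyn hh.2)
    rw [hX] at hn
    refine ⟨_, hn, ?_⟩
    congr 1
  obtain ⟨y', hn, h2⟩ := hxx _ rfl
  have e1 := hW.eqn hP
  have e2 := hW.eqn hn
  have e3 : (y' - y₀) * (y' + y₀) = 0 := by linear_combination e2 - e1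
  rcases mul_eq_zero.1 e3 with e4 | e4
  · refine ⟨Point.some c y hns, ?_⟩
    rw [h2]
    have e5 := sub_eq_zero.1 e4
    subst e5
    rfl
  · refine ⟨-Point.some c y hns, ?_⟩
    rw [smul_neg, h2, Point.neg_some]
    have e5 : y₀ = W.negY x₀ y' := by
      rw [hW.negY]
      linear_combination e4
    congr 1

end

end Pool.Agent.Helper10.RM
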