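import Pool.Agent.Helper10.RM.PlM

/-!
# Quadratic fields generated by the square root of an odd integer
-/

set_option autoImplicit false
set_option linter.all false

open Polynomial IsDedekindDomain NumberField
open scoped Classical

namespace Pool.Agent.Helper10.RM

open Pool.Agent.N922.PQ

theorem slight_quad {K : Type} [Field K] [NumberField K] (h : Module.finrank ℚ K = 2) {d : ℤ}
    (hd : Odd d) {z : K} (hz : z ^ 2 = (d : K)) (hzq : ∀ q : ℚ, z ≠ algebraMap ℚ K q) :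
    SlightM K := by
  haveI : Algebra.IsQuadraticExtension ℚ K := ⟨h⟩
  haveI : IsGalois ℚ K := inferInstance
  obtain ⟨w, hw⟩ := exists_over (𝓞 K)
  have h2 : (2 : 𝓞 K) ∈ w.asIdeal := by
    unfold Ov at hw
    exact_mod_cast hw
  have hprime := w.isPrime
  have hone : (1 : 𝓞 K) ∉ w.asIdeal := fun h1 => hprime.ne_top ((Ideal.eq_top_iff_one _).2 h1)
  have hN : Ideal.absNorm (Ideal.span {(2 : 𝓞 K)}) = 2 ^ 2 := by
    have h3 := Ideal.absNorm_span_singleton (2 : 𝓞 K)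
    rw [h3]
    have e : (2 : 𝓞 K) = algebraMap ℤ (𝓞 K) 2 := by simp
    rw [e, Algebra.norm_algebraMap]
    rw [NumberField.RingOfIntegers.rank, Int.natAbs_pow, h]
    rfl
  have hcard : Nat.card (𝓞 K ⧸ w.asIdeal) = Ideal.absNorm w.asIdeal := rfl
  have key : ∀ k : ℕ, (2 : 𝓞 K) ∈ w.asIdeal ^ k → (Ideal.absNorm w.asIdeal) ^ k ∣ 2 ^ 2 := by
    intro k hk
    rw [← hN, ← map_pow]
    apply Ideal.absNorm_dvd_absNorm_of_le
    rw [Ideal.span_singleton_le_iff_mem]
    exact hk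
  have hne1 : Ideal.absNorm w.asIdeal ≠ 1 := by
    intro h1
    exact hprime.ne_top (Ideal.absNorm_eq_one_iff.1 h1)
  have hN2 : (2 : 𝓞 K) ∈ w.asIdeal ^ 2 → Ideal.absNorm w.asIdeal = 2 := by
    intro h22
    have h4 : Ideal.absNorm w.asIdeal ∣ 2 := (Nat.pow_dvd_pow_iff two_ne_zero).1 (key 2 h22)
    exact (Nat.Prime.eq_one_or_self_of_dvd Nat.prime_two _ h4).resolve_left hne1
  refine ⟨w.asIdeal, hprime, h2, fun h23 => ?_, fun x hx => ?_⟩
  · have h5 := hN2 (Ideal.pow_le_pow_right (by norm_num) h23)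
    have h6 := key 3 h23
    rw [h5] at h6
    norm_num at h6
  -- `2` is in the square
  have hx4 : x ^ 2 - 2 ∈ w.asIdeal ^ 2 := Ideal.pow_le_pow_right (by norm_num) hx
  have hxm : x ∈ w.asIdeal := by
    have h5 : x ^ 2 - 2 ∈ w.asIdeal := by
      have := Ideal.pow_le_pow_right (I := w.asIdeal) (show 1 ≤ 2 by norm_num) hx4
      rwa [pow_one] at this
    have h6 : x ^ 2 ∈ w.asIdeal := by
      have e : x ^ 2 = (x ^ 2 - 2) + 2 := by ring
      rw [e]
      exact Ideal.add_mem _ h5 h2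
    exact hprime.mem_of_pow_mem 2 h6
  have h22 : (2 : 𝓞 K) ∈ w.asIdeal ^ 2 := by
    have e : (2 : 𝓞 K) = x ^ 2 - (x ^ 2 - 2) := by ring
    rw [e]
    exact Ideal.sub_mem _ (Ideal.pow_mem_pow hxm 2) hx4
  have hA := hN2 h22
  have hsq : w.asIdeal ^ 2 = Ideal.span {(2 : 𝓞 K)} := by
    have h5 : w.asIdeal ^ 2 ∣ Ideal.span {(2 : 𝓞 K)} := by
      rw [Ideal.dvd_iff_le, Ideal.span_singleton_le_iff_mem]
      exact h22
    obtain ⟨J, hJ⟩ := h5
    have h6 := congrArg Ideal.absNorm hJ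
    rw [hN, map_mul, map_pow, hA] at h6
    have h7 : Ideal.absNorm J = 1 := by omega
    rw [Ideal.absNorm_eq_one_iff] at h7
    rw [hJ, h7, ← Ideal.one_eq_top, mul_one]
  have hmem2 : ∀ y : 𝓞 K, y ∈ w.asIdeal ^ 2 → ∃ c, y = 2 * c := by
    intro y hy
    rw [hsq, Ideal.mem_span_singleton] at hy
    exact hy
  have hres : ∀ r : 𝓞 K, r ∈ w.asIdeal ∨ r - 1 ∈ w.asIdeal := by
    intro r
    haveI := w.isMaximal
    letI := Ideal.Quotient.field w.asIdeal
    haveI : Finite (𝓞 K ⧸ w.asIdeal) := Nat.finite_of_card_ne_zero (by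
      rw [hcard, hA]
      norm_num)
    haveI := Fintype.ofFinite (𝓞 K ⧸ w.asIdeal)
    have h6 := FiniteField.pow_card (Ideal.Quotient.mk w.asIdeal r)
    rw [← Nat.card_eq_fintype_card, hcard, hA] at h6
    have h7 : r ^ 2 - r ∈ w.asIdeal := by
      rw [← Ideal.Quotient.eq_zero_iff_mem, map_sub, map_pow, sub_eq_zero]
      exact h6
    have e : r ^ 2 - r = r * (r - 1) := by ring
    rw [e] at h7
    exact hprime.mem_or_mem h7
  have hodd : ∀ c : ℤ, Odd c → (c : 𝓞 K) ∉ w.asIdeal := by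
    rintro c ⟨k, rfl⟩ hc
    apply hone
    have e : (1 : 𝓞 K) = ((2 * k + 1 : ℤ) : 𝓞 K) - 2 * k := by push_cast; ring
    rw [e]
    exact Ideal.sub_mem _ hc (Ideal.mul_mem_right _ _ h2)
  have hint : IsIntegral ℤ z := by
    refine IsIntegral.of_pow (n := 2) (by norm_num) ?_
    rw [hz]
    exact isIntegral_algebraMap (R := ℤ) (x := d)
  obtain ⟨z₀, hz₀⟩ : ∃ z₀ : 𝓞 K, algebraMap (𝓞 K) K z₀ = z := ⟨⟨z, hint⟩, rfl⟩
  have hinj : Function.Injective (algebraMap (𝓞 K) K) := RingOfIntegers.coe_injective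
  have hz2 : z₀ ^ 2 = (d : 𝓞 K) := by
    apply hinj
    rw [map_pow, hz₀, hz, map_intCast]
  obtain ⟨k, hk⟩ := hd
  have hqm : z₀ - 1 ∈ w.asIdeal := by
    rcases hres z₀ with h5 | h5
    · exfalso
      apply hodd d ⟨k, hk⟩
      rw [← hz2]
      exact Ideal.pow_mem_of_mem _ h5 2 (by norm_num)
    · exact h5
  obtain ⟨q, hq⟩ : ∃ q, q = z₀ - 1 := ⟨_, rfl⟩
  rw [← hq] at hqm
  have hz' : z₀ = q + 1 := by rw [hq]; ring
  rw [hz', hk] at hz2
  push_cast at hz2
  rcases Int.even_or_odd k with ⟨l, hl⟩ | ho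
  · -- `d = 1` modulo `4`
    exfalso
    obtain ⟨σ, hσ⟩ : ∃ σ : K ≃ₐ[ℚ] K, σ z ≠ z := by
      by_contra hcon
      push Not at hcon
      have h5 : z ∈ (⊥ : IntermediateField ℚ K) := (IsGalois.mem_bot_iff_fixed z).2 hcon
      obtain ⟨r, hr⟩ := IntermediateField.mem_bot.1 h5
      exact hzq r hr.symm
    have hσz : σ z = -z := by
      have h5 : σ z ^ 2 = z ^ 2 := by
        rw [← map_pow, hz, map_intCast]
      rcases sq_eq_sq_iff_eq_or_eq_neg.1 h5 with h6 | h6
      · exact absurd h6 hσ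
      · exact h6
    -- `s = (z - 1) / 2`
    have hsint : IsIntegral ℤ ((z - 1) / 2) := by
      refine ⟨X ^ 2 + X - C l, ?_, ?_⟩
      · have e : (X ^ 2 + X - C l : ℤ[X]) = X ^ 2 + (X - C l) := by ring
        rw [e]
        refine (monic_X_pow 2).add_of_left ?_
        rw [degree_X_pow, degree_X_sub_C]
        norm_num
      · rw [eval₂_sub, eval₂_add, eval₂_pow, eval₂_X, eval₂_C]
        have e : (d : K) = 4 * l + 1 := by
          rw [hk, hl]
          push_cast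
          ring
        rw [e] at hz
        rw [eq_intCast]
        linear_combination hz / 4
    obtain ⟨s, hs⟩ : ∃ s : 𝓞 K, algebraMap (𝓞 K) K s = (z - 1) / 2 := ⟨⟨_, hsint⟩, rfl⟩
    -- the conjugate of an element of the prime
    obtain ⟨τ, hτ⟩ : ∃ τ : 𝓞 K → 𝓞 K, ∀ y, algebraMap (𝓞 K) K (τ y) = σ (algebraMap (𝓞 K) K y) := by
      refine ⟨fun y => ⟨σ (algebraMap (𝓞 K) K y), ?_⟩, fun y => rfl⟩
      exact IsIntegral.map (σ.toAlgHom.restrictScalars ℤ) y.2
    have hτm : ∀ y : 𝓞 K, y ∈ w.asIdeal → τ y ∈ w.asIdeal := by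
      intro y hy
      obtain ⟨c, hc⟩ := hmem2 (y ^ 2) (Ideal.pow_mem_pow hy 2)
      have h5 : (τ y) ^ 2 = 2 * τ c := by
        apply hinj
        rw [map_pow, map_mul, hτ, hτ, ← map_pow, ← map_pow, hc, map_mul, map_mul, map_ofNat,
          map_ofNat]
      apply hprime.mem_of_pow_mem 2
      rw [h5]
      exact Ideal.mul_mem_right _ _ h2
    have hτs : τ s = -1 - s := by
      apply hinj
      rw [hτ, hs, map_sub, map_neg, map_one, hs, map_div₀, map_sub, hσz, map_one, map_ofNat]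
      ring
    have hτs1 : τ (s - 1) = τ s - 1 := by
      apply hinj
      rw [hτ, map_sub, map_sub, map_sub, hτ, map_one, map_one]
    rcases hres s with h5 | h5
    · apply hone
      have h6 := hτm s h5
      rw [hτs] at h6
      have e : (1 : 𝓞 K) = -(-1 - s) - s := by ring
      rw [e]
      exact Ideal.sub_mem _ (neg_mem h6) h5
    · apply hone
      have h6 := hτm _ h5
      rw [hτs1, hτs] at h6
      have e : (1 : 𝓞 K) = -((-1 - s - 1) + (s - 1)) - 2 := by ring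
      rw [e]
      exact Ideal.sub_mem _ (neg_mem (Ideal.add_mem _ h6 h5)) h2
  · -- `d = 3` modulo `4`
    exfalso
    obtain ⟨l, hl⟩ := ho
    have hq2 : q ^ 2 = 2 * ((2 * l + 1) - q) := by
      have e : (k : 𝓞 K) = 2 * l + 1 := by rw [hl]; push_cast; ring
      rw [e] at hz2
      linear_combination hz2
    have hx44 : ∃ y, x ^ 2 - 2 = 4 * y := by
      have e : w.asIdeal ^ 4 = Ideal.span {(4 : 𝓞 K)} := by
        have : w.asIdeal ^ 4 = (w.asIdeal ^ 2) ^ 2 := by rw [← pow_mul]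
        rw [this, hsq, Ideal.span_singleton_pow]
        norm_num
      rw [e, Ideal.mem_span_singleton] at hx
      exact hx
    obtain ⟨y, hy⟩ := hx44
    obtain ⟨g, hg⟩ := hmem2 (x * q) (by
      rw [pow_two]
      exact Ideal.mul_mem_mul hxm hqm)
    have hg2 : g ^ 2 = (1 + 2 * y) * ((2 * l + 1) - q) := by
      have h4 : (4 : 𝓞 K) ≠ 0 := by norm_num
      apply mul_left_cancel₀ h4
      have e1 : (x * q) ^ 2 = 4 * g ^ 2 := by rw [hg]; ring
      have e2 : x ^ 2 = 2 + 4 * y := by linear_combination hy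
      rw [← e1, mul_pow, e2, hq2]
      ring
    have hg1 : g - 1 ∈ w.asIdeal := by
      rcases hres g with h5 | h5
      · exfalso
        apply hone
        have h6 : g ^ 2 ∈ w.asIdeal := Ideal.pow_mem_of_mem _ h5 2 (by norm_num)
        rw [hg2] at h6
        have e : (1 : 𝓞 K) = (1 + 2 * y) * ((2 * l + 1) - q) - 2 * (y * (2 * l + 1) + l) +
            q * (1 + 2 * y) := by ring
        rw [e]
        exact Ideal.add_mem _ (Ideal.sub_mem _ h6 (Ideal.mul_mem_right _ _ h2))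
          (Ideal.mul_mem_right _ _ hqm)
      · exact h5
    obtain ⟨c, hc⟩ := hmem2 ((g - 1) ^ 2) (Ideal.pow_mem_pow hg1 2)
    -- `q` is divisible by two
    have hq3 : q = 2 * (y * (2 * l + 1) + l - y * q - c - (g - 1)) := by
      linear_combination hg2 - hc
    obtain ⟨e, he⟩ : ∃ e, e = y * (2 * l + 1) + l - y * q - c - (g - 1) := ⟨_, rfl⟩
    rw [← he] at hq3
    rw [hq3] at hq2
    have h2ne : (2 : 𝓞 K) ≠ 0 := two_ne_zero
    have h5 : 2 * (e ^ 2 + e - l) = 1 := by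
      apply mul_left_cancel₀ h2ne
      linear_combination hq2
    apply hone
    rw [← h5]
    exact Ideal.mul_mem_right _ _ h2

theorem mild_to_M {K : Type} [Field K] [NumberField K] (h : Mild K) : MildM K := by
  obtain ⟨𝔭, h𝔭, h2, h⟩ := h
  rcases h with h | ⟨h3, h4⟩
  · refine ⟨𝔭, h𝔭, h2, fun h3 => h (Ideal.pow_le_pow_right (by norm_num) h3), Or.inr fun x hx => ?_⟩
    have hx4 : x ^ 2 - 2 ∈ 𝔭 ^ 2 := Ideal.pow_le_pow_right (by norm_num) hx
    have hxm : x ∈ 𝔭 := by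
      have h5 : x ^ 2 - 2 ∈ 𝔭 := by
        have := Ideal.pow_le_pow_right (I := 𝔭) (show 1 ≤ 2 by norm_num) hx4
        rwa [pow_one] at this
      have h6 : x ^ 2 ∈ 𝔭 := by
        have e : x ^ 2 = (x ^ 2 - 2) + 2 := by ring
        rw [e]
        exact Ideal.add_mem _ h5 h2
      exact h𝔭.mem_of_pow_mem 2 h6
    apply h
    have e : (2 : 𝓞 K) = x ^ 2 - (x ^ 2 - 2) := by ring
    rw [e]
    exact Ideal.sub_mem _ (Ideal.pow_mem_pow hxm 2) hx4
  · refine ⟨𝔭, h𝔭, h2, h3, Or.inl ?_⟩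
    rcases h4 with h4 | ⟨h4, -⟩
    · rw [h4]
      norm_num
    · rw [h4]

end Pool.Agent.Helper10.RM
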