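import Pool.Agent.Helper10.RM.Alg

/-!
# Square classes modulo the square of a uniformizer: from the ring of integers to the quotient
-/

set_option autoImplicit false

namespace Pool.Agent.Helper10.RM

/-- `ϖ` is a uniformizer, `2 = ϖ ^ 2 υ` with a unit `υ` which is `1` modulo `ϖ`. -/
structure Rm {O : Type} [CommRing O] (ϖ υ κ : O) : Prop where
  two : (2 : O) = ϖ ^ 2 * υ
  inv : υ * κ = 1
  can : ∀ u w : O, ϖ * u = ϖ * w → u = w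
  one : ¬ ϖ ∣ 1
  uni : ϖ ∣ υ - 1
  sqd : ∀ u : O, ϖ ∣ u ^ 2 → ϖ ∣ u

section
variable {O : Type} [CommRing O] {ϖ υ κ : O}

theorem Rm.can0 (H : Rm ϖ υ κ) {u : O} (h : ϖ * u = 0) : u = 0 :=
  H.can u 0 (by rw [h, mul_zero])

theorem Rm.can2 (H : Rm ϖ υ κ) {u : O} (h : ϖ ^ 2 * u = 0) : u = 0 := by
  apply H.can0
  apply H.can0
  rw [← mul_assoc, ← pow_two]
  exact h

/-- The quotient map. -/
def qm (ϖ : O) : O →+* O ⧸ Ideal.span {ϖ ^ 2} := Ideal.Quotient.mk _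

theorem qm_zero {u : O} : qm ϖ u = 0 ↔ ϖ ^ 2 ∣ u := by
  unfold qm
  rw [Ideal.Quotient.eq_zero_iff_mem, Ideal.mem_span_singleton]

theorem qm_surj (z : O ⧸ Ideal.span {ϖ ^ 2}) : ∃ u : O, qm ϖ u = z :=
  Ideal.Quotient.mk_surjective z

theorem Rm.sp (H : Rm ϖ υ κ) : Sp (qm ϖ ϖ) where
  two := by
    rw [← map_ofNat (qm ϖ) 2, qm_zero]
    exact ⟨υ, H.two⟩
  sq := by
    rw [← map_pow, qm_zero]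
  ann := by
    intro z hz
    obtain ⟨u, rfl⟩ := qm_surj z
    rw [← map_mul, qm_zero] at hz
    obtain ⟨c, hc⟩ := hz
    refine ⟨qm ϖ c, ?_⟩
    rw [← map_mul]
    congr 1
    apply H.can
    linear_combination hc
  one := by
    intro z hz
    obtain ⟨u, rfl⟩ := qm_surj z
    rw [← map_mul, ← map_one (qm ϖ), ← sub_eq_zero, ← map_sub, qm_zero] at hz
    obtain ⟨c, hc⟩ := hz
    apply H.one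
    exact ⟨u + ϖ * c, by linear_combination hc⟩

theorem resA_of (h : ∀ u : O, ϖ ∣ u ^ 4 - u) : ResA (qm ϖ ϖ) := by
  intro z
  obtain ⟨u, rfl⟩ := qm_surj z
  obtain ⟨c, hc⟩ := h u
  refine ⟨qm ϖ c, ?_⟩
  rw [← map_pow, ← map_mul, ← map_add]
  congr 1
  linear_combination hc

theorem resB_of (h : ∀ u : O, ϖ ∣ u ^ 2 - u) : ResB (qm ϖ ϖ) := by
  intro z
  obtain ⟨u, rfl⟩ := qm_surj z
  obtain ⟨c, hc⟩ := h u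
  refine ⟨qm ϖ c, ?_⟩
  rw [← map_pow, ← map_mul, ← map_add]
  congr 1
  linear_combination hc

theorem Rm.qm_odd (H : Rm ϖ υ κ) {g : ℤ} (h : Odd g) : qm ϖ (g : O) = 1 := by
  rw [map_intCast]
  exact H.sp.cast_odd h

theorem Rm.qm_uni (H : Rm ϖ υ κ) : qm ϖ υ * qm ϖ ϖ = qm ϖ ϖ := by
  rw [← map_mul, ← sub_eq_zero, ← map_sub, qm_zero]
  obtain ⟨c, hc⟩ := H.uni
  exact ⟨c, by linear_combination ϖ * hc⟩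

/-- Squares modulo `f`. -/
theorem sq_eqs (H : Rm ϖ υ κ) {a b : ℤ} (ha : Odd a) (hb : Odd b) (g₁ g₂ : ℤ)
    (w R S' T t0 t1 t2 : O)
    (e0 : 1 + 4 * R = t0 ^ 2 - 2 * t1 * t2 * b)
    (e1 : 2 * g₁ - ϖ ^ 2 * w ^ 2 + 4 * S' = 2 * t0 * t1 - 2 * t1 * t2 * a - t2 ^ 2 * b)
    (e2 : 2 * g₂ + 4 * T = t1 ^ 2 + 2 * t0 * t2 - t2 ^ 2 * a) :
    ∃ u1 u2 : O ⧸ Ideal.span {ϖ ^ 2},
      qm ϖ υ * (g₁ : O ⧸ Ideal.span {ϖ ^ 2}) + qm ϖ w ^ 2 + qm ϖ ϖ * u1 + u2 ^ 2 = 0 ∧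
      qm ϖ υ * (g₂ : O ⧸ Ideal.span {ϖ ^ 2}) + u1 ^ 2 + qm ϖ ϖ * u2 + u2 ^ 2 = 0 := by
  have h2 := H.two
  obtain ⟨b1, hb1⟩ := hb
  have hbO : (b : O) = 1 + ϖ ^ 2 * υ * b1 := by
    rw [hb1]
    push_cast
    linear_combination (b1 : O) * h2
  obtain ⟨u2, hu2⟩ : ϖ ∣ t2 := by
    apply H.sqd
    refine ⟨ϖ * (υ * (t0 * t1 - t1 * t2 * a - g₁) + w ^ 2 - ϖ ^ 2 * υ ^ 2 * S' - υ * b1 * t2 ^ 2), ?_⟩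
    linear_combination e1 - t2 ^ 2 * hbO + (t0 * t1 - t1 * t2 * a - g₁ - (2 + ϖ ^ 2 * υ) * S') * h2
  obtain ⟨u1, hu1⟩ : ϖ ∣ t1 := by
    apply H.sqd
    refine ⟨ϖ * (υ * (g₂ - t0 * t2) + ϖ ^ 2 * υ ^ 2 * T + u2 ^ 2 * a), ?_⟩
    linear_combination -e2 + (g₂ - t0 * t2 + (2 + ϖ ^ 2 * υ) * T) * h2 + a * (t2 + ϖ * u2) * hu2
  obtain ⟨t', ht'⟩ : ϖ ∣ t0 - 1 := by
    apply H.sqd
    refine ⟨ϖ * (υ * (t1 * t2 * b - t0 + 1) + ϖ ^ 2 * υ ^ 2 * R), ?_⟩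
    linear_combination -e0 + (t1 * t2 * b - t0 + 1 + (2 + ϖ ^ 2 * υ) * R) * h2
  have Z1 : υ * g₁ - w ^ 2 + ϖ ^ 2 * υ ^ 2 * S' - υ * ϖ * t0 * u1 + ϖ ^ 2 * υ * u1 * u2 * a +
      u2 ^ 2 * b = 0 := by
    apply H.can2
    rw [hu1, hu2] at e1
    linear_combination e1 + (-g₁ - (2 + ϖ ^ 2 * υ) * S' + ϖ * t0 * u1 - ϖ ^ 2 * u1 * u2 * a) * h2
  have Z2 : υ * g₂ + ϖ ^ 2 * υ ^ 2 * T - u1 ^ 2 - υ * ϖ * t0 * u2 + u2 ^ 2 * a = 0 := by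
    apply H.can2
    rw [hu1, hu2] at e2
    linear_combination e2 + (-g₂ - (2 + ϖ ^ 2 * υ) * T + ϖ * t0 * u2) * h2
  have HS := H.sp
  have H2 := HS.two
  have Hp := HS.sq
  have Hu := H.qm_uni
  have Hb : (b : O ⧸ Ideal.span {ϖ ^ 2}) = 1 := HS.cast_odd ⟨b1, hb1⟩
  have Ha : (a : O ⧸ Ideal.span {ϖ ^ 2}) = 1 := HS.cast_odd ha
  have ht0 : qm ϖ t0 = 1 + qm ϖ ϖ * qm ϖ t' := by
    have : t0 = 1 + ϖ * t' := by linear_combination ht'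
    rw [this, map_add, map_one, map_mul]
  refine ⟨qm ϖ u1, qm ϖ u2, ?_, ?_⟩
  · have Y := congrArg (qm ϖ) Z1
    simp only [map_add, map_sub, map_mul, map_pow, map_intCast, map_zero] at Y
    rw [Hb, Ha, ht0] at Y
    linear_combination Y + (qm ϖ u1 * (1 + qm ϖ ϖ * qm ϖ t')) * Hu +
      (qm ϖ u1 * qm ϖ t' - qm ϖ υ ^ 2 * qm ϖ S' - qm ϖ υ * qm ϖ u1 * qm ϖ u2) * Hp +
      (qm ϖ w ^ 2 + qm ϖ ϖ * qm ϖ u1) * H2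
  · have Y := congrArg (qm ϖ) Z2
    simp only [map_add, map_sub, map_mul, map_pow, map_intCast, map_zero] at Y
    rw [Ha, ht0] at Y
    linear_combination Y + (qm ϖ u2 * (1 + qm ϖ ϖ * qm ϖ t')) * Hu +
      (qm ϖ u2 * qm ϖ t' - qm ϖ υ ^ 2 * qm ϖ T) * Hp + (qm ϖ u1 ^ 2 + qm ϖ ϖ * qm ϖ u2) * H2

/-- An integral point. -/
theorem int_eqs (H : Rm ϖ υ κ) {a b a1 b1 : ℤ} (ha : a = 2 * a1 + 1) (hb : b = 2 * b1 + 1)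
    (g₁ g₂ : ℤ) (r s t x t0 t1 t2 : O)
    (e0 : x * (1 + 4 * r) + (2 * g₂ + 4 * t) * b = t0 ^ 2 - 2 * t1 * t2 * b)
    (e1 : x * (2 * g₁ + 4 * s) - (1 + 4 * r) + (2 * g₂ + 4 * t) * a =
      2 * t0 * t1 - 2 * t1 * t2 * a - t2 ^ 2 * b)
    (e2 : x * (2 * g₂ + 4 * t) - (2 * g₁ + 4 * s) = t1 ^ 2 + 2 * t0 * t2 - t2 ^ 2 * a) :
    ∃ u1 u2 : O, t1 = 1 + ϖ * u1 ∧ t2 = 1 + ϖ * u2 ∧ qm ϖ x = qm ϖ t0 ^ 2 ∧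
      qm ϖ υ * ((g₁ : O ⧸ Ideal.span {ϖ ^ 2}) * qm ϖ x + g₂ + qm ϖ t0 * (1 + qm ϖ ϖ * qm ϖ u1) +
        (1 + qm ϖ ϖ * qm ϖ u1) * (1 + qm ϖ ϖ * qm ϖ u2) + b1 + qm ϖ ϖ * qm ϖ u2) +
        qm ϖ u2 ^ 2 = 0 ∧
      qm ϖ υ * ((g₂ : O ⧸ Ideal.span {ϖ ^ 2}) * qm ϖ x + g₁ + a1 + qm ϖ ϖ * qm ϖ u1 +
        qm ϖ t0 * (1 + qm ϖ ϖ * qm ϖ u2) + qm ϖ ϖ * qm ϖ u2) + qm ϖ u1 ^ 2 +
        qm ϖ u2 ^ 2 = 0 := by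
  have h2 := H.two
  have hbO : (b : O) = 1 + 2 * b1 := by rw [hb]; push_cast; ring
  have haO : (a : O) = 1 + 2 * a1 := by rw [ha]; push_cast; ring
  obtain ⟨u2, hu2⟩ : ϖ ∣ t2 - 1 := by
    apply H.sqd
    refine ⟨ϖ * υ * (t0 * t1 - t1 * t2 * a - g₁ * x - 2 * s * x + 2 * r + 1 - t2 -
      (g₂ + 2 * t) * a - b1 * t2 ^ 2), ?_⟩
    linear_combination e1 - t2 ^ 2 * hbO + (t0 * t1 - t1 * t2 * a - g₁ * x - 2 * s * x + 2 * r + 1 -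
      t2 - (g₂ + 2 * t) * a - b1 * t2 ^ 2) * h2
  have hu2' : t2 = 1 + ϖ * u2 := by linear_combination hu2
  obtain ⟨u1, hu1⟩ : ϖ ∣ t1 - 1 := by
    apply H.sqd
    refine ⟨ϖ * υ * (x * (g₂ + 2 * t) - (g₁ + 2 * s) - t0 * t2 + a1 * t2 ^ 2 + ϖ * u2 - t1 + 1) +
      ϖ * u2 ^ 2, ?_⟩
    linear_combination -e2 + t2 ^ 2 * haO + (t2 + 1 + ϖ * u2) * hu2' + (x * (g₂ + 2 * t) -
      (g₁ + 2 * s) - t0 * t2 + a1 * t2 ^ 2 + ϖ * u2 - t1 + 1) * h2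
  have hu1' : t1 = 1 + ϖ * u1 := by linear_combination hu1
  have Z1 : υ * (x * g₁ + g₂ * a - t0 * t1 + t1 * t2 * a + b1 + b * ϖ * u2) + b * u2 ^ 2 +
      ϖ ^ 2 * υ ^ 2 * (x * s - r + t * a) = 0 := by
    apply H.can2
    linear_combination e1 - (x * g₁ + g₂ * a - t0 * t1 + t1 * t2 * a + b1 + b * ϖ * u2 +
      (2 + ϖ ^ 2 * υ) * (x * s - r + t * a)) * h2 - b * (t2 + 1 + ϖ * u2) * hu2' - hbO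
  have Z2 : υ * (g₂ * x - g₁ - t0 * t2 + a1 - ϖ * u1 + a * ϖ * u2) - u1 ^ 2 + a * u2 ^ 2 +
      ϖ ^ 2 * υ ^ 2 * (t * x - s) = 0 := by
    apply H.can2
    linear_combination e2 - (g₂ * x - g₁ - t0 * t2 + a1 - ϖ * u1 + a * ϖ * u2 +
      (2 + ϖ ^ 2 * υ) * (t * x - s)) * h2 + (t1 + 1 + ϖ * u1) * hu1' -
      a * (t2 + 1 + ϖ * u2) * hu2' - haO
  have HS := H.sp
  have H2 := HS.two
  have Hp := HS.sq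
  have Hb : (b : O ⧸ Ideal.span {ϖ ^ 2}) = 1 := HS.cast_odd ⟨b1, hb⟩
  have Ha : (a : O ⧸ Ideal.span {ϖ ^ 2}) = 1 := HS.cast_odd ⟨a1, ha⟩
  have T1 : qm ϖ t1 = 1 + qm ϖ ϖ * qm ϖ u1 := by rw [hu1', map_add, map_one, map_mul]
  have T2 : qm ϖ t2 = 1 + qm ϖ ϖ * qm ϖ u2 := by rw [hu2', map_add, map_one, map_mul]
  refine ⟨u1, u2, hu1', hu2', ?_, ?_, ?_⟩
  · have Y := congrArg (qm ϖ) e0
    simp only [map_add, map_sub, map_mul, map_pow, map_intCast, map_one, map_ofNat] at Y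
    linear_combination Y + (-2 * qm ϖ x * qm ϖ r - (g₂ + 2 * qm ϖ t) * b -
      qm ϖ t1 * qm ϖ t2 * b) * H2
  · have Y := congrArg (qm ϖ) Z1
    simp only [map_add, map_sub, map_mul, map_pow, map_intCast, map_zero] at Y
    rw [Hb, Ha, T1, T2] at Y
    linear_combination Y + (qm ϖ υ * qm ϖ t0 * (1 + qm ϖ ϖ * qm ϖ u1)) * H2 -
      (qm ϖ υ ^ 2 * (qm ϖ x * qm ϖ s - qm ϖ r + qm ϖ t)) * Hp
  · have Y := congrArg (qm ϖ) Z2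
    simp only [map_add, map_sub, map_mul, map_pow, map_intCast, map_zero] at Y
    rw [Ha, T2] at Y
    linear_combination Y + (qm ϖ υ * (g₁ + qm ϖ t0 * (1 + qm ϖ ϖ * qm ϖ u2) + qm ϖ ϖ * qm ϖ u1) +
      qm ϖ u1 ^ 2) * H2 - (qm ϖ υ ^ 2 * (qm ϖ t * qm ϖ x - qm ϖ s)) * Hp

theorem evenA_sq (H : Rm ϖ υ κ) (hυ : ϖ ^ 2 ∣ υ - 1) (hr : ∀ u : O, ϖ ∣ u ^ 4 - u) {a b : ℤ}
    (ha : Odd a) (hb : Odd b) (g₁ g₂ : ℤ) (w R S' T t0 t1 t2 : O)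
    (e0 : 1 + 4 * R = t0 ^ 2 - 2 * t1 * t2 * b)
    (e1 : 2 * g₁ - ϖ ^ 2 * w ^ 2 + 4 * S' = 2 * t0 * t1 - 2 * t1 * t2 * a - t2 ^ 2 * b)
    (e2 : 2 * g₂ + 4 * T = t1 ^ 2 + 2 * t0 * t2 - t2 ^ 2 * a) : Even g₂ := by
  obtain ⟨u1, u2, E1, E2⟩ := sq_eqs H ha hb g₁ g₂ w R S' T t0 t1 t2 e0 e1 e2
  have hu : qm ϖ υ = 1 := by
    rw [← sub_eq_zero, ← map_one (qm ϖ), ← map_sub, qm_zero]
    exact hυ
  rw [hu, one_mul] at E1 E2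
  exact sqA H.sp (resA_of hr) g₁ g₂ _ u1 u2 E1 E2

theorem evenA_int (H : Rm ϖ υ κ) (hυ : ϖ ^ 2 ∣ υ - 1) (hr : ∀ u : O, ϖ ∣ u ^ 4 - u) {a b : ℤ}
    (ha : a % 4 = 3) (hb : b % 4 = 3) (g₁ g₂ : ℤ) (r s t x t0 t1 t2 : O)
    (e0 : x * (1 + 4 * r) + (2 * g₂ + 4 * t) * b = t0 ^ 2 - 2 * t1 * t2 * b)
    (e1 : x * (2 * g₁ + 4 * s) - (1 + 4 * r) + (2 * g₂ + 4 * t) * a =
      2 * t0 * t1 - 2 * t1 * t2 * a - t2 ^ 2 * b)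
    (e2 : x * (2 * g₂ + 4 * t) - (2 * g₁ + 4 * s) = t1 ^ 2 + 2 * t0 * t2 - t2 ^ 2 * a) :
    Even g₂ := by
  obtain ⟨u1, u2, -, -, hx, E1, E2⟩ := int_eqs H (a := a) (b := b) (a1 := a / 2) (b1 := b / 2)
    (by omega) (by omega) g₁ g₂ r s t x t0 t1 t2 e0 e1 e2
  have hu : qm ϖ υ = 1 := by
    rw [← sub_eq_zero, ← map_one (qm ϖ), ← map_sub, qm_zero]
    exact hυ
  have ha1 : (((a / 2 : ℤ)) : O ⧸ Ideal.span {ϖ ^ 2}) = 1 :=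
    H.sp.cast_odd ⟨a / 4, by omega⟩
  have hb1 : (((b / 2 : ℤ)) : O ⧸ Ideal.span {ϖ ^ 2}) = 1 :=
    H.sp.cast_odd ⟨b / 4, by omega⟩
  rw [hu, one_mul, hb1] at E1
  rw [hu, one_mul, ha1] at E2
  exact intA H.sp (resA_of hr) g₁ g₂ _ _ _ _ hx E1 E2

theorem evenB_sq (H : Rm ϖ υ κ) (hυ : ϖ ^ 2 ∣ υ - 1 - ϖ) (hr : ∀ u : O, ϖ ∣ u ^ 2 - u) {a b : ℤ}
    (ha : Odd a) (hb : Odd b) (g₁ g₂ : ℤ) (w R S' T t0 t1 t2 : O)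
    (e0 : 1 + 4 * R = t0 ^ 2 - 2 * t1 * t2 * b)
    (e1 : 2 * g₁ - ϖ ^ 2 * w ^ 2 + 4 * S' = 2 * t0 * t1 - 2 * t1 * t2 * a - t2 ^ 2 * b)
    (e2 : 2 * g₂ + 4 * T = t1 ^ 2 + 2 * t0 * t2 - t2 ^ 2 * a) : Even g₁ := by
  obtain ⟨u1, u2, E1, E2⟩ := sq_eqs H ha hb g₁ g₂ w R S' T t0 t1 t2 e0 e1 e2
  have hu : qm ϖ υ = 1 + qm ϖ ϖ := by
    have h1 : qm ϖ (υ - 1 - ϖ) = 0 := qm_zero.2 hυ
    rw [map_sub, map_sub, map_one] at h1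
    linear_combination h1
  rw [hu] at E1 E2
  exact sqB H.sp (resB_of hr) g₁ g₂ _ u1 u2 E1 E2

/-- The contradiction at an integral point. -/
theorem no_root_B (H : Rm ϖ υ κ) (hr : ∀ u : O, ϖ ∣ u ^ 2 - u) {a b : ℤ} (ha : a % 4 = 1)
    (hb : b % 4 = 1) (σ x1 y : O) (hs : ϖ ^ 5 ∣ σ ^ 2 - (a + b + 5 : ℤ))
    (hxy : y ^ 2 = (1 + ϖ ^ 3 * x1) ^ 3 + a * (1 + ϖ ^ 3 * x1) + b) : False := by
  have h2 := H.two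
  obtain ⟨m, hm⟩ : ∃ m : ℤ, a = 4 * m - 3 := ⟨a / 4 + 1, by omega⟩
  obtain ⟨n, hn⟩ : ∃ n : ℤ, a + b + 5 = 1 + 2 * n := ⟨(a + b + 4) / 2, by omega⟩
  obtain ⟨s1, hs1⟩ := hs
  have hmO : (a : O) = 4 * m - 3 := by rw [hm]; push_cast; ring
  obtain ⟨k, hk⟩ : ∃ k : O, y ^ 2 - σ ^ 2 + 4 = ϖ ^ 5 * k := by
    refine ⟨ϖ ^ 2 * υ ^ 2 * m * x1 + 3 * ϖ * x1 ^ 2 + ϖ ^ 4 * x1 ^ 3 - s1, ?_⟩
    push_cast at hs1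
    linear_combination hxy - hs1 + ϖ ^ 3 * x1 * hmO + ϖ ^ 3 * x1 * m * (2 + ϖ ^ 2 * υ) * h2
  obtain ⟨D, hD⟩ : ∃ D : O, D = y - σ := ⟨_, rfl⟩
  have q0 : D ^ 2 + 2 * σ * D + 4 = ϖ ^ 5 * k := by
    rw [hD]
    linear_combination hk
  obtain ⟨D1, hD1⟩ : ϖ ∣ D := by
    apply H.sqd
    refine ⟨ϖ ^ 4 * k - ϖ * υ * (σ * D + 2), ?_⟩
    linear_combination q0 - (σ * D + 2) * h2
  have q1 : D1 ^ 2 + υ * σ * ϖ * D1 + ϖ ^ 2 * υ ^ 2 - ϖ ^ 3 * k = 0 := by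
    apply H.can2
    rw [hD1] at q0
    linear_combination q0 - (σ * ϖ * D1 + 2 + ϖ ^ 2 * υ) * h2
  obtain ⟨D2, hD2⟩ : ϖ ∣ D1 := by
    apply H.sqd
    exact ⟨ϖ ^ 2 * k - ϖ * υ ^ 2 - υ * σ * D1, by linear_combination q1⟩
  have q2 : D2 ^ 2 + υ * σ * D2 + υ ^ 2 - ϖ * k = 0 := by
    apply H.can2
    rw [hD2] at q1
    linear_combination q1
  obtain ⟨c, hc⟩ := hr D2
  obtain ⟨υ1, hυ1⟩ := H.uni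
  obtain ⟨c', hc'⟩ := hr σ
  have hnO : ((a + b + 5 : ℤ) : O) = 1 + 2 * n := by rw [hn]; push_cast; ring
  have hσ : σ = 1 + ϖ * (ϖ * υ * n + ϖ ^ 4 * s1 - c') := by
    linear_combination hs1 + hnO - hc' + n * h2
  apply H.one
  refine ⟨k - c - ϖ * υ * D2 - υ1 * (υ + 1) - (ϖ * υ * n + ϖ ^ 4 * s1 - c') * D2 * υ - υ1 * D2, ?_⟩
  linear_combination q2 - hc - (υ + 1 + D2) * hυ1 - υ * D2 * hσ - D2 * h2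

theorem evenB_int (H : Rm ϖ υ κ) (hυ : ϖ ^ 2 ∣ υ - 1 - ϖ) (hr : ∀ u : O, ϖ ∣ u ^ 2 - u) {a b : ℤ}
    (ha : a % 4 = 1) (hb : b % 4 = 1) (σ : O) (hs : ϖ ^ 5 ∣ σ ^ 2 - (a + b + 5 : ℤ))
    (g₁ g₂ : ℤ) (r s t x y t0 t1 t2 : O) (hxy : y ^ 2 = x ^ 3 + a * x + b)
    (e0 : x * (1 + 4 * r) + (2 * g₂ + 4 * t) * b = t0 ^ 2 - 2 * t1 * t2 * b)
    (e1 : x * (2 * g₁ + 4 * s) - (1 + 4 * r) + (2 * g₂ + 4 * t) * a =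
      2 * t0 * t1 - 2 * t1 * t2 * a - t2 ^ 2 * b)
    (e2 : x * (2 * g₂ + 4 * t) - (2 * g₁ + 4 * s) = t1 ^ 2 + 2 * t0 * t2 - t2 ^ 2 * a) :
    Even g₁ := by
  by_contra hn
  rw [Int.not_even_iff_odd] at hn
  have h2 := H.two
  obtain ⟨u1, u2, hu1, hu2, hx, E1, E2⟩ := int_eqs H (a := a) (b := b) (a1 := a / 2) (b1 := b / 2)
    (by omega) (by omega) g₁ g₂ r s t x t0 t1 t2 e0 e1 e2
  have hu : qm ϖ υ = 1 + qm ϖ ϖ := by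
    have h1 : qm ϖ (υ - 1 - ϖ) = 0 := qm_zero.2 hυ
    rw [map_sub, map_sub, map_one] at h1
    linear_combination h1
  have ha1 : (((a / 2 : ℤ)) : O ⧸ Ideal.span {ϖ ^ 2}) = 0 :=
    H.sp.cast_even ⟨a / 4, by omega⟩
  have hb1 : (((b / 2 : ℤ)) : O ⧸ Ideal.span {ϖ ^ 2}) = 0 :=
    H.sp.cast_even ⟨b / 4, by omega⟩
  rw [hu, hb1, add_zero] at E1
  rw [hu, ha1, add_zero] at E2
  have h3 := intB H.sp (resB_of hr) g₁ g₂ _ _ _ _ hx E1 E2 hn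
  obtain ⟨T, hT⟩ : ϖ ^ 2 ∣ t0 - (1 + ϖ * (1 + g₂)) := by
    rw [← qm_zero, map_sub, map_add, map_mul, map_add, map_one, map_intCast, h3, sub_self]
  obtain ⟨υ1, hυ1⟩ := H.uni
  obtain ⟨k, hk⟩ : ∃ k : ℤ, (1 + g₂) * g₂ = 2 * k := by
    obtain ⟨k, hk⟩ := Int.even_mul_succ_self g₂
    exact ⟨k, by linarith⟩
  have hkO : (1 + (g₂ : O)) * g₂ = 2 * k := by exact_mod_cast congrArg (fun z : ℤ => (z : O)) hk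
  obtain ⟨b1, hb1'⟩ : ∃ b1 : ℤ, b = 2 * b1 + 1 := ⟨b / 2, by omega⟩
  have hbO : (b : O) = 1 + 2 * b1 := by rw [hb1']; push_cast; ring
  obtain ⟨G, hG⟩ : ∃ G : O, G = 1 + g₂ := ⟨_, rfl⟩
  obtain ⟨V, hV⟩ : ∃ V : O, V = u1 + u2 + ϖ * u1 * u2 := ⟨_, rfl⟩
  have hx1 : x = 1 + ϖ ^ 3 * (υ * G + ϖ * υ * T + ϖ ^ 2 * υ * G * T + ϖ * T ^ 2 - (V + υ1 * (G + ϖ * V) +
      ϖ * υ * b1 * υ * (G + ϖ * V)) - ϖ * υ ^ 2 * (r * x + t * b) + ϖ * υ * k) := by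
    have hT' : t0 = 1 + ϖ * G + ϖ ^ 2 * T := by rw [hG]; linear_combination hT
    have hk' : G ^ 2 - G = 2 * k := by rw [hG]; linear_combination hkO
    have hV' : t1 * t2 + g₂ = G + ϖ * V := by rw [hG, hV, hu1, hu2]; ring
    have m1 : x = t0 ^ 2 - 2 * b * (t1 * t2 + g₂) - 4 * (r * x + t * b) := by
      linear_combination e0
    rw [hV', hT'] at m1
    have m2 : x = (1 + ϖ * G + ϖ ^ 2 * T) ^ 2 - 2 * (1 + 2 * b1) * (G + ϖ * V) -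
        4 * (r * x + t * b) := by
      linear_combination m1 - 2 * (G + ϖ * V) * hbO
    linear_combination m2 + (ϖ * G + ϖ ^ 2 * T + ϖ ^ 3 * G * T - (G + ϖ * V) -
      (2 + ϖ ^ 2 * υ) * b1 * (G + ϖ * V) - (2 + ϖ ^ 2 * υ) * (r * x + t * b) + ϖ ^ 2 * k) * h2 -
      ϖ ^ 2 * (G + ϖ * V) * hυ1 + ϖ ^ 2 * hk'
  rw [hx1] at hxy
  exact no_root_B H hr ha hb σ _ y hs hxy

end

end Pool.Agent.Helper10.RM
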