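import Pool.Agent.Helper10.RM.Key

/-!
# The choice of the twist, and the elements of `L` which come from points over `F`
-/

set_option autoImplicit false
set_option linter.all false

open Polynomial IsDedekindDomain WeierstrassCurve WeierstrassCurve.Affine NumberField
open scoped Classical IntermediateField

namespace Pool.Agent.Helper10.RM

open Pool.Agent.N922.PQ
open Pool.Agent.N874.PP (Tup chA chB gq tau Two Ev Sq1 U0 sW IsBeta Rt)
open Pool.Agent.N874.PM (PLoc Lies SelR ShaR)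

/-- The classes of points satisfy the local conditions away from `2`. -/
theorem ploc_pt {M : Type} [Field M] {F : Type} [Field F] [Algebra M F] {A B : M} {W : Affine M}
    (hW : IsW W A B) {x y : M} (hP : W.Nonsingular x y) (hy : y ≠ 0) :
    PLoc F A B (C x - X) := by
  right
  refine ⟨algebraMap M F x, algebraMap M F y, (_root_.map_ne_zero _).2 hy, ?_,
    C (algebraMap M F x) - X, ?_⟩
  · rw [← map_pow, hW.eqn hP]
    simp only [map_add, map_mul, map_pow]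
  · rw [Polynomial.map_sub, Polynomial.map_C, Polynomial.map_X, ← pow_two, sub_self]
    exact dvd_zero _

section abs

variable {L M Ω : Type} (O O' R : Type) [Field L] [NumberField L] [Field M] [NumberField M]
  [Field Ω] [NumberField Ω] [Algebra L Ω] [Algebra M Ω]
  [CommRing O] [IsDedekindDomain O] [Algebra O L] [IsFractionRing O L] [IsIntegralClosure O ℤ L]
  [CommRing O'] [IsDedekindDomain O'] [Algebra O' Ω] [IsFractionRing O' Ω]
  [IsIntegralClosure O' ℤ Ω]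
  [CommRing R] [IsDedekindDomain R] [Algebra R M] [IsFractionRing R M] [IsIntegralClosure R ℤ M]
  [IsGalois ℚ M]

include O O' R in
theorem fl_abs {a b : ℤ} {θ : L} {X' : ℕ}
    {S J T : Finset ℤ} {s A B : ℤ → ℤ} (hc : IsCub a b θ) (hS : GoodS S s)
    (hF : Fam X' S s T A B a b) (hT : GoodT T A B)
    {γ : M} {g : ℤ[X]} {δ : ℤ} (hG : Gen ℚ γ g δ)
    (hG' : Gen L (algebraMap M Ω γ) g δ) (hsp : ∀ Q ∈ S, SplitMod Q g)
    (hδ : ∀ P : ℤ, IsPr P → P ∣ δ → P ∈ T) (hdis : Disjoint S T)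
    (hnr : ∀ t : M, t ^ 3 + (a : M) * t + (b : M) ≠ 0)
    (hΩ : Cb M (a : M) (b : M) (algebraMap L Ω θ))
    (hJ : J ⊆ S)
    (hsel : ∀ α : L, α ≠ 0 → IsSquare (Algebra.norm ℚ α) → Loc2 a b θ α →
      (∀ 𝔓 : HeightOneSpectrum O, (∀ Q ∈ J, ¬ Ov Q 𝔓) → Ev 𝔓 α) →
      (∀ Q ∈ J, ∀ 𝔓 : HeightOneSpectrum O, Ov Q 𝔓 → 𝔓.valuation L θ = 1 →
        U0 𝔓 ((Q : L) * θ) α) →
      (∀ Q ∈ J, ∀ 𝔓 : HeightOneSpectrum O, Ov Q 𝔓 → 𝔓.valuation L θ < 1 → Ev 𝔓 α) →
      IsSquare α) : FL M a b (∏ Q ∈ J, Q) θ := by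
  haveI : Algebra.IsIntegral ℤ R := IsIntegralClosure.isIntegral_algebra ℤ M
  haveI : Algebra.IsIntegral ℤ O' := IsIntegralClosure.isIntegral_algebra ℤ Ω
  haveI : Algebra.IsIntegral ℤ O := IsIntegralClosure.isIntegral_algebra ℤ L
  haveI : CharZero R := charZero_of R M
  haveI : CharZero O' := charZero_of O' Ω
  haveI : CharZero O := charZero_of O L
  have hT' : ∀ P ∈ T, IsPr P := fun P hP => (hT.2.2 P hP).1
  have hD1 : 0 < (∏ Q ∈ J, Q) := Finset.prod_pos fun Q hQ => (hS Q (hJ hQ)).1.1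
  have hD0 : (∏ Q ∈ J, Q) ≠ 0 := hD1.ne'
  intro W hW P h k hk1 hk2 hx hN hl
  have hroot : (algebraMap L Ω θ) ^ 3 + (a : Ω) * algebraMap L Ω θ + (b : Ω) = 0 := by
    have h1 := hΩ.root
    rw [map_intCast, map_intCast] at h1
    exact h1
  have hff : aeval (algebraMap L Ω θ) (ff M a b) = 0 := by
    simp only [ff, map_add, map_mul, map_pow, aeval_X, aeval_C, map_intCast]
    exact hroot
  have hk0 : aeval (algebraMap L Ω θ) k ≠ 0 := by
    intro h0
    apply hk1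
    have hirr : Irreducible (ff M a b) := irr_tw' hnr
    rw [minpoly.eq_of_irreducible_of_monic hirr hff (ff_monic M a b)]
    exact minpoly.dvd _ _ h0
  have hrel : algebraMap L Ω (aeval θ h) = xc (((∏ Q ∈ J, Q : ℤ) : Ω) * algebraMap L Ω θ) P *
      (aeval (algebraMap L Ω θ) k) ^ 2 := by
    obtain ⟨q, hq⟩ := hk2
    have h1 := congrArg (aeval (algebraMap L Ω θ)) hq
    rw [map_mul, hff, zero_mul, map_sub, map_mul, map_pow, aeval_cls, aeval_map_algebraMap,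
      aeval_algebraMap_apply] at h1
    exact sub_eq_zero.1 h1
  have hxc := xc_ne (cb_tw hD0 hΩ) P
  -- the local conditions
  have hcnd : Cnd O' J T (algebraMap L Ω θ) (xc (((∏ Q ∈ J, Q : ℤ) : Ω) * algebraMap L Ω θ) P) := by
    rcases P with _ | ⟨x, y, hP⟩
    · have := cnd_sq (O' := O') (J := J) (T := T) (θ := algebraMap L Ω θ) (x := (1 : Ω)) one_ne_zero
      rw [one_pow] at this
      exact this
    · have e := hW.eqn hP
      have hy : y ≠ 0 := by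
        rintro rfl
        apply no_root_tw' hnr hD0 x
        rw [← e]
        ring
      have e1 : aeval (((∏ Q ∈ J, Q : ℤ) : Ω) * algebraMap L Ω θ) (C x - X : M[X]) =
          algebraMap M Ω x - ((∏ Q ∈ J, Q : ℤ) : Ω) * algebraMap L Ω θ := by
        rw [map_sub, aeval_C, aeval_X]
      have h1 := cnd_top (Ω := Ω) O O' R parts2.p.exq parts2.p.ur parts2.p.spd parts2.p.lie parts2.p.loc1
        parts2.p.loc2 hc hS hF hG hG' hsp hT hδ hdis hJ (h := C x - X)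
        (fun w hw => ploc_pt hW hP hy) (by rw [e1]; exact hxc)
      rw [e1] at h1
      exact h1
  have hcx : Cnd O' J T (algebraMap L Ω θ) (algebraMap L Ω (aeval θ h)) := by
    rw [hrel]
    exact cnd_mul parts2.p.cls (fun Q hQ => ⟨(hS Q (hJ hQ)).1.2,
        not_dvd_two (hS Q (hJ hQ)).2.1 (hS Q (hJ hQ)).1.1 (hS Q (hJ hQ)).1.2⟩)
      (fun Q hQ 𝔓 h1 h2 => odd_top O O' parts2.p.exq parts2.p.ur hc hF.sq hG' (hS Q (hJ hQ)).1.2
        (hF.rb Q (hJ hQ)) (fam_ns hS hF (hJ hQ)) 𝔓 h1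
        (not_ov_delta hδ hS hT' hdis (hJ hQ) h1) h2) hxc (pow_ne_zero 2 hk0) hcnd
        (cnd_sq hk0)
  exact base_sq O O' hsel (parts2.p.ur L Ω O O' _ g δ hG').2
      (fun Q hQ => parts2.p.spd L Ω O' _ g δ hG' Q (hS Q (hJ hQ)).1.2 (hsp Q (hJ hQ)))
      (fun P hP => parts2.p.p3 L O a b θ hc hF.sq P (hT' P hP).2 (fam_nt hT hF hP))
      (fun 𝔓 h => ov_delta hδ h)
      (fun Q hQ 𝔓 h => not_ov_delta hδ hS hT' hdis (hJ hQ) h) hx hcx hl hN

end abs

/-- The choice of the twist. -/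
theorem exists_fl {κ : ℕ} (hLB : LBk κ) (M : Type) [Field M] [NumberField M]
    [IsGalois ℚ M] {n : ℕ} (hM : Module.finrank ℚ M = 2 ^ n)
    {a b : ℤ} {X' : ℕ}
    {S T : Finset ℤ} {s A B : ℤ → ℤ} (hS : GoodS S s)
    (hF : Fam X' S s T A B a b) (hnb : ¬ LBad κ X' S s a b)
    (hT : GoodT T A B)
    {γ : M} {g : ℤ[X]} {δ : ℤ} (hG : Gen ℚ γ g δ) (hsp : ∀ Q ∈ S, SplitMod Q g)
    (hδ : ∀ P : ℤ, IsPr P → P ∣ δ → P ∈ T) (hdis : Disjoint S T) :
    ∃ J ⊆ S, ∃ (L : Type) (_ : Field L) (_ : NumberField L) (θ : L), IsCub a b θ ∧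
      (∀ (Ω : Type) [Field Ω] [CharZero Ω] (t : Ω), t ^ 3 + (a : Ω) * t + (b : Ω) = 0 →
        ∃ φ : L →+* Ω, φ θ = t) ∧ (∀ t : M, t ^ 3 + (a : M) * t + (b : M) ≠ 0) ∧
      FL M a b (∏ Q ∈ J, Q) θ := by
  have hnt2 : ∀ z : ℤ, ¬ (2 : ℤ) ∣ z ^ 3 + a * z + b := fam_nt hT hF hT.1
  obtain ⟨ha, hb⟩ := odd_of hnt2
  obtain ⟨w₀, hw₀⟩ := exists_over (𝓞 M)
  have hnr := parts2.nr M (𝓞 M) n hM w₀ hw₀ a b ha hb
  have hnrM : ∀ t : M, t ^ 3 + (a : M) * t + (b : M) ≠ 0 := by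
    intro t ht
    apply hnr (algebraMap M _ t)
    have h1 := congrArg (algebraMap M (w₀.adicCompletion M)) ht
    rw [map_zero, map_add, map_add, map_mul, map_pow, map_intCast, map_intCast] at h1
    exact h1
  have hirr : Irreducible (ff ℚ a b) := by
    refine irr_tw' fun t ht => hnrM (algebraMap ℚ M t) ?_
    have h1 := congrArg (algebraMap ℚ M) ht
    rw [map_zero, map_add, map_add, map_mul, map_pow, map_intCast, map_intCast] at h1
    exact h1
  obtain ⟨L, iF, iN, θ, hc, hu⟩ := exists_cub hirr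
  obtain ⟨Ω, _, _, _, _, hΩ, htop, hmin⟩ := exists_om hnrM hc hu
  have hG' : Gen L (algebraMap M Ω γ) g δ := by
    refine ⟨top_up (K := ℚ) hG.top htop, hG.monic, ?_, hG.ne, hG.comb⟩
    rw [aeval_algebraMap_apply, hG.root, map_zero]
  obtain ⟨J, hJ, hsel⟩ := core2 (L := L) (𝓞 L) parts2.p.cls parts2.p.exq parts2.p.ns parts2.p.lin
    parts2.p.recp parts2.p.plm parts2.p.sd
    parts2.p.ttv hLB hc hS hT hF hnb
  exact ⟨J, hJ, L, iF, iN, θ, hc, hu, hnrM,
    fl_abs (𝓞 L) (𝓞 Ω) (𝓞 M) hc hS hF hT hG hG' hsp hδ hdis hnrM hΩ hJ hsel⟩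

end Pool.Agent.Helper10.RM
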