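import Pool.Agent.Helper10.RM.Ring

/-!
# Square classes for the twist by two
-/

set_option autoImplicit false

namespace Pool.Agent.Helper10.RM

section alg

variable {S : Type} [CommRing S] {p : S}

theorem twr (H : Sp p) {U K g w a b : S} (hk : U * K = 1) (hg : g ^ 2 = g)
    (Z1 : U * (g + w ^ 2) + U * p * a + b ^ 2 = 0) (Z2 : U + a ^ 2 + U * p * b + b ^ 2 = 0)
    (hsq : ∀ z : S, (∃ c, z ^ 2 = p * c) → ∃ c, z = p * c)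
    (hun : ∀ e : S, ∃ i, (e ^ 3 + e + 1) * i = 1) : False := by
  have h2 := H.two
  have hp := H.sq
  have hz : ((a+b)*(g+w)+b)^2 = p*(U*((g+w)^2*b+a)) := by
    linear_combination ((g+w)^2) * Z2 + (1) * Z1 + (-U) * hg + (-2*U*b*g*p*w - U*b*g^2*p - U*b*p*w^2 + 2*a*b*g*w + a*b*g^2 + a*b*w^2 - U*a*p - U*g*w - U*w^2 + a*b*g + a*b*w + b^2*g + b^2*w - U*g) * h2
  obtain ⟨c, hc⟩ := hsq _ ⟨_, hz⟩
  have hz0 : p*(U*((g+w)^2*b+a)) = 0 := by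
    linear_combination (-1) * hz + (((a+b)*(g+w)+b)+p*c) * hc + (c^2) * hp
  have k1 : p * a = p*((g+w)^2*b) := by
    linear_combination (K) * hz0 + (-(p*((g+w)^2*b+a))) * hk + (-2*b*g*p*w - b*g^2*p - b*p*w^2) * h2
  have k2 : p*((a+b)*(g+w)+b) = 0 := by
    linear_combination (p) * hc + (c) * hp
  have k3 : p*b*((g+w)^3+(g+w)+1) = 0 := by
    linear_combination (1) * k2 + (-(g+w)) * k1
  obtain ⟨i, hi⟩ := hun (g + w)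
  have k4 : p * b = 0 := by
    linear_combination (i) * k3 + (-(p*b)) * hi
  have k5 : p * a = 0 := by
    linear_combination (1) * k1 + ((g+w)^2) * k4
  have k6 : p * (a + b) = 0 := by
    linear_combination (1) * k5 + (1) * k4
  obtain ⟨e, he⟩ := H.ann _ k6
  have k7 : U = 0 := by
    linear_combination (1) * Z2 + (-(a+b+p*e)) * he + (-U) * k4 + (-e^2) * hp + (a*b) * h2
  apply H.one 0
  rw [← hk, k7]
  ring

end alg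

/-- `ϖ` is a uniformizer, `2 = ϖ ^ 2 υ` with a unit `υ`, and the cubic polynomial has no zero in the
residue field. -/
structure Rn {O : Type} [CommRing O] (ϖ υ κ : O) : Prop where
  two : (2 : O) = ϖ ^ 2 * υ
  inv : υ * κ = 1
  can : ∀ u w : O, ϖ * u = ϖ * w → u = w
  one : ¬ ϖ ∣ 1
  sqd : ∀ u : O, ϖ ∣ u ^ 2 → ϖ ∣ u
  res : ∀ u : O, ∃ i, (u ^ 3 + u + 1) * i = 1

section
variable {O : Type} [CommRing O] {ϖ υ κ : O}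

theorem Rn.can0 (H : Rn ϖ υ κ) {u : O} (h : ϖ * u = 0) : u = 0 :=
  H.can u 0 (by rw [h, mul_zero])

theorem Rn.can2 (H : Rn ϖ υ κ) {u : O} (h : ϖ ^ 2 * u = 0) : u = 0 := by
  apply H.can0
  apply H.can0
  rw [← mul_assoc, ← pow_two]
  exact h

theorem Rn.sp (H : Rn ϖ υ κ) : Sp (qm ϖ ϖ) where
  two := by
    rw [← map_ofNat (qm ϖ) 2, qm_zero]
    exact ⟨υ, H.two⟩
  sq := by
    rw [← map_pow, qm_zero]
  ann := by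
    intro z hz
    obtain ⟨u, rfl⟩ := qm_surj z
    rw [← map_mul, qm_zero] at hz
    obtain ⟨c, hc⟩ := hz
    refine ⟨qm ϖ c, ?_⟩
    rw [← map_mul]
    congr 1
    apply H.can
    linear_combination hc
  one := by
    intro z hz
    obtain ⟨u, rfl⟩ := qm_surj z
    rw [← map_mul, ← map_one (qm ϖ), ← sub_eq_zero, ← map_sub, qm_zero] at hz
    obtain ⟨c, hc⟩ := hz
    apply H.one
    exact ⟨u + ϖ * c, by linear_combination hc⟩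

/-- Squares and the points with large coordinates. -/
theorem twI (H : Rn ϖ υ κ) {a b : ℤ} (ha : Odd a) (hb : Odd b) (g₁ g₂ : ℤ)
    (w R S' T t0 t1 t2 : O)
    (e0 : 1 + 4 * R = t0 ^ 2 - 2 * t1 * t2 * b)
    (e1 : 2 * g₁ - 2 * w ^ 2 + 4 * S' = 2 * t0 * t1 - 2 * t1 * t2 * a - t2 ^ 2 * b)
    (e2 : 2 * g₂ + 4 * T = t1 ^ 2 + 2 * t0 * t2 - t2 ^ 2 * a) : Even g₂ := by
  have h2 := H.two
  obtain ⟨b1, hb1⟩ := hb
  have hbO : (b : O) = 1 + ϖ ^ 2 * υ * b1 := by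
    rw [hb1]
    push_cast
    linear_combination (b1 : O) * h2
  obtain ⟨u2, hu2⟩ : ϖ ∣ t2 := by
    apply H.sqd
    refine ⟨ϖ * (υ * (t0 * t1 - t1 * t2 * a - g₁ + w ^ 2) - ϖ ^ 2 * υ ^ 2 * S' - υ * b1 * t2 ^ 2), ?_⟩
    linear_combination e1 - t2 ^ 2 * hbO + (t0 * t1 - t1 * t2 * a - g₁ + w ^ 2 -
      (2 + ϖ ^ 2 * υ) * S') * h2
  obtain ⟨u1, hu1⟩ : ϖ ∣ t1 := by
    apply H.sqd
    refine ⟨ϖ * (υ * (g₂ - t0 * t2) + ϖ ^ 2 * υ ^ 2 * T + u2 ^ 2 * a), ?_⟩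
    linear_combination -e2 + (g₂ - t0 * t2 + (2 + ϖ ^ 2 * υ) * T) * h2 + a * (t2 + ϖ * u2) * hu2
  obtain ⟨t', ht'⟩ : ϖ ∣ t0 - 1 := by
    apply H.sqd
    refine ⟨ϖ * (υ * (t1 * t2 * b - t0 + 1) + ϖ ^ 2 * υ ^ 2 * R), ?_⟩
    linear_combination -e0 + (t1 * t2 * b - t0 + 1 + (2 + ϖ ^ 2 * υ) * R) * h2
  have Z1 : υ * (g₁ - w ^ 2) + ϖ ^ 2 * υ ^ 2 * S' - υ * ϖ * t0 * u1 + ϖ ^ 2 * υ * u1 * u2 * a +
      u2 ^ 2 * b = 0 := by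
    apply H.can2
    rw [hu1, hu2] at e1
    linear_combination e1 + (-g₁ + w ^ 2 - (2 + ϖ ^ 2 * υ) * S' + ϖ * t0 * u1 -
      ϖ ^ 2 * u1 * u2 * a) * h2
  have Z2 : υ * g₂ + ϖ ^ 2 * υ ^ 2 * T - u1 ^ 2 - υ * ϖ * t0 * u2 + u2 ^ 2 * a = 0 := by
    apply H.can2
    rw [hu1, hu2] at e2
    linear_combination e2 + (-g₂ - (2 + ϖ ^ 2 * υ) * T + ϖ * t0 * u2) * h2
  have HS := H.sp
  have H2 := HS.two
  have Hp := HS.sq
  have Hb : (b : O ⧸ Ideal.span {ϖ ^ 2}) = 1 := HS.cast_odd ⟨b1, hb1⟩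
  have Ha : (a : O ⧸ Ideal.span {ϖ ^ 2}) = 1 := HS.cast_odd ha
  have ht0 : qm ϖ t0 = 1 + qm ϖ ϖ * qm ϖ t' := by
    have : t0 = 1 + ϖ * t' := by linear_combination ht'
    rw [this, map_add, map_one, map_mul]
  by_contra hodd
  rw [Int.not_even_iff_odd] at hodd
  have Hg2 : (g₂ : O ⧸ Ideal.span {ϖ ^ 2}) = 1 := HS.cast_odd hodd
  refine twr HS (U := qm ϖ υ) (K := qm ϖ κ) (g := (g₁ : O ⧸ Ideal.span {ϖ ^ 2})) (w := qm ϖ w)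
    (a := qm ϖ u1) (b := qm ϖ u2) (by rw [← map_mul, H.inv, map_one]) (HS.int_sq g₁) ?_ ?_ ?_ ?_
  · have Y := congrArg (qm ϖ) Z1
    simp only [map_add, map_sub, map_mul, map_pow, map_intCast, map_zero] at Y
    rw [Hb, Ha, ht0] at Y
    linear_combination Y + (qm ϖ υ * qm ϖ u1 * qm ϖ t' - qm ϖ υ ^ 2 * qm ϖ S' -
      qm ϖ υ * qm ϖ u1 * qm ϖ u2) * Hp + (qm ϖ υ * qm ϖ w ^ 2 + qm ϖ υ * qm ϖ ϖ * qm ϖ u1) * H2
  · have Y := congrArg (qm ϖ) Z2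
    simp only [map_add, map_sub, map_mul, map_pow, map_intCast, map_zero] at Y
    rw [Ha, ht0, Hg2] at Y
    linear_combination Y + (qm ϖ υ * qm ϖ u2 * qm ϖ t' - qm ϖ υ ^ 2 * qm ϖ T) * Hp +
      (qm ϖ u1 ^ 2 + qm ϖ υ * qm ϖ ϖ * qm ϖ u2) * H2
  · rintro z ⟨c, hz⟩
    obtain ⟨y, rfl⟩ := qm_surj z
    obtain ⟨d, rfl⟩ := qm_surj c
    rw [← map_pow, ← map_mul, ← sub_eq_zero, ← map_sub, qm_zero] at hz
    obtain ⟨m, hm⟩ := hz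
    obtain ⟨n, hn⟩ := H.sqd y ⟨d + ϖ * m, by linear_combination hm⟩
    exact ⟨qm ϖ n, by rw [hn, map_mul]⟩
  · intro e
    obtain ⟨y, rfl⟩ := qm_surj e
    obtain ⟨i, hi⟩ := H.res y
    refine ⟨qm ϖ i, ?_⟩
    have h3 := congrArg (qm ϖ) hi
    simp only [map_add, map_mul, map_pow, map_one] at h3
    exact h3

/-- The points with small coordinates. -/
theorem twII (H : Rn ϖ υ κ) {a b : ℤ} (hb : Odd b) (g₁ g₂ : ℤ)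
    (r s t x t0 t1 t2 : O)
    (e0 : 2 * x * (1 + 4 * r) + 2 * (2 * g₂ + 4 * t) * b = t0 ^ 2 - 2 * t1 * t2 * b)
    (e1 : 2 * x * (2 * g₁ + 4 * s) - 2 * (1 + 4 * r) + 2 * (2 * g₂ + 4 * t) * a =
      2 * t0 * t1 - 2 * t1 * t2 * a - t2 ^ 2 * b)
    (e2 : 2 * x * (2 * g₂ + 4 * t) - 2 * (2 * g₁ + 4 * s) = t1 ^ 2 + 2 * t0 * t2 - t2 ^ 2 * a) :
    ∃ ρ c : O, υ = ρ ^ 2 + ϖ ^ 2 * c := by
  have h2 := H.two
  obtain ⟨b1, hb1⟩ := hb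
  have hbO : (b : O) = 1 + ϖ ^ 2 * υ * b1 := by
    rw [hb1]
    push_cast
    linear_combination (b1 : O) * h2
  obtain ⟨u2, hu2⟩ : ϖ ∣ t2 := by
    apply H.sqd
    refine ⟨ϖ * υ * (-(x * (2 * g₁ + 4 * s) - (1 + 4 * r) + (2 * g₂ + 4 * t) * a) + t0 * t1 -
      t1 * t2 * a - b1 * t2 ^ 2), ?_⟩
    linear_combination e1 - t2 ^ 2 * hbO + (-(x * (2 * g₁ + 4 * s) - (1 + 4 * r) +
      (2 * g₂ + 4 * t) * a) + t0 * t1 - t1 * t2 * a) * h2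
  obtain ⟨u1, hu1⟩ : ϖ ∣ t1 := by
    apply H.sqd
    refine ⟨ϖ * (υ * (x * (2 * g₂ + 4 * t) - (2 * g₁ + 4 * s) - t0 * t2) + u2 ^ 2 * a), ?_⟩
    linear_combination -e2 + (x * (2 * g₂ + 4 * t) - (2 * g₁ + 4 * s) - t0 * t2) * h2 +
      a * (t2 + ϖ * u2) * hu2
  obtain ⟨u0, hu0⟩ : ϖ ∣ t0 := by
    apply H.sqd
    refine ⟨ϖ * υ * (x * (1 + 4 * r) + (2 * g₂ + 4 * t) * b + t1 * t2 * b), ?_⟩
    linear_combination -e0 + (x * (1 + 4 * r) + (2 * g₂ + 4 * t) * b + t1 * t2 * b) * h2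
  have Z1 : υ * (x * (2 * g₁ + 4 * s) - (1 + 4 * r) + (2 * g₂ + 4 * t) * a) -
      ϖ ^ 2 * υ * u0 * u1 + ϖ ^ 2 * υ * u1 * u2 * a + u2 ^ 2 * b = 0 := by
    apply H.can2
    rw [hu0, hu1, hu2] at e1
    linear_combination e1 + (-(x * (2 * g₁ + 4 * s) - (1 + 4 * r) + (2 * g₂ + 4 * t) * a) +
      ϖ ^ 2 * u0 * u1 - ϖ ^ 2 * u1 * u2 * a) * h2
  refine ⟨u2, υ * b1 * u2 ^ 2 + υ * u1 * u2 * a - υ * u0 * u1 + υ * υ * (x * (g₁ + 2 * s) - 2 * r +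
    (g₂ + 2 * t) * a), ?_⟩
  linear_combination (-1) * Z1 + (u2 ^ 2) * hbO + υ * (x * (g₁ + 2 * s) - 2 * r +
    (g₂ + 2 * t) * a) * h2

end

end Pool.Agent.Helper10.RM
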