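import Pool.Agent.Helper10.RM.Ud
import Pool.Agent.Helper10.RM.Two
import Pool.Agent.Helper10.RM.TwR

/-!
# The local condition at `2` for twists
-/

set_option autoImplicit false
set_option linter.all false

open Polynomial

namespace Pool.Agent.Helper10.RM

open Pool.Agent.N922.PQ Pool.Agent.N323.PV

/-- The class of the polynomial `h` is in the local image over `F` of the twist by `m` of
`y ^ 2 = x ^ 3 + a x + b`. -/
def PM (F : Type) [Field F] (m a b : ℤ) (h : F[X]) : Prop :=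
  (∃ g : F[X], ff F a b ∣ h - g ^ 2) ∨
  ∃ x y : F, y ≠ 0 ∧ y ^ 2 = x ^ 3 + a * m ^ 2 * x + b * m ^ 3 ∧
    ∃ g : F[X], ff F a b ∣ (C x - C (m : F) * X) * h - g ^ 2

theorem pm_congr {F : Type} [Field F] {m a b : ℤ} {h h' : F[X]} (hd : ff F a b ∣ h - h')
    (H : PM F m a b h) : PM F m a b h' := by
  rcases H with ⟨g, hg⟩ | ⟨x, y, hy, hxy, g, hg⟩
  · left
    refine ⟨g, ?_⟩
    have e : h' - g ^ 2 = (h - g ^ 2) - (h - h') := by ring
    rw [e]
    exact dvd_sub hg hd
  · right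
    refine ⟨x, y, hy, hxy, g, ?_⟩
    have e : (C x - C (m : F) * X) * h' - g ^ 2 =
      ((C x - C (m : F) * X) * h - g ^ 2) - (C x - C (m : F) * X) * (h - h') := by ring
    rw [e]
    exact dvd_sub hg (dvd_mul_of_dvd_right hd _)

theorem pm_sq {F : Type} [Field F] {m a b : ℤ} {h : F[X]} (k : F[X]) (H : PM F m a b h) :
    PM F m a b (k ^ 2 * h) := by
  rcases H with ⟨g, hg⟩ | ⟨x, y, hy, hxy, g, hg⟩
  · left
    refine ⟨k * g, ?_⟩
    have e : k ^ 2 * h - (k * g) ^ 2 = k ^ 2 * (h - g ^ 2) := by ring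
    rw [e]
    exact dvd_mul_of_dvd_right hg _
  · right
    refine ⟨x, y, hy, hxy, k * g, ?_⟩
    have e : (C x - C (m : F) * X) * (k ^ 2 * h) - (k * g) ^ 2 =
      k ^ 2 * ((C x - C (m : F) * X) * h - g ^ 2) := by ring
    rw [e]
    exact dvd_mul_of_dvd_right hg _

theorem pm_one {F : Type} [Field F] {a b : ℤ} {h : F[X]} (H : PM F 1 a b h) : PL F a b h := by
  rcases H with H | ⟨x, y, hy, hxy, g, hg⟩
  · exact Or.inl H
  · refine Or.inr ⟨x, y, hy, ?_, g, ?_⟩
    · rw [hxy]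
      push_cast
      ring
    · rw [Int.cast_one, map_one, one_mul] at hg
      exact hg

/-- The only classes over the dyadic field which come from points over `F` are those of the points
over the dyadic field. -/
def ClsM {F Γ : Type} [Field F] [LinearOrderedCommGroupWithZero Γ] (m : ℤ) (v : Valuation F Γ)
    (a b : ℤ) : Prop :=
  ∀ (g₁ g₂ : ℤ) (r s t : F), v r ≤ 1 → v s ≤ 1 → v t ≤ 1 → PM F m a b (pol F g₁ g₂ r s t) →
    Cl a g₁ g₂

/-- The same for all `a`, `b` in given classes modulo `8`. -/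
def AdmM {F Γ : Type} [Field F] [LinearOrderedCommGroupWithZero Γ] (m : ℤ) (v : Valuation F Γ)
    (α β : ℤ) : Prop :=
  ∀ a b : ℤ, (8 : ℤ) ∣ a - α → (8 : ℤ) ∣ b - β → ClsM m v a b

theorem adm_to_m {F Γ : Type} [Field F] [LinearOrderedCommGroupWithZero Γ] {v : Valuation F Γ}
    {α β : ℤ} (h : Adm v α β) : AdmM 1 v α β :=
  fun a b ha hb g₁ g₂ r s t hr hs ht hPM => h a b ha hb g₁ g₂ r s t hr hs ht (pm_one hPM)

section Val

variable {F Γ : Type} [Field F] [CharZero F] [LinearOrderedCommGroupWithZero Γ] {v : Valuation F Γ}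

/-- The class of a point of the twist by two: reduction to two cases. -/
theorem calT (hv2 : v 2 < 1) (hval : ∀ w : F, v 2 * v w ^ 2 < 1 → v w ≤ 1) {a b : ℤ}
    (hb : Odd b) (Q : Prop) (g₁ g₂ : ℤ)
    (hsq : ∀ w R S' T t0 t1 t2 : v.integer, 1 + 4 * R = t0 ^ 2 - 2 * t1 * t2 * b →
      2 * g₁ - 2 * w ^ 2 + 4 * S' = 2 * t0 * t1 - 2 * t1 * t2 * a - t2 ^ 2 * b →
      2 * g₂ + 4 * T = t1 ^ 2 + 2 * t0 * t2 - t2 ^ 2 * a → Q)
    (hint : ∀ r s t x t0 t1 t2 : v.integer,
      2 * x * (1 + 4 * r) + 2 * (2 * g₂ + 4 * t) * b = t0 ^ 2 - 2 * t1 * t2 * b →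
      2 * x * (2 * g₁ + 4 * s) - 2 * (1 + 4 * r) + 2 * (2 * g₂ + 4 * t) * a =
        2 * t0 * t1 - 2 * t1 * t2 * a - t2 ^ 2 * b →
      2 * x * (2 * g₂ + 4 * t) - 2 * (2 * g₁ + 4 * s) = t1 ^ 2 + 2 * t0 * t2 - t2 ^ 2 * a → Q)
    (r s t : F) (hr : v r ≤ 1) (hs : v s ≤ 1) (ht : v t ≤ 1)
    (hPM : PM F 2 a b (pol F g₁ g₂ r s t)) : Q := by
  let r' : v.integer := ⟨r, hr⟩
  let s' : v.integer := ⟨s, hs⟩
  let t' : v.integer := ⟨t, ht⟩
  have h2ne : (2 : F) ≠ 0 := two_ne_zero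
  have h2pos : 0 < v 2 := (Valuation.pos_iff v).2 h2ne
  rcases hPM with ⟨g, hg⟩ | ⟨x, y, hy, hxy, g, hg⟩
  · obtain ⟨t0, t1, t2, e0, e1, e2⟩ := sq_form (a := a) (b := b) (1 + 4 * r) (2 * g₁ + 4 * s)
      (2 * g₂ + 4 * t) g (by
        have e : C (1 + 4 * r) + C (2 * (g₁ : F) + 4 * s) * X + C (2 * (g₂ : F) + 4 * t) * X ^ 2 =
            pol F g₁ g₂ r s t := by
          unfold pol
          simp only [map_add, map_mul, map_ofNat, map_one]
          ring
        rw [e]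
        exact hg)
    obtain ⟨k0, k1, k2⟩ := integral v hv2 hb e0 e1 e2 (1 + 4 * r' : v.integer).2
      (2 * (g₁ : v.integer) + 4 * s' : v.integer).2 (2 * (g₂ : v.integer) + 4 * t' : v.integer).2
    refine hsq 0 r' s' t' ⟨t0, k0⟩ ⟨t1, k1⟩ ⟨t2, k2⟩ (Subtype.ext e0) ?_ (Subtype.ext e2)
    have e1' : 2 * (g₁ : v.integer) + 4 * s' = 2 * (⟨t0, k0⟩ : v.integer) * ⟨t1, k1⟩ -
        2 * ⟨t1, k1⟩ * ⟨t2, k2⟩ * a - ⟨t2, k2⟩ ^ 2 * b := Subtype.ext e1
    rw [← e1']
    ring
  · obtain ⟨t0, t1, t2, e0, e1, e2⟩ := sq_form (a := a) (b := b)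
      (x * (1 + 4 * r) + 2 * (2 * g₂ + 4 * t) * b)
      (x * (2 * g₁ + 4 * s) - 2 * (1 + 4 * r) + 2 * (2 * g₂ + 4 * t) * a)
      (x * (2 * g₂ + 4 * t) - 2 * (2 * g₁ + 4 * s)) g (by
        have h1 : ff F a b ∣ ff F a b * C (2 * (2 * g₂ + 4 * t)) := dvd_mul_right _ _
        have h2 := dvd_add hg h1
        have e : C (x * (1 + 4 * r) + 2 * (2 * (g₂ : F) + 4 * t) * b) +
            C (x * (2 * (g₁ : F) + 4 * s) - 2 * (1 + 4 * r) + 2 * (2 * (g₂ : F) + 4 * t) * a) * X +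
            C (x * (2 * (g₂ : F) + 4 * t) - 2 * (2 * (g₁ : F) + 4 * s)) * X ^ 2 - g ^ 2 =
            (C x - C ((2 : ℤ) : F) * X) * pol F g₁ g₂ r s t - g ^ 2 +
              ff F a b * C (2 * (2 * (g₂ : F) + 4 * t)) := by
          unfold pol ff
          simp only [map_add, map_sub, map_mul, map_ofNat, map_one, Int.cast_ofNat]
          ring
        rw [e]
        exact h2)
    have hxy' : y ^ 2 = x ^ 3 + 4 * a * x + 8 * b := by
      rw [hxy]
      push_cast
      ring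
    by_cases hx : v x ≤ v 2
    · obtain ⟨x', hx'⟩ : ∃ x' : v.integer, x = 2 * (x' : F) :=
        ⟨⟨x / 2, quot_le h2ne hx⟩, by
          show x = 2 * (x / 2)
          rw [mul_div_cancel₀ _ h2ne]⟩
      rw [hx'] at e0 e1 e2
      obtain ⟨k0, k1, k2⟩ := integral v hv2 hb e0 e1 e2
        (2 * x' * (1 + 4 * r') + 2 * (2 * (g₂ : v.integer) + 4 * t') * (b : v.integer) : v.integer).2
        (2 * x' * (2 * (g₁ : v.integer) + 4 * s') - 2 * (1 + 4 * r') +
          2 * (2 * (g₂ : v.integer) + 4 * t') * (a : v.integer) : v.integer).2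
        (2 * x' * (2 * (g₂ : v.integer) + 4 * t') - 2 * (2 * (g₁ : v.integer) + 4 * s') :
          v.integer).2
      exact hint r' s' t' x' ⟨t0, k0⟩ ⟨t1, k1⟩ ⟨t2, k2⟩
        (Subtype.ext e0) (Subtype.ext e1) (Subtype.ext e2)
    · rw [not_le] at hx
      have hx0 : x ≠ 0 := by
        rintro rfl
        rw [map_zero] at hx
        exact absurd hx (not_lt.2 zero_le')
      have hvx : 0 < v x := lt_trans h2pos hx
      -- the valuation of `y`
      have h4v : v (4 : F) = v 2 ^ 2 := by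
        rw [← map_pow]
        norm_num
      have h8v : v (8 : F) = v 2 ^ 3 := by
        rw [← map_pow]
        norm_num
      have hy2 : v y ^ 2 = v x ^ 3 := by
        have k1 : v (4 * a * x + 8 * b) < v (x ^ 3) := by
          refine v.map_add_lt ?_ ?_
          · rw [map_mul, map_mul, map_pow, h4v]
            calc v 2 ^ 2 * v (a : F) * v x ≤ v 2 ^ 2 * 1 * v x := by
                  gcongr
                  exact int_le v a
              _ = v 2 ^ 2 * v x := by rw [mul_one]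
              _ < v x ^ 2 * v x := by
                  have := pow_lt_pow_left₀ hx zero_le' two_ne_zero
                  gcongr
              _ = v x ^ 3 := by rw [← pow_succ]
          · rw [map_mul, map_pow, h8v]
            calc v 2 ^ 3 * v (b : F) ≤ v 2 ^ 3 * 1 := by
                  gcongr
                  exact int_le v b
              _ = v 2 ^ 3 := mul_one _
              _ < v x ^ 3 := pow_lt_pow_left₀ hx zero_le' (by norm_num)
        have k2 := Valuation.map_add_eq_of_lt_left v k1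
        rw [← map_pow, hxy', add_assoc, k2, map_pow]
      have hvy : 0 < v y := (Valuation.pos_iff v).2 hy
      have hwx : v (x / y) ^ 2 * v x = 1 := by
        rw [map_div₀, div_pow, hy2]
        have : v x ^ 3 ≠ 0 := pow_ne_zero 3 hvx.ne'
        rw [div_mul_eq_mul_div, ← pow_succ, div_self this]
      have hw : v (x / y) ≤ 1 := by
        apply hval
        have h1 : v 2 * v (x / y) ^ 2 < v x * v (x / y) ^ 2 := by
          have hp : 0 < v (x / y) ^ 2 := by
            rw [zero_lt_iff]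
            intro h0
            rw [h0, zero_mul] at hwx
            exact zero_ne_one hwx
          gcongr
        rw [mul_comm (v x), hwx] at h1
        exact h1
      obtain ⟨w, hw1⟩ : ∃ w : v.integer, x / y = (w : F) := ⟨⟨x / y, hw⟩, rfl⟩
      -- `1 / x = ι`
      obtain ⟨ι, hι⟩ : ∃ ι : v.integer, 1 / x = (ι : F) := by
        refine ⟨⟨1 / x, ?_⟩, rfl⟩
        have k1 : v (1 / x) = v (x / y) ^ 2 := by
          rw [map_div₀, map_one, div_eq_iff hvx.ne']
          exact hwx.symm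
        show v (1 / x) ≤ 1
        rw [k1]
        exact pow_le_one' hw 2
      obtain ⟨δ, hδ⟩ : ∃ δ : v.integer, δ = -w ^ 2 * ((a : v.integer) * ι +
        2 * (b : v.integer) * ι ^ 2) := ⟨_, rfl⟩
      have hδF : (δ : F) = -(w : F) ^ 2 * ((a : F) * ι + 2 * (b : F) * ι ^ 2) := by
        rw [hδ]
        rfl
      have hxz : x * (w : F) ^ 2 = 1 + 4 * δ := by
        rw [← hw1, hδF, ← hw1, ← hι]
        have k1 : (x / y) ^ 2 * (x ^ 3 + 4 * a * x + 8 * b) = x ^ 2 := by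
          rw [← hxy']
          field_simp
        have k3 : x ^ 2 * (x * (x / y) ^ 2) =
            x ^ 2 * (1 + 4 * (-(x / y) ^ 2 * (a * (1 / x) + 2 * b * (1 / x) ^ 2))) := by
          have i1 : x ^ 2 * ((x / y) ^ 2 * (a * (1 / x) + 2 * b * (1 / x) ^ 2)) =
              (x / y) ^ 2 * (a * x + 2 * b) := by
            field_simp
          linear_combination k1 + (4 : F) * i1
        exact mul_left_cancel₀ (pow_ne_zero 2 hx0) k3
      let R : v.integer := r' + δ * (1 + 4 * r') + w ^ 2 * ((g₂ : v.integer) + 2 * t') *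
        (b : v.integer)
      let S : v.integer := s' + δ * (2 * (g₁ : v.integer) + 4 * s') - 2 * w ^ 2 * r' +
        w ^ 2 * ((g₂ : v.integer) + 2 * t') * (a : v.integer)
      let T : v.integer := t' + δ * (2 * (g₂ : v.integer) + 4 * t') - w ^ 2 *
        ((g₁ : v.integer) + 2 * s')
      have hR : (R : F) = r + δ * (1 + 4 * r) + w ^ 2 * (g₂ + 2 * t) * b := rfl
      have hS : (S : F) = s + δ * (2 * g₁ + 4 * s) - 2 * w ^ 2 * r + w ^ 2 * (g₂ + 2 * t) * a := rfl
      have hT : (T : F) = t + δ * (2 * g₂ + 4 * t) - w ^ 2 * (g₁ + 2 * s) := rfl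
      have f0 : 1 + 4 * (R : F) = (t0 * w) ^ 2 - 2 * (t1 * w) * (t2 * w) * b := by
        rw [hR]
        linear_combination (w : F) ^ 2 * e0 + (1 + 4 * r) * (-hxz)
      have f1 : 2 * (g₁ : F) - 2 * (w : F) ^ 2 + 4 * (S : F) = 2 * (t0 * w) * (t1 * w) -
          2 * (t1 * w) * (t2 * w) * a - (t2 * w) ^ 2 * b := by
        rw [hS]
        linear_combination (w : F) ^ 2 * e1 + (2 * g₁ + 4 * s) * (-hxz)
      have f2 : 2 * (g₂ : F) + 4 * (T : F) = (t1 * w) ^ 2 + 2 * (t0 * w) * (t2 * w) -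
          (t2 * w) ^ 2 * a := by
        rw [hT]
        linear_combination (w : F) ^ 2 * e2 + (2 * g₂ + 4 * t) * (-hxz)
      have m1 : v (2 * (g₁ : F) - 2 * (w : F) ^ 2 + 4 * (S : F)) ≤ 1 := by
        have h1 : ((2 * (g₁ : v.integer) - 2 * w ^ 2 + 4 * S : v.integer) : F) =
            2 * (g₁ : F) - 2 * (w : F) ^ 2 + 4 * (S : F) := rfl
        rw [← h1]
        exact (2 * (g₁ : v.integer) - 2 * w ^ 2 + 4 * S : v.integer).2
      obtain ⟨k0, k1, k2⟩ := integral v hv2 hb f0 f1 f2 (1 + 4 * R : v.integer).2 m1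
        (2 * (g₂ : v.integer) + 4 * T : v.integer).2
      exact hsq w R S T ⟨_, k0⟩ ⟨_, k1⟩ ⟨_, k2⟩ (Subtype.ext f0) (Subtype.ext f1) (Subtype.ext f2)

end Val

end Pool.Agent.Helper10.RM
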