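import Pool.Agent.Helper10.RM.Cal
import Pool.Graph.R_pool_sql_team_seeded_63374d34.N951.PV.PT2
import Pool.Graph.R_pool_sql_team_seeded_63374d34.N907.PV.NF2
import Pool.Graph.R_pool_sql_team_seeded_63374d34.N301.PV.NR
import Pool.Graph.R_pool_sql_team_seeded_63374d34.N922.PQ.Big6

/-!
# Descent of the local condition at `2` in a ramified extension
-/

set_option autoImplicit false
set_option linter.all false

open Polynomial IsDedekindDomain NumberField WithZero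
open scoped Classical

namespace Pool.Agent.Helper10.RM

open Pool.Agent.N922.PQ Pool.Agent.N323.PV Pool.Agent.N951.PV

/-- The only classes over the dyadic field which come from points over `F` are those of the points
over the dyadic field. -/
def Cls {F Γ : Type} [Field F] [LinearOrderedCommGroupWithZero Γ] (v : Valuation F Γ)
    (a b : ℤ) : Prop :=
  ∀ (g₁ g₂ : ℤ) (r s t : F), v r ≤ 1 → v s ≤ 1 → v t ≤ 1 → PL F a b (pol F g₁ g₂ r s t) →
    (Even g₁ ∧ Even g₂) ∨ ((4 : ℤ) ∣ 2 * g₁ - (1 - a) ∧ (4 : ℤ) ∣ 2 * g₂ - (3 - a))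

/-- The same for all `a`, `b` in given classes modulo `8`. -/
def Adm {F Γ : Type} [Field F] [LinearOrderedCommGroupWithZero Γ] (v : Valuation F Γ)
    (α β : ℤ) : Prop :=
  ∀ a b : ℤ, (8 : ℤ) ∣ a - α → (8 : ℤ) ∣ b - β → Cls v a b

/-- Descent of the local condition (after helper951). -/
theorem ud_gen {L : Type} [Field L] [NumberField L] {a b : ℤ} {θ : L} (hc : IsCub a b θ)
    (ha : Odd a) (hab : (4 : ℤ) ∣ a - b) {x : L} (hx : x ≠ 0) (hN : IsSquare (Algebra.norm ℚ x))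
    {F Γ : Type} [Field F] [CharZero F] [LinearOrderedCommGroupWithZero Γ] (v : Valuation F Γ)
    (hv : v 2 < 1) (hcl : Cls v a b)
    (hPL : ∀ h : ℚ[X], aeval θ h = x → PL F a b (h.map (algebraMap ℚ F))) : Loc2 a b θ x := by
  have hb : Odd b := by
    obtain ⟨k, hk⟩ := ha
    obtain ⟨l, hl⟩ := hab
    exact ⟨k - 2 * l, by omega⟩
  obtain ⟨c, g₁, g₂, r, s, t, hc0, hr, hs, ht, hα⟩ := Pool.Agent.N907.PV.t_NF2 L a b θ hc ha hb x hx hN
  obtain ⟨k, hk⟩ := hc.exists_poly c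
  obtain ⟨k', hk'⟩ := hc.exists_poly c⁻¹
  set P : ℚ[X] := pol ℚ g₁ g₂ ((g₁ * (1 + g₂) : ℤ) + 2 * r) s t with hP
  have e1 : aeval θ (k ^ 2 * P) = x := by
    rw [map_mul, map_pow, hk, hα]
  have e2 : aeval θ (k' ^ 2 * (k ^ 2 * P)) = aeval θ P := by
    rw [map_mul, map_pow, hk', e1, hα, ← mul_assoc, ← mul_pow, inv_mul_cancel₀ hc0, one_pow, one_mul]
  have h3 := Pool.Agent.N951.PV.pl_sq (k'.map (algebraMap ℚ F)) (hPL _ e1)
  rw [← Polynomial.map_pow, ← Polynomial.map_mul] at h3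
  have h4 := Pool.Agent.N951.PV.pl_congr (cast_congr hc F e2) h3
  rw [hP, pol_map] at h4
  have hr2 : v ((((g₁ * (1 + g₂) : ℤ) : ℚ) + 2 * r : ℚ) : F) ≤ 1 := by
    push_cast
    refine (v.map_add _ _).trans (max_le ?_ ?_)
    · have := v_int v (g₁ * (1 + g₂))
      push_cast at this
      exact this
    · rw [map_mul]
      exact mul_le_one' hv.le (v_rat v hv r hr)
  have h5 := hcl g₁ g₂ _ _ _ hr2 (v_rat v hv s hs) (v_rat v hv t ht) h4
  have hnd : ∀ q : ℚ, Odd q.den → ‖(q : ℚ_[2])‖ ≤ 1 := by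
    intro q hq
    apply Padic.norm_rat_le_one
    intro h
    exact (Nat.not_even_iff_odd.2 hq) (even_iff_two_dvd.2 h)
  have h6 := pt2 a b ha hab g₁ g₂ ((((g₁ * (1 + g₂) : ℤ) : ℚ) + 2 * r : ℚ) : ℚ_[2]) s t (by
    have e : ((((g₁ * (1 + g₂) : ℤ) : ℚ) + 2 * r : ℚ) : ℚ_[2]) - ((g₁ * (1 + g₂) : ℤ) : ℚ_[2]) =
        2 * (r : ℚ_[2]) := by
      push_cast
      ring
    rw [e, norm_mul]
    have e3 : ‖(2 : ℚ_[2])‖ = 1 / 2 := by
      have := Padic.norm_p (p := 2)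
      rw [Nat.cast_ofNat] at this
      rw [this]
      norm_num
    rw [e3]
    have := hnd r hr
    linarith) (hnd s hs) (hnd t ht) h5
  rw [← pol_map, ← hP] at h6
  intro h' hh'
  have h7 : PL ℚ_[2] a b ((k.map (algebraMap ℚ ℚ_[2])) ^ 2 * P.map (algebraMap ℚ ℚ_[2])) :=
    Pool.Agent.N951.PV.pl_sq _ h6
  rw [← Polynomial.map_pow, ← Polynomial.map_mul] at h7
  exact Pool.Agent.N951.PV.pl_congr (cast_congr hc ℚ_[2] (e1.trans hh'.symm)) h7

section types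

variable {F Γ : Type} [Field F] [CharZero F] [LinearOrderedCommGroupWithZero Γ]
  {v : Valuation F Γ}

theorem cls_of_two {a b : ℤ} (ha : a % 4 = 3) {g₁ g₂ : ℤ} (h : Even g₂) :
    (Even g₁ ∧ Even g₂) ∨ ((4 : ℤ) ∣ 2 * g₁ - (1 - a) ∧ (4 : ℤ) ∣ 2 * g₂ - (3 - a)) := by
  rcases Int.even_or_odd g₁ with h1 | h1
  · exact Or.inl ⟨h1, h⟩
  · right
    obtain ⟨k, rfl⟩ := h
    obtain ⟨l, rfl⟩ := h1
    constructor <;> omega

theorem cls_of_one {a b : ℤ} (ha : a % 4 = 1) {g₁ g₂ : ℤ} (h : Even g₁) :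
    (Even g₁ ∧ Even g₂) ∨ ((4 : ℤ) ∣ 2 * g₁ - (1 - a) ∧ (4 : ℤ) ∣ 2 * g₂ - (3 - a)) := by
  rcases Int.even_or_odd g₂ with h1 | h1
  · exact Or.inl ⟨h, h1⟩
  · right
    obtain ⟨k, rfl⟩ := h
    obtain ⟨l, rfl⟩ := h1
    constructor <;> omega

/-- Unramified. -/
theorem adm_unr (h2 : v 2 < 1) (h : ∀ x : F, v x < 1 → v x ≤ v 2) {α β : ℤ} (hα : Odd α)
    (hαβ : (4 : ℤ) ∣ α - β) : Adm v α β := by
  intro a b ha hb g₁ g₂ r s t hr hs ht hPL
  refine t_CAL F Γ v h2 h a b ?_ ?_ g₁ g₂ r s t hr hs ht hPL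
  · obtain ⟨k, hk⟩ := hα
    obtain ⟨l, hl⟩ := ha
    exact ⟨k + 4 * l, by omega⟩
  · omega

variable {ϖ : F}

/-- Type A. -/
theorem adm_A (H : Unif v ϖ) (h4 : v (ϖ ^ 2 - 2) ≤ v 4)
    (hres : ∀ u : F, v u ≤ 1 → v (u ^ 4 - u) < 1) : Adm v 3 3 := by
  intro a b ha hb g₁ g₂ r s t hr hs ht hPL
  have ha4 : a % 4 = 3 := by omega
  have hb4 : b % 4 = 3 := by omega
  exact cls_of_two (b := b) ha4 (calA H h4 hres ha4 hb4 g₁ g₂ r s t hr hs ht hPL)

/-- Type B. -/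
theorem adm_B (H : Unif v ϖ) (h4 : v (ϖ ^ 2 + ϖ ^ 3 - 2) ≤ v 4)
    (hres : ∀ u : F, v u ≤ 1 → v (u ^ 2 - u) < 1) (σ : F) (hσ : v σ ≤ 1) {α β : ℤ}
    (hα : α % 4 = 1) (hβ : β % 4 = 1) (hs : v (σ ^ 2 - ((α + β + 5 : ℤ) : F)) < v 4) :
    Adm v α β := by
  intro a b ha hb g₁ g₂ r s t hr hs' ht hPL
  have ha4 : a % 4 = 1 := by omega
  have hb4 : b % 4 = 1 := by omega
  refine cls_of_one (b := b) ha4 (calB H h4 hres ha4 hb4 σ hσ ?_ g₁ g₂ r s t hr hs' ht hPL)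
  obtain ⟨k, hk⟩ : (8 : ℤ) ∣ (a + b + 5) - (α + β + 5) := by omega
  have e : σ ^ 2 - ((a + b + 5 : ℤ) : F) = (σ ^ 2 - ((α + β + 5 : ℤ) : F)) - 4 * (2 * (k : F)) := by
    have h1 : ((a + b + 5 : ℤ) : F) = ((α + β + 5 : ℤ) : F) + ((8 * k : ℤ) : F) := by
      rw [← Int.cast_add]
      congr 1
      omega
    rw [h1]
    push_cast
    ring
  rw [e]
  refine v.map_sub_lt hs ?_
  rw [map_mul]
  have h4' : 0 < v 4 := (Valuation.pos_iff v).2 (by norm_num)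
  refine mul_lt_of_lt_one_right h4' ?_
  rw [map_mul]
  exact mul_lt_one_of_nonneg_of_lt_one_left zero_le' H.two (int_le v k)

/-- Ramified quadratic extensions of the dyadic field. -/
theorem adm_ram (H : Unif v ϖ) (hres : ∀ u : F, v u ≤ 1 → v u < 1 ∨ v (u - 1) < 1) :
    Adm v 3 3 ∨ Adm v 1 1 ∨ Adm v 1 5 := by
  have hϖ0 := H.ne
  have hlt := H.lt
  have hres2 : ∀ u : F, v u ≤ 1 → v (u ^ 2 - u) < 1 := by
    intro u hu
    have e : u ^ 2 - u = u * (u - 1) := by ring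
    rw [e, map_mul]
    rcases hres u hu with h | h
    · exact mul_lt_one_of_nonneg_of_lt_one_left zero_le' h
        ((v.map_sub _ _).trans (max_le hu (by rw [map_one])))
    · exact mul_lt_one_of_nonneg_of_lt_one_right hu zero_le' h
  have hres4 : ∀ u : F, v u ≤ 1 → v (u ^ 4 - u) < 1 := by
    intro u hu
    have e : u ^ 4 - u = (u ^ 2 - u) * (u ^ 2 + u + 1) := by ring
    rw [e, map_mul]
    refine mul_lt_one_of_nonneg_of_lt_one_left zero_le' (hres2 u hu) ?_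
    exact (⟨u, hu⟩ ^ 2 + ⟨u, hu⟩ + 1 : v.integer).2
  -- `2 = ϖ ^ 2 υ`, `υ = 1 + ϖ ν`
  obtain ⟨υ, hυ⟩ : ∃ υ : F, υ = 2 / ϖ ^ 2 := ⟨_, rfl⟩
  have h2υ : (2 : F) = ϖ ^ 2 * υ := by
    rw [hυ, mul_div_cancel₀ _ (pow_ne_zero 2 hϖ0)]
  have hυ1 : v υ = 1 := by
    rw [hυ, map_div₀, map_pow, H.sq]
    exact div_self ((Valuation.ne_zero_iff v).2 two_ne_zero)
  have hυlt : v (υ - 1) < 1 := by
    rcases hres υ hυ1.le with h | h
    · rw [hυ1] at h
      exact absurd h (lt_irrefl _)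
    · exact h
  obtain ⟨ν, hν⟩ : ∃ ν : F, ν = (υ - 1) / ϖ := ⟨_, rfl⟩
  have hυν : υ = 1 + ϖ * ν := by
    rw [hν, mul_div_cancel₀ _ hϖ0]
    ring
  have hν1 : v ν ≤ 1 := by
    rw [hν]
    exact quot_le hϖ0 (H.uni _ hυlt)
  have hfour := H.four
  have h4pos : 0 < v 4 := (Valuation.pos_iff v).2 (by norm_num)
  rcases hres ν hν1 with h | h
  · -- type A
    left
    refine adm_A H ?_ hres4
    have e : ϖ ^ 2 - 2 = -(ϖ ^ 3 * ν) := by rw [h2υ, hυν]; ring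
    rw [e, Valuation.map_neg, map_mul, map_pow, hfour, pow_succ (v ϖ) 3]
    exact mul_le_mul_right (H.uni _ h) _
  · -- type B
    right
    have hB : v (ϖ ^ 2 + ϖ ^ 3 - 2) ≤ v 4 := by
      have e : ϖ ^ 2 + ϖ ^ 3 - 2 = -(ϖ ^ 3 * (ν - 1)) := by rw [h2υ, hυν]; ring
      rw [e, Valuation.map_neg, map_mul, map_pow, hfour, pow_succ (v ϖ) 3]
      exact mul_le_mul_right (H.uni _ h) _
    obtain ⟨κ, hκ⟩ : ∃ κ : F, κ = 1 / υ := ⟨_, rfl⟩
    have hυ0 : υ ≠ 0 := by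
      rintro rfl
      rw [map_zero] at hυ1
      exact zero_ne_one hυ1
    have hκυ : κ * υ = 1 := by rw [hκ]; field_simp
    have hκ1 : v κ = 1 := by rw [hκ, map_div₀, map_one, hυ1, div_one]
    -- `ν κ + 1 = ϖ c`
    obtain ⟨c, hc⟩ : ∃ c : F, c = (ν * κ + 1) / ϖ := ⟨_, rfl⟩
    have hcϖ : ϖ * c = ν * κ + 1 := by rw [hc, mul_div_cancel₀ _ hϖ0]
    have hc1 : v c ≤ 1 := by
      rw [hc]
      refine quot_le hϖ0 (H.uni _ ?_)
      have e : ν * κ + 1 = (ν - 1) * κ + (-(κ * (υ - 1)) + 2) := by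
        linear_combination hκυ
      rw [e]
      refine v.map_add_lt ?_ (v.map_add_lt ?_ H.two)
      · rw [map_mul, hκ1, mul_one]
        exact h
      · rw [Valuation.map_neg, map_mul, hκ1, one_mul]
        exact hυlt
    -- `σ = 1 - ϖ`, `σ ^ 2 = 3 - 4 κ c`
    have hσ1 : v (1 - ϖ) ≤ 1 :=
      (v.map_sub _ _).trans (max_le (by rw [map_one]) hlt.le)
    have hσ : (1 - ϖ) ^ 2 = 3 - 4 * (κ * c) := by
      have e1 : ϖ ^ 2 = 2 * κ := by
        linear_combination (-κ) * h2υ - ϖ ^ 2 * hκυ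
      have e2 : κ = 1 - ϖ * (ν * κ) := by
        linear_combination hκυ - κ * hυν
      have e3 : ν * κ = ϖ * c - 1 := by linear_combination -hcϖ
      rw [e3] at e2
      linear_combination (1 - 2 * c) * e1 + 2 * e2
    rcases hres c hc1 with h' | h'
    · right
      refine adm_B H hB hres2 (1 - ϖ) hσ1 (by norm_num) (by norm_num) ?_
      have e : (1 - ϖ) ^ 2 - (((1 + 5 + 5 : ℤ)) : F) = 4 * (-(κ * c) - 2) := by
        rw [hσ]
        push_cast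
        ring
      rw [e, map_mul]
      refine mul_lt_of_lt_one_right h4pos (v.map_sub_lt ?_ H.two)
      rw [Valuation.map_neg, map_mul, hκ1, one_mul]
      exact h'
    · left
      refine adm_B H hB hres2 (1 - ϖ) hσ1 (by norm_num) (by norm_num) ?_
      have e : (1 - ϖ) ^ 2 - (((1 + 1 + 5 : ℤ)) : F) = 4 * (-(κ * (c - 1)) + κ * (υ - 1) - 2) := by
        rw [hσ]
        push_cast
        linear_combination (-4) * hκυ
      rw [e, map_mul]
      refine mul_lt_of_lt_one_right h4pos (v.map_sub_lt (v.map_add_lt ?_ ?_) H.two)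
      · rw [Valuation.map_neg, map_mul, hκ1, one_mul]
        exact h'
      · rw [map_mul, hκ1, one_mul]
        exact hυlt

end types

end Pool.Agent.Helper10.RM
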